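import Pool.Agent.Zk22.Core
import Pool.Agent.Y254.HK.All
import Pool.Agent.Y254.HK.ExtG
import Pool.Agent.Y812.HK.LHG
import Pool.Agent.Y812.HK.LDG

/-!
# Assembly of the core inequalities; mixtures; the step of the iteration
-/

set_option autoImplicit false
set_option linter.unusedVariables false

open Finset
open scoped Classical

namespace Pool.Agent.Zk22
open Pool.Agent.W904.AK Pool.Agent.W46.HD Pool.Agent.W46.HM Pool.Agent.Y244.HM
  Pool.Agent.W597.HD Pool.Agent.Y254HK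

/-- All geometric facts, with a small cost. -/
theorem geoX : ∀ (d : ℕ) (ε : ℝ), 0 < ε → ∃ C : ℝ, 0 ≤ C ∧
    ∀ (n : ℕ) (Ω : Type) [Fintype Ω]
    (A D : Ω → Fin d → ℝ), IsFam n D → ∀ (p : Ω × Fin n → ℝ) (S : ℝ), IsLaw p → 0 ≤ S →
    ∀ (Θ : Type) (iΘ : Fintype Θ) (q : Θ → ℝ) (l1 l2 l3 : Θ → Ω) (s0 s1 t t' τ v : Θ → Fin n),
    CfgU A D p S q l1 l2 l3 s0 s1 t t' τ v →
    Geo A D q l1 l2 l3 s0 s1 t t' τ v (ε * Real.log n + C * (1 + S)) ∧
    FX A D q l1 l2 l3 s0 s1 t t' τ v (ε * Real.log n + C * (1 + S)) := by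
  intro d ε hε
  have hBOX := Pool.Agent.Y710.HK.t_box
  have hF9 := Pool.Agent.Y290.HK.t_f9 hBOX
  obtain ⟨C1, hC1, h1⟩ := geo_of Pool.Agent.Y721.HK.t_fa (Pool.Agent.Y37.HK.t_fb hBOX)
    (Pool.Agent.Y657.HK3.t_f3 hBOX) (Pool.Agent.Y141.HK.t_f4 hBOX) (Pool.Agent.Y290.HK.t_f6 hBOX)
    (Pool.Agent.Y971.HK.t_f8 hBOX) hF9
    (Pool.Agent.Y297HK.t_fcA Pool.Agent.Y899.HK.t_cord Pool.Agent.Y484.HK.t_plc)
    (Pool.Agent.Y297HK.t_fcB Pool.Agent.Y899.HK.t_cord Pool.Agent.Y484.HK.t_plc) d ε hε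
  obtain ⟨C2, hC2, h2⟩ := t_fx hBOX hF9 d ε hε
  refine ⟨C1 + C2, by positivity, ?_⟩
  intro n Ω _ A D hfam p S hp hS Θ iΘ q l1 l2 l3 s0 s1 t t' τ v hc
  have k1 : 0 ≤ C1 * (1 + S) := by positivity
  have k2 : 0 ≤ C2 * (1 + S) := by positivity
  have e : (C1 + C2) * (1 + S) = C1 * (1 + S) + C2 * (1 + S) := by ring
  refine ⟨(h1 n Ω A D hfam p S hp hS Θ iΘ q l1 l2 l3 s0 s1 t t' τ v hc).mono (by linarith), ?_⟩
  have h := h2 n Ω A D hfam p S hp Θ iΘ q l1 l2 l3 s0 s1 t t' τ v hc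
  unfold FX at h ⊢
  linarith

/-- The core of the hybrid. -/
theorem core_hyb {d : ℕ} {b G : ℝ} (hb : 1 < b) (hb2 : b ≤ 2) (hG0 : 0 ≤ G) (hE : AllX d b G) :
    CoreX d (b ^ 2 + 3 * b - 2) (3 * b - 1 - b ^ 2) (3 * b ^ 2 + 2 * b - 2)
      (2 * b ^ 2 + 4 * b - 2 + (3 * b - 1) * G) := by
  intro ε hε
  set Kc : ℝ := 20 * (G + 1) * 20 with hKc
  have hKc0 : 0 ≤ Kc := by positivity
  set ε0 : ℝ := ε / (2 * (Kc + 1)) with hε0
  have hε00 : 0 < ε0 := by positivity
  obtain ⟨CG, hCG, hG⟩ := geoX d ε0 hε00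
  obtain ⟨C0, hC0, hO⟩ := hE ε0 hε00
  refine ⟨Kc * (CG + C0), by positivity, ?_⟩
  intro n Ω _ A D hfam p hp S hsep hang
  have hS : 0 ≤ S := SepM_nonneg hp hsep
  have hn : 1 ≤ n := hfam.pos
  have hN : 0 ≤ Real.log n := Real.log_nonneg (by exact_mod_cast hn)
  have hc := cfgV (A := A) (D := D) hn hp hsep hang
  obtain ⟨hgeo, hfx⟩ := hG n Ω A D hfam p S hp hS _ _ _ _ _ _ _ _ _ _ _ _ hc.toCfgU
  have hor := hO n Ω A D hfam
  set E : ℝ := ε0 * Real.log n + CG * (1 + S) with hEdef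
  set F : ℝ := ε0 * Real.log n + C0 with hFdef
  have hE0 : 0 ≤ E := by positivity
  have hF0 : 0 ≤ F := by positivity
  obtain ⟨w3, w4, -, -⟩ := x_w hc hgeo hE0
  have a1 := x_a hc hgeo hE0 hb hG0 hor
  have b1 := x_b hc hgeo hfx hE0 hb hb2 hG0 hor
  have c1 := x_c hc hgeo hE0
  have hQ := x_q hc
  set e : ℝ := 20 * (E + F) with he
  have he0 : 0 ≤ e := by positivity
  have m1 : (2 * b + 10) * E + F ≤ e := by
    rw [he]
    have : (2 * b + 10) * E ≤ 14 * E := mul_le_mul_of_nonneg_right (by linarith) hE0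
    linarith
  have m3 : 3 * E ≤ e := by rw [he]; linarith
  have fin := core_algX hb hb2 hG0 he0 (a1.trans (by linarith)) (b1.trans (by linarith))
    (c1.trans (by linarith)) (hQ.trans (by linarith)) (w3.trans (by linarith))
    (w4.trans (by linarith))
  refine fin.trans ?_
  have h1 : 20 * (G + 1) * e = Kc * (E + F) := by
    rw [he, hKc]; ring
  rw [h1]
  have h2 := fin_err (CG := CG) hKc0 hε hN hS hC0
  linarith

/-- Wolff's inequality. -/
theorem core_wolff (d : ℕ) : CoreX d 1 1 2 2 := by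
  intro ε hε
  obtain ⟨CG, hCG, hG⟩ := geoX d (ε / 2) (by linarith)
  refine ⟨2 * CG, by positivity, ?_⟩
  intro n Ω _ A D hfam p hp S hsep hang
  have hS : 0 ≤ S := SepM_nonneg hp hsep
  have hn : 1 ≤ n := hfam.pos
  have hN : 0 ≤ Real.log n := Real.log_nonneg (by exact_mod_cast hn)
  have hc := cfgV (A := A) (D := D) hn hp hsep hang
  obtain ⟨hgeo, hfx⟩ := hG n Ω A D hfam p S hp hS _ _ _ _ _ _ _ _ _ _ _ _ hc.toCfgU
  have h := x_wolff hc hgeo (by positivity)
  linarith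

/-- Mixtures. -/
theorem CoreX.mix {d : ℕ} {M Γ P K M' Γ' P' K' : ℝ} (h : CoreX d M Γ P K)
    (h' : CoreX d M' Γ' P' K') {w : ℝ} (hw : 0 ≤ w) :
    CoreX d (M + w * M') (Γ + w * Γ') (P + w * P') (K + w * K') := by
  intro ε hε
  obtain ⟨C, hC, h⟩ := h (ε / 2) (by linarith)
  obtain ⟨C', hC', h'⟩ := h' (ε / (2 * (w + 1))) (by positivity)
  refine ⟨C + w * C', by positivity, ?_⟩
  intro n Ω _ A D hfam p hp S hsep hang
  have hN : 0 ≤ Real.log n := Real.log_nonneg (by exact_mod_cast hfam.pos)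
  have h1 := h n Ω A D hfam p hp S hsep hang
  have h2 := mul_le_mul_of_nonneg_left (h' n Ω A D hfam p hp S hsep hang) hw
  have h3 : w * (ε / (2 * (w + 1))) ≤ ε / 2 := by
    have e1 : w * (ε / (2 * (w + 1))) = (w / (w + 1)) * (ε / 2) := by field_simp
    have e2 : w / (w + 1) ≤ 1 := by
      rw [div_le_one (by linarith)]; linarith
    rw [e1]
    nlinarith
  have h4 := mul_le_mul_of_nonneg_right h3 hN
  have e1 : w * (M' * aa p + Γ' * Real.log n) = w * M' * aa p + w * Γ' * Real.log n := by ring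
  have e2 : w * (P' * gp A D p + K' * lam p + ε / (2 * (w + 1)) * Real.log n + C' * (1 + S)) =
      w * P' * gp A D p + w * K' * lam p + w * (ε / (2 * (w + 1))) * Real.log n +
        w * C' * (1 + S) := by ring
  rw [e1, e2] at h2
  have e3 : (M + w * M') * aa p = M * aa p + w * M' * aa p := by ring
  have e4 : (Γ + w * Γ') * Real.log n = Γ * Real.log n + w * Γ' * Real.log n := by ring
  have e5 : (P + w * P') * gp A D p = P * gp A D p + w * P' * gp A D p := by ring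
  have e6 : (K + w * K') * lam p = K * lam p + w * K' * lam p := by ring
  have e7 : (C + w * C') * (1 + S) = C * (1 + S) + w * C' * (1 + S) := by ring
  rw [e3, e4, e5, e6, e7]
  linarith

section basic

variable {Ω : Type} [Fintype Ω] {d n : ℕ} {A D : Ω → Fin d → ℝ} {p : Ω × Fin n → ℝ}

theorem gp_nonneg (hp : IsLaw p) : 0 ≤ gp A D p := by
  unfold gp
  have h1 := hh_nonneg (A := A) (D := D) hp
  have h2 := mi_nonneg hp
  linarith

theorem gp_le_aa (hp : IsLaw p) : gp A D p ≤ aa p := by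
  rw [gp_eq]
  unfold aa
  have h1 := H_mono hp (f := (id : Ω × Fin n → Ω × Fin n))
    (g := fun z : Ω × Fin n => (z.2, cell A D z.2 z.1))
    (by intro x y _ _ h; have h' : x = y := h; rw [h'])
  linarith

end basic

/-- One step of the iteration, from a core inequality. -/
theorem stepX {d : ℕ} {M Γ P K G : ℝ} (hd : 1 ≤ d) (hM : 1 ≤ M) (hΓ : 0 ≤ Γ)
    (hK : K ≤ G * (M + Γ / d)) (h : CoreX d M Γ P K) :
    AllXB d (P / (M + Γ / d)) G := by
  have hd0 : (0 : ℝ) < d := by exact_mod_cast hd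
  set M' : ℝ := M + Γ / d with hM'
  have hΓd : 0 ≤ Γ / d := by positivity
  have hM'1 : 1 ≤ M' := by rw [hM']; linarith
  have hM'0 : 0 < M' := by linarith
  intro ε hε
  obtain ⟨C, hC, h⟩ := h ε hε
  refine ⟨C + Γ, by positivity, ?_⟩
  intro n Ω _ A D hfam p hp S hsep hang
  have hS : 0 ≤ S := SepM_nonneg hp hsep
  have hN : 0 ≤ Real.log n := Real.log_nonneg (by exact_mod_cast hfam.pos)
  have h1 := h n Ω A D hfam p hp S hsep hang
  have h2 := aa_le hfam hp
  have h3 : (Γ / d) * aa p ≤ (Γ / d) * (d * (1 + Real.log n)) :=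
    mul_le_mul_of_nonneg_left h2 hΓd
  have h4 : (Γ / d) * (d * (1 + Real.log n)) = Γ * (1 + Real.log n) := by
    field_simp
  have hl := lam_nonneg hfam.pos hp
  have h5 : K * lam p ≤ (G * M') * lam p := mul_le_mul_of_nonneg_right hK hl
  have h6 : M' * aa p ≤ P * gp A D p + (G * M') * lam p + ε * Real.log n + (C + Γ) * (1 + S) := by
    have e : M' * aa p = M * aa p + (Γ / d) * aa p := by rw [hM']; ring
    have e2 : (C + Γ) * (1 + S) = C * (1 + S) + Γ + Γ * S := by ring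
    have e3 : 0 ≤ Γ * S := by positivity
    rw [e, e2]
    linarith
  have h7 : aa p = (M' * aa p) / M' := by field_simp
  have h8 : (M' * aa p) / M' ≤
      (P * gp A D p + (G * M') * lam p + ε * Real.log n + (C + Γ) * (1 + S)) / M' :=
    div_le_div_of_nonneg_right h6 hM'0.le
  have h9 : (P * gp A D p + (G * M') * lam p + ε * Real.log n + (C + Γ) * (1 + S)) / M' =
      P / M' * gp A D p + G * lam p + (ε * Real.log n + (C + Γ) * (1 + S)) / M' := by
    field_simp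
    ring
  have h10 : (ε * Real.log n + (C + Γ) * (1 + S)) / M' ≤
      ε * Real.log n + (C + Γ) * (1 + S) := by
    apply div_le_self _ hM'1
    positivity
  rw [h7]
  linarith

end Pool.Agent.Zk22
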