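import Pool.Agent.Zk22.Stm
import Pool.Agent.Y624.HK.CFGU

/-!
# Existence of the configuration with exact entropies
-/

set_option autoImplicit false

open Finset
open scoped Classical

namespace Pool.Agent.Zk22
open Pool.Agent.W904.AK Pool.Agent.W46.HD Pool.Agent.W46.HM Pool.Agent.W597.HD
  Pool.Agent.W135.HM Pool.Agent.Y254HK Pool.Agent.Y624.HK

section cfg

variable {Ω : Type} [Fintype Ω] {d n : ℕ} {p : Ω × Fin n → ℝ} {A D : Ω → Fin d → ℝ}

theorem cfgU (hn : 1 ≤ n) (hp : IsLaw p) {S : ℝ} (hS : SepM p S) (hang : ang A D p ≤ S) :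
    CfgU A D p S (qq A D p)
    (fun z => z.1.1.1.1.1) (fun z => z.1.2.1.1.1) (fun z => z.2.1.1) (fun z => z.1.1.1.1.2)
    (fun z => z.1.1.1.2.2) (fun z => z.1.1.2.2) (fun z => z.2.2.2) (fun z => z.1.2.1.2.2)
    (fun z => z.1.2.2.2) := by
  obtain ⟨s, hs, hsS⟩ := hS
  have hs0 : ∀ ω, 0 ≤ s ω := fun ω => le_trans (Finset.sum_nonneg fun j _ =>
    mul_nonneg (hp.nonneg _) (pz_nonneg _ _ _)) (hs ω 0)
  have hq : IsLaw (qq A D p) := qq_law hp
  have hce : H p (ce A D) = hh A D p + H p Prod.snd := by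
    unfold hh
    have : H p (ce A D) = H p (fun z => (z.2, cell A D z.2 z.1)) := rfl
    rw [this]
    ring
  have hlog := Hlog hp
  have hpid : H p id = aa p + (Real.log n - lam p) := by
    unfold aa lam
    ring
  have haa : H p Prod.fst = aa p := rfl
  have hr2 := H_r2 hp
  rw [haa] at hr2
  refine ⟨cfgT hp, ?_, ?_, ?_, ?_, ?_, ?_, ?_⟩
  · -- pq
    set w := glue (r2 p) (r2 p) (fun z => ce A D z.1) (fun z => ce A D z.1) with hw
    have hwl : IsLaw w := glue_law (r2_law hp) (r2_law hp) fun _ => rfl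
    have hΦ : im (qq A D p) (fun z => ((z.1.1.1.2, z.1.1.1.1), (z.1.2.1.1, z.1.2.2))) = w := by
      rw [im_im (qq A D p) Prod.fst (fun a => ((a.1.1.2, a.1.1.1), (a.2.1.1, a.2.2))), qq_fst hp]
      have h := im_glue (r3 p) (r3 p) (fun x => (x.1.2, x.1.1)) (fun y => (y.1.1, y.2))
        (fun z : (Ω × Fin n) × (Ω × Fin n) => ce A D z.1)
        (fun z : (Ω × Fin n) × (Ω × Fin n) => ce A D z.1)
      rw [r3_21 hp, r3_13 hp] at h
      exact h
    have hΨ : im (qq A D p) (fun z => ((z.1.1.1.1, z.1.1.2), z.2)) = w := by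
      have h := im_glue (qA A D p) (r2 p) (fun a => (a.1.1.1, a.1.2)) (fun y => y)
        (fun z : (Ω × Fin n) × (Ω × Fin n) => ce A D z.1)
        (fun z : (Ω × Fin n) × (Ω × Fin n) => ce A D z.1)
      rw [im_im (qA A D p) Prod.fst (fun z => (z.1.1, z.2)), qA_fst hp, r3_13 hp, im_id] at h
      exact h
    have hs' : ∀ y, w y ≠ 0 → y.1.1.1 = y.1.2.1 := by
      intro y hy
      exact (glue_supp (glue_supp hy).2.1).1
    have l1 : H (qq A D p) (fun z => (z.1.1.1.1.2, z.1.2.2.2,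
        cell A D z.1.1.1.1.2 z.1.1.1.1.1, cell A D z.1.2.2.2 z.1.2.1.1.1)) =
        H w (fun y => (y.1.2.2, y.2.2.2, cell A D y.1.2.2 y.1.2.1,
          cell A D y.2.2.2 y.2.1.1)) :=
      H_map hΦ (fun y => (y.1.2.2, y.2.2.2, cell A D y.1.2.2 y.1.2.1,
          cell A D y.2.2.2 y.2.1.1))
    have r1 : H (qq A D p) (fun z => (z.1.1.2.2, z.2.2.2,
        cell A D z.1.1.2.2 z.1.1.1.1.1, cell A D z.2.2.2 z.2.1.1)) =
        H w (fun y => (y.1.2.2, y.2.2.2, cell A D y.1.2.2 y.1.1.1,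
          cell A D y.2.2.2 y.2.1.1)) :=
      H_map hΨ (fun y => (y.1.2.2, y.2.2.2, cell A D y.1.2.2 y.1.1.1,
          cell A D y.2.2.2 y.2.1.1))
    have c1 : H w (fun y => (y.1.2.2, y.2.2.2, cell A D y.1.2.2 y.1.2.1,
          cell A D y.2.2.2 y.2.1.1)) = H w (fun y => (y.1.2.2, y.2.2.2,
            cell A D y.1.2.2 y.1.1.1, cell A D y.2.2.2 y.2.1.1)) := by
      refine H_ae hwl fun y hy => ?_
      rw [hs' y hy]
    exact l1.trans (c1.trans r1.symm)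
  · -- mar2
    have h1 := H_pair (A := A) (D := D) hp (u := fun a => (a.1.1.1.2, a.2.2.2,
      cell A D a.1.1.1.2 a.1.1.1.1, cell A D a.2.2.2 a.2.1.1.1)) (v := fun y => y.1)
      (Det.comp (qA A D p) (fun a => (a.1.1.1.2, a.2.2.2,
      cell A D a.1.1.1.2 a.1.1.1.1, cell A D a.2.2.2 a.2.1.1.1)) fun b => (b.1, b.2.2.1))
      (Det.comp (r2 p) (fun y => y.1) fun b => ce A D b)
    have h2 : H (qq A D p) (fun z => (z.1.1.1.1.2, z.1.2.2.2,
      cell A D z.1.1.1.1.2 z.1.1.1.1.1, cell A D z.1.2.2.2 z.1.2.1.1.1)) =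
      H (qA A D p) (fun a => (a.1.1.1.2, a.2.2.2,
      cell A D a.1.1.1.2 a.1.1.1.1, cell A D a.2.2.2 a.2.1.1.1)) :=
      H_map (qq_fst hp) (fun a => (a.1.1.1.2, a.2.2.2,
      cell A D a.1.1.1.2 a.1.1.1.1, cell A D a.2.2.2 a.2.1.1.1))
    rw [H_r2_fst hp] at h1
    have h3 : Det (qq A D p) (fun z => (z.1.1.1.1.2, z.1.2.2.2,
        cell A D z.1.2.2.2 z.1.2.1.1.1, z.2.1.1))
        (fun z => ((z.1.1.1.1.2, z.1.2.2.2,
          cell A D z.1.1.1.1.2 z.1.1.1.1.1, cell A D z.1.2.2.2 z.1.2.1.1.1), z.2.1)) := by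
      intro x y hx hy hxy
      obtain ⟨⟨x1, x2⟩, ⟨x3, x4⟩, x5, ⟨x6, -⟩, ⟨x7, x8⟩⟩ := qq_supp hx
      obtain ⟨⟨y1, y2⟩, ⟨y3, y4⟩, y5, ⟨y6, -⟩, ⟨y7, y8⟩⟩ := qq_supp hy
      simp only [Prod.mk.injEq] at hxy
      obtain ⟨e1, e3, e4, e5⟩ := hxy
      refine Prod.ext (Prod.ext e1 (Prod.ext e3 (Prod.ext ?_ e4)))
        (Prod.ext e5 ?_)
      · show cell A D x.1.1.1.1.2 x.1.1.1.1.1 = cell A D y.1.1.1.1.2 y.1.1.1.1.1
        rw [x8, y8, e1, e5]
      · exact x7.trans (e1.trans y7.symm)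
    have h4 := H_mono hq h3
    refine le_trans ?_ h4
    rw [h1, h2]
    linarith
  · -- f5
    have h1 := H_pair (A := A) (D := D) hp (u := fun a => a.1.1.1) (v := fun y => y.1)
      (Det.comp (qA A D p) (fun a => a.1.1.1) fun b => ce A D b)
      (Det.comp (r2 p) (fun y => y.1) fun b => ce A D b)
    have h2 : H (qA A D p) (fun a => a.1.1.1) = H p id := by
      rw [← H_r3_11 hp]
      exact H_map (qA_fst hp) (fun a => a.1.1)
    rw [H_r2_fst hp, h2] at h1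
    have p1 := H_pair (A := A) (D := D) hp (u := fun a => a.1.1) (v := fun y => y.1)
      (Det.comp (qA A D p) (fun a => a.1.1) fun b => ce A D b.1)
      (Det.comp (r2 p) (fun y => y.1) fun b => ce A D b)
    have p2 : H (qA A D p) (fun a => a.1.1) = H (r2 p) (fun z => z) := by
      rw [← H_r3_fst hp]
      exact H_map (qA_fst hp) (fun a => a.1)
    rw [H_r2_fst hp, p2] at p1
    have h3 : Det (qq A D p) (fun z => (z.1.1.1.1.1, z.2.1.1, z.1.1.1.1.2, z.1.1.1.2.2))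
        (fun z => (z.1.1.1, z.2.1)) := by
      intro x y hx hy hxy
      obtain ⟨⟨x1, x2⟩, ⟨x3, x4⟩, x5, ⟨x6, -⟩, ⟨x7, -⟩⟩ := qq_supp hx
      obtain ⟨⟨y1, y2⟩, ⟨y3, y4⟩, y5, ⟨y6, -⟩, ⟨y7, -⟩⟩ := qq_supp hy
      simp only [Prod.mk.injEq] at hxy
      obtain ⟨e1, e2, e3, e4⟩ := hxy
      refine Prod.ext (Prod.ext (Prod.ext e1 e3) (Prod.ext ?_ e4)) (Prod.ext e2 ?_)
      · exact x1.trans (e1.trans y1.symm)
      · exact x7.trans (e3.trans y7.symm)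
    have h4 := H_mono hq h3
    have h5 := H_mono hq (Det.comp (qq A D p) (fun z => (z.1.1.1.1, z.2.1))
      fun b => (b.1.1, b.2.1, b.1.2))
    rw [p1] at h4
    rw [h1] at h5
    have h6 : H (qq A D p) (fun z => (z.1.1.1.1.1, z.2.1.1, z.1.1.1.1.2)) ≤
      H p id + H p id - H p (ce A D) := h5
    linarith
  · -- sep_le
    have h1 : sep p ≤ ∑ z, r2 p z * pz n ((z.2.2 : ℕ) : ℤ) ((z.1.2 : ℕ) : ℤ) := by
      unfold sep
      refine Finset.sum_le_sum fun z _ => ?_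
      exact mul_le_mul_of_nonneg_left (psi_le_pz hn _ _) ((r2_law hp).nonneg z)
    refine h1.trans ?_
    exact BdI.use hs0 hsS (bd_base hp hs hp Prod.fst) (r2_snd hp) (fun i => ((i.2 : ℕ) : ℤ))
  · -- a13
    have h := im_glue (qA A D p) (r2 p) (fun a => a.1.1.1) (fun y => y.1) (ce A D) (ce A D)
    rw [im_im (qA A D p) Prod.fst (fun a => a.1.1), qA_fst hp, r3_1 hp, r2_fst hp] at h
    have h2 := sum_im_mul (qq A D p) (fun z => (z.1.1.1.1, z.2.1))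
      (fun y => dz n D y.1.1 y.2.1)
    have h3 : im (qq A D p) (fun z => (z.1.1.1.1, z.2.1)) = glue p p (ce A D) (ce A D) := h
    rw [h3] at h2
    refine le_trans (le_of_eq h2.symm) hang
  · exact BdI.use hs0 hsS (bd_t hp hs) (m_t hp) (fun i => ((i.2.2.2 : ℕ) : ℤ))
  · intro x
    exact BdI.use hs0 hsS (bd_tau hp hs) (m_ta hp)
      (fun i => x i.1.1.1.1.2 i.1.1.1.2.2 i.1.1.2.2 i.2.2.2)

/-- entropy of a point -/
theorem H_pt (hp : IsLaw p) {φ : ((((Ω × Fin n) × (Ω × Fin n)) × (Ω × Fin n)) ×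
      (((Ω × Fin n) × (Ω × Fin n)) × (Ω × Fin n))) × ((Ω × Fin n) × (Ω × Fin n)) → Ω × Fin n}
    (hφ : im (qq A D p) φ = p) {f : ((((Ω × Fin n) × (Ω × Fin n)) × (Ω × Fin n)) ×
      (((Ω × Fin n) × (Ω × Fin n)) × (Ω × Fin n))) × ((Ω × Fin n) × (Ω × Fin n)) → Fin n}
    {l : ((((Ω × Fin n) × (Ω × Fin n)) × (Ω × Fin n)) ×
      (((Ω × Fin n) × (Ω × Fin n)) × (Ω × Fin n))) × ((Ω × Fin n) × (Ω × Fin n)) → Ω}
    (h1 : ∀ z, qq A D p z ≠ 0 → (φ z).2 = f z) (h2 : ∀ z, qq A D p z ≠ 0 → (φ z).1 = l z) :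
    H (qq A D p) (fun z => (f z, cell A D (f z) (l z))) = gp A D p + (Real.log n - lam p) := by
  have e1 : H (qq A D p) (fun z => (f z, cell A D (f z) (l z))) =
      H (qq A D p) (fun z => ce A D (φ z)) := by
    refine H_ae (qq_law hp) fun z hz => ?_
    unfold ce
    rw [h1 z hz, h2 z hz]
  rw [e1, H_map hφ (ce A D), gp_eq]
  unfold lam
  have : H p (ce A D) = H p (fun z => (z.2, cell A D z.2 z.1)) := rfl
  rw [this]
  ring

theorem cfgV (hn : 1 ≤ n) (hp : IsLaw p) {S : ℝ} (hS : SepM p S) (hang : ang A D p ≤ S) :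
    CfgV A D p S (qq A D p)
    (fun z => z.1.1.1.1.1) (fun z => z.1.2.1.1.1) (fun z => z.2.1.1) (fun z => z.1.1.1.1.2)
    (fun z => z.1.1.1.2.2) (fun z => z.1.1.2.2) (fun z => z.2.2.2) (fun z => z.1.2.1.2.2)
    (fun z => z.1.2.2.2) := by
  have hq : IsLaw (qq A D p) := qq_law hp
  have hpid : H p id = aa p + (Real.log n - lam p) := by
    unfold aa lam
    ring
  have hce : H p (ce A D) = gp A D p + (Real.log n - lam p) := by
    rw [gp_eq]
    unfold lam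
    have : H p (ce A D) = H p (fun z => (z.2, cell A D z.2 z.1)) := rfl
    rw [this]
    ring
  have haa : H p Prod.fst = aa p := rfl
  have hr2 := H_r2 hp
  have hr3 := H_r3 hp
  rw [haa] at hr2 hr3
  have m_s1 : im (qq A D p) (fun z => z.1.1.1.2) = p := by
    rw [im_im (qq A D p) (fun z => z.1.1) (fun z => z.1.2), qq_1 hp, r3_2 hp]
  have m_l3 : im (qq A D p) (fun z => z.2.1) = p := by
    rw [im_im (qq A D p) Prod.snd Prod.fst, qq_snd hp, r2_fst hp]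
  -- the pair of lines with one height
  have h1 := H_pair (A := A) (D := D) hp (u := fun a => a.1.1.1) (v := fun y => y.1)
    (Det.comp (qA A D p) (fun a => a.1.1.1) fun b => ce A D b)
    (Det.comp (r2 p) (fun y => y.1) fun b => ce A D b)
  have h2 : H (qA A D p) (fun a => a.1.1.1) = H p id := by
    rw [← H_r3_11 hp]
    exact H_map (qA_fst hp) (fun a => a.1.1)
  rw [H_r2_fst hp, h2] at h1
  -- the pair of lines `l1, l3`
  have p1 := H_pair (A := A) (D := D) hp (u := fun a => a.1.1) (v := fun y => y.1)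
    (Det.comp (qA A D p) (fun a => a.1.1) fun b => ce A D b.1)
    (Det.comp (r2 p) (fun y => y.1) fun b => ce A D b)
  have p2 : H (qA A D p) (fun a => a.1.1) = H (r2 p) (fun z => z) := by
    rw [← H_r3_fst hp]
    exact H_map (qA_fst hp) (fun a => a.1)
  rw [H_r2_fst hp, p2] at p1
  -- three lines
  have p5 := H_pair (A := A) (D := D) hp (u := fun a => (a.1.1, (a.2.1.1, a.2.2)))
    (v := fun y => y.1)
    (Det.comp (qA A D p) (fun a => (a.1.1, (a.2.1.1, a.2.2))) fun b => ce A D b.1.1)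
    (Det.comp (r2 p) (fun y => y.1) fun b => ce A D b)
  have p6 := H_pairA (A := A) (D := D) hp (u := fun a => a.1) (w := fun y => (y.1.1, y.2))
    (Det.comp (r3 p) (fun a => a.1) fun b => ce A D b.2)
    (Det.comp (r3 p) (fun y => (y.1.1, y.2)) fun b => ce A D b.1)
  rw [H_r3_fst hp, H_r3_13 hp] at p6
  rw [H_r2_fst hp, p6] at p5
  refine ⟨cfgU hn hp hS hang, ?_, ?_, ?_, ?_, ?_, ?_, ?_, ?_, ?_, ?_, ?_⟩
  · exact H_pt hp (m_t hp) (fun z _ => rfl) (fun z hz => (qq_supp hz).1.2)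
  · exact H_pt hp (m_t' hp) (fun z _ => rfl) (fun z hz => (qq_supp hz).2.2.1)
  · exact H_pt hp (m_ta hp) (fun z _ => rfl) (fun z hz => (qq_supp hz).2.1.1)
  · exact H_pt hp (m_v hp) (fun z _ => rfl) (fun z hz => (qq_supp hz).2.1.2)
  · exact H_pt hp m_s1 (fun z _ => rfl) (fun z hz => (qq_supp hz).1.1)
  · exact H_map m_l3 Prod.fst
  · -- e0
    have h3 : Det (qq A D p) (fun z => (z.1.1.1.1.1, z.2.1.1, z.1.1.1.1.2))
        (fun z => (z.1.1.1.1, z.2.1)) := by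
      intro x y hx hy hxy
      obtain ⟨⟨x1, x2⟩, ⟨x3, x4⟩, x5, ⟨x6, -⟩, ⟨x7, -⟩⟩ := qq_supp hx
      obtain ⟨⟨y1, y2⟩, ⟨y3, y4⟩, y5, ⟨y6, -⟩, ⟨y7, -⟩⟩ := qq_supp hy
      simp only [Prod.mk.injEq] at hxy
      obtain ⟨e1, e2, e3⟩ := hxy
      exact Prod.ext (Prod.ext e1 e3) (Prod.ext e2 (x7.trans (e3.trans y7.symm)))
    have h4 := H_mono hq h3
    have h5 : H (qq A D p) (fun z => (z.1.1.1.1, z.2.1)) =
      H p id + H p id - H p (ce A D) := h1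
    linarith
  · -- e1
    have h3 : Det (qq A D p) (fun z => (z.1.1.1.1.1, z.2.1.1, z.1.1.1.1.2, z.1.1.1.2.2))
        (fun z => (z.1.1.1, z.2.1)) := by
      intro x y hx hy hxy
      obtain ⟨⟨x1, x2⟩, ⟨x3, x4⟩, x5, ⟨x6, -⟩, ⟨x7, -⟩⟩ := qq_supp hx
      obtain ⟨⟨y1, y2⟩, ⟨y3, y4⟩, y5, ⟨y6, -⟩, ⟨y7, -⟩⟩ := qq_supp hy
      simp only [Prod.mk.injEq] at hxy
      obtain ⟨e1, e2, e3, e4⟩ := hxy
      refine Prod.ext (Prod.ext (Prod.ext e1 e3) (Prod.ext ?_ e4)) (Prod.ext e2 ?_)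
      · exact x1.trans (e1.trans y1.symm)
      · exact x7.trans (e3.trans y7.symm)
    have h4 := H_mono hq h3
    rw [p1] at h4
    linarith
  · -- e4
    have h3 : Det (qq A D p) (fun z => (z.1.1.1.1.1, z.1.2.1.1.1, z.2.1.1, z.1.1.1.1.2,
        z.1.1.1.2.2, z.1.2.2.2)) (fun z => ((z.1.1.1, (z.1.2.1.1, z.1.2.2)), z.2.1)) := by
      intro x y hx hy hxy
      obtain ⟨⟨x1, x2⟩, ⟨x3, x4⟩, x5, ⟨x6, -⟩, ⟨x7, -⟩⟩ := qq_supp hx
      obtain ⟨⟨y1, y2⟩, ⟨y3, y4⟩, y5, ⟨y6, -⟩, ⟨y7, -⟩⟩ := qq_supp hy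
      simp only [Prod.mk.injEq] at hxy
      obtain ⟨e1, e2, e3, e4, e5, e6⟩ := hxy
      refine Prod.ext (Prod.ext (Prod.ext (Prod.ext e1 e4) (Prod.ext ?_ e5))
        (Prod.ext (Prod.ext e2 ?_) (Prod.ext ?_ e6))) (Prod.ext e3 ?_)
      · exact x1.trans (e1.trans y1.symm)
      · exact x6.trans (e5.trans y6.symm)
      · exact x4.trans (e2.trans y4.symm)
      · exact x7.trans (e4.trans y7.symm)
    have h4 := H_mono hq h3
    rw [p5] at h4
    linarith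
  · -- mar3
    have h1 := H_pair (A := A) (D := D) hp (u := fun a => (a.1.1.1.2, a.2.2.2,
      cell A D a.1.1.1.2 a.1.1.1.1, cell A D a.2.2.2 a.2.1.1.1)) (v := fun y => y.1)
      (Det.comp (qA A D p) (fun a => (a.1.1.1.2, a.2.2.2,
      cell A D a.1.1.1.2 a.1.1.1.1, cell A D a.2.2.2 a.2.1.1.1)) fun b => (b.1, b.2.2.1))
      (Det.comp (r2 p) (fun y => y.1) fun b => ce A D b)
    have h2 : H (qq A D p) (fun z => (z.1.1.1.1.2, z.1.2.2.2,
      cell A D z.1.1.1.1.2 z.1.1.1.1.1, cell A D z.1.2.2.2 z.1.2.1.1.1)) =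
      H (qA A D p) (fun a => (a.1.1.1.2, a.2.2.2,
      cell A D a.1.1.1.2 a.1.1.1.1, cell A D a.2.2.2 a.2.1.1.1)) :=
      H_map (qq_fst hp) (fun a => (a.1.1.1.2, a.2.2.2,
      cell A D a.1.1.1.2 a.1.1.1.1, cell A D a.2.2.2 a.2.1.1.1))
    rw [H_r2_fst hp] at h1
    have h3 : Det (qq A D p) (fun z => (z.1.1.1.1.2, z.1.2.2.2,
        cell A D z.1.2.2.2 z.1.2.1.1.1, z.2.1.1))
        (fun z => ((z.1.1.1.1.2, z.1.2.2.2,
          cell A D z.1.1.1.1.2 z.1.1.1.1.1, cell A D z.1.2.2.2 z.1.2.1.1.1), z.2.1)) := by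
      intro x y hx hy hxy
      obtain ⟨⟨x1, x2⟩, ⟨x3, x4⟩, x5, ⟨x6, -⟩, ⟨x7, x8⟩⟩ := qq_supp hx
      obtain ⟨⟨y1, y2⟩, ⟨y3, y4⟩, y5, ⟨y6, -⟩, ⟨y7, y8⟩⟩ := qq_supp hy
      simp only [Prod.mk.injEq] at hxy
      obtain ⟨e1, e3, e4, e5⟩ := hxy
      refine Prod.ext (Prod.ext e1 (Prod.ext e3 (Prod.ext ?_ e4)))
        (Prod.ext e5 ?_)
      · show cell A D x.1.1.1.1.2 x.1.1.1.1.1 = cell A D y.1.1.1.1.2 y.1.1.1.1.1
        rw [x8, y8, e1, e5]
      · exact x7.trans (e1.trans y7.symm)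
    have h4 := H_mono hq h3
    refine le_trans ?_ h4
    rw [h1, h2]
    linarith
  · -- sl
    have h3 : H (qq A D p) (fun z => (z.2.1.1, z.1.1.1.1.2)) = H (qq A D p) (fun z => z.2.1) := by
      refine H_ae hq fun z hz => ?_
      exact Prod.ext rfl (qq_supp hz).2.2.2.2.1.symm
    have h4 : H (qq A D p) (fun z => z.2.1) = H p id := H_map m_l3 id
    rw [h3, h4, hpid]

end cfg

end Pool.Agent.Zk22
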