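import Pool.Agent.Zk22.Stm
import Pool.Agent.Zk22.Cfg
import Pool.Agent.Zk22.FX
import Pool.Agent.Y254.HK.Core2
import Pool.Agent.Y638.HK.B2C1

/-!
# The entropy inequalities of the configuration, with the sharp deficiencies
-/

set_option autoImplicit false
set_option linter.unusedVariables false

open Finset
open scoped Classical

namespace Pool.Agent.Zk22
open Pool.Agent.W904.AK Pool.Agent.W46.HD Pool.Agent.W46.HM Pool.Agent.Y244.HM
  Pool.Agent.W597.HD Pool.Agent.Y254HK Pool.Agent.Y638.HK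

section main

variable {Ω : Type} [Fintype Ω] {d n : ℕ} {A D : Ω → Fin d → ℝ} {p : Ω × Fin n → ℝ} {S : ℝ}
  {Θ : Type} [Fintype Θ] {q : Θ → ℝ} {l1 l2 l3 : Θ → Ω} {s0 s1 t t' τ v : Θ → Fin n}
  {E b G C0 : ℝ}

/-- The deficiencies and the sizes of the configuration. -/
theorem x_w (hc : CfgV A D p S q l1 l2 l3 s0 s1 t t' τ v)
    (hg : Geo A D q l1 l2 l3 s0 s1 t t' τ v E) (hE : 0 ≤ E) :
    wT q l1 l3 s0 s1 t t' ≤ 2 * lam p + 3 * E ∧
    wT q l1 l3 s0 s1 t t' + wG q l1 l2 l3 s0 s1 t t' τ v ≤ 3 * lam p + 3 * E ∧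
    2 * aa p - gp A D p + 3 * Real.log n - 4 * lam p + wT q l1 l3 s0 s1 t t' ≤
      H q (fun z => (l1 z, l3 z, s0 z, s1 z, YY s0 s1 t t' z)) + 3 * E ∧
    3 * aa p - 2 * gp A D p + 4 * Real.log n - 6 * lam p + wT q l1 l3 s0 s1 t t' +
      wG q l1 l2 l3 s0 s1 t t' τ v ≤
      H q (fun z => (l1 z, l2 z, l3 z, s0 z, s1 z, v z, MM s0 s1 t t' τ v z)) + 3 * E := by
  have hq := hc.law
  have ha := hg.fa
  obtain ⟨Y, hY⟩ : ∃ Y : Θ → ℤ, Y = YY s0 s1 t t' := ⟨_, rfl⟩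
  obtain ⟨M, hM⟩ : ∃ M : Θ → ℤ, M = MM s0 s1 t t' τ v := ⟨_, rfl⟩
  have hwT : wT q l1 l3 s0 s1 t t' = Real.log n -
      (H q (fun z => (l1 z, l3 z, s0 z, s1 z, Y z, t z)) -
        H q (fun z => (l1 z, l3 z, s0 z, s1 z, Y z))) := by
    rw [hY]
    rfl
  have hwG : wG q l1 l2 l3 s0 s1 t t' τ v = Real.log n -
      (H q (fun z => (l1 z, l2 z, l3 z, s0 z, s1 z, v z, M z, τ z)) -
        H q (fun z => (l1 z, l2 z, l3 z, s0 z, s1 z, v z, M z))) := by
    rw [hM]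
    rfl
  have g6 := ha.g6
  have g5 := ha.g5
  have sy := ha.sy
  have sm := ha.sm
  rw [← hY] at g6 g5 sy
  rw [← hM] at g5 sm
  have f1 := hc.f1
  have f2 := hc.e1
  have f3 := hc.f3
  have f4 := hc.e4
  -- the sizes
  have a3 : H q (fun z => (l1 z, l3 z, s0 z, s1 z, Y z)) ≤
      H q (fun z => (l1 z, l3 z, s0 z, s1 z)) + H q Y :=
    subadd hq (by intro x y _ _ h; simp only [Prod.mk.injEq] at h ⊢; tauto)
  have a4 : H q (fun z => (l1 z, l2 z, l3 z, s0 z, s1 z, v z, M z)) ≤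
      H q (fun z => (l1 z, l2 z, l3 z, s0 z, s1 z, v z)) + H q M :=
    subadd hq (by intro x y _ _ h; simp only [Prod.mk.injEq] at h ⊢; tauto)
  -- the first pair
  have c1 : H q (fun z => (l1 z, l3 z, s0 z, s1 z, t z, t' z)) +
      H q (fun z => (s0 z, s1 z, t z, Y z)) ≤
      H q (fun z => (l1 z, l3 z, s0 z, s1 z, Y z, t z)) +
      H q (fun z => ((s0 z, s1 z, t z, Y z), t' z)) :=
    submod' hq (by intro x y _ _ h; simp only [Prod.mk.injEq] at h ⊢; tauto)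
      (by intro x y _ _ h; simp only [Prod.mk.injEq] at h ⊢; tauto)
      (by intro x y _ _ h; simp only [Prod.mk.injEq] at h ⊢; tauto)
  -- the triple
  have c2 : H q (fun z => (l1 z, l2 z, l3 z, s0 z, s1 z, v z, t z, τ z, t' z)) +
      H q (fun z => (s0 z, s1 z, t z, Y z)) ≤
      H q (fun z => (l1 z, l2 z, l3 z, s0 z, s1 z, v z, t z, τ z, Y z)) +
      H q (fun z => ((s0 z, s1 z, t z, Y z), t' z)) :=
    submod' hq (by intro x y _ _ h; simp only [Prod.mk.injEq] at h ⊢; tauto)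
      (by intro x y _ _ h; simp only [Prod.mk.injEq] at h ⊢; tauto)
      (by intro x y _ _ h; simp only [Prod.mk.injEq] at h ⊢; tauto)
  have c3 : H q (fun z => (l1 z, l2 z, l3 z, s0 z, s1 z, v z, t z, τ z, Y z)) +
      H q (fun z => (l1 z, l3 z, s0 z, s1 z, Y z)) ≤
      H q (fun z => (l1 z, l2 z, l3 z, s0 z, s1 z, v z, τ z, Y z)) +
      H q (fun z => (l1 z, l3 z, s0 z, s1 z, Y z, t z)) :=
    submod' hq (by intro x y _ _ h; simp only [Prod.mk.injEq] at h ⊢; tauto)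
      (by intro x y _ _ h; simp only [Prod.mk.injEq] at h ⊢; tauto)
      (by intro x y _ _ h; simp only [Prod.mk.injEq] at h ⊢; tauto)
  have c4 : H q (fun z => (l1 z, l2 z, l3 z, s0 z, s1 z, v z, τ z, Y z)) +
      H q (fun z => (s1 z, v z, τ z, M z)) ≤
      H q (fun z => (l1 z, l2 z, l3 z, s0 z, s1 z, v z, M z, τ z)) +
      H q (fun z => ((s1 z, v z, τ z, M z), Y z)) :=
    submod' hq (by intro x y _ _ h; simp only [Prod.mk.injEq] at h ⊢; tauto)
      (by intro x y _ _ h; simp only [Prod.mk.injEq] at h ⊢; tauto)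
      (by intro x y _ _ h; simp only [Prod.mk.injEq] at h ⊢; tauto)
  rw [← hY, ← hM, hwT, hwG]
  refine ⟨?_, ?_, ?_, ?_⟩
  · linarith
  · linarith
  · linarith
  · linarith

/-- The first inequality. -/
theorem x_a (hc : CfgV A D p S q l1 l2 l3 s0 s1 t t' τ v)
    (hg : Geo A D q l1 l2 l3 s0 s1 t t' τ v E) (hE : 0 ≤ E) (hb : 1 < b) (hG : 0 ≤ G)
    (hO : OrS n A D b G C0) :
    2 * aa p - gp A D p + 3 * Real.log n - 4 * lam p +
        (b - 1) * H q (XX A D l1 l3 s0 s1 t t') ≤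
      b * H q (fun z => (t z, t' z, cell A D (t z) (l1 z), cell A D (t' z) (l3 z))) +
      (b + G) * wT q l1 l3 s0 s1 t t' + (2 * b + 10) * E + C0 := by
  obtain ⟨-, -, w5, -⟩ := x_w hc hg hE
  have hq := hc.law
  have hsz := hg.fa.sz
  have hg3 := hg.fa.g3
  have hd1 := hg.fb.d1
  have hf3 : H q (fun z => ((t z, t' z, cell A D (t z) (l1 z), cell A D (t' z) (l3 z),
      (XX A D l1 l3 s0 s1 t t' z).1), XX A D l1 l3 s0 s1 t t' z)) ≤
    H q (fun z => (t z, t' z, cell A D (t z) (l1 z), cell A D (t' z) (l3 z),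
      (XX A D l1 l3 s0 s1 t t' z).1)) + E := hg.f3
  have f6 : H q (fun z => ((s0 z, s1 z, t' z, YY s0 s1 t t' z), t z)) ≤
      H q (fun z => (s0 z, s1 z, t' z, YY s0 s1 t t' z)) + E := hg.f6
  have f4 : H q (fun z => ((l1 z, XX A D l1 l3 s0 s1 t t' z, t z, t' z),
      cell A D (t' z) (l3 z))) ≤
      H q (fun z => (l1 z, XX A D l1 l3 s0 s1 t t' z, t z, t' z)) + E := hg.f4
  have fcA : 2 * H q (fun z => ((l1 z, XX A D l1 l3 s0 s1 t t' z), l3 z, t' z)) ≤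
      H q (fun z => ((l1 z, XX A D l1 l3 s0 s1 t t' z), l3 z)) +
      H q (fun z => ((l1 z, XX A D l1 l3 s0 s1 t t' z), t' z, cell A D (t' z) (l3 z))) +
      Real.log n + E := hg.fcA
  have d5 : H q (fun z => ((l1 z, l3 z, XX A D l1 l3 s0 s1 t t' z), s1 z)) ≤
      H q (fun z => (l1 z, l3 z, XX A D l1 l3 s0 s1 t t' z)) + E := hg.fb.d5
  have hwd : wT q l1 l3 s0 s1 t t' = Real.log n -
    (H q (fun z => (l1 z, l3 z, s0 z, s1 z, YY s0 s1 t t' z, t z)) -
    H q (fun z => (l1 z, l3 z, s0 z, s1 z, YY s0 s1 t t' z))) := rfl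
  have hXd : ∀ x y, s1 x = s1 y → YY s0 s1 t t' x = YY s0 s1 t t' y → l1 x = l1 y →
      l3 x = l3 y → XX A D l1 l3 s0 s1 t t' x = XX A D l1 l3 s0 s1 t t' y := by
    intro x y h1 h2 h3 h4
    simp only [XX, h1, h2, h3, h4]
  have hXi : ∀ x y, s1 x = s1 y → XX A D l1 l3 s0 s1 t t' x = XX A D l1 l3 s0 s1 t t' y →
      YY s0 s1 t t' x = YY s0 s1 t t' y := by
    intro x y h1 h2
    have h3 := congrArg Prod.fst h2
    simp only [XX, h1] at h3
    linarith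
  have hPd : ∀ x y, l1 x = l1 y → t x = t y →
      cell A D (t x) (l1 x) = cell A D (t y) (l1 y) := by
    intro x y h1 h2
    rw [h1, h2]
  rw [hwd] at w5 ⊢
  generalize YY s0 s1 t t' = Y at w5 hXd hXi f6 ⊢
  generalize XX A D l1 l3 s0 s1 t t' = X at hsz hg3 hf3 hXd hXi f4 fcA d5 ⊢
  -- the pair from `l1`, `Z`
  have r1a : H q (fun z => (l1 z, l3 z, s0 z, s1 z, Y z)) ≤
      H q (fun z => ((l1 z, s1 z, X z, l3 z), s0 z)) := H_mono hq (by
    intro x y _ _ h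
    simp only [Prod.mk.injEq] at h ⊢
    obtain ⟨⟨h1, h2, h3, h4⟩, h5⟩ := h
    exact ⟨h1, h4, h5, h2, hXi x y h2 h3⟩)
  have r1b : H q (fun z => ((l1 z, s1 z, X z, l3 z), s0 z)) + H q (fun z => (l1 z, l3 z)) ≤
      H q (fun z => (l1 z, s1 z, X z, l3 z)) + H q (fun z => ((l1 z, l3 z), s0 z)) :=
    submod' hq (by intro x y _ _ h; simp only [Prod.mk.injEq] at h ⊢; tauto)
      (by intro x y _ _ h; simp only [Prod.mk.injEq] at h ⊢; tauto)
      (by intro x y _ _ h; simp only [Prod.mk.injEq] at h ⊢; tauto)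
  have r1c : H q (fun z => (l1 z, s1 z, X z, l3 z)) ≤ H q (fun z => ((l1 z, s1 z, X z), l3 z)) :=
    H_mono hq (by intro x y _ _ h; simp only [Prod.mk.injEq] at h ⊢; tauto)
  have r1d : H q (fun z => (l1 z, s1 z, X z)) ≤ H q (fun z => ((l1 z, X z), s1 z)) :=
    H_mono hq (by intro x y _ _ h; simp only [Prod.mk.injEq] at h ⊢; tauto)
  have r1e : H q (fun z => (l1 z, X z)) = H q (fun z => (X z, l1 z)) :=
    H_congr hq (by intro x y _ _ h; simp only [Prod.mk.injEq] at h ⊢; tauto)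
      (by intro x y _ _ h; simp only [Prod.mk.injEq] at h ⊢; tauto)
  have ku : H q (fun z => (l1 z, l3 z, s0 z, s1 z, Y z, t z)) + H q (fun z => (X z, l1 z)) ≤
      H q (fun z => (l1 z, l3 z, s0 z, s1 z, Y z)) + H q (fun z => (X z, l1 z, t z)) :=
    submod' hq (by
      intro x y _ _ h
      simp only [Prod.mk.injEq] at h ⊢
      obtain ⟨h1, h2, h3, h4, h5⟩ := h
      exact ⟨hXd x y h4 h5 h1 h2, h1⟩)
      (by intro x y _ _ h; simp only [Prod.mk.injEq] at h ⊢; tauto)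
      (by intro x y _ _ h; simp only [Prod.mk.injEq] at h ⊢; tauto)
  have orc := OCS hO l1 t X hq
  have r3a : H q (fun z => ((cell A D (t z) (l1 z), X z, t z), t' z)) ≤
      H q (fun z => ((t z, t' z, cell A D (t z) (l1 z), cell A D (t' z) (l3 z), (X z).1), X z)) :=
    H_mono hq (by intro x y _ _ h; simp only [Prod.mk.injEq] at h ⊢; tauto)
  have r3b : H q (fun z => (t z, t' z, cell A D (t z) (l1 z), cell A D (t' z) (l3 z), (X z).1)) ≤
      H q (fun z => (t z, t' z, cell A D (t z) (l1 z), cell A D (t' z) (l3 z))) +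
      H q (fun z => (X z).1) :=
    subadd hq (by intro x y _ _ h; simp only [Prod.mk.injEq] at h ⊢; tauto)
  have r3c : H q (fun z => (X z, t z, cell A D (t z) (l1 z))) =
      H q (fun z => (cell A D (t z) (l1 z), X z, t z)) :=
    H_congr hq (by intro x y _ _ h; simp only [Prod.mk.injEq] at h ⊢; tauto)
      (by intro x y _ _ h; simp only [Prod.mk.injEq] at h ⊢; tauto)
  rw [r3c] at orc
  -- Cordoba's argument
  have r2 : H q (fun z => (l1 z, l3 z, s0 z, s1 z, Y z, t' z)) +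
      H q (fun z => ((l1 z, X z), l3 z)) ≤
      H q (fun z => ((l1 z, X z), l3 z, t' z)) + H q (fun z => (l1 z, l3 z, s0 z, s1 z, Y z)) :=
    submod' hq (by intro x y _ _ h; simp only [Prod.mk.injEq] at h ⊢; tauto)
      (by
        intro x y _ _ h
        simp only [Prod.mk.injEq] at h ⊢
        obtain ⟨h1, h2, h3, h4, h5⟩ := h
        exact ⟨⟨h1, hXd x y h4 h5 h1 h2⟩, h2⟩)
      (by intro x y _ _ h; simp only [Prod.mk.injEq] at h ⊢; tauto)
  have r3 : H q (fun z => (l1 z, l3 z, s0 z, s1 z, Y z, t z)) +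
      H q (fun z => (s0 z, s1 z, t' z, Y z)) ≤
      H q (fun z => (l1 z, l3 z, s0 z, s1 z, Y z, t' z)) +
      H q (fun z => ((s0 z, s1 z, t' z, Y z), t z)) :=
    submod' hq (by intro x y _ _ h; simp only [Prod.mk.injEq] at h ⊢; tauto)
      (by intro x y _ _ h; simp only [Prod.mk.injEq] at h ⊢; tauto)
      (by intro x y _ _ h; simp only [Prod.mk.injEq] at h ⊢; tauto)
  have r5 : H q (fun z => ((l1 z, X z), t' z, cell A D (t' z) (l3 z))) ≤
      H q (fun z => ((l1 z, X z, t z, t' z), cell A D (t' z) (l3 z))) :=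
    H_mono hq (by intro x y _ _ h; simp only [Prod.mk.injEq] at h ⊢; tauto)
  have r6 : H q (fun z => (l1 z, X z, t z, t' z)) +
      H q (fun z => (cell A D (t z) (l1 z), X z, t z)) ≤
      H q (fun z => ((cell A D (t z) (l1 z), X z, t z), t' z)) +
      H q (fun z => (l1 z, X z, t z)) :=
    submod' hq (by intro x y _ _ h; simp only [Prod.mk.injEq] at h ⊢; tauto)
      (by
        intro x y _ _ h
        simp only [Prod.mk.injEq] at h ⊢
        obtain ⟨h1, h2, h3⟩ := h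
        exact ⟨hPd x y h1 h3, h2, h3⟩)
      (by intro x y _ _ h; simp only [Prod.mk.injEq] at h ⊢; tauto)
  have r7 : H q (fun z => (l1 z, X z, t z)) = H q (fun z => (X z, l1 z, t z)) :=
    H_congr hq (by intro x y _ _ h; simp only [Prod.mk.injEq] at h ⊢; tauto)
      (by intro x y _ _ h; simp only [Prod.mk.injEq] at h ⊢; tauto)
  have r9 : H q (fun z => ((l1 z, X z), s1 z)) ≤ H q (fun z => ((l1 z, l3 z, X z), s1 z)) :=
    H_mono hq (by intro x y _ _ h; simp only [Prod.mk.injEq] at h ⊢; tauto)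
  have r10 : H q (fun z => (l1 z, l3 z, X z)) ≤ H q (fun z => ((l1 z, X z), l3 z)) :=
    H_mono hq (by intro x y _ _ h; simp only [Prod.mk.injEq] at h ⊢; tauto)
  have th : H q (fun z => (cell A D (t z) (l1 z), X z, t z)) ≤
      H q (fun z => ((cell A D (t z) (l1 z), X z, t z), t' z)) :=
    H_mono hq (Det.fst q (fun z => (cell A D (t z) (l1 z), X z, t z)) t')
  -- abbreviations
  obtain ⟨θ, hθ⟩ : ∃ θ, θ = H q (fun z => (X z, l1 z, t z)) - H q (fun z => (X z, l1 z)) :=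
    ⟨_, rfl⟩
  obtain ⟨κ, hκ⟩ : ∃ κ, κ = H q (fun z => ((cell A D (t z) (l1 z), X z, t z), t' z)) -
    H q (fun z => (cell A D (t z) (l1 z), X z, t z)) := ⟨_, rfl⟩
  obtain ⟨σ, hσ⟩ : ∃ σ, σ = H q (fun z => ((l1 z, X z), s1 z)) - H q (fun z => (l1 z, X z)) :=
    ⟨_, rfl⟩
  obtain ⟨ω, hω⟩ : ∃ ω, ω = H q (fun z => (l1 z, l3 z, s0 z, s1 z, Y z, t z)) -
    H q (fun z => (l1 z, l3 z, s0 z, s1 z, Y z)) := ⟨_, rfl⟩
  obtain ⟨P2, hP2⟩ : ∃ P2, P2 =
    H q (fun z => (t z, t' z, cell A D (t z) (l1 z), cell A D (t' z) (l3 z))) := ⟨_, rfl⟩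
  obtain ⟨U, hU⟩ : ∃ U, U = H q (fun z => (cell A D (t z) (l1 z), X z, t z)) := ⟨_, rfl⟩
  obtain ⟨Z, hZ⟩ : ∃ Z, Z = H q X := ⟨_, rfl⟩
  obtain ⟨N, hN⟩ : ∃ N, N = Real.log n := ⟨_, rfl⟩
  have k1 : ω ≤ θ := by linarith
  have k2 : 0 ≤ κ := by linarith
  have k3 : σ ≤ θ + κ + N - 2 * ω + 5 * E := by linarith
  have k4 : U ≤ P2 + N + 2 * E - κ := by linarith
  have k5 : 2 * aa p - gp A D p + 3 * N - 4 * lam p + (N - ω) ≤
      H q (fun z => (X z, l1 z)) + σ + 5 * E := by linarith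
  have k6 : H q (fun z => (X z, l1 z)) - Z ≤ b * ((U - Z) - θ) + G * (N - θ) + C0 := by
    rw [hU, hZ, hθ, hN]
    exact orc
  have m1 : 0 ≤ (b - 1) * (θ - ω) := mul_nonneg (by linarith) (by linarith)
  have m2 : 0 ≤ (b - 1) * κ := mul_nonneg (by linarith) k2
  have m3 : 0 ≤ G * (θ - ω) := mul_nonneg hG (by linarith)
  have m4 : 0 ≤ b * (P2 + N + 2 * E - κ - U) := mul_nonneg (by linarith) (by linarith)
  rw [← hω, ← hP2, ← hZ, ← hN]
  nlinarith [m1, m2, m3, m4, k3, k5, k6]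

/-- The meeting height `s0` given `l3` and the point of `l1` at the height `s1`. -/
theorem x_k1 (hc : CfgV A D p S q l1 l2 l3 s0 s1 t t' τ v)
    (hg : Geo A D q l1 l2 l3 s0 s1 t t' τ v E) (hE : 0 ≤ E) :
    H q (fun z => ((l3 z, s1 z, cell A D (s1 z) (l1 z)), s0 z)) ≤
      H q (fun z => (l3 z, s1 z, cell A D (s1 z) (l1 z))) + lam p + 2 * E := by
  have hq := hc.law
  have hPd : ∀ x y, l1 x = l1 y → s1 x = s1 y →
      cell A D (s1 x) (l1 x) = cell A D (s1 y) (l1 y) := by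
    intro x y h1 h2
    rw [h1, h2]
  have fcB := hg.fcB
  have d1 := hg.fb.d1
  have f5 := hc.f5
  unfold FcB at fcB
  have r2 : H q (fun z => ((l3 z, s1 z, cell A D (s1 z) (l1 z)), s0 z)) +
      H q (fun z => (l1 z, l3 z)) ≤
      H q (fun z => (l3 z, l1 z, s1 z)) + H q (fun z => ((l1 z, l3 z), s0 z)) :=
    submod' hq (by intro x y _ _ h; simp only [Prod.mk.injEq] at h ⊢; tauto)
      (by intro x y _ _ h; simp only [Prod.mk.injEq] at h ⊢; tauto)
      (by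
        intro x y _ _ h
        simp only [Prod.mk.injEq] at h ⊢
        obtain ⟨⟨h1, h2, h3⟩, ⟨-, -⟩, h4⟩ := h
        exact ⟨⟨h1, h3, hPd x y h2 h3⟩, h4⟩)
  have r3 : H q (fun z => (l1 z, l3 z, s0 z, s1 z)) + H q (fun z => (l3 z, l1 z)) ≤
      H q (fun z => (l3 z, l1 z, s1 z)) + H q (fun z => (l1 z, l3 z, s0 z)) :=
    submod' hq (by intro x y _ _ h; simp only [Prod.mk.injEq] at h ⊢; tauto)
      (by intro x y _ _ h; simp only [Prod.mk.injEq] at h ⊢; tauto)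
      (by intro x y _ _ h; simp only [Prod.mk.injEq] at h ⊢; tauto)
  linarith

/-- Wolff's inequality for two-ends, broad laws. -/
theorem x_wolff (hc : CfgV A D p S q l1 l2 l3 s0 s1 t t' τ v)
    (hg : Geo A D q l1 l2 l3 s0 s1 t t' τ v E) (hE : 0 ≤ E) :
    aa p + Real.log n ≤ 2 * gp A D p + 2 * lam p + 2 * E := by
  have hq := hc.law
  have fcB := hg.fcB
  have d1 := hg.fb.d1
  have f5 := hc.f5
  have e0 := hc.e0
  have es := hc.es
  have el := hc.el
  unfold FcB at fcB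
  have r3 : H q (fun z => (l1 z, l3 z, s0 z, s1 z)) + H q (fun z => (l3 z, l1 z)) ≤
      H q (fun z => (l3 z, l1 z, s1 z)) + H q (fun z => (l1 z, l3 z, s0 z)) :=
    submod' hq (by intro x y _ _ h; simp only [Prod.mk.injEq] at h ⊢; tauto)
      (by intro x y _ _ h; simp only [Prod.mk.injEq] at h ⊢; tauto)
      (by intro x y _ _ h; simp only [Prod.mk.injEq] at h ⊢; tauto)
  have r4 : H q (fun z => (l3 z, s1 z, cell A D (s1 z) (l1 z))) ≤
      H q l3 + H q (fun z => (s1 z, cell A D (s1 z) (l1 z))) :=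
    subadd hq (by intro x y _ _ h; simp only [Prod.mk.injEq] at h ⊢; tauto)
  have r5 : H q (fun z => (l1 z, l3 z, s0 z)) ≤ H q (fun z => ((l1 z, l3 z), s0 z)) :=
    H_mono hq (by intro x y _ _ h; simp only [Prod.mk.injEq] at h ⊢; tauto)
  have r6 : H q (fun z => (l1 z, l3 z)) ≤ H q (fun z => (l3 z, l1 z)) :=
    H_mono hq (by intro x y _ _ h; simp only [Prod.mk.injEq] at h ⊢; tauto)
  linarith

/-- The second inequality. -/
theorem x_b (hc : CfgV A D p S q l1 l2 l3 s0 s1 t t' τ v)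
    (hg : Geo A D q l1 l2 l3 s0 s1 t t' τ v E)
    (hfx : FX A D q l1 l2 l3 s0 s1 t t' τ v E) (hE : 0 ≤ E) (hb : 1 < b) (hb2 : b ≤ 2)
    (hG : 0 ≤ G) (hO : OrS n A D b G C0) :
    3 * aa p - (2 + b) * gp A D p + 2 * Real.log n - (7 - b) * lam p +
        wT q l1 l3 s0 s1 t t' + (b - 1) * H q (WW A D l2 l3 s0 s1 t t' τ v) ≤
      b * H q (XX A D l1 l3 s0 s1 t t') +
      (G + 3 * b - 3) * wG q l1 l2 l3 s0 s1 t t' τ v + (2 * b + 10) * E + C0 := by
  obtain ⟨-, -, -, w6⟩ := x_w hc hg hE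
  have hk1 := x_k1 hc hg hE
  have hq := hc.law
  have hi1 := hc.i1
  have hτ := hc.eτ
  have hsg := hg.fa.sg
  have hc3 := hg.fa.c3
  have hc1 := hg.fa.c1
  have hf8 : H q (fun z => ((τ z, cell A D (τ z) (l2 z), XX A D l1 l3 s0 s1 t t' z,
      (WW A D l2 l3 s0 s1 t t' τ v z).1), WW A D l2 l3 s0 s1 t t' τ v z)) ≤
    H q (fun z => (τ z, cell A D (τ z) (l2 z), XX A D l1 l3 s0 s1 t t' z,
      (WW A D l2 l3 s0 s1 t t' τ v z).1)) + E := hg.f8
  have f9 : H q (fun z => ((v z, τ z, (WW A D l2 l3 s0 s1 t t' τ v z).1,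
      (XX A D l1 l3 s0 s1 t t' z).1), s1 z)) ≤
    H q (fun z => (v z, τ z, (WW A D l2 l3 s0 s1 t t' τ v z).1,
      (XX A D l1 l3 s0 s1 t t' z).1)) + E := hg.f9
  have fx : H q (fun z => (l2 z, WW A D l2 l3 s0 s1 t t' τ v z, v z, s1 z)) +
    H q (fun z => (l2 z, WW A D l2 l3 s0 s1 t t' τ v z)) + 2 * Real.log n ≤
    2 * H q (fun z => (l2 z, WW A D l2 l3 s0 s1 t t' τ v z, τ z,
        (XX A D l1 l3 s0 s1 t t' z).1)) + 4 * wG q l1 l2 l3 s0 s1 t t' τ v + E := hfx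
  have hwd : wG q l1 l2 l3 s0 s1 t t' τ v = Real.log n -
    (H q (fun z => (l1 z, l2 z, l3 z, s0 z, s1 z, v z, MM s0 s1 t t' τ v z, τ z)) -
    H q (fun z => (l1 z, l2 z, l3 z, s0 z, s1 z, v z, MM s0 s1 t t' τ v z))) := rfl
  have hWd : ∀ x y, v x = v y → MM s0 s1 t t' τ v x = MM s0 s1 t t' τ v y → l2 x = l2 y →
      l3 x = l3 y → WW A D l2 l3 s0 s1 t t' τ v x = WW A D l2 l3 s0 s1 t t' τ v y := by
    intro x y h1 h2 h3 h4
    simp only [WW, h1, h2, h3, h4]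
  have hWi : ∀ x y, v x = v y → WW A D l2 l3 s0 s1 t t' τ v x = WW A D l2 l3 s0 s1 t t' τ v y →
      MM s0 s1 t t' τ v x = MM s0 s1 t t' τ v y := by
    intro x y h1 h2
    have h3 := congrArg Prod.fst h2
    simp only [WW, h1] at h3
    linarith
  generalize wT q l1 l3 s0 s1 t t' = w at w6 ⊢
  rw [hwd] at w6 fx ⊢
  generalize MM s0 s1 t t' τ v = M at w6 hWd hWi fx ⊢
  generalize WW A D l2 l3 s0 s1 t t' τ v = W at hsg hc3 hf8 hWd hWi f9 fx ⊢
  generalize XX A D l1 l3 s0 s1 t t' = X at hf8 f9 fx ⊢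
  have r1a : H q (fun z => (l1 z, l2 z, l3 z, s0 z, s1 z, v z, M z)) ≤
      H q (fun z => ((l2 z, l3 z, s0 z, s1 z, v z, W z), l1 z)) := H_mono hq (by
    intro x y _ _ h
    simp only [Prod.mk.injEq] at h ⊢
    obtain ⟨⟨h1, h2, h3, h4, h5, h6⟩, h7⟩ := h
    exact ⟨h7, h1, h2, h3, h4, h5, hWi x y h5 h6⟩)
  have r1b : H q (fun z => ((l2 z, l3 z, s0 z, s1 z, v z, W z), l1 z)) +
      H q (fun z => (l2 z, l3 z, s0 z, s1 z)) ≤
      H q (fun z => (l2 z, l3 z, s0 z, s1 z, v z, W z)) +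
      H q (fun z => ((l2 z, l3 z, s0 z, s1 z), l1 z)) :=
    submod' hq (by intro x y _ _ h; simp only [Prod.mk.injEq] at h ⊢; tauto)
      (by intro x y _ _ h; simp only [Prod.mk.injEq] at h ⊢; tauto)
      (by intro x y _ _ h; simp only [Prod.mk.injEq] at h ⊢; tauto)
  have r1c : H q (fun z => (l2 z, l3 z, s0 z, s1 z, v z, W z)) +
      H q (fun z => (l3 z, s1 z, cell A D (s1 z) (l1 z))) ≤
      H q (fun z => (l2 z, l3 z, s1 z, v z, W z)) +
      H q (fun z => ((l3 z, s1 z, cell A D (s1 z) (l1 z)), s0 z)) :=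
    submod' hq (by
      intro x y hx hy h
      simp only [Prod.mk.injEq] at h ⊢
      obtain ⟨h1, h2, h3, h4, h5⟩ := h
      refine ⟨h2, h3, ?_⟩
      rw [hi1 x hx, hi1 y hy, h3, h1])
      (by intro x y _ _ h; simp only [Prod.mk.injEq] at h ⊢; tauto)
      (by intro x y _ _ h; simp only [Prod.mk.injEq] at h ⊢; tauto)
  have r1d : H q (fun z => (l2 z, l3 z, s1 z, v z, W z)) +
      H q (fun z => (W z, v z, cell A D (v z) (l2 z))) ≤
      H q (fun z => (l2 z, W z, v z, s1 z)) +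
      H q (fun z => ((W z, v z, cell A D (v z) (l2 z)), l3 z)) :=
    submod' hq (by
      intro x y _ _ h
      simp only [Prod.mk.injEq] at h ⊢
      obtain ⟨h1, h2, h3, h4⟩ := h
      exact ⟨h2, h3, by rw [h1, h3]⟩)
      (by intro x y _ _ h; simp only [Prod.mk.injEq] at h ⊢; tauto)
      (by intro x y _ _ h; simp only [Prod.mk.injEq] at h ⊢; tauto)
  have r1e : H q (fun z => (l2 z, W z)) = H q (fun z => (W z, l2 z)) :=
    H_congr hq (by intro x y _ _ h; simp only [Prod.mk.injEq] at h ⊢; tauto)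
      (by intro x y _ _ h; simp only [Prod.mk.injEq] at h ⊢; tauto)
  have r1f : H q (fun z => (l2 z, W z, τ z)) = H q (fun z => (W z, l2 z, τ z)) :=
    H_congr hq (by intro x y _ _ h; simp only [Prod.mk.injEq] at h ⊢; tauto)
      (by intro x y _ _ h; simp only [Prod.mk.injEq] at h ⊢; tauto)
  have ku : H q (fun z => (l1 z, l2 z, l3 z, s0 z, s1 z, v z, M z, τ z)) +
      H q (fun z => (W z, l2 z)) ≤
      H q (fun z => (l1 z, l2 z, l3 z, s0 z, s1 z, v z, M z)) + H q (fun z => (W z, l2 z, τ z)) :=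
    submod' hq (by
      intro x y _ _ h
      simp only [Prod.mk.injEq] at h ⊢
      obtain ⟨h1, h2, h3, h4, h5, h6, h7⟩ := h
      exact ⟨hWd x y h6 h7 h2 h3, h2⟩)
      (by intro x y _ _ h; simp only [Prod.mk.injEq] at h ⊢; tauto)
      (by intro x y _ _ h; simp only [Prod.mk.injEq] at h ⊢; tauto)
  have orc := OCS hO l2 τ W hq
  have r3a : H q (fun z => (l2 z, W z, τ z, (X z).1)) +
      H q (fun z => (W z, τ z, cell A D (τ z) (l2 z))) ≤
      H q (fun z => (l2 z, W z, τ z)) +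
      H q (fun z => ((W z, τ z, cell A D (τ z) (l2 z)), (X z).1)) :=
    submod' hq (by
      intro x y _ _ h
      simp only [Prod.mk.injEq] at h ⊢
      obtain ⟨h1, h2, h3⟩ := h
      exact ⟨h2, h3, by rw [h1, h3]⟩)
      (by intro x y _ _ h; simp only [Prod.mk.injEq] at h ⊢; tauto)
      (by intro x y _ _ h; simp only [Prod.mk.injEq] at h ⊢; tauto)
  have r3b : H q (fun z => ((W z, τ z, cell A D (τ z) (l2 z)), (X z).1)) ≤
      H q (fun z => ((τ z, cell A D (τ z) (l2 z), X z, (W z).1), W z)) :=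
    H_mono hq (by
      intro x y _ _ h
      simp only [Prod.mk.injEq] at h ⊢
      obtain ⟨⟨h1, h2, h3, h4⟩, h5⟩ := h
      exact ⟨⟨h5, h1, h2⟩, by rw [h3]⟩)
  have r3c : H q (fun z => (τ z, cell A D (τ z) (l2 z), X z, (W z).1)) ≤
      H q (fun z => (τ z, cell A D (τ z) (l2 z))) + H q (fun z => (X z, (W z).1)) :=
    subadd hq (by intro x y _ _ h; simp only [Prod.mk.injEq] at h ⊢; tauto)
  have r3d : H q (fun z => (X z, (W z).1)) ≤ H q X + H q (fun z => (W z).1) :=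
    subadd hq (by intro x y _ _ h; simp only [Prod.mk.injEq] at h ⊢; tauto)
  -- the simple bound for `v`, `s1`
  have a2 : H q (fun z => (l2 z, W z, v z, τ z)) ≤ H q (fun z => (l2 z, W z, τ z)) + Real.log n :=
    add_height hq v (by intro x y _ _ e; simp only [Prod.mk.injEq] at e ⊢; tauto)
  have a3 := submod' hq (f := fun z => (l2 z, W z, v z, τ z)) (g := fun z => (l2 z, W z, τ z, (X z).1))
    (h := fun z => (l2 z, W z, τ z)) (k := fun z => (l2 z, W z, v z, τ z, (X z).1))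
    (by intro x y _ _ e; simp only [Prod.mk.injEq] at e ⊢; tauto)
    (by intro x y _ _ e; simp only [Prod.mk.injEq] at e ⊢; tauto)
    (by intro x y _ _ e; simp only [Prod.mk.injEq] at e ⊢; tauto)
  have a4 : H q (fun z => (l2 z, W z, v z, s1 z, τ z)) ≤
      H q (fun z => (l2 z, W z, v z, τ z, (X z).1)) + E :=
    lift hq f9 (by
      intro x y _ _ e
      simp only [Prod.mk.injEq] at e ⊢
      obtain ⟨_, e2, e3, e4, e5⟩ := e
      exact ⟨e3, e4, by rw [e2], e5⟩)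
      (by intro x y _ _ e; simp only [Prod.mk.injEq] at e ⊢; tauto)
  have a5 := submod' hq (f := fun z => (l2 z, W z, v z, s1 z, τ z))
    (g := fun z => (l1 z, l2 z, l3 z, s0 z, s1 z, v z, M z))
    (h := fun z => (l2 z, W z, v z, s1 z))
    (k := fun z => (l1 z, l2 z, l3 z, s0 z, s1 z, v z, M z, τ z))
    (by intro x y _ _ e; simp only [Prod.mk.injEq] at e ⊢; tauto)
    (by
      intro x y _ _ e
      simp only [Prod.mk.injEq] at e ⊢
      obtain ⟨e1, e2, e3, e4, e5, e6, e7⟩ := e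
      exact ⟨e2, hWd x y e6 e7 e2 e3, e6, e5⟩)
    (by intro x y _ _ e; simp only [Prod.mk.injEq] at e ⊢; tauto)
  -- abbreviations
  obtain ⟨θ, hθ⟩ : ∃ θ, θ = H q (fun z => (W z, l2 z, τ z)) - H q (fun z => (W z, l2 z)) :=
    ⟨_, rfl⟩
  obtain ⟨ξ, hξ⟩ : ∃ ξ, ξ = H q (fun z => (l2 z, W z, τ z, (X z).1)) -
    H q (fun z => (l2 z, W z, τ z)) := ⟨_, rfl⟩
  obtain ⟨ν, hν⟩ : ∃ ν, ν = H q (fun z => (l2 z, W z, v z, s1 z)) -
    H q (fun z => (l2 z, W z)) := ⟨_, rfl⟩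
  obtain ⟨ω, hω⟩ : ∃ ω, ω = H q (fun z => (l1 z, l2 z, l3 z, s0 z, s1 z, v z, M z, τ z)) -
    H q (fun z => (l1 z, l2 z, l3 z, s0 z, s1 z, v z, M z)) := ⟨_, rfl⟩
  obtain ⟨U, hU⟩ : ∃ U, U = H q (fun z => (W z, τ z, cell A D (τ z) (l2 z))) := ⟨_, rfl⟩
  obtain ⟨Z, hZ⟩ : ∃ Z, Z = H q X := ⟨_, rfl⟩
  obtain ⟨V, hV⟩ : ∃ V, V = H q W := ⟨_, rfl⟩
  obtain ⟨N, hN⟩ : ∃ N, N = Real.log n := ⟨_, rfl⟩
  have k1 : ω ≤ θ := by linarith
  have k2 : ν ≤ θ + ξ + (N - ω) + E := by linarith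
  have k3 : ν ≤ 2 * ξ + 2 * θ - 2 * N + 4 * (N - ω) + E := by linarith
  have k4 : U ≤ gp A D p + 2 * N - lam p + Z + 2 * E - ξ := by linarith
  have k5 : 3 * aa p - 2 * gp A D p + 4 * N - 6 * lam p + w + (N - ω) ≤
      H q (fun z => (W z, l2 z)) + ν + (lam p + 2 * E) + 5 * E := by linarith
  have k6 : H q (fun z => (W z, l2 z)) - V ≤ b * ((U - V) - θ) + G * (N - θ) + C0 := by
    rw [hU, hV, hθ, hN]
    exact orc
  have m1 : 0 ≤ (2 - b) * (θ + ξ + (N - ω) + E - ν) := mul_nonneg (by linarith) (by linarith)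
  have m2 : 0 ≤ (b - 1) * (2 * ξ + 2 * θ - 2 * N + 4 * (N - ω) + E - ν) :=
    mul_nonneg (by linarith) (by linarith)
  have m3 : 0 ≤ G * (θ - ω) := mul_nonneg hG (by linarith)
  have m4 : 0 ≤ b * (gp A D p + 2 * N - lam p + Z + 2 * E - ξ - U) :=
    mul_nonneg (by linarith) (by linarith)
  rw [← hω, ← hV, ← hZ, ← hN]
  nlinarith [m1, m2, m3, m4, k5, k6]

/-- The third inequality. -/
theorem x_c (hc : CfgV A D p S q l1 l2 l3 s0 s1 t t' τ v)
    (hg : Geo A D q l1 l2 l3 s0 s1 t t' τ v E) (hE : 0 ≤ E) :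
    H q (fun z => (t z, t' z, cell A D (t z) (l1 z), cell A D (t' z) (l3 z))) + aa p -
      2 * gp A D p - Real.log n - lam p + wT q l1 l3 s0 s1 t t' +
      wG q l1 l2 l3 s0 s1 t t' τ v ≤ H q (WW A D l2 l3 s0 s1 t t' τ v) + 3 * E := by
  have hq := hc.law
  have g6 := hg.fa.g6
  have g5 := hg.fa.g5
  have c3 := hg.fa.c3
  have f3 := hc.f3
  have mar3 := hc.mar3
  have pq := hc.pq
  have hv := hc.ev
  have sl := hc.sl
  have el := hc.el
  obtain ⟨Y, hY⟩ : ∃ Y : Θ → ℤ, Y = YY s0 s1 t t' := ⟨_, rfl⟩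
  have hY' : ∀ z, yy (s0 z) (s1 z) (t z) (t' z) = Y z := fun z => by rw [hY]; rfl
  obtain ⟨M, hM⟩ : ∃ M : Θ → ℤ, M = MM s0 s1 t t' τ v := ⟨_, rfl⟩
  obtain ⟨W, hW⟩ : ∃ W : Θ → ℤ × (Fin d → ℤ), W = WW A D l2 l3 s0 s1 t t' τ v := ⟨_, rfl⟩
  obtain ⟨V, hV⟩ : ∃ V : Θ → (Fin d → ℤ), V = fun z => cell A D (v z) (l2 z) := ⟨_, rfl⟩
  have hV' : ∀ z, cell A D (v z) (l2 z) = V z := fun z => by rw [hV]
  have hVd : ∀ x y, v x = v y → l2 x = l2 y → V x = V y := by
    intro x y h1 h2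
    simp only [hV, h1, h2]
  have hWM : ∀ x y, W x = W y → v x = v y → M x = M y := by
    intro x y h1 h2
    have h3 := congrArg Prod.fst h1
    simp only [hW, WW, ← hM, h2] at h3
    linarith
  unfold wT wG
  simp only [hV'] at c3 mar3 pq hv
  simp only [hY']
  rw [← hY] at g5 g6
  rw [← hM] at g5
  rw [← hW] at c3
  rw [← hM, ← hW]
  -- the heights
  have b1 : H q (fun z => (l1 z, l2 z, l3 z, s0 z, s1 z, v z, t z, τ z, t' z)) ≤
      H q (fun z => (l1 z, l2 z, l3 z, s0 z, s1 z, v z, M z, τ z, Y z, t z)) + E :=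
    lift hq g6 (by intro x y _ _ e; simp only [Prod.mk.injEq] at e ⊢; tauto)
      (by intro x y _ _ e; simp only [Prod.mk.injEq] at e ⊢; tauto)
  have b2 := submod' hq (f := fun z => (l1 z, l2 z, l3 z, s0 z, s1 z, v z, M z, τ z, Y z))
    (g := fun z => (l1 z, l3 z, s0 z, s1 z, Y z, t z))
    (h := fun z => (l1 z, l3 z, s0 z, s1 z, Y z))
    (k := fun z => (l1 z, l2 z, l3 z, s0 z, s1 z, v z, M z, τ z, Y z, t z))
    (by intro x y _ _ e; simp only [Prod.mk.injEq] at e ⊢; tauto)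
    (by intro x y _ _ e; simp only [Prod.mk.injEq] at e ⊢; tauto)
    (by intro x y _ _ e; simp only [Prod.mk.injEq] at e ⊢; tauto)
  have b3 : H q (fun z => (l1 z, l2 z, l3 z, s0 z, s1 z, v z, M z, τ z, Y z)) ≤
      H q (fun z => (l1 z, l2 z, l3 z, s0 z, s1 z, v z, M z, τ z)) + E :=
    lift hq g5 (by intro x y _ _ e; simp only [Prod.mk.injEq] at e ⊢; tauto)
      (by intro x y _ _ e; simp only [Prod.mk.injEq] at e ⊢; tauto)
  -- `M` given `l3`, `v`, `V`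
  have b4 := submod' hq (f := fun z => (l3 z, v z, V z, M z))
    (g := fun z => (l1 z, l2 z, l3 z, s0 z, s1 z, v z))
    (h := fun z => (l3 z, v z, V z))
    (k := fun z => (l1 z, l2 z, l3 z, s0 z, s1 z, v z, M z))
    (by intro x y _ _ e; simp only [Prod.mk.injEq] at e ⊢; tauto)
    (by
      intro x y _ _ e
      simp only [Prod.mk.injEq] at e ⊢
      obtain ⟨e1, e2, e3, e4, e5, e6⟩ := e
      exact ⟨e3, e6, hVd x y e6 e2⟩)
    (by intro x y _ _ e; simp only [Prod.mk.injEq] at e ⊢; tauto)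
  have b5 := submod' hq (f := fun z => (l3 z, v z, V z)) (g := fun z => (l3 z, s0 z))
    (h := l3) (k := fun z => (s0 z, v z, V z, l3 z))
    (by intro x y _ _ e; simp only [Prod.mk.injEq] at e ⊢; tauto)
    (by intro x y _ _ e; simp only [Prod.mk.injEq] at e ⊢; tauto)
    (by intro x y _ _ e; simp only [Prod.mk.injEq] at e ⊢; tauto)
  have b6 : H q (fun z => (l3 z, v z, V z, M z)) ≤ H q (fun z => ((W z, v z, V z), l3 z)) :=
    H_mono hq (by
      intro x y _ _ e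
      simp only [Prod.mk.injEq] at e ⊢
      obtain ⟨⟨e1, e2, e3⟩, e4⟩ := e
      exact ⟨e4, e2, e3, hWM x y e1 e2⟩)
  have b7 : H q (fun z => (W z, v z, V z)) ≤ H q W + H q (fun z => (v z, V z)) :=
    subadd hq (Det.refl q _)
  linarith

/-- The pairs of points. -/
theorem x_q (hc : CfgV A D p S q l1 l2 l3 s0 s1 t t' τ v) :
    H q (fun z => (t z, t' z, cell A D (t z) (l1 z), cell A D (t' z) (l3 z))) ≤
      2 * gp A D p + 2 * Real.log n - 2 * lam p := by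
  have hq := hc.law
  have e1 := subadd hq (f := fun z => (t z, cell A D (t z) (l1 z)))
    (g := fun z => (t' z, cell A D (t' z) (l3 z)))
    (k := fun z => (t z, t' z, cell A D (t z) (l1 z), cell A D (t' z) (l3 z))) (by
      intro x y _ _ h; simp only [Prod.mk.injEq] at h ⊢; tauto)
  have e2 := hc.et
  have e3 := hc.et'
  linarith

end main

/-- The algebra of the core. -/
theorem core_algX {a g N L wT wG HX HW Q b G e : ℝ} (hb : 1 < b) (hb2 : b ≤ 2) (hG : 0 ≤ G)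
    (he : 0 ≤ e)
    (hA : 2 * a - g + 3 * N - 4 * L + (b - 1) * HX ≤ b * Q + (b + G) * wT + e)
    (hB : 3 * a - (2 + b) * g + 2 * N - (7 - b) * L + wT + (b - 1) * HW ≤
      b * HX + (G + 3 * b - 3) * wG + e)
    (hC : Q + a - 2 * g - N - L + wT + wG ≤ HW + e)
    (hQ : Q ≤ 2 * g + 2 * N - 2 * L) (h1 : wT ≤ 2 * L + e) (h2 : wT + wG ≤ 3 * L + e) :
    (b ^ 2 + 3 * b - 2) * a + (3 * b - 1 - b ^ 2) * N ≤
      (3 * b ^ 2 + 2 * b - 2) * g + (2 * b ^ 2 + 4 * b - 2 + (3 * b - 1) * G) * L +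
        20 * (G + 1) * e := by
  have mA := mul_le_mul_of_nonneg_left hA (by linarith : 0 ≤ b)
  have mB := mul_le_mul_of_nonneg_left hB (by linarith : 0 ≤ b - 1)
  have mC := mul_le_mul_of_nonneg_left hC (sq_nonneg (b - 1))
  have mQ := mul_le_mul_of_nonneg_left hQ (by linarith : 0 ≤ 2 * b - 1)
  have c2 : 0 ≤ (b - 1) * (G + 2 * b - 2) := mul_nonneg (by linarith) (by linarith)
  have c1 : 0 ≤ b * (G + 1) - (b - 1) * (G + 2 * b - 2) := by
    have : b * (G + 1) - (b - 1) * (G + 2 * b - 2) = G + b - 2 * (b - 1) ^ 2 := by ring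
    rw [this]
    nlinarith
  have m1 := mul_le_mul_of_nonneg_left h1 c1
  have m2 := mul_le_mul_of_nonneg_left h2 c2
  have v3 : 0 ≤ G * e := mul_nonneg hG he
  have key : (b ^ 2 + 3 * b - 2) * a + (3 * b - 1 - b ^ 2) * N ≤
      (3 * b ^ 2 + 2 * b - 2) * g + (2 * b ^ 2 + 4 * b - 2 + (3 * b - 1) * G) * L +
      (b + (b - 1) + (b - 1) ^ 2 + (b * (G + 1) - (b - 1) * (G + 2 * b - 2)) +
        (b - 1) * (G + 2 * b - 2)) * e := by
    nlinarith [mA, mB, mC, mQ, m1, m2]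
  refine key.trans ?_
  have h3 : (b + (b - 1) + (b - 1) ^ 2 + (b * (G + 1) - (b - 1) * (G + 2 * b - 2)) +
        (b - 1) * (G + 2 * b - 2)) ≤ 20 * (G + 1) := by
    have e1 : (b + (b - 1) + (b - 1) ^ 2 + (b * (G + 1) - (b - 1) * (G + 2 * b - 2)) +
        (b - 1) * (G + 2 * b - 2)) = b ^ 2 + b + b * G := by ring
    rw [e1]
    nlinarith [mul_nonneg hG (by linarith : 0 ≤ 2 - b)]
  have := mul_le_mul_of_nonneg_right h3 he
  linarith

end Pool.Agent.Zk22
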