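import Pool.Agent.Zk22.Final

/-!
# From tubes to incidences of lines and cells
-/

set_option autoImplicit false

open Finset MeasureTheory Set
open scoped ENNReal

namespace Pool.Agent.Zk22.En
open Pool.Agent.W46.KK (tube near_axis tube_isClosed)
open Pool.Agent.W46.HD
open Pool.Agent.Y244.WR (TubeQ)

/-- The grid box number `m` of side `1 / L`. -/
def gbox {k : ℕ} (L : ℝ) (m : Fin k → ℤ) : Set (EuclideanSpace ℝ (Fin k)) :=
  {y | ∀ i, (m i : ℝ) ≤ L * y i ∧ L * y i < m i + 1}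

theorem gbox_eq {k : ℕ} {L : ℝ} (hL : 0 < L) (m : Fin k → ℤ) :
    gbox L m = (WithLp.ofLp : EuclideanSpace ℝ (Fin k) → Fin k → ℝ) ⁻¹'
      (Set.pi Set.univ fun i => Set.Ico ((m i : ℝ) / L) ((m i + 1) / L)) := by
  ext y
  rw [Set.mem_preimage, Set.mem_univ_pi]
  refine forall_congr' fun i => ?_
  rw [Set.mem_Ico, div_le_iff₀ hL, lt_div_iff₀ hL, mul_comm L]

theorem gbox_meas {k : ℕ} {L : ℝ} (hL : 0 < L) (m : Fin k → ℤ) : MeasurableSet (gbox L m) := by
  rw [gbox_eq hL]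
  exact (PiLp.volume_preserving_ofLp (Fin k)).measurable
    (MeasurableSet.univ_pi fun i => measurableSet_Ico)

theorem gbox_vol {k : ℕ} {L : ℝ} (hL : 0 < L) (m : Fin k → ℤ) :
    volume (gbox L m) = ENNReal.ofReal ((1 / L) ^ k) := by
  rw [gbox_eq hL, (PiLp.volume_preserving_ofLp (Fin k)).measure_preimage
    (MeasurableSet.univ_pi fun i => measurableSet_Ico).nullMeasurableSet, Real.volume_pi_Ico]
  have e : ∀ i : Fin k, ENNReal.ofReal (((m i : ℝ) + 1) / L - (m i : ℝ) / L) =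
      ENNReal.ofReal (1 / L) := by
    intro i
    congr 1
    field_simp
    ring
  rw [Finset.prod_congr rfl fun i _ => e i, Finset.prod_const, Finset.card_univ,
    Fintype.card_fin, ENNReal.ofReal_pow (by positivity)]

theorem gbox_disj {k : ℕ} {L : ℝ} {m m' : Fin k → ℤ} (h : m ≠ m') :
    Disjoint (gbox L m) (gbox L m') := by
  rw [Set.disjoint_left]
  intro y hy hy'
  apply h
  funext i
  have h1 := hy i
  have h2 := hy' i
  have a1 : (m i : ℝ) < m' i + 1 := by linarith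
  have a2 : (m' i : ℝ) < m i + 1 := by linarith
  have b1 : m i < m' i + 1 := by exact_mod_cast a1
  have b2 : m' i < m i + 1 := by exact_mod_cast a2
  omega

/-- The vector `(1, x)`. -/
noncomputable def sv {d : ℕ} (x : Fin d → ℝ) : EuclideanSpace ℝ (Fin (d + 1)) :=
  WithLp.toLp 2 (Fin.cons 1 x : Fin (d + 1) → ℝ)

/-- The unit vector parallel to `(1, x)`. -/
noncomputable def su {d : ℕ} (x : Fin d → ℝ) : EuclideanSpace ℝ (Fin (d + 1)) :=
  ‖sv x‖⁻¹ • sv x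

theorem norm_le_of_coord {k : ℕ} (w : EuclideanSpace ℝ (Fin k)) {r : ℝ} (hr : 0 ≤ r)
    (h : ∀ i, |w i| ≤ r) (hk : 1 ≤ k) : ‖w‖ ≤ k * r := by
  have hkR : (1 : ℝ) ≤ k := by exact_mod_cast hk
  have h1 : ‖w‖ ^ 2 ≤ (k * r) ^ 2 := by
    rw [EuclideanSpace.norm_sq_eq]
    have h2 : ∑ i, ‖w i‖ ^ 2 ≤ ∑ _i : Fin k, r ^ 2 := by
      refine Finset.sum_le_sum fun i _ => ?_
      rw [Real.norm_eq_abs]
      exact pow_le_pow_left₀ (abs_nonneg _) (h i) 2
    rw [Finset.sum_const, Finset.card_univ, Fintype.card_fin, nsmul_eq_mul] at h2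
    refine h2.trans ?_
    rw [mul_pow]
    have : (k : ℝ) ≤ (k : ℝ) ^ 2 := by nlinarith
    exact mul_le_mul_of_nonneg_right this (sq_nonneg r)
  exact (pow_le_pow_iff_left₀ (norm_nonneg _) (by positivity) two_ne_zero).mp h1

theorem abs_coord_le {k : ℕ} (w : EuclideanSpace ℝ (Fin k)) (i : Fin k) : |w i| ≤ ‖w‖ := by
  have h := EuclideanSpace.norm_sq_eq w
  have h1 : ‖w i‖ ^ 2 ≤ ∑ i, ‖w i‖ ^ 2 :=
    Finset.single_le_sum (f := fun i => ‖w i‖ ^ 2) (fun i _ => sq_nonneg _) (Finset.mem_univ i)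
  rw [← h] at h1
  have := (pow_le_pow_iff_left₀ (norm_nonneg _) (norm_nonneg _) two_ne_zero).mp h1
  rwa [Real.norm_eq_abs] at this

theorem sv_zero {d : ℕ} (x : Fin d → ℝ) : sv x 0 = 1 := rfl

theorem sv_succ {d : ℕ} (x : Fin d → ℝ) (i : Fin d) : sv x i.succ = x i := rfl

theorem one_le_norm_sv {d : ℕ} (x : Fin d → ℝ) : 1 ≤ ‖sv x‖ := by
  have := abs_coord_le (sv x) 0
  rwa [sv_zero, abs_one] at this

theorem norm_sv_le {d : ℕ} {x : Fin d → ℝ} (h0 : ∀ i, 0 ≤ x i) (h1 : ∀ i, x i ≤ 1) :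
    ‖sv x‖ ≤ d + 1 := by
  have := norm_le_of_coord (sv x) zero_le_one (fun i => by
    refine Fin.cases ?_ (fun i => ?_) i
    · rw [sv_zero, abs_one]
    · rw [sv_succ, abs_of_nonneg (h0 i)]
      exact h1 i) (by omega)
  rw [mul_one] at this
  exact_mod_cast this

theorem norm_su {d : ℕ} (x : Fin d → ℝ) : ‖su x‖ = 1 := by
  have h := one_le_norm_sv x
  unfold su
  rw [norm_smul, norm_inv, norm_norm, inv_mul_cancel₀ (by positivity)]

theorem su_sep {d : ℕ} {x x' : Fin d → ℝ} (h0 : ∀ i, 0 ≤ x i) (h1 : ∀ i, x i ≤ 1)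
    (h0' : ∀ i, 0 ≤ x' i) (h1' : ∀ i, x' i ≤ 1) (i : Fin d) :
    |x i - x' i| ≤ 2 * (d + 1) * ‖su x - su x'‖ := by
  have hr := one_le_norm_sv x
  have hr' := one_le_norm_sv x'
  have hrd := norm_sv_le h0 h1
  obtain ⟨r, hre⟩ : ∃ r, r = ‖sv x‖ := ⟨_, rfl⟩
  obtain ⟨r', hre'⟩ : ∃ r', r' = ‖sv x'‖ := ⟨_, rfl⟩
  have a0 := abs_coord_le (su x - su x') 0
  have a1 := abs_coord_le (su x - su x') i.succ
  have e0 : (su x - su x') 0 = r⁻¹ - r'⁻¹ := by
    rw [hre, hre']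
    simp [su, sv_zero]
  have e1 : (su x - su x') i.succ = r⁻¹ * x i - r'⁻¹ * x' i := by
    rw [hre, hre']
    simp [su, sv_succ]
  rw [e0] at a0
  rw [e1] at a1
  rw [← hre] at hr hrd
  rw [← hre'] at hr'
  obtain ⟨η, hη⟩ : ∃ η, η = ‖su x - su x'‖ := ⟨_, rfl⟩
  have hη0 : 0 ≤ η := hη ▸ norm_nonneg _
  rw [← hη] at a0 a1 ⊢
  have hr0 : 0 < r := by linarith
  have hr0' : 0 < r' := by linarith
  have key : x i - x' i = r * (r⁻¹ * x i - r'⁻¹ * x' i) - x' i * (r * (r⁻¹ - r'⁻¹)) := by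
    field_simp
    ring
  rw [key]
  have b1 : |r * (r⁻¹ * x i - r'⁻¹ * x' i)| ≤ (d + 1) * η := by
    rw [abs_mul, abs_of_pos hr0]
    exact mul_le_mul hrd a1 (abs_nonneg _) (by positivity)
  have b2 : |x' i * (r * (r⁻¹ - r'⁻¹))| ≤ (d + 1) * η := by
    rw [abs_mul, abs_of_nonneg (h0' i), abs_mul, abs_of_pos hr0]
    calc x' i * (r * |r⁻¹ - r'⁻¹|) ≤ 1 * ((d + 1) * η) := by
          apply mul_le_mul (h1' i) _ (by positivity) zero_le_one
          exact mul_le_mul hrd a0 (abs_nonneg _) (by positivity)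
      _ = (d + 1) * η := one_mul _
  calc |r * (r⁻¹ * x i - r'⁻¹ * x' i) - x' i * (r * (r⁻¹ - r'⁻¹))|
      ≤ |r * (r⁻¹ * x i - r'⁻¹ * x' i)| + |x' i * (r * (r⁻¹ - r'⁻¹))| := abs_sub _ _
    _ ≤ 2 * (d + 1) * η := by linarith

/-- The box of a point of a line is in the tube around this line. -/
theorem gbox_sub {Ω : Type} {d n : ℕ} (hn : 1 ≤ n) {A D : Ω → Fin d → ℝ} {ω : Ω}
    (h0 : ∀ i, 0 ≤ D ω i) (h1 : ∀ i, D ω i ≤ 1) (j : Fin n) :
    gbox (6 * ((d : ℝ) + 1) * n) (Fin.cons ((j : ℕ) : ℤ) (cell A D j ω) : Fin (d + 1) → ℤ) ⊆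
      tube (1 / (3 * (n : ℝ)))
        (WithLp.toLp 2 (Fin.cons 0 (fun i => A ω i / (6 * ((d : ℝ) + 1) * n)) : Fin (d + 1) → ℝ))
        (su (D ω)) := by
  intro y hy
  have hnR : (1 : ℝ) ≤ n := by exact_mod_cast hn
  obtain ⟨L, hLe⟩ : ∃ L : ℝ, L = 6 * ((d : ℝ) + 1) * n := ⟨_, rfl⟩
  have hL : 0 < L := by rw [hLe]; positivity
  rw [← hLe] at hy ⊢
  have y0 := hy 0
  rw [Fin.cons_zero, Int.cast_natCast] at y0
  have hj : ((j : ℕ) : ℝ) + 1 ≤ n := by exact_mod_cast j.isLt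
  have hj0 : (0 : ℝ) ≤ ((j : ℕ) : ℝ) := Nat.cast_nonneg _
  have hr := one_le_norm_sv (D ω)
  have hrd := norm_sv_le h0 h1
  have hy0 : 0 ≤ y 0 := by
    by_contra hlt
    push Not at hlt
    have := mul_neg_of_pos_of_neg hL hlt
    linarith
  refine near_axis _ _ y (norm_su _) (y 0 * ‖sv (D ω)‖) (1 / (3 * (n : ℝ))) ?_ le_rfl ?_
  · rw [abs_of_nonneg (by positivity)]
    have h2 : y 0 * ‖sv (D ω)‖ ≤ 1 / 6 := by
      have h3 : L * y 0 ≤ n := by linarith
      have h4 : L * (y 0 * ‖sv (D ω)‖) ≤ n * (d + 1) := by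
        calc L * (y 0 * ‖sv (D ω)‖) = (L * y 0) * ‖sv (D ω)‖ := by ring
          _ ≤ n * (d + 1) := by
            apply mul_le_mul h3 hrd (by positivity) (by positivity)
      have h5 : (n : ℝ) * (d + 1) = L * (1 / 6) := by rw [hLe]; ring
      rw [h5] at h4
      exact le_of_mul_le_mul_left h4 hL
    have h6 : 1 / (3 * (n : ℝ)) ≤ 1 / 3 := by
      apply one_div_le_one_div_of_le (by norm_num)
      linarith
    linarith
  · have hax : y 0 • sv (D ω) = (y 0 * ‖sv (D ω)‖) • su (D ω) := by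
      unfold su
      rw [smul_smul, mul_assoc, mul_inv_cancel₀ (by positivity), mul_one]
    rw [← hax]
    have hb := norm_le_of_coord (y - ((WithLp.toLp 2 (Fin.cons 0 (fun i => A ω i / L) :
        Fin (d + 1) → ℝ)) + y 0 • sv (D ω))) (r := 2 / L) (by positivity) (fun i => by
      refine Fin.cases ?_ (fun i => ?_) i
      · have : (y - ((WithLp.toLp 2 (Fin.cons 0 (fun i => A ω i / L) :
          Fin (d + 1) → ℝ)) + y 0 • sv (D ω))) 0 = 0 := by
          simp [sv_zero]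
        rw [this, abs_zero]
        positivity
      · have e1 : (y - ((WithLp.toLp 2 (Fin.cons 0 (fun i => A ω i / L) :
          Fin (d + 1) → ℝ)) + y 0 • sv (D ω))) i.succ =
            y i.succ - (A ω i / L + y 0 * D ω i) := by
          simp [sv_succ]
        rw [e1]
        have yi := hy i.succ
        rw [Fin.cons_succ] at yi
        have c1 : (cell A D j ω i : ℝ) ≤ A ω i + ((j : ℕ) : ℝ) * D ω i := Int.floor_le _
        have c2 : A ω i + ((j : ℕ) : ℝ) * D ω i < (cell A D j ω i : ℝ) + 1 := Int.lt_floor_add_one _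
        have e2 : y i.succ - (A ω i / L + y 0 * D ω i) =
            (L * y i.succ - A ω i - L * y 0 * D ω i) / L := by
          field_simp
          ring
        rw [e2, abs_div, abs_of_pos hL]
        apply div_le_div_of_nonneg_right _ hL.le
        have c3 : (L * y 0 - ((j : ℕ) : ℝ)) * D ω i ≤ 1 * 1 := by
          apply mul_le_mul (by linarith [y0.2]) (h1 i) (h0 i) zero_le_one
        have c4 : 0 ≤ (L * y 0 - ((j : ℕ) : ℝ)) * D ω i :=
          mul_nonneg (by linarith [y0.1]) (h0 i)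
        rw [abs_le]
        constructor <;> nlinarith [yi.1, yi.2]) (by omega)
    refine hb.trans (le_of_eq ?_)
    rw [hLe]
    push_cast
    field_simp
    ring

end Pool.Agent.Zk22.En
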