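import Pool.Agent.Zk22.EntA

/-!
# The restricted incidence inequality
-/

set_option autoImplicit false

open Finset MeasureTheory Set
open scoped ENNReal Classical

namespace Pool.Agent.Zk22.En
open Pool.Agent.W46.KK (tube near_axis tube_isClosed)
open Pool.Agent.W46.HD
open Pool.Agent.Y244.WR (TubeQ)

/-- The number of the incidences of the lines of `W` and the cells of `X`. -/
noncomputable def inc {Ω : Type} [Fintype Ω] {d n : ℕ} (A D : Ω → Fin d → ℝ) (W : Finset Ω)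
    (X : Finset (Fin n × (Fin d → ℤ))) : ℝ :=
  ∑ ω ∈ W, ((Finset.univ.filter fun j : Fin n => (j, cell A D j ω) ∈ X).card : ℝ)

theorem inc_meas {Ω : Type} [Fintype Ω] {d n : ℕ} (hn : 1 ≤ n) {A D : Ω → Fin d → ℝ}
    (h0 : ∀ ω i, 0 ≤ D ω i) (h1 : ∀ ω i, D ω i ≤ 1) (W : Finset Ω)
    (X : Finset (Fin n × (Fin d → ℤ))) {q : ℝ} (hq : 1 < q) {B : ℝ} (hB : 0 ≤ B)
    (h : ∫⁻ x, (∑ i : W, (tube (1 / (3 * (n : ℝ)))
      (WithLp.toLp 2 (Fin.cons 0 (fun k => A i k / (6 * ((d : ℝ) + 1) * n)) : Fin (d + 1) → ℝ))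
        (su (D i))).indicator (fun _ => (1 : ℝ≥0∞)) x) ^ q ≤ ENNReal.ofReal B) :
    inc A D W X * (1 / (6 * ((d : ℝ) + 1) * n)) ^ (d + 1) ≤
      B ^ (1 / q) * (X.card * (1 / (6 * ((d : ℝ) + 1) * n)) ^ (d + 1)) ^ (1 - 1 / q) := by
  have hnR : (1 : ℝ) ≤ n := by exact_mod_cast hn
  obtain ⟨L, hLe⟩ : ∃ L : ℝ, L = 6 * ((d : ℝ) + 1) * n := ⟨_, rfl⟩
  have hL : 0 < L := by rw [hLe]; positivity
  obtain ⟨δ, hδ⟩ : ∃ δ : ℝ, δ = 1 / (3 * (n : ℝ)) := ⟨_, rfl⟩
  have hsub : ∀ (ω : Ω) (j : Fin n), gbox L (Fin.cons ((j : ℕ) : ℤ) (cell A D j ω) : Fin (d + 1) → ℤ) ⊆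
      tube δ (WithLp.toLp 2 (Fin.cons 0 (fun k => A ω k / L) : Fin (d + 1) → ℝ)) (su (D ω)) := by
    intro ω j
    rw [hLe, hδ]
    exact gbox_sub hn (h0 ω) (h1 ω) j
  rw [← hLe] at h ⊢
  rw [← hδ] at h
  obtain ⟨T, hT⟩ : ∃ T : Ω → Set (EuclideanSpace ℝ (Fin (d + 1))), T = fun ω =>
    tube δ (WithLp.toLp 2 (Fin.cons 0 (fun k => A ω k / L) : Fin (d + 1) → ℝ)) (su (D ω)) := ⟨_, rfl⟩
  have hTm : ∀ ω, MeasurableSet (T ω) := fun ω => by
    rw [hT]; exact (tube_isClosed _ _ _).measurableSet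
  have h' : ∫⁻ x, (∑ i : W, (T i).indicator (fun _ => (1 : ℝ≥0∞)) x) ^ q ≤ ENNReal.ofReal B := by
    rw [hT]; exact h
  have hsub' : ∀ (ω : Ω) (j : Fin n),
      gbox L (Fin.cons ((j : ℕ) : ℤ) (cell A D j ω) : Fin (d + 1) → ℤ) ⊆ T ω := by
    rw [hT]; exact hsub
  clear h hsub
  obtain ⟨bx, hbx⟩ : ∃ bx : Fin n × (Fin d → ℤ) → Set (EuclideanSpace ℝ (Fin (d + 1))),
    bx = fun x => gbox L (Fin.cons ((x.1 : ℕ) : ℤ) x.2 : Fin (d + 1) → ℤ) := ⟨_, rfl⟩
  obtain ⟨U, hU⟩ : ∃ U, U = ⋃ x ∈ X, bx x := ⟨_, rfl⟩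
  have hbm : ∀ x, MeasurableSet (bx x) := fun x => by rw [hbx]; exact gbox_meas hL _
  have hUm : MeasurableSet U := by
    rw [hU]
    exact X.measurableSet_biUnion fun x _ => hbm x
  have hbv : ∀ x, volume (bx x) = ENNReal.ofReal ((1 / L) ^ (d + 1)) := fun x => by
    rw [hbx]; exact gbox_vol hL _
  have hUv : volume U ≤ ENNReal.ofReal (X.card * (1 / L) ^ (d + 1)) := by
    rw [hU]
    refine (measure_biUnion_finset_le X _).trans ?_
    rw [Finset.sum_congr rfl fun x _ => hbv x, Finset.sum_const, nsmul_eq_mul,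
      ENNReal.ofReal_mul (by positivity), ENNReal.ofReal_natCast]
  have hline : ∀ ω : Ω, ENNReal.ofReal
      (((Finset.univ.filter fun j : Fin n => (j, cell A D j ω) ∈ X).card : ℝ) * (1 / L) ^ (d + 1)) ≤
      volume (T ω ∩ U) := by
    intro ω
    obtain ⟨J, hJ⟩ : ∃ J, J = Finset.univ.filter fun j : Fin n => (j, cell A D j ω) ∈ X := ⟨_, rfl⟩
    rw [← hJ]
    have hdis : (J : Set (Fin n)).PairwiseDisjoint fun j => bx (j, cell A D j ω) := by
      intro j _ j' _ hjj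
      rw [Function.onFun, hbx]
      apply gbox_disj
      intro e
      apply hjj
      have := congrFun e 0
      simp only [Fin.cons_zero] at this
      exact Fin.ext (by exact_mod_cast this)
    have hs : ∑ j ∈ J, volume (bx (j, cell A D j ω)) ≤ volume (T ω ∩ U) := by
      rw [← measure_biUnion_finset hdis fun j _ => hbm _]
      refine measure_mono (Set.iUnion₂_subset fun j hj => Set.subset_inter ?_ ?_)
      · rw [hbx]; exact hsub' ω j
      · rw [hU]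
        rw [hJ, Finset.mem_filter] at hj
        exact Set.subset_biUnion_of_mem (u := bx) (show (j, cell A D j ω) ∈ (X : Set _) from hj.2)
    refine le_trans (le_of_eq ?_) hs
    rw [Finset.sum_congr rfl fun j _ => hbv _, Finset.sum_const, nsmul_eq_mul,
      ENNReal.ofReal_mul (by positivity), ENNReal.ofReal_natCast]
  obtain ⟨F, hF⟩ : ∃ F : EuclideanSpace ℝ (Fin (d + 1)) → ℝ≥0∞,
    F = fun x => ∑ i : W, (T i).indicator (fun _ => (1 : ℝ≥0∞)) x := ⟨_, rfl⟩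
  have hFm : Measurable F := by
    rw [hF]
    exact Finset.measurable_fun_sum _ fun i _ => measurable_const.indicator (hTm i)
  have hsum : ENNReal.ofReal (inc A D W X * (1 / L) ^ (d + 1)) ≤ ∫⁻ x in U, F x := by
    have e1 : ∫⁻ x in U, F x = ∑ i : W, volume (T i ∩ U) := by
      rw [hF]
      beta_reduce
      rw [lintegral_finsetSum (Finset.univ : Finset W)
        (f := fun (i : W) x => (T i).indicator (fun _ => (1 : ℝ≥0∞)) x)
        fun i _ => measurable_const.indicator (hTm i)]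
      refine Finset.sum_congr rfl fun i _ => ?_
      rw [lintegral_indicator (hTm i), lintegral_const, one_mul, Measure.restrict_apply MeasurableSet.univ,
        Set.univ_inter, Measure.restrict_apply (hTm i)]
    rw [e1, Finset.sum_coe_sort W fun ω => volume (T ω ∩ U)]
    unfold inc
    rw [Finset.sum_mul, ENNReal.ofReal_sum_of_nonneg fun ω _ => by positivity]
    exact Finset.sum_le_sum fun ω _ => hline ω
  have hq0 : 0 < q := by linarith
  have hconj : q.HolderConjugate (q / (q - 1)) := Real.HolderConjugate.conjExponent hq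
  have hhol := ENNReal.lintegral_mul_le_Lp_mul_Lq (volume.restrict U) hconj
    (f := F) (g := fun _ => 1) hFm.aemeasurable aemeasurable_const
  have e2 : (F * (fun _ => (1 : ℝ≥0∞)) : EuclideanSpace ℝ (Fin (d + 1)) → ℝ≥0∞) = F := by
    funext x
    rw [Pi.mul_apply, mul_one]
  rw [e2] at hhol
  have e3 : ∫⁻ _x in U, (1 : ℝ≥0∞) ^ (q / (q - 1)) = volume U := by
    rw [ENNReal.one_rpow, lintegral_const, one_mul, Measure.restrict_apply MeasurableSet.univ,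
      Set.univ_inter]
  rw [e3] at hhol
  have e4 : ∫⁻ x in U, F x ^ q ≤ ENNReal.ofReal B := by
    refine (setLIntegral_le_lintegral U _).trans ?_
    rw [hF]
    exact h'
  have e5 : 1 / (q / (q - 1)) = 1 - 1 / q := by
    have : q - 1 ≠ 0 := by linarith
    field_simp
  rw [e5] at hhol
  have hfin : ENNReal.ofReal (inc A D W X * (1 / L) ^ (d + 1)) ≤
      ENNReal.ofReal (B ^ (1 / q) * (X.card * (1 / L) ^ (d + 1)) ^ (1 - 1 / q)) := by
    refine hsum.trans (hhol.trans ?_)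
    have hpos : 0 ≤ 1 - 1 / q := by
      rw [sub_nonneg, div_le_one hq0]
      exact hq.le
    rw [ENNReal.ofReal_mul (by positivity), ← ENNReal.ofReal_rpow_of_nonneg hB (by positivity),
      ← ENNReal.ofReal_rpow_of_nonneg (by positivity) hpos]
    exact mul_le_mul' (ENNReal.rpow_le_rpow e4 (by positivity)) (ENNReal.rpow_le_rpow hUv hpos)
  exact (ENNReal.ofReal_le_ofReal_iff (by positivity)).1 hfin

/-- The incidence inequality for separated slopes. -/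
theorem inc_class {d : ℕ} (hd : 1 ≤ d) {q : ℝ} (hq : 1 < q) (h : TubeQ d q) :
    ∃ K : ℝ, 0 < K ∧ ∀ (n : ℕ) (Ω : Type) [Fintype Ω] (A D : Ω → Fin d → ℝ), 1 ≤ n →
      (∀ ω i, 0 ≤ D ω i) → (∀ ω i, D ω i ≤ 1) → ∀ W : Finset Ω,
      (∀ ω ∈ W, ∀ ω' ∈ W, ω ≠ ω' → 1 / (3 * (n : ℝ)) ≤ ‖su (D ω) - su (D ω')‖) →
      ∀ X : Finset (Fin n × (Fin d → ℤ)),
        inc A D W X ≤ K * (n : ℝ) ^ (1 / q) * (W.card : ℝ) ^ (1 - 1 / (q * d)) *
          (X.card : ℝ) ^ (1 - 1 / q) := by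
  obtain ⟨C, hC, h⟩ := h
  have hq0 : 0 < q := by linarith
  have hdR : (1 : ℝ) ≤ d := by exact_mod_cast hd
  refine ⟨(C * (6 * ((d : ℝ) + 1)) ^ (d + 1)) ^ (1 / q), by positivity, ?_⟩
  intro n Ω _ A D hn h0 h1 W hsep X
  have hnR : (1 : ℝ) ≤ n := by exact_mod_cast hn
  obtain ⟨L, hLe⟩ : ∃ L : ℝ, L = 6 * ((d : ℝ) + 1) * n := ⟨_, rfl⟩
  have hL : 0 < L := by rw [hLe]; positivity
  have hδ1 : 1 / (3 * (n : ℝ)) < 1 := by
    rw [div_lt_one (by positivity)]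
    linarith
  have hB := h (1 / (3 * (n : ℝ))) (by positivity) hδ1 W
    (fun i => WithLp.toLp 2 (Fin.cons 0 (fun k => A i k / (6 * ((d : ℝ) + 1) * n)) :
      Fin (d + 1) → ℝ)) (fun i => su (D i)) (fun i => norm_su _)
    (fun i j hij => hsep i i.2 j j.2 fun e => hij (Subtype.ext e))
  rw [Fintype.card_coe] at hB
  have key := inc_meas hn h0 h1 W X hq (by positivity) hB
  rw [← hLe] at key
  have hV : 0 < (1 / L) ^ (d + 1) := by positivity
  obtain ⟨V, hVe⟩ : ∃ V, V = (1 / L) ^ (d + 1) := ⟨_, rfl⟩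
  rw [← hVe] at key hV
  have hpos : 0 ≤ 1 - 1 / q := by
    rw [sub_nonneg, div_le_one hq0]
    exact hq.le
  rw [Real.mul_rpow (Nat.cast_nonneg _) hV.le] at key
  have hVV : V ^ (1 - 1 / q) * V ^ (1 / q) = V := by
    rw [← Real.rpow_add hV]
    norm_num
  have k2 : inc A D W X * V ^ (1 / q) ≤
      (C * (1 / (3 * (n : ℝ))) ^ (d : ℝ) * (W.card : ℝ) ^ (q - 1 / (d : ℝ))) ^ (1 / q) *
        (X.card : ℝ) ^ (1 - 1 / q) := by
    have hV1 : 0 < V ^ (1 - 1 / q) := by positivity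
    have k3 : V ^ (1 - 1 / q) * (inc A D W X * V ^ (1 / q)) ≤ V ^ (1 - 1 / q) *
      ((C * (1 / (3 * (n : ℝ))) ^ (d : ℝ) * (W.card : ℝ) ^ (q - 1 / (d : ℝ))) ^ (1 / q) *
        (X.card : ℝ) ^ (1 - 1 / q)) := by
      calc V ^ (1 - 1 / q) * (inc A D W X * V ^ (1 / q)) =
          inc A D W X * (V ^ (1 - 1 / q) * V ^ (1 / q)) := by ring
        _ = inc A D W X * V := by rw [hVV]
        _ ≤ _ := key
        _ = _ := by ring
    exact le_of_mul_le_mul_left k3 hV1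
  have hVq : V ^ (1 / q) = (L ^ (d + 1)) ^ (-(1 / q)) := by
    rw [hVe, one_div, inv_pow, Real.inv_rpow (by positivity), Real.rpow_neg (by positivity)]
  have hLq : 0 < (L ^ (d + 1)) ^ (1 / q) := by positivity
  rw [hVq, Real.rpow_neg (by positivity), ← div_eq_mul_inv, div_le_iff₀ hLq] at k2
  refine k2.trans ?_
  have e1 : (C * (1 / (3 * (n : ℝ))) ^ (d : ℝ) * (W.card : ℝ) ^ (q - 1 / (d : ℝ))) ^ (1 / q) =
      (C * (1 / (3 * (n : ℝ))) ^ (d : ℝ)) ^ (1 / q) * (W.card : ℝ) ^ (1 - 1 / (q * d)) := by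
    rw [Real.mul_rpow (by positivity) (by positivity), ← Real.rpow_mul (by positivity)]
    congr 2
    field_simp
  rw [e1]
  have e2 : (C * (1 / (3 * (n : ℝ))) ^ (d : ℝ)) ^ (1 / q) * (L ^ (d + 1)) ^ (1 / q) ≤
      (C * (6 * ((d : ℝ) + 1)) ^ (d + 1)) ^ (1 / q) * (n : ℝ) ^ (1 / q) := by
    rw [← Real.mul_rpow (by positivity) (by positivity),
      ← Real.mul_rpow (by positivity) (by positivity)]
    apply Real.rpow_le_rpow (by positivity) _ (by positivity)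
    rw [hLe, Real.rpow_natCast]
    have e3 : C * (1 / (3 * (n : ℝ))) ^ d * (6 * ((d : ℝ) + 1) * n) ^ (d + 1) =
        (C * (6 * ((d : ℝ) + 1)) ^ (d + 1) * n) * (1 / 3) ^ d := by
      rw [mul_pow (6 * ((d : ℝ) + 1)) (n : ℝ), div_pow, div_pow, mul_pow]
      field_simp
      ring
    rw [e3]
    apply mul_le_of_le_one_right (by positivity)
    exact pow_le_one₀ (by norm_num) (by norm_num)
  calc (C * (1 / (3 * (n : ℝ))) ^ (d : ℝ)) ^ (1 / q) * (W.card : ℝ) ^ (1 - 1 / (q * d)) *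
        (X.card : ℝ) ^ (1 - 1 / q) * (L ^ (d + 1)) ^ (1 / q) =
      ((C * (1 / (3 * (n : ℝ))) ^ (d : ℝ)) ^ (1 / q) * (L ^ (d + 1)) ^ (1 / q)) *
        ((W.card : ℝ) ^ (1 - 1 / (q * d)) * (X.card : ℝ) ^ (1 - 1 / q)) := by ring
    _ ≤ ((C * (6 * ((d : ℝ) + 1)) ^ (d + 1)) ^ (1 / q) * (n : ℝ) ^ (1 / q)) *
        ((W.card : ℝ) ^ (1 - 1 / (q * d)) * (X.card : ℝ) ^ (1 - 1 / q)) := by
      apply mul_le_mul_of_nonneg_right e2 (by positivity)
    _ = _ := by ring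

end Pool.Agent.Zk22.En
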