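import Pool.Agent.Zk22.EntB

/-!
# The restricted incidence inequality for all families; interpolation
-/

set_option autoImplicit false

open Finset MeasureTheory
open scoped ENNReal Classical

namespace Pool.Agent.Zk22.En
open Pool.Agent.W904.AK
open Pool.Agent.W46.KK (tube near_axis tube_isClosed)
open Pool.Agent.W46.HD
open Pool.Agent.Y244.WR (TubeQ)

/-- The restricted incidence inequality with exponent `b`. -/
def ResI (d : ℕ) (b : ℝ) : Prop := ∃ K : ℝ, 0 < K ∧ ∀ (n : ℕ) (Ω : Type) [Fintype Ω]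
  (A D : Ω → Fin d → ℝ), IsFam n D → ∀ (W : Finset Ω) (X : Finset (Fin n × (Fin d → ℤ))),
    inc A D W X ≤ K * (n : ℝ) ^ ((d : ℝ) / (b + d)) * (W.card : ℝ) ^ (1 - 1 / (b + d)) *
      (X.card : ℝ) ^ (1 - (d : ℝ) / (b + d))

theorem resI_of_tubeQ {d : ℕ} (hd : 1 ≤ d) {b : ℝ} (hb : 0 < b) (h : TubeQ d (1 + b / d)) :
    ResI d b := by
  have hdR : (1 : ℝ) ≤ d := by exact_mod_cast hd
  have hd0 : (0 : ℝ) < d := by linarith
  have hq1 : 1 < 1 + b / (d : ℝ) := by
    have : 0 < b / (d : ℝ) := by positivity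
    linarith
  obtain ⟨K, hK, h⟩ := inc_class hd hq1 h
  have e1 : 1 / (1 + b / (d : ℝ)) = d / (b + d) := by
    field_simp
    ring
  have e2 : 1 / ((1 + b / (d : ℝ)) * d) = 1 / (b + d) := by
    congr 1
    field_simp
    ring
  rw [e1, e2] at h
  refine ⟨K * Fintype.card (Fin d → ZMod (d + 2)), by positivity, ?_⟩
  intro n Ω _ A D hfam W X
  have hn : 1 ≤ n := hfam.pos
  have hnR : (1 : ℝ) ≤ n := by exact_mod_cast hn
  have hn0 : (0 : ℝ) < n := by linarith
  obtain ⟨κ, hκ⟩ : ∃ κ : Ω → (Fin d → ZMod (d + 2)),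
    κ = fun ω i => ((⌊(n : ℝ) * D ω i⌋ : ℤ) : ZMod (d + 2)) := ⟨_, rfl⟩
  have hpos : 0 ≤ 1 - 1 / (b + d) := by
    rw [sub_nonneg, div_le_one (by positivity)]
    linarith
  have hcl : ∀ k : Fin d → ZMod (d + 2), inc A D (W.filter fun ω => κ ω = k) X ≤
      K * (n : ℝ) ^ ((d : ℝ) / (b + d)) * (W.card : ℝ) ^ (1 - 1 / (b + d)) *
      (X.card : ℝ) ^ (1 - (d : ℝ) / (b + d)) := by
    intro k
    refine (h n Ω A D hn hfam.lo hfam.hi (W.filter fun ω => κ ω = k) ?_ X).trans ?_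
    · intro ω hω ω' hω' hne
      rw [Finset.mem_filter] at hω hω'
      have hk : κ ω = κ ω' := hω.2.trans hω'.2.symm
      have hex : ∃ i, ⌊(n : ℝ) * D ω i⌋ ≠ ⌊(n : ℝ) * D ω' i⌋ := by
        by_contra hcon
        push Not at hcon
        exact hne (hfam.inj ω ω' hcon)
      obtain ⟨i, hi⟩ := hex
      have hki := congrFun hk i
      rw [hκ] at hki
      have hdvd := (ZMod.intCast_eq_intCast_iff_dvd_sub _ _ _).1 hki
      obtain ⟨m, hm⟩ := hdvd
      have hm0 : m ≠ 0 := by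
        rintro rfl
        apply hi
        rw [mul_zero] at hm
        omega
      have h1m : 1 ≤ |m| := Int.one_le_abs hm0
      have habs : (d : ℝ) + 2 ≤ |((⌊(n : ℝ) * D ω' i⌋ : ℤ) : ℝ) - ((⌊(n : ℝ) * D ω i⌋ : ℤ) : ℝ)| := by
        have e3 : ((⌊(n : ℝ) * D ω' i⌋ : ℤ) : ℝ) - ((⌊(n : ℝ) * D ω i⌋ : ℤ) : ℝ) =
            ((d : ℝ) + 2) * m := by
          have := congrArg (Int.cast : ℤ → ℝ) hm
          push_cast at this
          exact this
        rw [e3, abs_mul, abs_of_pos (by positivity)]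
        have : (1 : ℝ) ≤ |(m : ℝ)| := by exact_mod_cast h1m
        nlinarith
      have hD : (d : ℝ) + 1 ≤ |n * D ω i - n * D ω' i| := by
        have f1 := Int.floor_le ((n : ℝ) * D ω i)
        have f2 := Int.lt_floor_add_one ((n : ℝ) * D ω i)
        have f3 := Int.floor_le ((n : ℝ) * D ω' i)
        have f4 := Int.lt_floor_add_one ((n : ℝ) * D ω' i)
        rcases abs_cases (((⌊(n : ℝ) * D ω' i⌋ : ℤ) : ℝ) - ((⌊(n : ℝ) * D ω i⌋ : ℤ) : ℝ)) with
          ⟨g1, _⟩ | ⟨g1, _⟩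
        · rw [g1] at habs
          rw [le_abs]
          right
          linarith
        · rw [g1] at habs
          rw [le_abs]
          left
          linarith
      have hD' : ((d : ℝ) + 1) / n ≤ |D ω i - D ω' i| := by
        rw [div_le_iff₀ hn0]
        have e4 : |D ω i - D ω' i| * n = |n * D ω i - n * D ω' i| := by
          rw [← mul_sub, abs_mul, abs_of_pos hn0, mul_comm]
        rw [e4]
        exact hD
      have hs := su_sep (hfam.lo ω) (hfam.hi ω) (hfam.lo ω') (hfam.hi ω') i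
      have h5 : ((d : ℝ) + 1) / n ≤ 2 * (d + 1) * ‖su (D ω) - su (D ω')‖ := hD'.trans hs
      have h6 : 1 / (2 * (n : ℝ)) ≤ ‖su (D ω) - su (D ω')‖ := by
        have e5 : 1 / (2 * (n : ℝ)) = (((d : ℝ) + 1) / n) / (2 * (d + 1)) := by
          field_simp
        rw [e5, div_le_iff₀ (by positivity)]
        linarith
      refine le_trans ?_ h6
      apply one_div_le_one_div_of_le (by positivity)
      linarith
    · have hc : ((W.filter fun ω => κ ω = k).card : ℝ) ≤ W.card := by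
        exact_mod_cast Finset.card_filter_le _ _
      gcongr
  have hsum : inc A D W X = ∑ k, inc A D (W.filter fun ω => κ ω = k) X := by
    unfold inc
    rw [Finset.sum_fiberwise]
  rw [hsum]
  refine (Finset.sum_le_sum fun k _ => hcl k).trans (le_of_eq ?_)
  rw [Finset.sum_const, Finset.card_univ, nsmul_eq_mul]
  ring

/-- Sums of a decaying exponential over sets of integers. -/
theorem geo_sum {g : ℝ} (hg : 0 < g) : ∃ S : ℝ, 0 < S ∧ ∀ (T : Finset ℤ) (c : ℝ),
    ∑ m ∈ T, Real.exp (-(g * |(m : ℝ) - c|)) ≤ S := by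
  obtain ⟨θ, hθ⟩ : ∃ θ : ℝ, θ = Real.exp (-g) := ⟨_, rfl⟩
  have hθ0 : 0 < θ := hθ ▸ Real.exp_pos _
  have hθ1 : θ < 1 := by
    rw [hθ, Real.exp_lt_one_iff]
    linarith
  have hgeo : ∀ (s : Finset ℕ), ∑ i ∈ s, θ ^ i ≤ (1 - θ)⁻¹ := by
    intro s
    rw [← tsum_geometric_of_lt_one hθ0.le hθ1]
    exact (summable_geometric_of_lt_one hθ0.le hθ1).sum_le_tsum s fun i _ => by positivity
  have h1θ : 0 < (1 - θ)⁻¹ := inv_pos.mpr (by linarith)
  have hexp : ∀ i : ℕ, θ ^ i = Real.exp (-(g * i)) := by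
    intro i
    rw [hθ, ← Real.exp_nat_mul]
    congr 1
    ring
  refine ⟨Real.exp g * (2 * (1 - θ)⁻¹), by positivity, ?_⟩
  intro T c
  have hb : ∀ m : ℤ, Real.exp (-(g * |(m : ℝ) - c|)) ≤
      Real.exp g * θ ^ (m - ⌊c⌋).natAbs := by
    intro m
    rw [hexp, ← Real.exp_add, Real.exp_le_exp]
    have e1 : (((m - ⌊c⌋).natAbs : ℕ) : ℝ) = |(m : ℝ) - ⌊c⌋| := by
      rw [Nat.cast_natAbs]
      push_cast
      rfl
    rw [e1]
    have h2 : |(m : ℝ) - ⌊c⌋| ≤ |(m : ℝ) - c| + 1 := by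
      have h3 : |c - ⌊c⌋| ≤ 1 := by
        rw [abs_of_nonneg (by linarith [Int.floor_le c])]
        linarith [Int.lt_floor_add_one c]
      calc |(m : ℝ) - ⌊c⌋| = |((m : ℝ) - c) + (c - ⌊c⌋)| := by ring_nf
        _ ≤ |(m : ℝ) - c| + |c - ⌊c⌋| := abs_add_le _ _
        _ ≤ _ := by linarith
    nlinarith
  refine (Finset.sum_le_sum fun m _ => hb m).trans ?_
  rw [← Finset.mul_sum]
  apply mul_le_mul_of_nonneg_left _ (Real.exp_pos _).le
  rw [← Finset.sum_filter_add_sum_filter_not T (fun m => ⌊c⌋ ≤ m)]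
  have hp : ∀ (T' : Finset ℤ), Set.InjOn (fun m : ℤ => (m - ⌊c⌋).natAbs) T' →
      ∑ m ∈ T', θ ^ (m - ⌊c⌋).natAbs ≤ (1 - θ)⁻¹ := by
    intro T' hT'
    rw [← Finset.sum_image (f := fun i => θ ^ i) (g := fun m : ℤ => (m - ⌊c⌋).natAbs) hT']
    exact hgeo _
  have q1 := hp (T.filter fun m => ⌊c⌋ ≤ m) (by
    intro m hm m' hm' h
    rw [Finset.mem_coe, Finset.mem_filter] at hm hm'
    simp only at h
    omega)
  have q2 := hp (T.filter fun m => ¬ ⌊c⌋ ≤ m) (by
    intro m hm m' hm' h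
    rw [Finset.mem_coe, Finset.mem_filter] at hm hm'
    simp only at h
    omega)
  linarith

/-- Gibbs' inequality. -/
theorem gibbs {Θ : Type*} [Fintype Θ] {p : Θ → ℝ} (hp : IsLaw p) {u : Θ → ℝ}
    (hu : ∀ z, p z ≠ 0 → 0 < u z) :
    H p id ≤ ∑ z, p z * -Real.log (u z) +
      Real.log (∑ z ∈ Finset.univ.filter (fun z => p z ≠ 0), u z) := by
  obtain ⟨Z, hZ⟩ : ∃ Z, Z = Finset.univ.filter (fun z => p z ≠ 0) := ⟨_, rfl⟩
  have hmem : ∀ z, z ∈ Z ↔ p z ≠ 0 := fun z => by rw [hZ, Finset.mem_filter]; simp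
  rw [← hZ]
  obtain ⟨U, hU⟩ : ∃ U, U = ∑ z ∈ Z, u z := ⟨_, rfl⟩
  have hne : Z.Nonempty := by
    by_contra hcon
    rw [Finset.not_nonempty_iff_eq_empty] at hcon
    have : ∑ z, p z = 0 := Finset.sum_eq_zero fun z _ => by
      by_contra hz
      have := (hmem z).2 hz
      rw [hcon] at this
      exact absurd this (Finset.notMem_empty z)
    rw [hp.total] at this
    exact one_ne_zero this
  have hU0 : 0 < U := by
    rw [hU]
    exact Finset.sum_pos (fun z hz => hu z ((hmem z).1 hz)) hne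
  have hpt : ∀ z, p z * (-Real.log (im p id z) - -Real.log (u z) - Real.log U) ≤
      (if p z ≠ 0 then u z / U else 0) - p z := by
    intro z
    have him : im p id z = p z := by
      rw [im_eq_sum]
      simp
    by_cases hz : p z = 0
    · simp [hz]
    · rw [if_pos hz, him]
      have hpz : 0 < p z := lt_of_le_of_ne (hp.nonneg z) (Ne.symm hz)
      have huz := hu z hz
      have e1 : -Real.log (p z) - -Real.log (u z) - Real.log U = Real.log (u z / (p z * U)) := by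
        rw [Real.log_div huz.ne' (by positivity), Real.log_mul hz hU0.ne']
        ring
      rw [e1]
      have h1 := Real.log_le_sub_one_of_pos (show 0 < u z / (p z * U) by positivity)
      have h2 := mul_le_mul_of_nonneg_left h1 hpz.le
      refine h2.trans (le_of_eq ?_)
      field_simp
  have hs := Finset.sum_le_sum fun z (_ : z ∈ (Finset.univ : Finset Θ)) => hpt z
  have e2 : ∑ z, ((if p z ≠ 0 then u z / U else 0) - p z) = 0 := by
    rw [Finset.sum_sub_distrib, hp.total, ← Finset.sum_filter, ← hZ, ← Finset.sum_div, ← hU,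
      div_self hU0.ne', sub_self]
  have e3 : ∑ z, p z * (-Real.log (im p id z) - -Real.log (u z) - Real.log U) =
      H p id - ∑ z, p z * -Real.log (u z) - Real.log U := by
    unfold H
    simp only [mul_sub, Finset.sum_sub_distrib, ← Finset.sum_mul, hp.total, one_mul]
    rfl
  rw [e2, e3] at hs
  rw [← hU]
  linarith

end Pool.Agent.Zk22.En
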