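import Pool.Agent.Zk22.EntC

/-!
# The entropy inequality without loss from restricted incidence inequalities
-/

set_option autoImplicit false

open Finset MeasureTheory
open scoped ENNReal Classical

namespace Pool.Agent.Zk22.En
open Pool.Agent.W904.AK
open Pool.Agent.W46.HD

theorem inc_eq {Ω : Type} [Fintype Ω] {d n : ℕ} (A D : Ω → Fin d → ℝ) (W : Finset Ω)
    (X : Finset (Fin n × (Fin d → ℤ))) :
    inc A D W X = ((Finset.univ.filter fun z : Ω × Fin n =>
      z.1 ∈ W ∧ (z.2, cell A D z.2 z.1) ∈ X).card : ℝ) := by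
  unfold inc
  rw [Finset.card_filter, Fintype.sum_prod_type]
  push_cast
  have e : ∀ ω : Ω, (∑ j : Fin n, (if ω ∈ W ∧ (j, cell A D j ω) ∈ X then (1 : ℝ) else 0)) =
      if ω ∈ W then ((Finset.univ.filter fun j : Fin n => (j, cell A D j ω) ∈ X).card : ℝ)
        else 0 := by
    intro ω
    by_cases h : ω ∈ W
    · rw [if_pos h, Finset.card_filter]
      push_cast
      refine Finset.sum_congr rfl fun j _ => ?_
      simp [h]
    · rw [if_neg h]
      refine Finset.sum_eq_zero fun j _ => ?_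
      simp [h]
  rw [Finset.sum_congr rfl fun ω _ => e ω, ← Finset.sum_filter]
  congr 1
  ext ω
  simp

/-- The dyadic level of a number in `(0, 1]`. -/
noncomputable def lev (t : ℝ) : ℕ := ⌊-Real.log t / Real.log 2⌋₊

theorem lev_le {t : ℝ} (h0 : 0 < t) (h1 : t ≤ 1) : lev t * Real.log 2 ≤ -Real.log t := by
  have hl : 0 < Real.log 2 := Real.log_pos (by norm_num)
  rw [← le_div_iff₀ hl]
  apply Nat.floor_le
  have := Real.log_nonpos h0.le h1
  exact div_nonneg (by linarith) hl.le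

theorem lt_lev {t : ℝ} : -Real.log t < (lev t + 1) * Real.log 2 := by
  have hl : 0 < Real.log 2 := Real.log_pos (by norm_num)
  rw [← div_lt_iff₀ hl]
  exact Nat.lt_floor_add_one _

/-- A set of atoms of level `m` has at most `2 ^ (m + 1)` times its mass many elements. -/
theorem card_le_lev {α : Type*} (F : α → ℝ) (S : Finset α) (m : ℕ)
    (h : ∀ a ∈ S, 0 < F a ∧ lev (F a) = m) :
    (S.card : ℝ) ≤ (∑ a ∈ S, F a) * Real.exp ((m + 1) * Real.log 2) := by
  rw [Finset.sum_mul]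
  have h1 : ∀ a ∈ S, (1 : ℝ) ≤ F a * Real.exp ((m + 1) * Real.log 2) := by
    intro a ha
    obtain ⟨h2, h3⟩ := h a ha
    have h4 := lt_lev (t := F a)
    rw [h3] at h4
    calc (1 : ℝ) = Real.exp 0 := Real.exp_zero.symm
      _ ≤ Real.exp (Real.log (F a) + ((m : ℝ) + 1) * Real.log 2) := by
        rw [Real.exp_le_exp]
        linarith
      _ = F a * Real.exp ((m + 1) * Real.log 2) := by
        rw [Real.exp_add, Real.exp_log h2]
  calc (S.card : ℝ) = ∑ a ∈ S, (1 : ℝ) := by simp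
    _ ≤ _ := Finset.sum_le_sum h1

theorem mix_le {w x ρ σ : ℝ} (hw : 0 < w) (hw1 : w ≤ 1) (hx : 0 < x) (hx1 : x ≤ 1) (hρ : 0 ≤ ρ)
    (hσ : 0 ≤ σ) (h : 1 ≤ ρ + σ) : w ^ ρ * x ^ σ ≤ w + x := by
  have hm : 0 < max w x := lt_max_of_lt_left hw
  calc w ^ ρ * x ^ σ ≤ max w x ^ ρ * max w x ^ σ := by
        apply mul_le_mul (Real.rpow_le_rpow hw.le (le_max_left _ _) hρ)
          (Real.rpow_le_rpow hx.le (le_max_right _ _) hσ) (by positivity) (by positivity)
    _ = max w x ^ (ρ + σ) := (Real.rpow_add hm _ _).symm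
    _ ≤ max w x ^ (1 : ℝ) :=
        Real.rpow_le_rpow_of_exponent_ge hm (max_le hw1 hx1) h
    _ = max w x := Real.rpow_one _
    _ ≤ w + x := max_le (by linarith) (by linarith)

/-- One term of the interpolation. -/
theorem term_le {d : ℕ} (hd : 1 ≤ d) {b1 b b' : ℝ} (h1 : 1 ≤ b1) (hb : 0 < b) (hb' : b1 ≤ b')
    {n : ℕ} (hn : 1 ≤ n) {K I w x cW cX ℓ k : ℝ} (hK : 0 < K)
    (hw : 0 < w) (hw1 : w ≤ 1) (hx : 0 < x) (hx1 : x ≤ 1)
    (hcW : 0 ≤ cW) (hcX : 0 ≤ cX)
    (hW : cW ≤ w * Real.exp (ℓ + Real.log 2)) (hX : cX ≤ x * Real.exp (k + Real.log 2))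
    (hI : I ≤ K * (n : ℝ) ^ ((d : ℝ) / (b' + d)) * cW ^ (1 - 1 / (b' + d)) *
      cX ^ (1 - (d : ℝ) / (b' + d))) :
    I * Real.exp (-(ℓ * (1 - 1 / (b + d)) + k * (1 - d / (b + d)))) ≤
      4 * K * (n : ℝ) ^ ((d : ℝ) / (b + d)) * (w + x) *
        Real.exp ((1 / (b + d) - 1 / (b' + d)) * (ℓ + d * k - d * Real.log n)) := by
  have hdR : (1 : ℝ) ≤ d := by exact_mod_cast hd
  have hd0 : (0 : ℝ) < d := by linarith
  have hnR : (1 : ℝ) ≤ n := by exact_mod_cast hn
  have hn0 : (0 : ℝ) < n := by linarith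
  have hs' : 0 < b' + d := by linarith
  have hs : 0 < b + d := by linarith
  have hs1 : 0 < b1 + d := by linarith
  have p1 : 0 ≤ 1 - 1 / (b' + d) := by
    rw [sub_nonneg, div_le_one hs']; linarith
  have p1' : 1 - 1 / (b' + d) ≤ 1 := by
    have : 0 ≤ 1 / (b' + d) := by positivity
    linarith
  have p2 : 0 ≤ 1 - (d : ℝ) / (b' + d) := by
    rw [sub_nonneg, div_le_one hs']; linarith
  have p2' : 1 - (d : ℝ) / (b' + d) ≤ 1 := by
    have : 0 ≤ (d : ℝ) / (b' + d) := by positivity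
    linarith
  have q1 : 0 ≤ 1 - 1 / (b1 + d) := by
    rw [sub_nonneg, div_le_one hs1]; linarith
  have q2 : 0 ≤ 1 - (d : ℝ) / (b1 + d) := by
    rw [sub_nonneg, div_le_one hs1]; linarith
  have c1 : 1 - 1 / (b1 + d) ≤ 1 - 1 / (b' + d) := by
    have : 1 / (b' + d) ≤ 1 / (b1 + d) := one_div_le_one_div_of_le hs1 (by linarith)
    linarith
  have c2 : 1 - (d : ℝ) / (b1 + d) ≤ 1 - (d : ℝ) / (b' + d) := by
    have : (d : ℝ) / (b' + d) ≤ d / (b1 + d) := by gcongr
    linarith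
  have q3 : 1 ≤ (1 - 1 / (b1 + d)) + (1 - (d : ℝ) / (b1 + d)) := by
    have e : (1 - 1 / (b1 + d)) + (1 - (d : ℝ) / (b1 + d)) = 2 - (1 + d) / (b1 + d) := by ring
    rw [e]
    have : (1 + (d : ℝ)) / (b1 + d) ≤ 1 := by
      rw [div_le_one hs1]; linarith
    linarith
  have hl2 : 0 < Real.log 2 := Real.log_pos (by norm_num)
  have aW : cW ^ (1 - 1 / (b' + d)) ≤
      w ^ (1 - 1 / (b1 + d)) * (2 * Real.exp (ℓ * (1 - 1 / (b' + d)))) := by
    refine (Real.rpow_le_rpow hcW hW p1).trans ?_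
    rw [Real.mul_rpow hw.le (Real.exp_pos _).le, ← Real.exp_mul]
    apply mul_le_mul (Real.rpow_le_rpow_of_exponent_ge hw hw1 c1) _ (Real.exp_pos _).le
      (by positivity)
    have e : (ℓ + Real.log 2) * (1 - 1 / (b' + d)) =
        Real.log 2 * (1 - 1 / (b' + d)) + ℓ * (1 - 1 / (b' + d)) := by ring
    rw [e, Real.exp_add]
    apply mul_le_mul_of_nonneg_right _ (Real.exp_pos _).le
    calc Real.exp (Real.log 2 * (1 - 1 / (b' + d))) ≤ Real.exp (Real.log 2) := by
          rw [Real.exp_le_exp]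
          exact mul_le_of_le_one_right hl2.le p1'
      _ = 2 := Real.exp_log (by norm_num)
  have aX : cX ^ (1 - (d : ℝ) / (b' + d)) ≤
      x ^ (1 - (d : ℝ) / (b1 + d)) * (2 * Real.exp (k * (1 - (d : ℝ) / (b' + d)))) := by
    refine (Real.rpow_le_rpow hcX hX p2).trans ?_
    rw [Real.mul_rpow hx.le (Real.exp_pos _).le, ← Real.exp_mul]
    apply mul_le_mul (Real.rpow_le_rpow_of_exponent_ge hx hx1 c2) _ (Real.exp_pos _).le
      (by positivity)
    have e : (k + Real.log 2) * (1 - (d : ℝ) / (b' + d)) =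
        Real.log 2 * (1 - (d : ℝ) / (b' + d)) + k * (1 - (d : ℝ) / (b' + d)) := by ring
    rw [e, Real.exp_add]
    apply mul_le_mul_of_nonneg_right _ (Real.exp_pos _).le
    calc Real.exp (Real.log 2 * (1 - (d : ℝ) / (b' + d))) ≤ Real.exp (Real.log 2) := by
          rw [Real.exp_le_exp]
          exact mul_le_of_le_one_right hl2.le p2'
      _ = 2 := Real.exp_log (by norm_num)
  have hmix := mix_le hw hw1 hx hx1 q1 q2 q3
  have hnn : (n : ℝ) ^ ((d : ℝ) / (b' + d)) = Real.exp (Real.log n * (d / (b' + d))) :=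
    Real.rpow_def_of_pos hn0 _
  have hnn2 : (n : ℝ) ^ ((d : ℝ) / (b + d)) = Real.exp (Real.log n * (d / (b + d))) :=
    Real.rpow_def_of_pos hn0 _
  have hexp : 0 < Real.exp (-(ℓ * (1 - 1 / (b + d)) + k * (1 - (d : ℝ) / (b + d)))) := Real.exp_pos _
  calc I * Real.exp (-(ℓ * (1 - 1 / (b + d)) + k * (1 - d / (b + d))))
      ≤ (K * (n : ℝ) ^ ((d : ℝ) / (b' + d)) * cW ^ (1 - 1 / (b' + d)) *
          cX ^ (1 - (d : ℝ) / (b' + d))) *
          Real.exp (-(ℓ * (1 - 1 / (b + d)) + k * (1 - d / (b + d)))) :=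
        mul_le_mul_of_nonneg_right hI hexp.le
    _ ≤ (K * (n : ℝ) ^ ((d : ℝ) / (b' + d)) *
          (w ^ (1 - 1 / (b1 + d)) * (2 * Real.exp (ℓ * (1 - 1 / (b' + d))))) *
          (x ^ (1 - (d : ℝ) / (b1 + d)) * (2 * Real.exp (k * (1 - (d : ℝ) / (b' + d)))))) *
          Real.exp (-(ℓ * (1 - 1 / (b + d)) + k * (1 - d / (b + d)))) := by
        apply mul_le_mul_of_nonneg_right _ hexp.le
        apply mul_le_mul _ aX (by positivity) (by positivity)
        apply mul_le_mul_of_nonneg_left aW (by positivity)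
    _ = (4 * K * (w ^ (1 - 1 / (b1 + d)) * x ^ (1 - (d : ℝ) / (b1 + d)))) *
          (Real.exp (Real.log n * (d / (b' + d))) * Real.exp (ℓ * (1 - 1 / (b' + d))) *
            Real.exp (k * (1 - (d : ℝ) / (b' + d))) *
            Real.exp (-(ℓ * (1 - 1 / (b + d)) + k * (1 - d / (b + d))))) := by
        rw [hnn]; ring
    _ = (4 * K * (w ^ (1 - 1 / (b1 + d)) * x ^ (1 - (d : ℝ) / (b1 + d)))) *
          (Real.exp (Real.log n * (d / (b + d))) *
            Real.exp ((1 / (b + d) - 1 / (b' + d)) * (ℓ + d * k - d * Real.log n))) := by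
        rw [← Real.exp_add, ← Real.exp_add, ← Real.exp_add, ← Real.exp_add]
        congr 2
        field_simp
        ring
    _ ≤ (4 * K * (w + x)) * (Real.exp (Real.log n * (d / (b + d))) *
            Real.exp ((1 / (b + d) - 1 / (b' + d)) * (ℓ + d * k - d * Real.log n))) := by
        apply mul_le_mul_of_nonneg_right _ (by positivity)
        exact mul_le_mul_of_nonneg_left hmix (by positivity)
    _ = _ := by rw [hnn2]; ring

end Pool.Agent.Zk22.En
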