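import Pool.Agent.Zk22.EntD

/-!
# The entropy inequality without loss
-/

set_option autoImplicit false

open Finset MeasureTheory
open scoped ENNReal Classical

namespace Pool.Agent.Zk22.En
open Pool.Agent.W904.AK
open Pool.Agent.W46.HD

/-- The two-sided bound of one term. -/
theorem term2 {d : ℕ} (hd : 1 ≤ d) {b1 b b2 g c : ℝ} (h1 : 1 ≤ b1) (h12 : b1 < b) (h23 : b < b2)
    {n : ℕ} (hn : 1 ≤ n) {K I w x cW cX : ℝ} {ℓ k : ℕ} (hK : 0 < K)
    (hw : 0 < w) (hw1 : w ≤ 1) (hx : 0 < x) (hx1 : x ≤ 1)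
    (hcW : 0 ≤ cW) (hcX : 0 ≤ cX) (hg : 0 ≤ g)
    (hg1 : g ≤ (1 / (b1 + d) - 1 / (b + d)) * Real.log 2)
    (hg2 : g ≤ (1 / (b + d) - 1 / (b2 + d)) * Real.log 2)
    (hc : c = d * Real.log n / Real.log 2)
    (hW : cW ≤ w * Real.exp ((ℓ + 1) * Real.log 2)) (hX : cX ≤ x * Real.exp ((k + 1) * Real.log 2))
    (hI1 : I ≤ K * (n : ℝ) ^ ((d : ℝ) / (b1 + d)) * cW ^ (1 - 1 / (b1 + d)) *
      cX ^ (1 - (d : ℝ) / (b1 + d)))
    (hI2 : I ≤ K * (n : ℝ) ^ ((d : ℝ) / (b2 + d)) * cW ^ (1 - 1 / (b2 + d)) *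
      cX ^ (1 - (d : ℝ) / (b2 + d))) :
    I * Real.exp (-(ℓ * Real.log 2 * (1 - 1 / (b + d)) + k * Real.log 2 * (1 - d / (b + d)))) ≤
      4 * K * (n : ℝ) ^ ((d : ℝ) / (b + d)) * (w + x) *
        Real.exp (-(g * |((ℓ : ℝ) + d * k) - c|)) := by
  have hl2 : 0 < Real.log 2 := Real.log_pos (by norm_num)
  have hb : 0 < b := by linarith
  have hW' : cW ≤ w * Real.exp ((ℓ : ℝ) * Real.log 2 + Real.log 2) := by
    refine hW.trans (le_of_eq ?_)
    congr 2; ring
  have hX' : cX ≤ x * Real.exp ((k : ℝ) * Real.log 2 + Real.log 2) := by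
    refine hX.trans (le_of_eq ?_)
    congr 2; ring
  have hcl : c * Real.log 2 = d * Real.log n := by
    rw [hc]; field_simp
  have hB : 0 ≤ 4 * K * (n : ℝ) ^ ((d : ℝ) / (b + d)) * (w + x) := by positivity
  rcases le_total 0 (((ℓ : ℝ) + d * k) - c) with ht | ht
  · have hA := term_le hd h1 hb le_rfl hn hK hw hw1 hx hx1 hcW hcX hW' hX' hI1
    refine hA.trans (mul_le_mul_of_nonneg_left ?_ hB)
    rw [Real.exp_le_exp, abs_of_nonneg ht]
    have e : (ℓ : ℝ) * Real.log 2 + d * (k * Real.log 2) - d * Real.log n =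
        ((ℓ : ℝ) + d * k - c) * Real.log 2 := by
      rw [← hcl]; ring
    rw [e]
    have := mul_le_mul_of_nonneg_right hg1 ht
    linarith
  · have hA := term_le hd h1 hb (h12.trans h23).le hn hK hw hw1 hx hx1 hcW hcX hW' hX' hI2
    refine hA.trans (mul_le_mul_of_nonneg_left ?_ hB)
    rw [Real.exp_le_exp, abs_of_nonpos ht]
    have e : (ℓ : ℝ) * Real.log 2 + d * (k * Real.log 2) - d * Real.log n =
        ((ℓ : ℝ) + d * k - c) * Real.log 2 := by
      rw [← hcl]; ring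
    rw [e]
    have := mul_le_mul_of_nonneg_right hg2 (neg_nonneg.mpr ht)
    linarith

/-- Sum over the levels. -/
theorem level_sum {d : ℕ} (hd : 1 ≤ d) {g c S : ℝ}
    (hS : ∀ (T : Finset ℤ) (c : ℝ), ∑ m ∈ T, Real.exp (-(g * |(m : ℝ) - c|)) ≤ S)
    (w x : ℕ → ℝ) (hw : ∀ i, 0 ≤ w i) (hx : ∀ i, 0 ≤ x i)
    (hws : ∀ T : Finset ℕ, ∑ i ∈ T, w i ≤ 1) (hxs : ∀ T : Finset ℕ, ∑ i ∈ T, x i ≤ 1)
    (P : Finset (ℕ × ℕ)) (hS0 : 0 ≤ S) :
    ∑ y ∈ P, (w y.1 + x y.2) * Real.exp (-(g * |((y.1 : ℝ) + d * y.2) - c|)) ≤ 2 * S := by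
  have hd0 : (d : ℤ) ≠ 0 := by
    have : d ≠ 0 := by omega
    exact_mod_cast this
  obtain ⟨P1, hP1⟩ : ∃ P1, P1 = P.image Prod.fst := ⟨_, rfl⟩
  obtain ⟨P2, hP2⟩ : ∃ P2, P2 = P.image Prod.snd := ⟨_, rfl⟩
  have hsub : P ⊆ P1 ×ˢ P2 := by
    intro y hy
    rw [Finset.mem_product, hP1, hP2]
    exact ⟨Finset.mem_image_of_mem _ hy, Finset.mem_image_of_mem _ hy⟩
  refine (Finset.sum_le_sum_of_subset_of_nonneg hsub fun y _ _ =>
    mul_nonneg (add_nonneg (hw _) (hx _)) (Real.exp_pos _).le).trans ?_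
  simp only [add_mul, Finset.sum_add_distrib]
  have h1 : ∑ y ∈ P1 ×ˢ P2, w y.1 * Real.exp (-(g * |((y.1 : ℝ) + d * y.2) - c|)) ≤ S := by
    rw [Finset.sum_product]
    have e1 : ∀ i ∈ P1, ∑ k ∈ P2, w i * Real.exp (-(g * |((i : ℝ) + d * k) - c|)) ≤ w i * S := by
      intro i _
      rw [← Finset.mul_sum]
      apply mul_le_mul_of_nonneg_left _ (hw i)
      have h := hS (P2.image fun k : ℕ => (i : ℤ) + d * k) c
      rw [Finset.sum_image (by
        intro a _ a' _ haa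
        simp only at haa
        have h2 : (d : ℤ) * a = d * a' := by linarith
        exact_mod_cast mul_left_cancel₀ hd0 h2)] at h
      push_cast at h
      exact h
    refine (Finset.sum_le_sum e1).trans ?_
    rw [← Finset.sum_mul]
    calc (∑ i ∈ P1, w i) * S ≤ 1 * S := mul_le_mul_of_nonneg_right (hws P1) hS0
      _ = S := one_mul S
  have h2 : ∑ y ∈ P1 ×ˢ P2, x y.2 * Real.exp (-(g * |((y.1 : ℝ) + d * y.2) - c|)) ≤ S := by
    rw [Finset.sum_product_right]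
    have e1 : ∀ k ∈ P2, ∑ i ∈ P1, x k * Real.exp (-(g * |((i : ℝ) + d * k) - c|)) ≤ x k * S := by
      intro k _
      rw [← Finset.mul_sum]
      apply mul_le_mul_of_nonneg_left _ (hx k)
      have h := hS (P1.image fun i : ℕ => (i : ℤ) + d * k) c
      rw [Finset.sum_image (by
        intro a _ a' _ haa
        simp only at haa
        exact_mod_cast (add_right_cancel haa))] at h
      push_cast at h
      exact h
    refine (Finset.sum_le_sum e1).trans ?_
    rw [← Finset.sum_mul]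
    calc (∑ i ∈ P2, x i) * S ≤ 1 * S := mul_le_mul_of_nonneg_right (hxs P2) hS0
      _ = S := one_mul S
  linarith

/-- The masses of the levels. -/
theorem mass_le {α : Type*} {F : α → ℝ} (hF : ∀ a, 0 ≤ F a) (S : Finset α) (L : α → ℕ)
    (hS : ∑ a ∈ S, F a ≤ 1) (T : Finset ℕ) :
    ∑ i ∈ T, ∑ a ∈ S.filter (fun a => L a = i), F a ≤ 1 := by
  refine le_trans ?_ hS
  rw [← Finset.sum_fiberwise_of_maps_to (s := S) (t := S.image L) (g := L)
    (fun a ha => Finset.mem_image_of_mem _ ha) F]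
  rw [← Finset.sum_filter_add_sum_filter_not T (fun i => i ∈ S.image L)]
  have h0 : ∑ i ∈ T.filter (fun i => ¬ i ∈ S.image L), ∑ a ∈ S.filter (fun a => L a = i), F a = 0 := by
    refine Finset.sum_eq_zero fun i hi => ?_
    rw [Finset.mem_filter] at hi
    have h1 : S.filter (fun a => L a = i) = ∅ := by
      rw [Finset.filter_eq_empty_iff]
      intro a ha hL
      apply hi.2
      rw [← hL]
      exact Finset.mem_image_of_mem _ ha
    rw [h1, Finset.sum_empty]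
  rw [h0, add_zero]
  exact Finset.sum_le_sum_of_subset_of_nonneg
    (fun i hi => (Finset.mem_filter.1 hi).2) fun i _ _ => Finset.sum_nonneg fun a _ => hF a

/-- The entropy inequality without loss from two restricted inequalities. -/
theorem orS_of_resI {d : ℕ} (hd : 1 ≤ d) {b1 b b2 : ℝ} (h1 : 1 ≤ b1) (h12 : b1 < b) (h23 : b < b2)
    (H1 : ResI d b1) (H2 : ResI d b2) : ∃ C : ℝ, 0 ≤ C ∧ ∀ (n : ℕ) (Ω : Type) [Fintype Ω]
      (A D : Ω → Fin d → ℝ), IsFam n D → OrS n A D b d C := by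
  obtain ⟨K1, hK1, H1⟩ := H1
  obtain ⟨K2, hK2, H2⟩ := H2
  have hdR : (1 : ℝ) ≤ d := by exact_mod_cast hd
  have hd0 : (0 : ℝ) < d := by linarith
  have hl2 : 0 < Real.log 2 := Real.log_pos (by norm_num)
  have hs1 : 0 < b1 + d := by linarith
  have hs : 0 < b + d := by linarith
  have hs2 : 0 < b2 + d := by linarith
  obtain ⟨g, hg⟩ : ∃ g : ℝ, g = min ((1 / (b1 + d) - 1 / (b + d)) * Real.log 2)
    ((1 / (b + d) - 1 / (b2 + d)) * Real.log 2) := ⟨_, rfl⟩
  have hg0 : 0 < g := by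
    rw [hg, lt_min_iff]
    have e1 : 1 / (b + d) < 1 / (b1 + d) := one_div_lt_one_div_of_lt hs1 (by linarith)
    have e2 : 1 / (b2 + d) < 1 / (b + d) := one_div_lt_one_div_of_lt hs (by linarith)
    exact ⟨mul_pos (by linarith) hl2, mul_pos (by linarith) hl2⟩
  have hg1 : g ≤ (1 / (b1 + d) - 1 / (b + d)) * Real.log 2 := hg ▸ min_le_left _ _
  have hg2 : g ≤ (1 / (b + d) - 1 / (b2 + d)) * Real.log 2 := hg ▸ min_le_right _ _
  obtain ⟨S, hS0, hS⟩ := geo_sum hg0
  obtain ⟨K, hK⟩ : ∃ K : ℝ, K = max K1 K2 := ⟨_, rfl⟩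
  have hK0 : 0 < K := hK ▸ lt_max_of_lt_left hK1
  refine ⟨(b + d) * max 0 (Real.log (8 * K * S)), by positivity, ?_⟩
  intro n Ω _ A D hfam p hp
  have hn : 1 ≤ n := hfam.pos
  have hnR : (1 : ℝ) ≤ n := by exact_mod_cast hn
  have hn0 : (0 : ℝ) < n := by linarith
  obtain ⟨pt, hpt⟩ : ∃ pt : Ω × Fin n → Fin n × (Fin d → ℤ), pt = fun z => (z.2, cell A D z.2 z.1) :=
    ⟨_, rfl⟩
  obtain ⟨F, hF⟩ : ∃ F : Ω → ℝ, F = im p Prod.fst := ⟨_, rfl⟩
  obtain ⟨f, hf⟩ : ∃ f : Fin n × (Fin d → ℤ) → ℝ, f = im p pt := ⟨_, rfl⟩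
  have hF0 : ∀ ω, 0 ≤ F ω := fun ω => hF ▸ im_nonneg hp _ _
  have hF1 : ∀ ω, F ω ≤ 1 := fun ω => hF ▸ im_le_one hp _ _
  have hf0 : ∀ x, 0 ≤ f x := fun x => hf ▸ im_nonneg hp _ _
  have hf1 : ∀ x, f x ≤ 1 := fun x => hf ▸ im_le_one hp _ _
  have hFp : ∀ z, p z ≠ 0 → 0 < F z.1 := fun z hz => hF ▸ im_pos hp Prod.fst hz
  have hfp : ∀ z, p z ≠ 0 → 0 < f (pt z) := fun z hz => hf ▸ im_pos hp pt hz
  obtain ⟨SF, hSF⟩ : ∃ SF : Finset Ω, SF = Finset.univ.filter fun ω => F ω ≠ 0 := ⟨_, rfl⟩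
  obtain ⟨Sf, hSf⟩ : ∃ Sf : Finset (Fin n × (Fin d → ℤ)),
    Sf = (Finset.univ.image pt).filter fun x => f x ≠ 0 := ⟨_, rfl⟩
  obtain ⟨W, hW⟩ : ∃ W : ℕ → Finset Ω, W = fun i => SF.filter fun ω => lev (F ω) = i := ⟨_, rfl⟩
  obtain ⟨X, hX⟩ : ∃ X : ℕ → Finset (Fin n × (Fin d → ℤ)),
    X = fun i => Sf.filter fun x => lev (f x) = i := ⟨_, rfl⟩
  have hsF : ∑ ω ∈ SF, F ω ≤ 1 := by
    have h2 : ∑ ω, F ω = 1 := by rw [hF]; exact (hp.im Prod.fst).total
    rw [← h2]
    exact Finset.sum_le_sum_of_subset_of_nonneg (Finset.subset_univ _) fun ω _ _ => hF0 ω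
  have hsf : ∑ x ∈ Sf, f x ≤ 1 := by
    have h2 : ∑ x ∈ Finset.univ.image pt, f x = 1 := by
      rw [hf, ← hp.total]
      rw [← Finset.sum_fiberwise_of_maps_to (s := Finset.univ) (t := Finset.univ.image pt) (g := pt)
        (fun a ha => Finset.mem_image_of_mem _ ha) p]
      refine Finset.sum_congr rfl fun x _ => ?_
      rw [im_eq_sum, Finset.sum_filter]
      refine Finset.sum_congr rfl fun a _ => ?_
      by_cases h : pt a = x <;> simp [h]
    rw [← h2, hSf]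
    exact Finset.sum_le_sum_of_subset_of_nonneg (Finset.filter_subset _ _) fun x _ _ => hf0 x
  obtain ⟨w, hwd⟩ : ∃ w : ℕ → ℝ, w = fun i => ∑ ω ∈ W i, F ω := ⟨_, rfl⟩
  obtain ⟨x, hxd⟩ : ∃ x : ℕ → ℝ, x = fun i => ∑ y ∈ X i, f y := ⟨_, rfl⟩
  have hw0 : ∀ i, 0 ≤ w i := fun i => by rw [hwd]; exact Finset.sum_nonneg fun ω _ => hF0 ω
  have hx0 : ∀ i, 0 ≤ x i := fun i => by rw [hxd]; exact Finset.sum_nonneg fun y _ => hf0 y
  have hws : ∀ T : Finset ℕ, ∑ i ∈ T, w i ≤ 1 := fun T => by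
    rw [hwd, hW]; exact mass_le hF0 SF (fun ω => lev (F ω)) hsF T
  have hxs : ∀ T : Finset ℕ, ∑ i ∈ T, x i ≤ 1 := fun T => by
    rw [hxd, hX]; exact mass_le hf0 Sf (fun y => lev (f y)) hsf T
  obtain ⟨u, hu⟩ : ∃ u : Ω × Fin n → ℝ, u = fun z =>
    Real.exp (-(lev (F z.1) * Real.log 2 * (1 - 1 / (b + d)) +
      lev (f (pt z)) * Real.log 2 * (1 - d / (b + d)))) := ⟨_, rfl⟩
  have hupos : ∀ z, 0 < u z := fun z => by rw [hu]; exact Real.exp_pos _
  have hgib := gibbs hp (u := u) fun z _ => hupos z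
  obtain ⟨Z, hZ⟩ : ∃ Z, Z = Finset.univ.filter (fun z => p z ≠ 0) := ⟨_, rfl⟩
  rw [← hZ] at hgib
  have hZm : ∀ z, z ∈ Z ↔ p z ≠ 0 := fun z => by rw [hZ, Finset.mem_filter]; simp
  -- the sum of `u`
  have hsum : ∑ z ∈ Z, u z ≤ 8 * K * S * (n : ℝ) ^ ((d : ℝ) / (b + d)) := by
    obtain ⟨lv, hlv⟩ : ∃ lv : Ω × Fin n → ℕ × ℕ, lv = fun z => (lev (F z.1), lev (f (pt z))) :=
      ⟨_, rfl⟩
    rw [← Finset.sum_fiberwise_of_maps_to (s := Z) (t := Z.image lv) (g := lv)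
        (fun a ha => Finset.mem_image_of_mem _ ha) u]
    have hterm : ∀ y ∈ Z.image lv, ∑ z ∈ Z.filter (fun z => lv z = y), u z ≤
        4 * K * (n : ℝ) ^ ((d : ℝ) / (b + d)) * ((w y.1 + x y.2) *
          Real.exp (-(g * |((y.1 : ℝ) + d * y.2) - d * Real.log n / Real.log 2|))) := by
      intro y hy
      obtain ⟨z0, hz0, hz0y⟩ := Finset.mem_image.1 hy
      have hpz0 := (hZm z0).1 hz0
      have hWmem : z0.1 ∈ W y.1 := by
        rw [hW, Finset.mem_filter, hSF, Finset.mem_filter]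
        refine ⟨⟨Finset.mem_univ _, (hFp z0 hpz0).ne'⟩, ?_⟩
        rw [← hz0y, hlv]
      have hXmem : pt z0 ∈ X y.2 := by
        rw [hX, Finset.mem_filter, hSf, Finset.mem_filter]
        refine ⟨⟨Finset.mem_image_of_mem _ (Finset.mem_univ _), (hfp z0 hpz0).ne'⟩, ?_⟩
        rw [← hz0y, hlv]
      have hwy : 0 < w y.1 := by
        rw [hwd]
        exact lt_of_lt_of_le (hFp z0 hpz0)
          (Finset.single_le_sum (f := F) (fun ω _ => hF0 ω) hWmem)
      have hxy : 0 < x y.2 := by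
        rw [hxd]
        exact lt_of_lt_of_le (hfp z0 hpz0)
          (Finset.single_le_sum (f := f) (fun ω _ => hf0 ω) hXmem)
      have hwy1 : w y.1 ≤ 1 := by
        have := hws {y.1}
        rwa [Finset.sum_singleton] at this
      have hxy1 : x y.2 ≤ 1 := by
        have := hxs {y.2}
        rwa [Finset.sum_singleton] at this
      have hcW := card_le_lev F (W y.1) y.1 (by
        intro ω hω
        rw [hW, Finset.mem_filter, hSF, Finset.mem_filter] at hω
        exact ⟨lt_of_le_of_ne (hF0 ω) (Ne.symm hω.1.2), hω.2⟩)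
      have hcX := card_le_lev f (X y.2) y.2 (by
        intro ω hω
        rw [hX, Finset.mem_filter, hSf, Finset.mem_filter] at hω
        exact ⟨lt_of_le_of_ne (hf0 ω) (Ne.symm hω.1.2), hω.2⟩)
      have hu1 : ∀ z ∈ Z.filter (fun z => lv z = y), u z =
          Real.exp (-(y.1 * Real.log 2 * (1 - 1 / (b + d)) +
            y.2 * Real.log 2 * (1 - d / (b + d)))) := by
        intro z hz
        have h3 := (Finset.mem_filter.1 hz).2
        rw [hlv] at h3
        rw [hu, ← h3]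
      rw [Finset.sum_congr rfl hu1, Finset.sum_const, nsmul_eq_mul]
      have hcnt : ((Z.filter fun z => lv z = y).card : ℝ) ≤ inc A D (W y.1) (X y.2) := by
        rw [inc_eq]
        have : (Z.filter fun z => lv z = y) ⊆ Finset.univ.filter fun z : Ω × Fin n =>
            z.1 ∈ W y.1 ∧ (z.2, cell A D z.2 z.1) ∈ X y.2 := by
          intro z hz
          have hz1 := (Finset.mem_filter.1 hz).1
          have h3 := (Finset.mem_filter.1 hz).2
          have hpz := (hZm z).1 hz1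
          rw [hlv] at h3
          rw [Finset.mem_filter]
          refine ⟨Finset.mem_univ _, ?_, ?_⟩
          · rw [hW, Finset.mem_filter, hSF, Finset.mem_filter]
            exact ⟨⟨Finset.mem_univ _, (hFp z hpz).ne'⟩, by rw [← h3]⟩
          · have e : (z.2, cell A D z.2 z.1) = pt z := by rw [hpt]
            rw [e, hX, Finset.mem_filter, hSf, Finset.mem_filter]
            exact ⟨⟨Finset.mem_image_of_mem _ (Finset.mem_univ _), (hfp z hpz).ne'⟩, by rw [← h3]⟩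
        exact_mod_cast Finset.card_le_card this
      have hI1 := H1 n Ω A D hfam (W y.1) (X y.2)
      have hI2 := H2 n Ω A D hfam (W y.1) (X y.2)
      have hI1' : inc A D (W y.1) (X y.2) ≤ K * (n : ℝ) ^ ((d : ℝ) / (b1 + d)) *
          ((W y.1).card : ℝ) ^ (1 - 1 / (b1 + d)) * ((X y.2).card : ℝ) ^ (1 - (d : ℝ) / (b1 + d)) := by
        refine hI1.trans ?_
        have : K1 ≤ K := hK ▸ le_max_left _ _
        gcongr
      have hI2' : inc A D (W y.1) (X y.2) ≤ K * (n : ℝ) ^ ((d : ℝ) / (b2 + d)) *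
          ((W y.1).card : ℝ) ^ (1 - 1 / (b2 + d)) * ((X y.2).card : ℝ) ^ (1 - (d : ℝ) / (b2 + d)) := by
        refine hI2.trans ?_
        have : K2 ≤ K := hK ▸ le_max_right _ _
        gcongr
      have hT := term2 hd h1 h12 h23 hn hK0 hwy hwy1 hxy hxy1 (Nat.cast_nonneg _) (Nat.cast_nonneg _)
        hg0.le hg1 hg2 rfl (by rw [hwd]; exact hcW) (by rw [hxd]; exact hcX) hI1' hI2'
      refine (mul_le_mul_of_nonneg_right hcnt (Real.exp_pos _).le).trans (hT.trans (le_of_eq ?_))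
      ring
    refine (Finset.sum_le_sum hterm).trans ?_
    rw [← Finset.mul_sum]
    have hls := level_sum hd (c := d * Real.log n / Real.log 2) hS w x hw0 hx0 hws hxs (Z.image lv)
      hS0.le
    calc 4 * K * (n : ℝ) ^ ((d : ℝ) / (b + d)) * _ ≤
        4 * K * (n : ℝ) ^ ((d : ℝ) / (b + d)) * (2 * S) :=
          mul_le_mul_of_nonneg_left hls (by positivity)
      _ = _ := by ring
  have hlogs : Real.log (∑ z ∈ Z, u z) ≤ max 0 (Real.log (8 * K * S)) + d / (b + d) * Real.log n := by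
    rcases Z.eq_empty_or_nonempty with hE | hE
    · rw [hE, Finset.sum_empty, Real.log_zero]
      have := Real.log_nonneg hnR
      positivity
    · have hpos : 0 < ∑ z ∈ Z, u z := Finset.sum_pos (fun z _ => hupos z) hE
      refine (Real.log_le_log hpos hsum).trans ?_
      rw [Real.log_mul (by positivity) (by positivity), Real.log_rpow hn0]
      have := le_max_right 0 (Real.log (8 * K * S))
      linarith
  -- the mean of `-log u`
  have hp1 : 0 ≤ 1 - 1 / (b + d) := by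
    rw [sub_nonneg, div_le_one hs]; linarith
  have hp2 : 0 ≤ 1 - (d : ℝ) / (b + d) := by
    rw [sub_nonneg, div_le_one hs]; linarith
  have hmean : ∑ z, p z * -Real.log (u z) ≤
      (1 - 1 / (b + d)) * H p Prod.fst + (1 - d / (b + d)) * H p pt := by
    unfold H
    rw [Finset.mul_sum, Finset.mul_sum, ← Finset.sum_add_distrib]
    refine Finset.sum_le_sum fun z _ => ?_
    by_cases hz : p z = 0
    · simp [hz]
    · have hpz : 0 < p z := lt_of_le_of_ne (hp.nonneg z) (Ne.symm hz)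
      have a1 := lev_le (hFp z hz) (hF1 z.1)
      have a2 := lev_le (hfp z hz) (hf1 (pt z))
      have e : -Real.log (u z) = lev (F z.1) * Real.log 2 * (1 - 1 / (b + d)) +
          lev (f (pt z)) * Real.log 2 * (1 - d / (b + d)) := by
        rw [hu]
        simp only
        rw [Real.log_exp, neg_neg]
      rw [e]
      have b1' := mul_le_mul_of_nonneg_right a1 hp1
      have b2' := mul_le_mul_of_nonneg_right a2 hp2
      have c1' := mul_le_mul_of_nonneg_left (add_le_add b1' b2') hpz.le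
      rw [hF, hf] at c1'
      rw [hF, hf]
      refine c1'.trans (le_of_eq ?_)
      ring
  have htot : H p id ≤ (1 - 1 / (b + d)) * H p Prod.fst + (1 - d / (b + d)) * H p pt +
      (max 0 (Real.log (8 * K * S)) + d / (b + d) * Real.log n) := by linarith
  have hmul := mul_le_mul_of_nonneg_left htot hs.le
  have e1 : (b + d) * ((1 - 1 / (b + d)) * H p Prod.fst + (1 - d / (b + d)) * H p pt +
      (max 0 (Real.log (8 * K * S)) + d / (b + d) * Real.log n)) =
      (b + d - 1) * H p Prod.fst + b * H p pt + (b + d) * max 0 (Real.log (8 * K * S)) +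
        d * Real.log n := by
    field_simp
    ring
  rw [e1] at hmul
  rw [gp_eq]
  unfold aa lam
  rw [hpt] at hmul
  linarith

end Pool.Agent.Zk22.En
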