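import Pool.Agent.Zk22.Tube
import Pool.Agent.Y254.HK.Final

/-!
# Tubes without loss from the new form of the oracle
-/

set_option autoImplicit false
set_option linter.unusedVariables false

open MeasureTheory Set Metric
open scoped ENNReal NNReal

namespace Pool.Agent.Zk22
open Pool.Agent.Y254 (mult)
open Pool.Agent.Y254.EL (LF LoB EuF loss_removal allwP_of_LF)
open Pool.Agent.W46.KK (tube)
open Pool.Agent.Y244.HM (WeakP StrongP strongP)
open Pool.Agent.Y244.WR (TubeQ weakQ)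

/-- From the oracle with losses at one exponent to Euclidean tubes without loss at larger
exponents. -/
theorem euF_of_allX {d : ℕ} (hd : 2 ≤ d) {c' c : ℝ} (hc1 : 1 < c') (hcc : c' < c)
    (h : AllX d c' d) : ∃ C : ℝ, 0 < C ∧ EuF d (1 + c / d) C := by
  have hdr : (2 : ℝ) ≤ d := by exact_mod_cast hd
  have hd0 : (0 : ℝ) < d := by linarith
  have hq : 1 + c' / d < 1 + c / d := by gcongr
  have hq0 : 1 + 1 / (d : ℝ) ≤ 1 + c' / d := by gcongr
  set q : ℝ := 1 + c / d with hqd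
  rcases lt_or_ge (1 + 2 / ((d + 1 : ℕ) : ℝ)) q with h1 | h1
  · obtain ⟨A, hA, hw⟩ := Pool.Agent.Y254.wolff (n := d + 1) (by omega) h1
    refine ⟨A, hA, ?_⟩
    intro δ hδ hδ1 ι _ a e he hsep
    have h2 := hw δ hδ hδ1 a e he hsep
    have e1 : (((d + 1 : ℕ) : ℝ) - 1) = d := by push_cast; ring
    rw [e1, Nat.add_sub_cancel] at h2
    exact h2
  · have hq2 : q ≤ 2 := by
      refine h1.trans ?_
      have : 2 / ((d + 1 : ℕ) : ℝ) ≤ 1 := by
        rw [div_le_one (by positivity)]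
        push_cast
        linarith
      linarith
    have hLF : ∀ R : ℝ, 1 ≤ R → ∃ C : ℝ, 0 ≤ C ∧ LF d R q C := fun R hR =>
      loss_removal (by omega) hR hq0 hq hq2 fun ε hε => t_tubeX (by omega) hc1 h hR hε
    have hq' : 1 + 1 / (d : ℝ) ≤ q := by linarith
    obtain ⟨C, hC, hT⟩ := Pool.Agent.Y244.HM.tubeP (by omega) hq'
      (allwP_of_LF (by omega) hq' hLF)
    refine ⟨C, hC, ?_⟩
    intro δ hδ hδ1 ι _ a e he hsep
    have h2 := hT δ hδ hδ1.le ι a e he hsep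
    have e1 : C * δ ^ (d : ℝ) * (Fintype.card ι : ℝ) ^ (q - 1 / (d : ℝ)) =
        C * (δ ^ d * (Fintype.card ι : ℝ) ^ (q - 1 / (d : ℝ))) := by
      rw [Real.rpow_natCast]; ring
    rw [e1] at h2
    exact h2

/-- The condition for the exponent. -/
def Cx (d : ℕ) (c : ℝ) : Prop :=
  (6 ≤ d ∧ 0 < d * (c ^ 3 - 4 * c + 2) + c * (3 * c - 1 - c ^ 2)) ∨
    (d = 5 ∧ 0 < 2 * c ^ 2 + 19 * c - 35)

theorem Cx.five {d : ℕ} {c : ℝ} (h : Cx d c) : 5 ≤ d := by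
  rcases h with h | h <;> omega

theorem Cx.open {d : ℕ} {c : ℝ} (hc1 : 1 < c) (h : Cx d c) : ∃ c' : ℝ, 1 < c' ∧ c' < c ∧ Cx d c' := by
  have h2 : ∀ᶠ x in nhdsWithin c (Iio c), 1 < x :=
    (lt_mem_nhds hc1).filter_mono nhdsWithin_le_nhds
  have h3 : ∀ᶠ x in nhdsWithin c (Iio c), x < c := self_mem_nhdsWithin
  rcases h with ⟨hd, h⟩ | ⟨hd, h⟩
  · have hcont : Continuous fun y : ℝ =>
        (d : ℝ) * (y ^ 3 - 4 * y + 2) + y * (3 * y - 1 - y ^ 2) := by fun_prop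
    have h1 : ∀ᶠ x in nhdsWithin c (Iio c),
        0 < (d : ℝ) * (x ^ 3 - 4 * x + 2) + x * (3 * x - 1 - x ^ 2) :=
      (hcont.continuousAt.eventually (lt_mem_nhds h)).filter_mono nhdsWithin_le_nhds
    obtain ⟨x, hx⟩ := (h1.and (h2.and h3)).exists
    exact ⟨x, hx.2.1, hx.2.2, Or.inl ⟨hd, hx.1⟩⟩
  · have hcont : Continuous fun y : ℝ => 2 * y ^ 2 + 19 * y - 35 := by fun_prop
    have h1 : ∀ᶠ x in nhdsWithin c (Iio c), 0 < 2 * x ^ 2 + 19 * x - 35 :=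
      (hcont.continuousAt.eventually (lt_mem_nhds h)).filter_mono nhdsWithin_le_nhds
    obtain ⟨x, hx⟩ := (h1.and (h2.and h3)).exists
    exact ⟨x, hx.2.1, hx.2.2, Or.inr ⟨hd, hx.1⟩⟩

theorem allX_Cx {d : ℕ} {c : ℝ} (hc1 : 1 < c) (h : Cx d c) : AllX d c d := by
  rcases h with ⟨hd, h⟩ | ⟨hd, h⟩
  · exact allX_ge6 hd hc1 h
  · subst hd
    exact_mod_cast allX_5 hc1 h

/-- Tubes, without loss, for all exponents `q ≥ 1 + c / d`. -/
theorem tubesX {d : ℕ} {c q : ℝ} (hc1 : 1 < c) (h : Cx d c) (hq : 1 + c / d ≤ q) :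
    ∃ C : ℝ, 0 < C ∧ EuF d q C := by
  have hd5 := h.five
  have hdR : (5 : ℝ) ≤ d := by exact_mod_cast hd5
  have hd0 : (0 : ℝ) < d := by linarith
  obtain ⟨c', h1, h2, h3⟩ := h.open hc1
  obtain ⟨y, hy⟩ : ∃ y : ℝ, y = (q - 1) * d := ⟨_, rfl⟩
  have hqy : q = 1 + y / d := by rw [hy]; field_simp; ring
  have hcy : c ≤ y := by
    rw [hqy] at hq
    have h1 : c / d ≤ y / d := by linarith
    exact (div_le_div_iff_of_pos_right hd0).1 h1
  rw [hqy]
  exact euF_of_allX (by omega) h1 (lt_of_lt_of_le h2 hcy) (allX_Cx h1 h3)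

/-- Maximal estimates without loss from the oracle with losses. -/
theorem max_of_allX {d : ℕ} (hd : 2 ≤ d) {c' c : ℝ} (hc1 : 1 < c') (hcc : c' < c)
    (h : AllX d c' d) : WeakP d c ∧ StrongP d c := by
  obtain ⟨C, hC, hF⟩ := euF_of_allX hd hc1 hcc h
  have hT : TubeQ d (1 + c / d) := by
    refine ⟨C, hC, ?_⟩
    intro δ hδ hδ1 ι _ a e he hsep
    have h2 := hF δ hδ hδ1 ι a e he hsep
    have e1 : C * δ ^ (d : ℝ) * (Fintype.card ι : ℝ) ^ (1 + c / (d : ℝ) - 1 / (d : ℝ)) =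
        C * (δ ^ d * (Fintype.card ι : ℝ) ^ (1 + c / (d : ℝ) - 1 / (d : ℝ))) := by
      rw [Real.rpow_natCast]; ring
    rw [e1]
    exact h2
  have h1 := weakQ (by omega) (by linarith) hT Pool.Agent.W131.HM.CAP Pool.Agent.W131.HM.VOL
  exact ⟨h1, strongP (by omega) (by linarith) h1⟩

theorem maxX {d : ℕ} {c : ℝ} (hc1 : 1 < c) (h : Cx d c) : WeakP d c ∧ StrongP d c := by
  have hd5 := h.five
  obtain ⟨c', h1, h2, h3⟩ := h.open hc1
  exact max_of_allX (by omega) h1 h2 (allX_Cx h1 h3)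

end Pool.Agent.Zk22
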