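import Mathlib

/-! Maximal functions over balls of the line with respect to a doubling measure. -/

namespace Pool.Agent.Zk22.GL

open MeasureTheory Set Metric Filter
open scoped ENNReal NNReal Topology

/-- layer cake, pointwise -/
lemma lc {r : ℝ} (hr : 0 < r) (h : ℝ≥0∞) :
    h ^ r = ∫⁻ t in Ioi (0:ℝ), {t : ℝ | ENNReal.ofReal t < h}.indicator
      (fun t => ENNReal.ofReal (r * t ^ (r - 1))) t := by
  have key : ∀ a : ℝ, 0 ≤ a → ∫⁻ t in Ioi (0:ℝ), {t : ℝ | ENNReal.ofReal t < ENNReal.ofReal a}.indicator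
      (fun t => ENNReal.ofReal (r * t ^ (r - 1))) t = ENNReal.ofReal (a ^ r) := by
    intro a ha
    have h1 : ∫⁻ t in Ioi (0:ℝ), {t : ℝ | ENNReal.ofReal t < ENNReal.ofReal a}.indicator
      (fun t => ENNReal.ofReal (r * t ^ (r - 1))) t =
      ∫⁻ t in Ioc (0:ℝ) a, ENNReal.ofReal (r * t ^ (r - 1)) := by
      have h2 : ∀ t ∈ Ioi (0:ℝ), {t : ℝ | ENNReal.ofReal t < ENNReal.ofReal a}.indicator
          (fun t => ENNReal.ofReal (r * t ^ (r - 1))) t =
          (Ioo (0:ℝ) a).indicator (fun t => ENNReal.ofReal (r * t ^ (r - 1))) t := by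
        intro t ht
        have ht' : (0:ℝ) < t := ht
        by_cases hta : t < a
        · rw [indicator_of_mem, indicator_of_mem]
          · exact ⟨ht', hta⟩
          · exact (ENNReal.ofReal_lt_ofReal_iff (ht'.trans hta)).2 hta
        · rw [indicator_of_notMem, indicator_of_notMem]
          · exact fun h => hta h.2
          · intro h
            exact hta ((ENNReal.ofReal_lt_ofReal_iff_of_nonneg ht'.le).1 h)
      rw [setLIntegral_congr_fun measurableSet_Ioi h2, lintegral_indicator measurableSet_Ioo,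
        Measure.restrict_restrict measurableSet_Ioo]
      have : Ioo (0:ℝ) a ∩ Ioi 0 = Ioo 0 a := by
        ext t; simp only [mem_inter_iff, mem_Ioo, mem_Ioi]; tauto
      rw [this]
      exact setLIntegral_congr Ioo_ae_eq_Ioc
    rw [h1]
    have hint : IntervalIntegrable (fun t : ℝ => r * t ^ (r - 1)) volume 0 a :=
      (intervalIntegral.intervalIntegrable_rpow' (by linarith)).const_mul r
    rw [← ofReal_integral_eq_lintegral_ofReal]
    · rw [← intervalIntegral.integral_of_le ha, intervalIntegral.integral_const_mul,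
        integral_rpow (Or.inl (by linarith))]
      congr 1
      rw [sub_add_cancel, Real.zero_rpow hr.ne']
      field_simp
      ring
    · exact (intervalIntegrable_iff_integrableOn_Ioc_of_le ha).1 hint
    · filter_upwards [ae_restrict_mem measurableSet_Ioc] with t ht
      have : 0 < t := ht.1
      positivity
  rcases eq_or_ne h ∞ with rfl | hne
  · rw [ENNReal.top_rpow_of_pos hr]
    symm
    refine ENNReal.eq_top_of_forall_nnreal_le fun b => ?_
    have h1 := key ((b:ℝ) ^ (1/r)) (by positivity)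
    have h2 : (((b:ℝ) ^ (1/r)) ^ r) = b := by
      rw [← Real.rpow_mul b.coe_nonneg, one_div, inv_mul_cancel₀ hr.ne', Real.rpow_one]
    rw [h2, ENNReal.ofReal_coe_nnreal] at h1
    rw [← h1]
    refine lintegral_mono fun t => ?_
    refine indicator_le_indicator_of_subset ?_ (fun _ => zero_le) t
    intro t ht
    exact ENNReal.ofReal_lt_top
  · have h1 := key h.toReal ENNReal.toReal_nonneg
    rw [ENNReal.ofReal_toReal hne] at h1
    rw [h1, ← ENNReal.ofReal_rpow_of_nonneg ENNReal.toReal_nonneg hr.le, ENNReal.ofReal_toReal hne]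

/-- the uncentred maximal function over balls -/
noncomputable def MM (μ : Measure ℝ) (g : ℝ → ℝ≥0∞) (x : ℝ) : ℝ≥0∞ :=
  ⨆ (c : ℝ) (r : ℝ) (_ : x ∈ ball c r), (∫⁻ y in ball c r, g y ∂μ) / μ (ball c r)

lemma le_MM (μ : Measure ℝ) (g : ℝ → ℝ≥0∞) {c r x : ℝ} (hx : x ∈ ball c r) :
    (∫⁻ y in ball c r, g y ∂μ) / μ (ball c r) ≤ MM μ g x :=
  le_iSup_of_le c (le_iSup_of_le r (le_iSup_of_le hx le_rfl))

lemma lt_MM_iff {μ : Measure ℝ} {g : ℝ → ℝ≥0∞} {x : ℝ} {t : ℝ≥0∞} :
    t < MM μ g x ↔ ∃ c r, x ∈ ball c r ∧ t < (∫⁻ y in ball c r, g y ∂μ) / μ (ball c r) := by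
  unfold MM
  simp only [lt_iSup_iff, exists_prop]

lemma isOpen_MM (μ : Measure ℝ) (g : ℝ → ℝ≥0∞) (t : ℝ≥0∞) : IsOpen {x | t < MM μ g x} := by
  rw [isOpen_iff_forall_mem_open]
  intro x hx
  obtain ⟨c, r, hxr, ht⟩ := lt_MM_iff.1 hx
  refine ⟨ball c r, fun y hy => ?_, isOpen_ball, hxr⟩
  exact lt_MM_iff.2 ⟨c, r, hy, ht⟩

lemma measurable_MM (μ : Measure ℝ) (g : ℝ → ℝ≥0∞) : Measurable (MM μ g) :=
  measurable_of_Ioi fun t => (isOpen_MM μ g t).measurableSet

/-- doubling measures -/
structure Dbl (μ : Measure ℝ) (D : ℝ≥0∞) : Prop where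
  fin : ∀ c r, μ (ball c r) ≠ ∞
  pos : ∀ c r, 0 < r → μ (ball c r) ≠ 0
  dbl : ∀ c r, 0 < r → μ (ball c (5 * r)) ≤ D * μ (ball c r)

/-- Vitali covering -/
lemma cover {ι : Type*} (c r : ι → ℝ) (t : Set ι) (R : ℝ) (h : ∀ i ∈ t, 0 < r i ∧ r i ≤ R) :
    ∃ u ⊆ t, u.Countable ∧ u.PairwiseDisjoint (fun i => ball (c i) (r i)) ∧
      ∀ i ∈ t, ∃ j ∈ u, ball (c i) (r i) ⊆ ball (c j) (5 * r j) := by
  obtain ⟨u, hut, hdis, hcov⟩ := Vitali.exists_disjoint_subfamily_covering_enlargement
    (fun i => ball (c i) (r i)) t r 2 (by norm_num) (fun i hi => (h i hi).1.le) R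
    (fun i hi => (h i hi).2) (fun i hi => ⟨c i, mem_ball_self (h i hi).1⟩)
  refine ⟨u, hut, ?_, hdis, ?_⟩
  · exact hdis.countable_of_isOpen (fun i _ => isOpen_ball)
      (fun i hi => ⟨c i, mem_ball_self (h i (hut hi)).1⟩)
  · intro i hi
    obtain ⟨j, hj, ⟨z, hz1, hz2⟩, hle⟩ := hcov i hi
    refine ⟨j, hj, fun y hy => ?_⟩
    rw [mem_ball, Real.dist_eq] at *
    have h1 := abs_lt.1 hy
    have h2 := abs_lt.1 hz1
    have h3 := abs_lt.1 hz2
    rw [abs_lt]
    constructor <;> linarith [h1.1, h1.2, h2.1, h2.2, h3.1, h3.2]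

lemma weak {μ : Measure ℝ} {D : ℝ≥0∞} (hD : Dbl μ D) (g : ℝ → ℝ≥0∞) {t : ℝ≥0∞} (ht : t ≠ ∞) :
    t * μ {x | t < MM μ g x} ≤ D * ∫⁻ y, g y ∂μ := by
  let E : ℕ → Set ℝ := fun n => {x | ∃ c r, x ∈ ball c r ∧ r ≤ n ∧
    t < (∫⁻ y in ball c r, g y ∂μ) / μ (ball c r)}
  have hE : {x | t < MM μ g x} = ⋃ n, E n := by
    ext x
    simp only [mem_iUnion]
    constructor
    · intro hx
      obtain ⟨c, r, hxr, ht⟩ := lt_MM_iff.1 hx
      obtain ⟨n, hn⟩ := exists_nat_ge r
      exact ⟨n, c, r, hxr, hn, ht⟩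
    · rintro ⟨n, c, r, hxr, -, ht⟩
      exact lt_MM_iff.2 ⟨c, r, hxr, ht⟩
  have hmono : Monotone E := by
    intro n m hnm x hx
    obtain ⟨c, r, h1, h2, h3⟩ := hx
    exact ⟨c, r, h1, h2.trans (by exact_mod_cast hnm), h3⟩
  rw [hE, hmono.measure_iUnion, ENNReal.mul_iSup]
  refine iSup_le fun n => ?_
  -- covering
  let T : Set (ℝ × ℝ) := {q | 0 < q.2 ∧ q.2 ≤ n ∧
    t < (∫⁻ y in ball q.1 q.2, g y ∂μ) / μ (ball q.1 q.2)}
  obtain ⟨u, huT, hu, hdis, hcov⟩ := cover (fun q : ℝ × ℝ => q.1) (fun q => q.2) T n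
    (fun q hq => ⟨hq.1, hq.2.1⟩)
  have hsub : E n ⊆ ⋃ q ∈ u, ball q.1 (5 * q.2) := by
    rintro x ⟨c, r, h1, h2, h3⟩
    have hr : 0 < r := pos_of_mem_ball h1
    obtain ⟨j, hj, hjs⟩ := hcov (c, r) ⟨hr, h2, h3⟩
    exact mem_biUnion hj (hjs h1)
  calc t * μ (E n) ≤ t * ∑' q : u, μ (ball q.1.1 (5 * q.1.2)) := by
        gcongr
        exact (measure_mono hsub).trans (measure_biUnion_le μ hu _)
    _ = ∑' q : u, t * μ (ball q.1.1 (5 * q.1.2)) := by rw [ENNReal.tsum_mul_left]
    _ ≤ ∑' q : u, D * ∫⁻ y in ball q.1.1 q.1.2, g y ∂μ := by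
        refine ENNReal.tsum_le_tsum fun q => ?_
        have hq := huT q.2
        calc t * μ (ball q.1.1 (5 * q.1.2)) ≤ t * (D * μ (ball q.1.1 q.1.2)) := by
              gcongr; exact hD.dbl _ _ hq.1
          _ = D * (t * μ (ball q.1.1 q.1.2)) := by ring
          _ ≤ D * ∫⁻ y in ball q.1.1 q.1.2, g y ∂μ := by
              gcongr
              exact ((ENNReal.lt_div_iff_mul_lt (Or.inl (hD.pos _ _ hq.1))
                (Or.inl (hD.fin _ _))).1 hq.2.2).le
    _ = D * ∫⁻ y in ⋃ q ∈ u, ball q.1 q.2, g y ∂μ := by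
        rw [ENNReal.tsum_mul_left, lintegral_biUnion hu (fun q _ => measurableSet_ball) hdis]
    _ ≤ D * ∫⁻ y, g y ∂μ := by
        gcongr
        exact Measure.restrict_le_self

lemma MM_split {μ : Measure ℝ} {D : ℝ≥0∞} (hD : Dbl μ D) (g : ℝ → ℝ≥0∞) (a : ℝ≥0∞) (x : ℝ) :
    MM μ g x ≤ MM μ ({y | a < g y}.indicator g) x + a := by
  refine iSup_le fun c => iSup_le fun r => iSup_le fun hx => ?_
  have hr : 0 < r := pos_of_mem_ball hx
  refine le_trans ?_ (add_le_add_left (le_MM μ _ hx) a)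
  rw [ENNReal.div_le_iff (hD.pos _ _ hr) (hD.fin _ _), add_mul,
    ENNReal.div_mul_cancel (hD.pos _ _ hr) (hD.fin _ _), ← setLIntegral_const,
    ← lintegral_add_right _ measurable_const]
  refine lintegral_mono fun y => ?_
  by_cases h : a < g y
  · rw [indicator_of_mem (show y ∈ {y | a < g y} from h)]
    exact le_self_add
  · exact (not_lt.1 h).trans le_add_self

/-- maximal theorem -/
lemma strong {μ : Measure ℝ} [SFinite μ] {D : ℝ≥0∞} (hD : Dbl μ D) {r : ℝ} (hr : 1 < r)
    {g : ℝ → ℝ≥0∞} (hg : Measurable g) :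
    ∫⁻ x, MM μ g x ^ r ∂μ ≤
      (D * ENNReal.ofReal (2 * (r / (r - 1)) * 2 ^ (r - 1))) * ∫⁻ x, g x ^ r ∂μ := by
  have hr0 : 0 < r := by linarith
  have hr1 : 0 < r - 1 := by linarith
  have e1 : ∀ x, MM μ g x ^ r = ∫⁻ t in Ioi (0:ℝ), {t : ℝ | ENNReal.ofReal t < MM μ g x}.indicator
      (fun t => ENNReal.ofReal (r * t ^ (r - 1))) t := fun x => lc hr0 _
  have hmeas : Measurable (fun q : ℝ × ℝ => {t : ℝ | ENNReal.ofReal t < MM μ g q.1}.indicator
      (fun t => ENNReal.ofReal (r * t ^ (r - 1))) q.2) := by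
    have h2 : MeasurableSet {q : ℝ × ℝ | ENNReal.ofReal q.2 < MM μ g q.1} :=
      measurableSet_lt (ENNReal.measurable_ofReal.comp measurable_snd)
        ((measurable_MM μ g).comp measurable_fst)
    have h3 : Measurable (fun q : ℝ × ℝ => ENNReal.ofReal (r * q.2 ^ (r - 1))) := by fun_prop
    exact h3.indicator h2
  have hmeas2 : Measurable (fun q : ℝ × ℝ => {t : ℝ | ENNReal.ofReal t < 2 * g q.1}.indicator
      (fun t => ENNReal.ofReal ((r - 1) * t ^ (r - 1 - 1))) q.2) := by
    have h2 : MeasurableSet {q : ℝ × ℝ | ENNReal.ofReal q.2 < 2 * g q.1} :=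
      measurableSet_lt (ENNReal.measurable_ofReal.comp measurable_snd)
        ((hg.const_mul 2).comp measurable_fst)
    have h3 : Measurable (fun q : ℝ × ℝ => ENNReal.ofReal ((r - 1) * q.2 ^ (r - 1 - 1))) := by
      fun_prop
    exact h3.indicator h2
  calc ∫⁻ x, MM μ g x ^ r ∂μ
      = ∫⁻ t in Ioi (0:ℝ), ∫⁻ x, {t : ℝ | ENNReal.ofReal t < MM μ g x}.indicator
            (fun t => ENNReal.ofReal (r * t ^ (r - 1))) t ∂μ := by
        simp_rw [e1]
        rw [lintegral_lintegral_swap]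
        exact hmeas.aemeasurable
    _ ≤ ∫⁻ t in Ioi (0:ℝ), ∫⁻ x, (D * ENNReal.ofReal (2 * (r / (r - 1)))) * (g x *
          {t : ℝ | ENNReal.ofReal t < 2 * g x}.indicator
            (fun t => ENNReal.ofReal ((r - 1) * t ^ (r - 1 - 1))) t) ∂μ := by
        refine setLIntegral_mono_ae' measurableSet_Ioi (Eventually.of_forall fun t ht => ?_)
        have ht0 : (0:ℝ) < t := ht
        have ha : ENNReal.ofReal (t / 2) ≠ ∞ := ENNReal.ofReal_ne_top
        have hsub : {x | ENNReal.ofReal t < MM μ g x} ⊆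
            {x | ENNReal.ofReal (t / 2) < MM μ ({y | ENNReal.ofReal (t / 2) < g y}.indicator g) x} := by
          intro x hx
          have h1 := lt_of_lt_of_le (show ENNReal.ofReal t < MM μ g x from hx)
            (MM_split hD g (ENNReal.ofReal (t / 2)) x)
          have h2 : ENNReal.ofReal t = ENNReal.ofReal (t / 2) + ENNReal.ofReal (t / 2) := by
            rw [← ENNReal.ofReal_add (by positivity) (by positivity)]; congr 1; ring
          rw [h2] at h1
          exact (ENNReal.add_lt_add_iff_right ha).1 h1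
        have hw := weak hD ({y | ENNReal.ofReal (t / 2) < g y}.indicator g) ha
        have hset : MeasurableSet {y | ENNReal.ofReal (t / 2) < g y} :=
          measurableSet_lt measurable_const hg
        have e2 : ∫⁻ x, {t : ℝ | ENNReal.ofReal t < MM μ g x}.indicator
            (fun t => ENNReal.ofReal (r * t ^ (r - 1))) t ∂μ =
            ENNReal.ofReal (r * t ^ (r - 1)) * μ {x | ENNReal.ofReal t < MM μ g x} := by
          rw [← lintegral_indicator_const (measurableSet_lt measurable_const (measurable_MM μ g))]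
          refine lintegral_congr fun x => ?_
          simp only [indicator, mem_ofPred_eq]
        have e3 : ∫⁻ x, (D * ENNReal.ofReal (2 * (r / (r - 1)))) * (g x *
            {t : ℝ | ENNReal.ofReal t < 2 * g x}.indicator
            (fun t => ENNReal.ofReal ((r - 1) * t ^ (r - 1 - 1))) t) ∂μ =
            ENNReal.ofReal (2 * r * t ^ (r - 1 - 1)) *
              (D * ∫⁻ x, {y | ENNReal.ofReal (t / 2) < g y}.indicator g x ∂μ) := by
          rw [← lintegral_const_mul _ (hg.indicator hset), ← lintegral_const_mul _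
            ((hg.indicator hset).const_mul D)]
          refine lintegral_congr fun x => ?_
          have h4 : ENNReal.ofReal t < 2 * g x ↔ ENNReal.ofReal (t / 2) < g x := by
            have h5 : ENNReal.ofReal t = 2 * ENNReal.ofReal (t / 2) := by
              rw [← ENNReal.ofReal_ofNat 2, ← ENNReal.ofReal_mul (by norm_num)]; congr 1; ring
            rw [h5]
            exact ENNReal.mul_lt_mul_iff_right (by norm_num) (by norm_num)
          simp only [indicator, mem_ofPred_eq]
          by_cases h5 : ENNReal.ofReal (t / 2) < g x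
          · rw [if_pos (h4.2 h5), if_pos h5]
            have h6 : ENNReal.ofReal (2 * (r / (r - 1))) * ENNReal.ofReal ((r - 1) * t ^ (r - 1 - 1)) =
                ENNReal.ofReal (2 * r * t ^ (r - 1 - 1)) := by
              rw [← ENNReal.ofReal_mul (by positivity)]; congr 1; field_simp
            rw [← h6]; ring
          · rw [if_neg (fun h => h5 (h4.1 h)), if_neg h5]; simp
        rw [e2, e3]
        calc ENNReal.ofReal (r * t ^ (r - 1)) * μ {x | ENNReal.ofReal t < MM μ g x}
            = ENNReal.ofReal (2 * r * t ^ (r - 1 - 1)) * (ENNReal.ofReal (t / 2) *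
              μ {x | ENNReal.ofReal t < MM μ g x}) := by
              rw [← mul_assoc, ← ENNReal.ofReal_mul (by positivity)]
              congr 2
              have : t ^ (r - 1) = t ^ (r - 1 - 1) * t := by
                rw [← Real.rpow_add_one ht0.ne']; congr 1; ring
              rw [this]; ring
          _ ≤ _ := by
              exact mul_le_mul' le_rfl (le_trans (mul_le_mul' le_rfl (measure_mono hsub)) hw)
    _ = ∫⁻ x, (∫⁻ t in Ioi (0:ℝ), (D * ENNReal.ofReal (2 * (r / (r - 1)))) * (g x *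
          {t : ℝ | ENNReal.ofReal t < 2 * g x}.indicator
            (fun t => ENNReal.ofReal ((r - 1) * t ^ (r - 1 - 1))) t)) ∂μ := by
        rw [lintegral_lintegral_swap]
        exact ((((hg.comp measurable_snd).mul (hmeas2.comp measurable_swap))).const_mul _).aemeasurable
    _ = _ := by
        rw [← lintegral_const_mul _ (hg.pow_const r)]
        refine lintegral_congr fun x => ?_
        have hm : Measurable (fun t => {t : ℝ | ENNReal.ofReal t < 2 * g x}.indicator
            (fun t => ENNReal.ofReal ((r - 1) * t ^ (r - 1 - 1))) t) :=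
          hmeas2.comp measurable_prodMk_left
        rw [lintegral_const_mul _ (hm.const_mul _), lintegral_const_mul _ hm, ← lc hr1]
        rw [ENNReal.mul_rpow_of_nonneg _ _ hr1.le]
        have h7 : g x * g x ^ (r - 1) = g x ^ r := by
          rcases eq_or_ne (g x) 0 with h0 | h0
          · rw [h0, ENNReal.zero_rpow_of_pos hr0]; simp
          rcases eq_or_ne (g x) ∞ with h1 | h1
          · rw [h1, ENNReal.top_rpow_of_pos hr0, ENNReal.top_rpow_of_pos hr1]; simp
          · nth_rewrite 1 [← ENNReal.rpow_one (g x)]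
            rw [← ENNReal.rpow_add _ _ h0 h1]; congr 1; ring
        have h8 : (2:ℝ≥0∞) ^ (r - 1) = ENNReal.ofReal (2 ^ (r - 1)) := by
          rw [← ENNReal.ofReal_rpow_of_pos (by norm_num)]; norm_num
        have h9 : ENNReal.ofReal (2 * (r / (r - 1)) * 2 ^ (r - 1)) =
            ENNReal.ofReal (2 * (r / (r - 1))) * ENNReal.ofReal (2 ^ (r - 1)) :=
          ENNReal.ofReal_mul (by positivity)
        rw [h8, h9, ← h7]
        ring

end Pool.Agent.Zk22.GL
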