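import Pool.Agent.Zk22.GA

/-! `A_p` weights on the line and Muckenhoupt's maximal theorem. -/

namespace Pool.Agent.Zk22.GL

open MeasureTheory Set Metric Filter
open scoped ENNReal NNReal Topology

/-- the measure `V dx` -/
noncomputable abbrev WD (V : ℝ → ℝ≥0∞) : Measure ℝ := (volume : Measure ℝ).withDensity V

/-- the dual weight -/
noncomputable def sg (p : ℝ) (V : ℝ → ℝ≥0∞) (x : ℝ) : ℝ≥0∞ := V x ^ (-(1 / (p - 1)))

lemma wd_ball (V : ℝ → ℝ≥0∞) (c r : ℝ) : WD V (ball c r) = ∫⁻ x in ball c r, V x :=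
  withDensity_apply _ measurableSet_ball

lemma wd_lint {V g : ℝ → ℝ≥0∞} (hV : Measurable V) (hg : Measurable g) :
    ∫⁻ x, g x ∂(WD V) = ∫⁻ x, V x * g x := by
  rw [lintegral_withDensity_eq_lintegral_mul _ hV hg]; rfl

lemma wd_set {V g : ℝ → ℝ≥0∞} (hV : Measurable V) (hg : Measurable g) (c r : ℝ) :
    ∫⁻ x in ball c r, g x ∂(WD V) = ∫⁻ x in ball c r, V x * g x := by
  rw [restrict_withDensity measurableSet_ball, lintegral_withDensity_eq_lintegral_mul _ hV hg]; rfl

/-- `A_p` -/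
structure AP (p : ℝ) (V : ℝ → ℝ≥0∞) (Q : ℝ≥0∞) : Prop where
  meas : Measurable V
  pos : ∀ x, V x ≠ 0
  fin : ∀ x, V x ≠ ∞
  Qfin : Q ≠ ∞
  ap : ∀ c r, 0 < r → (∫⁻ x in ball c r, V x) * (∫⁻ x in ball c r, sg p V x) ^ (p - 1) ≤
    Q * ENNReal.ofReal r ^ p

lemma ball_pos_of_pos {V : ℝ → ℝ≥0∞} (hV : Measurable V) (h : ∀ x, V x ≠ 0) {c r : ℝ} (hr : 0 < r) :
    ∫⁻ x in ball c r, V x ≠ 0 := by
  have h1 : 0 < ∫⁻ x in ball c r, V x := by
    rw [setLIntegral_pos_iff hV]
    have : Function.support V = univ := by ext x; simp [h x]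
    rw [this, univ_inter, Real.volume_ball]
    simpa using hr
  exact h1.ne'

variable {p : ℝ} {V : ℝ → ℝ≥0∞} {Q : ℝ≥0∞}

lemma sg_meas (hV : Measurable V) : Measurable (sg p V) := hV.pow_const _

lemma sg_pos (h : ∀ x, V x ≠ ∞) (hp : 1 < p) (x : ℝ) : sg p V x ≠ 0 := by
  unfold sg
  have hp1 : 0 < p - 1 := by linarith
  rw [ENNReal.rpow_neg, Ne, ENNReal.inv_eq_zero]
  exact ENNReal.rpow_ne_top_of_nonneg (by positivity) (h x)

lemma sg_fin (h : ∀ x, V x ≠ 0) (hp : 1 < p) (x : ℝ) : sg p V x ≠ ∞ := by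
  unfold sg
  have hp1 : 0 < p - 1 := by linarith
  rw [ENNReal.rpow_neg, Ne, ENNReal.inv_eq_top]
  intro h0
  rcases ENNReal.rpow_eq_zero_iff.1 h0 with h1 | h1
  · exact h x h1.1
  · have : 0 < 1 / (p - 1) := by positivity
    linarith [h1.2]

lemma sg_sg (hp : 1 < p) (x : ℝ) : sg (p / (p - 1)) (sg p V) x = V x := by
  have hp1 : 0 < p - 1 := by linarith
  unfold sg
  rw [← ENNReal.rpow_mul]
  have : -(1 / (p - 1)) * -(1 / (p / (p - 1) - 1)) = 1 := by
    have : p / (p - 1) - 1 = 1 / (p - 1) := by field_simp; ring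
    rw [this]; field_simp
  rw [this, ENNReal.rpow_one]

namespace AP

lemma V_pos (h : AP p V Q) {c r : ℝ} (hr : 0 < r) : ∫⁻ x in ball c r, V x ≠ 0 :=
  ball_pos_of_pos h.meas h.pos hr

lemma S_pos (h : AP p V Q) (hp : 1 < p) {c r : ℝ} (hr : 0 < r) :
    ∫⁻ x in ball c r, sg p V x ≠ 0 :=
  ball_pos_of_pos (sg_meas h.meas) (sg_pos h.fin hp) hr

lemma V_fin (h : AP p V Q) (hp : 1 < p) (c r : ℝ) : ∫⁻ x in ball c r, V x ≠ ∞ := by
  rcases le_or_gt r 0 with hr | hr
  · rw [ball_eq_empty.2 hr]; simp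
  intro htop
  have h1 := h.ap c r hr
  have h2 : (∫⁻ x in ball c r, sg p V x) ^ (p - 1) ≠ 0 := by
    intro h0
    rcases ENNReal.rpow_eq_zero_iff.1 h0 with h3 | h3
    · exact h.S_pos hp hr h3.1
    · linarith [h3.2]
  rw [htop, ENNReal.top_mul h2, top_le_iff] at h1
  exact ENNReal.mul_ne_top h.Qfin (ENNReal.rpow_ne_top_of_nonneg (by linarith)
    ENNReal.ofReal_ne_top) h1

/-- duality -/
lemma dual (h : AP p V Q) (hp : 1 < p) : AP (p / (p - 1)) (sg p V) (Q ^ (1 / (p - 1))) where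
  meas := sg_meas h.meas
  pos := sg_pos h.fin hp
  fin := sg_fin h.pos hp
  Qfin := ENNReal.rpow_ne_top_of_nonneg (by have : 0 < p - 1 := by linarith
                                            positivity) h.Qfin
  ap := by
    intro c r hr
    have hp1 : 0 < p - 1 := by linarith
    have h1 := ENNReal.rpow_le_rpow (h.ap c r hr) (show 0 ≤ 1 / (p - 1) by positivity)
    rw [ENNReal.mul_rpow_of_nonneg _ _ (by positivity), ENNReal.mul_rpow_of_nonneg _ _ (by positivity),
      ← ENNReal.rpow_mul, ← ENNReal.rpow_mul] at h1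
    simp_rw [sg_sg hp]
    have e1 : (p - 1) * (1 / (p - 1)) = 1 := by field_simp
    have e2 : p / (p - 1) - 1 = 1 / (p - 1) := by field_simp; ring
    have e3 : p * (1 / (p - 1)) = p / (p - 1) := by ring
    rw [e1, ENNReal.rpow_one, e3] at h1
    rw [e2, mul_comm]
    exact h1

lemma S_fin (h : AP p V Q) (hp : 1 < p) (c r : ℝ) : ∫⁻ x in ball c r, sg p V x ≠ ∞ := by
  have hp1 : 0 < p - 1 := by linarith
  refine (h.dual hp).V_fin ?_ c r
  rw [lt_div_iff₀ hp1]; linarith

/-- Hölder -/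
lemma holder (h : AP p V Q) (hp : 1 < p) {g : ℝ → ℝ≥0∞} (hg : Measurable g) {c r : ℝ} (hr : 0 < r) :
    (∫⁻ x in ball c r, g x) ^ p * (∫⁻ x in ball c r, V x) ≤
      Q * ENNReal.ofReal r ^ p * ∫⁻ x in ball c r, V x * g x ^ p := by
  have hp1 : 0 < p - 1 := by linarith
  have hp0 : 0 < p := by linarith
  have hpq : p.HolderConjugate (p / (p - 1)) := Real.HolderConjugate.conjExponent hp
  have h1 := ENNReal.lintegral_mul_le_Lp_mul_Lq (volume.restrict (ball c r)) hpq
    (f := fun x => V x ^ (1 / p) * g x) (g := fun x => V x ^ (-(1 / p)))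
    ((h.meas.pow_const _).mul hg).aemeasurable (h.meas.pow_const _).aemeasurable
  have e1 : ∀ x, ((fun x => V x ^ (1 / p) * g x) * (fun x => V x ^ (-(1 / p)))) x = g x := by
    intro x
    simp only [Pi.mul_apply]
    rw [mul_right_comm, ← ENNReal.rpow_add _ _ (h.pos x) (h.fin x)]
    simp
  have e2 : ∀ x, (V x ^ (1 / p) * g x) ^ p = V x * g x ^ p := by
    intro x
    rw [ENNReal.mul_rpow_of_nonneg _ _ hp0.le, ← ENNReal.rpow_mul]
    have : 1 / p * p = 1 := by field_simp
    rw [this, ENNReal.rpow_one]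
  have e3 : ∀ x, (V x ^ (-(1 / p))) ^ (p / (p - 1)) = sg p V x := by
    intro x
    unfold sg
    rw [← ENNReal.rpow_mul]; congr 1; field_simp
  simp_rw [e1, e2, e3] at h1
  have h2 := ENNReal.rpow_le_rpow h1 hp0.le
  rw [ENNReal.mul_rpow_of_nonneg _ _ hp0.le, ← ENNReal.rpow_mul, ← ENNReal.rpow_mul] at h2
  have e4 : 1 / p * p = 1 := by field_simp
  have e5 : 1 / (p / (p - 1)) * p = p - 1 := by field_simp
  rw [e4, e5, ENNReal.rpow_one] at h2
  calc _ ≤ (∫⁻ x in ball c r, V x * g x ^ p) * (∫⁻ x in ball c r, sg p V x) ^ (p - 1) *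
        (∫⁻ x in ball c r, V x) := by gcongr
    _ = (∫⁻ x in ball c r, V x * g x ^ p) * ((∫⁻ x in ball c r, V x) *
        (∫⁻ x in ball c r, sg p V x) ^ (p - 1)) := by ring
    _ ≤ (∫⁻ x in ball c r, V x * g x ^ p) * (Q * ENNReal.ofReal r ^ p) := by
        exact mul_le_mul' le_rfl (h.ap c r hr)
    _ = _ := by ring

lemma dbl (h : AP p V Q) (hp : 1 < p) : Dbl (WD V) (Q * ENNReal.ofReal (5 ^ p)) where
  fin := fun c r => by rw [wd_ball]; exact h.V_fin hp c r
  pos := fun c r hr => by rw [wd_ball]; exact h.V_pos hr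
  dbl := by
    intro c r hr
    have hp0 : 0 < p := by linarith
    have h1 := h.holder hp (g := (ball c r).indicator 1) (measurable_one.indicator measurableSet_ball)
      (c := c) (r := 5 * r) (by linarith)
    have hsub : ball c r ⊆ ball c (5 * r) := ball_subset_ball (by linarith)
    have e1 : ∫⁻ x in ball c (5 * r), (ball c r).indicator (1 : ℝ → ℝ≥0∞) x = ENNReal.ofReal (2 * r) := by
      rw [setLIntegral_indicator measurableSet_ball, inter_eq_left.2 hsub]
      simp [Real.volume_ball]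
    have e2 : ∫⁻ x in ball c (5 * r), V x * (ball c r).indicator (1 : ℝ → ℝ≥0∞) x ^ p =
        ∫⁻ x in ball c r, V x := by
      have : ∀ x, V x * (ball c r).indicator (1 : ℝ → ℝ≥0∞) x ^ p = (ball c r).indicator V x := by
        intro x
        by_cases hx : x ∈ ball c r
        · rw [indicator_of_mem hx, indicator_of_mem hx]; simp
        · rw [indicator_of_notMem hx, indicator_of_notMem hx, ENNReal.zero_rpow_of_pos hp0]; simp
      simp_rw [this]
      rw [setLIntegral_indicator measurableSet_ball, inter_eq_left.2 hsub]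
    rw [e1, e2] at h1
    rw [wd_ball, wd_ball]
    have hr0 : ENNReal.ofReal r ^ p ≠ 0 := by
      intro h0
      rcases ENNReal.rpow_eq_zero_iff.1 h0 with h3 | h3
      · have := ENNReal.ofReal_eq_zero.1 h3.1; linarith
      · exact ENNReal.ofReal_ne_top h3.1
    have hr1 : ENNReal.ofReal r ^ p ≠ ∞ :=
      ENNReal.rpow_ne_top_of_nonneg hp0.le ENNReal.ofReal_ne_top
    have e3 : ENNReal.ofReal (5 * r) ^ p = ENNReal.ofReal (5 ^ p) * ENNReal.ofReal r ^ p := by
      rw [ENNReal.ofReal_mul (by norm_num), ENNReal.mul_rpow_of_nonneg _ _ hp0.le,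
        ENNReal.ofReal_rpow_of_pos (by norm_num : (0:ℝ) < 5)]
    have e4 : ENNReal.ofReal r ^ p ≤ ENNReal.ofReal (2 * r) ^ p :=
      ENNReal.rpow_le_rpow (ENNReal.ofReal_le_ofReal (by linarith)) hp0.le
    rw [e3] at h1
    refine (ENNReal.mul_le_mul_iff_right hr0 hr1).1 ?_
    calc _ ≤ ENNReal.ofReal (2 * r) ^ p * ∫⁻ x in ball c (5 * r), V x := by gcongr
      _ ≤ _ := h1
      _ = _ := by ring

/-- Lerner's pointwise inequality -/
lemma ptwise (h : AP p V Q) (hp : 1 < p) {g : ℝ → ℝ≥0∞} (hg : Measurable g) (x : ℝ) :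
    MM volume g x ^ (p - 1) ≤ Q * MM (WD V)
      (fun y => MM (WD (sg p V)) (fun z => g z / sg p V z) y ^ (p - 1) / V y) x := by
  have hp1 : 0 < p - 1 := by linarith
  set S := sg p V with hS
  set G : ℝ → ℝ≥0∞ := fun z => g z / S z with hG
  set H : ℝ → ℝ≥0∞ := fun y => MM (WD S) G y ^ (p - 1) / V y with hH
  have hSm : Measurable S := sg_meas h.meas
  have hGm : Measurable G := hg.div hSm
  have hHm : Measurable H := ((measurable_MM _ _).pow_const _).div h.meas
  have key : MM volume g x ≤ (Q * MM (WD V) H x) ^ (1 / (p - 1)) := by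
    refine iSup_le fun c => iSup_le fun r => iSup_le fun hx => ?_
    have hr : 0 < r := pos_of_mem_ball hx
    have hle := le_MM (WD V) H hx
    have hV0 := h.V_pos (c := c) hr
    have hV1 := h.V_fin hp c r
    have hS0 := h.S_pos hp (c := c) hr
    have hS1 := h.S_fin hp c r
    have hr0 : ENNReal.ofReal r ≠ 0 := by rw [Ne, ENNReal.ofReal_eq_zero]; linarith
    -- the average with respect to S
    set A : ℝ≥0∞ := (∫⁻ y in ball c r, G y ∂(WD S)) / WD S (ball c r) with hA
    have hA1 : ∀ y ∈ ball c r, A ≤ MM (WD S) G y := fun y hy => le_MM _ _ hy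
    have hg1 : ∫⁻ y in ball c r, g y = A * ∫⁻ y in ball c r, S y := by
      rw [hA, wd_ball, ENNReal.div_mul_cancel hS0 hS1, wd_set hSm hGm]
      refine lintegral_congr fun y => ?_
      rw [hG]
      exact (ENNReal.mul_div_cancel (sg_pos h.fin hp y) (sg_fin h.pos hp y)).symm
    have hH1 : ENNReal.ofReal (2 * r) * A ^ (p - 1) ≤ ∫⁻ y in ball c r, H y ∂(WD V) := by
      rw [wd_set h.meas hHm]
      calc ENNReal.ofReal (2 * r) * A ^ (p - 1) = ∫⁻ _ in ball c r, A ^ (p - 1) := by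
            rw [setLIntegral_const, Real.volume_ball, mul_comm]
        _ ≤ ∫⁻ y in ball c r, V y * H y := by
            refine setLIntegral_mono_ae' measurableSet_ball (Eventually.of_forall fun y hy => ?_)
            have h1 : V y * H y = MM (WD S) G y ^ (p - 1) :=
              ENNReal.mul_div_cancel (h.pos y) (h.fin y)
            rw [h1]
            exact ENNReal.rpow_le_rpow (hA1 y hy) hp1.le
    have h5 : ((∫⁻ y in ball c r, g y) / volume (ball c r)) ^ (p - 1) ≤ Q * MM (WD V) H x := by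
      refine le_trans ?_ (mul_le_mul' le_rfl hle)
      rw [wd_ball, ENNReal.div_rpow_of_nonneg _ _ hp1.le, hg1, ENNReal.mul_rpow_of_nonneg _ _ hp1.le,
        Real.volume_ball, ← mul_div_assoc,
        ENNReal.le_div_iff_mul_le (Or.inl hV0) (Or.inl hV1), ← ENNReal.mul_div_right_comm,
        ENNReal.div_le_iff_le_mul]
      · calc _ = A ^ (p - 1) * ((∫⁻ x in ball c r, V x) * (∫⁻ x in ball c r, S x) ^ (p - 1)) := by ring
          _ ≤ A ^ (p - 1) * (Q * ENNReal.ofReal r ^ p) := mul_le_mul' le_rfl (h.ap c r hr)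
          _ = Q * (ENNReal.ofReal r * A ^ (p - 1)) * ENNReal.ofReal r ^ (p - 1) := by
              have : ENNReal.ofReal r ^ p = ENNReal.ofReal r * ENNReal.ofReal r ^ (p - 1) := by
                nth_rewrite 2 [← ENNReal.rpow_one (ENNReal.ofReal r)]
                rw [← ENNReal.rpow_add _ _ hr0 ENNReal.ofReal_ne_top]; congr 1; ring
              rw [this]; ring
          _ ≤ Q * (ENNReal.ofReal (2 * r) * A ^ (p - 1)) * ENNReal.ofReal (2 * r) ^ (p - 1) := by
              have h2r : ENNReal.ofReal r ≤ ENNReal.ofReal (2 * r) :=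
                ENNReal.ofReal_le_ofReal (by linarith)
              gcongr
          _ ≤ _ := by gcongr
      · left
        rw [Ne, ENNReal.rpow_eq_zero_iff]
        push Not
        constructor
        · intro h0; exfalso; have := ENNReal.ofReal_eq_zero.1 h0; linarith
        · intro h0; exact absurd h0 ENNReal.ofReal_ne_top
      · left
        exact ENNReal.rpow_ne_top_of_nonneg hp1.le ENNReal.ofReal_ne_top
    calc _ = (((∫⁻ y in ball c r, g y) / volume (ball c r)) ^ (p - 1)) ^ (1 / (p - 1)) := by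
          rw [← ENNReal.rpow_mul]
          have : (p - 1) * (1 / (p - 1)) = 1 := by field_simp
          rw [this, ENNReal.rpow_one]
      _ ≤ _ := ENNReal.rpow_le_rpow h5 (by positivity)
  calc MM volume g x ^ (p - 1) ≤ ((Q * MM (WD V) H x) ^ (1 / (p - 1))) ^ (p - 1) :=
        ENNReal.rpow_le_rpow key hp1.le
    _ = _ := by
        rw [← ENNReal.rpow_mul]
        have : 1 / (p - 1) * (p - 1) = 1 := by field_simp
        rw [this, ENNReal.rpow_one]

/-- Muckenhoupt's theorem -/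
theorem muck (h : AP p V Q) (hp : 1 < p) : ∃ C : ℝ≥0∞, C ≠ ∞ ∧ ∀ g : ℝ → ℝ≥0∞, Measurable g →
    ∫⁻ x, V x * MM volume g x ^ p ≤ C * ∫⁻ x, V x * g x ^ p := by
  have hp1 : 0 < p - 1 := by linarith
  have hp0 : 0 < p := by linarith
  set q := p / (p - 1) with hq
  have hq1 : 1 < q := by rw [hq, lt_div_iff₀ hp1]; linarith
  have hq0 : 0 < q := by linarith
  have hS := h.dual hp
  rw [← hq] at hS
  set S := sg p V with hSdef
  set C1 := (Q * ENNReal.ofReal (5 ^ p)) * ENNReal.ofReal (2 * (q / (q - 1)) * 2 ^ (q - 1))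
  set C2 := (Q ^ (1 / (p - 1)) * ENNReal.ofReal (5 ^ q)) *
    ENNReal.ofReal (2 * (p / (p - 1)) * 2 ^ (p - 1))
  refine ⟨Q ^ q * (C1 * C2), ?_, ?_⟩
  · refine ENNReal.mul_ne_top (ENNReal.rpow_ne_top_of_nonneg hq0.le h.Qfin) (ENNReal.mul_ne_top ?_ ?_)
    · exact ENNReal.mul_ne_top (ENNReal.mul_ne_top h.Qfin ENNReal.ofReal_ne_top) ENNReal.ofReal_ne_top
    · exact ENNReal.mul_ne_top (ENNReal.mul_ne_top hS.Qfin ENNReal.ofReal_ne_top) ENNReal.ofReal_ne_top
  intro g hg
  set G : ℝ → ℝ≥0∞ := fun z => g z / S z with hG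
  set H : ℝ → ℝ≥0∞ := fun y => MM (WD S) G y ^ (p - 1) / V y with hH
  have hSm : Measurable S := sg_meas h.meas
  have hGm : Measurable G := hg.div hSm
  have hHm : Measurable H := ((measurable_MM _ _).pow_const _).div h.meas
  have e1 : (p - 1) * q = p := by rw [hq]; field_simp
  calc ∫⁻ x, V x * MM volume g x ^ p = ∫⁻ x, V x * (MM volume g x ^ (p - 1)) ^ q := by
        refine lintegral_congr fun x => ?_
        rw [← ENNReal.rpow_mul, e1]
    _ ≤ ∫⁻ x, V x * (Q * MM (WD V) H x) ^ q := by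
        refine lintegral_mono fun x => ?_
        exact mul_le_mul' le_rfl (ENNReal.rpow_le_rpow (h.ptwise hp hg x) hq0.le)
    _ = Q ^ q * ∫⁻ x, MM (WD V) H x ^ q ∂(WD V) := by
        rw [wd_lint h.meas ((measurable_MM _ _).pow_const _), ← lintegral_const_mul' _ _
          (ENNReal.rpow_ne_top_of_nonneg hq0.le h.Qfin)]
        refine lintegral_congr fun x => ?_
        rw [ENNReal.mul_rpow_of_nonneg _ _ hq0.le]; ring
    _ ≤ Q ^ q * (C1 * ∫⁻ x, H x ^ q ∂(WD V)) := by
        gcongr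
        exact strong (h.dbl hp) hq1 hHm
    _ = Q ^ q * (C1 * ∫⁻ x, MM (WD S) G x ^ p ∂(WD S)) := by
        congr 2
        rw [wd_lint h.meas (hHm.pow_const _), wd_lint hSm ((measurable_MM _ _).pow_const _)]
        refine lintegral_congr fun x => ?_
        rw [hH]
        simp only
        rw [ENNReal.div_rpow_of_nonneg _ _ hq0.le, ← ENNReal.rpow_mul, e1, ← mul_div_assoc,
          mul_comm (V x), mul_div_assoc, mul_comm (S x)]
        congr 1
        rw [hSdef, sg, div_eq_mul_inv, ← ENNReal.rpow_neg]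
        nth_rewrite 1 [← ENNReal.rpow_one (V x)]
        rw [← ENNReal.rpow_add _ _ (h.pos x) (h.fin x)]
        congr 1
        rw [hq]; field_simp; ring
    _ ≤ Q ^ q * (C1 * (C2 * ∫⁻ x, G x ^ p ∂(WD S))) := by
        gcongr
        exact strong (hS.dbl hq1) hp hGm
    _ = Q ^ q * (C1 * (C2 * ∫⁻ x, V x * g x ^ p)) := by
        congr 3
        rw [wd_lint hSm (hGm.pow_const _)]
        refine lintegral_congr fun x => ?_
        rw [hG]
        simp only
        rw [ENNReal.div_rpow_of_nonneg _ _ hp0.le, ← mul_div_assoc, mul_comm (S x), mul_div_assoc,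
          mul_comm (V x)]
        congr 1
        have hs0 := sg_pos h.fin hp x
        have hs1 := sg_fin h.pos hp x
        have hsv : V x = S x ^ (1 - p) := by
          rw [hSdef, sg, ← ENNReal.rpow_mul]
          have : -(1 / (p - 1)) * (1 - p) = 1 := by field_simp; ring
          rw [this, ENNReal.rpow_one]
        rw [hsv, div_eq_mul_inv, ← ENNReal.rpow_neg]
        nth_rewrite 1 [← ENNReal.rpow_one (S x)]
        rw [← ENNReal.rpow_add _ _ hs0 hs1]
        congr 1
    _ = _ := by ring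

end AP

end Pool.Agent.Zk22.GL
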