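import Pool.Agent.Zk22.GB

/-! The two maximal operators and the Rubio de Francia majorant. -/

namespace Pool.Agent.Zk22.GL

open MeasureTheory Set Metric Filter
open scoped ENNReal NNReal Topology

/-- growth of order `q` -/
def Gr (V : ℝ → ℝ≥0∞) (q : ℝ) (K : ℝ≥0∞) : Prop :=
  ∀ (c r : ℝ) (k : ℕ), 0 < r →
    ∫⁻ x in ball c (2 ^ k * r), V x ≤ K * (2 : ℝ≥0∞) ^ (q * k) * ∫⁻ x in ball c r, V x

/-- the second maximal operator -/
noncomputable def LL (a : ℝ) (V g : ℝ → ℝ≥0∞) (x : ℝ) : ℝ≥0∞ :=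
  ⨆ (k : ℕ) (c : ℝ) (r : ℝ) (_ : x ∈ ball c (2 ^ k * r)),
    (2 : ℝ≥0∞) ^ (-(a * k)) * ((∫⁻ y in ball c r, V y * g y) / ∫⁻ y in ball c r, V y)

lemma le_LL (a : ℝ) (V g : ℝ → ℝ≥0∞) {x c r : ℝ} {k : ℕ} (hx : x ∈ ball c (2 ^ k * r)) :
    (2 : ℝ≥0∞) ^ (-(a * k)) * ((∫⁻ y in ball c r, V y * g y) / ∫⁻ y in ball c r, V y) ≤
      LL a V g x :=
  le_iSup_of_le k (le_iSup_of_le c (le_iSup_of_le r (le_iSup_of_le hx le_rfl)))

lemma measurable_LL (a : ℝ) (V g : ℝ → ℝ≥0∞) : Measurable (LL a V g) := by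
  refine measurable_of_Ioi fun t => IsOpen.measurableSet ?_
  rw [isOpen_iff_forall_mem_open]
  intro x hx
  have hx' : t < LL a V g x := hx
  unfold LL at hx'
  simp only [lt_iSup_iff, exists_prop] at hx'
  obtain ⟨k, c, r, h1, h2⟩ := hx'
  exact ⟨ball c (2 ^ k * r), fun y hy => lt_of_lt_of_le h2 (le_LL a V g hy), isOpen_ball, h1⟩

lemma MM_tsum (μ : Measure ℝ) (w : ℕ → ℝ≥0∞) (g : ℕ → ℝ → ℝ≥0∞) (hg : ∀ k, Measurable (g k))
    (x : ℝ) : MM μ (fun y => ∑' k, w k * g k y) x ≤ ∑' k, w k * MM μ (g k) x := by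
  refine iSup_le fun c => iSup_le fun r => iSup_le fun hx => ?_
  rw [lintegral_tsum (fun k => ((hg k).const_mul (w k)).aemeasurable), div_eq_mul_inv,
    ← ENNReal.tsum_mul_right]
  refine ENNReal.tsum_le_tsum fun k => ?_
  rw [lintegral_const_mul _ (hg k), mul_assoc, ← div_eq_mul_inv]
  exact mul_le_mul' le_rfl (le_MM μ (g k) hx)

lemma LL_tsum (a : ℝ) {V : ℝ → ℝ≥0∞} (hV : Measurable V) (w : ℕ → ℝ≥0∞) (g : ℕ → ℝ → ℝ≥0∞)
    (hg : ∀ k, Measurable (g k)) (x : ℝ) :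
    LL a V (fun y => ∑' k, w k * g k y) x ≤ ∑' k, w k * LL a V (g k) x := by
  refine iSup_le fun j => iSup_le fun c => iSup_le fun r => iSup_le fun hx => ?_
  have h1 : ∫⁻ y in ball c r, V y * ∑' k, w k * g k y = ∑' k, w k * ∫⁻ y in ball c r, V y * g k y := by
    have : ∀ y, V y * ∑' k, w k * g k y = ∑' k, w k * (V y * g k y) := by
      intro y
      rw [← ENNReal.tsum_mul_left]
      congr 1; ext k; ring
    simp_rw [this]
    have hm : ∀ k, Measurable (fun y => V y * g k y) := fun k => hV.mul (hg k)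
    rw [lintegral_tsum (fun k => ((hm k).const_mul (w k)).aemeasurable)]
    congr 1; ext k
    rw [lintegral_const_mul _ (hm k)]
  rw [h1, div_eq_mul_inv, ← ENNReal.tsum_mul_right, ← ENNReal.tsum_mul_left]
  refine ENNReal.tsum_le_tsum fun k => ?_
  rw [mul_assoc, ← div_eq_mul_inv, ← mul_assoc, mul_comm _ (w k), mul_assoc]
  exact mul_le_mul' le_rfl (le_LL a V (g k) hx)

/-- Jensen -/
lemma jensen {μ : Measure ℝ} {s : ℝ} (hs : 1 < s) {g : ℝ → ℝ≥0∞} (hg : AEMeasurable g μ) :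
    (∫⁻ x, g x ∂μ) ^ s ≤ (∫⁻ x, g x ^ s ∂μ) * μ univ ^ (s - 1) := by
  have hs1 : 0 < s - 1 := by linarith
  have hs0 : 0 < s := by linarith
  have h1 := ENNReal.lintegral_mul_le_Lp_mul_Lq μ (Real.HolderConjugate.conjExponent hs)
    (f := g) (g := fun _ => 1) hg aemeasurable_const
  have h2 := ENNReal.rpow_le_rpow h1 hs0.le
  rw [ENNReal.mul_rpow_of_nonneg _ _ hs0.le, ← ENNReal.rpow_mul, ← ENNReal.rpow_mul] at h2
  have e4 : 1 / s * s = 1 := by field_simp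
  have e5 : 1 / (s.conjExponent) * s = s - 1 := by unfold Real.conjExponent; field_simp
  rw [e4, e5, ENNReal.rpow_one] at h2
  simpa using h2

variable {p : ℝ} {V : ℝ → ℝ≥0∞} {Q : ℝ≥0∞}

lemma rpow2 (x : ℝ) : (2 : ℝ≥0∞) ^ x ≠ 0 ∧ (2 : ℝ≥0∞) ^ x ≠ ∞ := by
  constructor
  · rw [Ne, ENNReal.rpow_eq_zero_iff]; simp
  · rw [Ne, ENNReal.rpow_eq_top_iff]; simp

lemma LL_le (h : AP p V Q) (hp : 1 < p) {q s : ℝ} {K : ℝ≥0∞} (hG : Gr V q K)
    (hs : 1 < s) {g : ℝ → ℝ≥0∞} (hg : Measurable g) (x : ℝ) :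
    LL (q / s) V g x ≤ (K * MM (WD V) (fun y => g y ^ s) x) ^ (1 / s) := by
  have hs0 : 0 < s := by linarith
  refine iSup_le fun k => iSup_le fun c => iSup_le fun r => iSup_le fun hx => ?_
  have hr : 0 < r := by
    have := pos_of_mem_ball hx
    exact (pos_iff_pos_of_mul_pos this).1 (by positivity)
  have hV0 := h.V_pos (c := c) hr
  have hV1 := h.V_fin hp c r
  have hV2 := h.V_pos (c := c) (r := 2 ^ k * r) (by positivity)
  have hV3 := h.V_fin hp c (2 ^ k * r)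
  set I := ∫⁻ y in ball c r, V y with hI
  set J := ∫⁻ y in ball c (2 ^ k * r), V y with hJ
  have hJI : J ≤ K * (2 : ℝ≥0∞) ^ (q * k) * I := hG c r k hr
  have h1 := jensen (μ := (WD V).restrict (ball c r)) hs hg.aemeasurable
  rw [wd_set h.meas hg, wd_set h.meas (hg.pow_const s), Measure.restrict_apply_univ, wd_ball,
    ← hI] at h1
  set G1 := ∫⁻ y in ball c r, V y * g y with hG1
  set G2 := ∫⁻ y in ball c r, V y * g y ^ s with hG2
  have h2 : (G1 / I) ^ s ≤ G2 / I := by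
    rw [ENNReal.div_rpow_of_nonneg _ _ hs0.le, ENNReal.div_le_iff_le_mul]
    · refine h1.trans (le_of_eq ?_)
      have : I ^ s = I * I ^ (s - 1) := by
        nth_rewrite 2 [← ENNReal.rpow_one I]
        rw [← ENNReal.rpow_add _ _ hV0 hV1]; congr 1; ring
      rw [this, ← mul_assoc, ENNReal.div_mul_cancel hV0 hV1]
    · left
      rw [Ne, ENNReal.rpow_eq_zero_iff]; push Not
      exact ⟨fun h => absurd h hV0, fun h => absurd h hV1⟩
    · left; exact ENNReal.rpow_ne_top_of_nonneg hs0.le hV1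
  have h3 : G2 / I ≤ (K * (2 : ℝ≥0∞) ^ (q * k)) * MM (WD V) (fun y => g y ^ s) x := by
    have h4 := le_MM (WD V) (fun y => g y ^ s) hx
    rw [wd_set h.meas (hg.pow_const s), wd_ball, ← hJ] at h4
    have h5 : G2 ≤ ∫⁻ y in ball c (2 ^ k * r), V y * g y ^ s := by
      refine lintegral_mono_set (ball_subset_ball ?_)
      have : (1:ℝ) ≤ 2 ^ k := one_le_pow₀ (by norm_num)
      nlinarith
    rw [ENNReal.div_le_iff hV0 hV1]
    calc G2 ≤ (G2 / J) * J := by rw [ENNReal.div_mul_cancel hV2 hV3]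
      _ ≤ MM (WD V) (fun y => g y ^ s) x * (K * (2 : ℝ≥0∞) ^ (q * k) * I) := by
          refine mul_le_mul' (le_trans ?_ h4) hJI
          exact ENNReal.div_le_div_right h5 _
      _ = _ := by ring
  calc (2 : ℝ≥0∞) ^ (-(q / s * k)) * (G1 / I)
      = ((2 : ℝ≥0∞) ^ (-(q * k)) * (G1 / I) ^ s) ^ (1 / s) := by
        rw [ENNReal.mul_rpow_of_nonneg _ _ (by positivity), ← ENNReal.rpow_mul, ← ENNReal.rpow_mul]
        have : s * (1 / s) = 1 := by field_simp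
        rw [this, ENNReal.rpow_one]
        congr 2; ring
    _ ≤ (K * MM (WD V) (fun y => g y ^ s) x) ^ (1 / s) := by
        refine ENNReal.rpow_le_rpow ?_ (by positivity)
        calc _ ≤ (2 : ℝ≥0∞) ^ (-(q * k)) * ((K * (2 : ℝ≥0∞) ^ (q * k)) *
              MM (WD V) (fun y => g y ^ s) x) := mul_le_mul' le_rfl (h2.trans h3)
          _ = ((2 : ℝ≥0∞) ^ (-(q * k)) * (2 : ℝ≥0∞) ^ (q * k)) *
              (K * MM (WD V) (fun y => g y ^ s) x) := by ring
          _ = _ := by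
              rw [← ENNReal.rpow_add _ _ (by norm_num) (by norm_num)]; simp

/-- `L^p(V)` bound for the sum of the two operators -/
lemma NN_bound (h : AP p V Q) {q s : ℝ} {K : ℝ≥0∞} (hG : Gr V q K) (hK : K ≠ ∞)
    (hs : 1 < s) (hsp : s < p) : ∃ B : ℝ≥0∞, B ≠ ∞ ∧ 1 ≤ B ∧ ∀ g : ℝ → ℝ≥0∞, Measurable g →
    ∫⁻ x, V x * (MM volume g x + LL (q / s) V g x) ^ p ≤ B * ∫⁻ x, V x * g x ^ p := by
  have hp : 1 < p := by linarith
  have hp0 : 0 < p := by linarith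
  have hs0 : 0 < s := by linarith
  obtain ⟨C, hC, hCb⟩ := h.muck hp
  have hps : 1 < p / s := by rw [lt_div_iff₀ hs0]; linarith
  set C1 := (Q * ENNReal.ofReal (5 ^ p)) *
    ENNReal.ofReal (2 * ((p / s) / ((p / s) - 1)) * 2 ^ ((p / s) - 1)) with hC1
  have hC1' : C1 ≠ ∞ := ENNReal.mul_ne_top (ENNReal.mul_ne_top h.Qfin ENNReal.ofReal_ne_top)
    ENNReal.ofReal_ne_top
  refine ⟨1 + (2 : ℝ≥0∞) ^ (p - 1) * (C + K ^ (p / s) * C1), ?_, le_self_add, ?_⟩
  · refine ENNReal.add_ne_top.2 ⟨by norm_num, ENNReal.mul_ne_top (rpow2 _).2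
      (ENNReal.add_ne_top.2 ⟨hC, ENNReal.mul_ne_top ?_ hC1'⟩)⟩
    exact ENNReal.rpow_ne_top_of_nonneg (by positivity) hK
  intro g hg
  have hL : ∫⁻ x, V x * LL (q / s) V g x ^ p ≤ (K ^ (p / s) * C1) * ∫⁻ x, V x * g x ^ p := by
    calc _ ≤ ∫⁻ x, V x * ((K * MM (WD V) (fun y => g y ^ s) x) ^ (1 / s)) ^ p := by
          refine lintegral_mono fun x => ?_
          exact mul_le_mul' le_rfl (ENNReal.rpow_le_rpow (LL_le h hp hG hs hg x) hp0.le)
      _ = ∫⁻ x, K ^ (p / s) * (V x * MM (WD V) (fun y => g y ^ s) x ^ (p / s)) := by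
          refine lintegral_congr fun x => ?_
          rw [← ENNReal.rpow_mul, ENNReal.mul_rpow_of_nonneg _ _ (by positivity)]
          have : 1 / s * p = p / s := by ring
          rw [this]; ring
      _ = K ^ (p / s) * ∫⁻ x, MM (WD V) (fun y => g y ^ s) x ^ (p / s) ∂(WD V) := by
          rw [lintegral_const_mul' _ _ (ENNReal.rpow_ne_top_of_nonneg (by positivity) hK),
            wd_lint h.meas ((measurable_MM _ _).pow_const _)]
      _ ≤ K ^ (p / s) * (C1 * ∫⁻ x, (g x ^ s) ^ (p / s) ∂(WD V)) := by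
          exact mul_le_mul' le_rfl (strong (h.dbl hp) hps (hg.pow_const s))
      _ = _ := by
          rw [wd_lint h.meas ((hg.pow_const _).pow_const _), ← mul_assoc]
          congr 1
          refine lintegral_congr fun x => ?_
          rw [← ENNReal.rpow_mul]; congr 2; field_simp
  calc _ ≤ ∫⁻ x, (2 : ℝ≥0∞) ^ (p - 1) * (V x * MM volume g x ^ p + V x * LL (q / s) V g x ^ p) := by
        refine lintegral_mono fun x => ?_
        calc _ ≤ V x * ((2 : ℝ≥0∞) ^ (p - 1) * (MM volume g x ^ p + LL (q / s) V g x ^ p)) := by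
              exact mul_le_mul' le_rfl (ENNReal.rpow_add_le_mul_rpow_add_rpow _ _ hp.le)
          _ = _ := by ring
    _ = (2 : ℝ≥0∞) ^ (p - 1) * ((∫⁻ x, V x * MM volume g x ^ p) +
          ∫⁻ x, V x * LL (q / s) V g x ^ p) := by
        have hm : Measurable (fun x => V x * MM volume g x ^ p) :=
          h.meas.mul ((measurable_MM _ _).pow_const _)
        rw [lintegral_const_mul' _ _ (rpow2 _).2, lintegral_add_left hm]
    _ ≤ (2 : ℝ≥0∞) ^ (p - 1) * ((C * ∫⁻ x, V x * g x ^ p) +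
          (K ^ (p / s) * C1) * ∫⁻ x, V x * g x ^ p) :=
        mul_le_mul' le_rfl (add_le_add (hCb g hg) hL)
    _ = ((2 : ℝ≥0∞) ^ (p - 1) * (C + K ^ (p / s) * C1)) * ∫⁻ x, V x * g x ^ p := by ring
    _ ≤ _ := mul_le_mul' le_add_self le_rfl

end Pool.Agent.Zk22.GL
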