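import Pool.Agent.Zk22.GC

/-! Rubio de Francia majorant, and the self-improvement of the `B_r` condition. -/

namespace Pool.Agent.Zk22.GL

open MeasureTheory Set Metric Filter
open scoped ENNReal NNReal Topology

variable {p : ℝ} {V : ℝ → ℝ≥0∞} {Q : ℝ≥0∞}

/-- iterates -/
noncomputable def FF (a : ℝ) (V g : ℝ → ℝ≥0∞) : ℕ → ℝ → ℝ≥0∞
  | 0 => g
  | k + 1 => fun x => MM volume (FF a V g k) x + LL a V (FF a V g k) x

lemma FF_meas {a : ℝ} {V g : ℝ → ℝ≥0∞} (hg : Measurable g) : ∀ k, Measurable (FF a V g k)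
  | 0 => hg
  | _ + 1 => (measurable_MM _ _).add (measurable_LL _ _ _)

theorem rdf (h : AP p V Q) {q s : ℝ} {K : ℝ≥0∞} (hG : Gr V q K) (hK : K ≠ ∞)
    (hs : 1 < s) (hsp : s < p) : ∃ A C : ℝ≥0∞, A ≠ ∞ ∧ C ≠ ∞ ∧ ∀ g : ℝ → ℝ≥0∞, Measurable g →
    ∃ R : ℝ → ℝ≥0∞, Measurable R ∧ (∀ x, g x ≤ R x) ∧
      (∫⁻ x, V x * R x ^ p ≤ C * ∫⁻ x, V x * g x ^ p) ∧
      (∀ x, MM volume R x ≤ A * R x) ∧ (∀ x, LL (q / s) V R x ≤ A * R x) := by
  have hp : 1 < p := by linarith
  have hp0 : 0 < p := by linarith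
  obtain ⟨B, hB, hB1, hNN⟩ := NN_bound h hG hK hs hsp
  have h2B : (2 * B) ≠ 0 := by
    have : B ≠ 0 := fun h => by rw [h] at hB1; exact absurd hB1 (by norm_num)
    simp [this]
  have h2B' : (2 * B) ≠ ∞ := ENNReal.mul_ne_top (by norm_num) hB
  set T : ℝ≥0∞ := (2 * B) ^ (1 / p) with hT
  have hT0 : T ≠ 0 := by
    rw [hT, Ne, ENNReal.rpow_eq_zero_iff]; push Not
    exact ⟨fun h => absurd h h2B, fun h => absurd h h2B'⟩
  have hT1 : T ≠ ∞ := ENNReal.rpow_ne_top_of_nonneg (by positivity) h2B'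
  set A : ℝ≥0∞ := 2 * T with hA
  have hA0 : A ≠ 0 := mul_ne_zero (by norm_num) hT0
  have hA1 : A ≠ ∞ := ENNReal.mul_ne_top (by norm_num) hT1
  refine ⟨A, 2 ^ p * 2, hA1, ENNReal.mul_ne_top (rpow2 p).2 (by norm_num), fun g hg => ?_⟩
  set F := FF (q / s) V g with hF
  have hFm : ∀ k, Measurable (F k) := FF_meas hg
  set w : ℕ → ℝ≥0∞ := fun k => A⁻¹ ^ k with hw
  have hshift : ∀ x, ∑' k, w k * F (k + 1) x ≤ A * ∑' k, w k * F k x := by
    intro x
    have h1 : ∀ k, w k * F (k + 1) x = A * (w (k + 1) * F (k + 1) x) := by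
      intro k
      rw [hw]; simp only
      rw [pow_succ]
      calc _ = (A * A⁻¹) * (A⁻¹ ^ k * F (k + 1) x) := by rw [ENNReal.mul_inv_cancel hA0 hA1, one_mul]
        _ = _ := by ring
    simp_rw [h1]
    rw [ENNReal.tsum_mul_left]
    refine mul_le_mul' le_rfl ?_
    exact ENNReal.tsum_comp_le_tsum_of_injective (add_left_injective 1) (fun k => w k * F k x)
  refine ⟨fun x => ∑' k, w k * F k x, Measurable.ennreal_tsum fun k => (hFm k).const_mul _,
    fun x => ?_, ?_, fun x => ?_, fun x => ?_⟩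
  · refine le_trans ?_ (ENNReal.le_tsum 0)
    simp [hw, hF, FF]
  · -- the norm
    have hint : ∀ k, ∫⁻ x, V x * F k x ^ p ≤ B ^ k * ∫⁻ x, V x * g x ^ p := by
      intro k
      induction k with
      | zero => simp [hF, FF]
      | succ k ih =>
        calc _ ≤ B * ∫⁻ x, V x * F k x ^ p := hNN (F k) (hFm k)
          _ ≤ B * (B ^ k * ∫⁻ x, V x * g x ^ p) := mul_le_mul' le_rfl ih
          _ = _ := by ring
    have hpt : ∀ x, (∑' k, w k * F k x) ^ p ≤ 2 ^ p * ∑' k, (T⁻¹ ^ k * F k x) ^ p := by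
      intro x
      have h1 : ∀ k, w k * F k x = 2⁻¹ ^ k * (T⁻¹ ^ k * F k x) := by
        intro k
        rw [hw]; simp only
        rw [hA, ENNReal.mul_inv (Or.inl (by norm_num)) (Or.inl (by norm_num)), mul_pow]; ring
      have h2 : ∀ k, T⁻¹ ^ k * F k x ≤ (∑' k, (T⁻¹ ^ k * F k x) ^ p) ^ (1 / p) := by
        intro k
        calc T⁻¹ ^ k * F k x = ((T⁻¹ ^ k * F k x) ^ p) ^ (1 / p) := by
              rw [← ENNReal.rpow_mul]
              have : p * (1 / p) = 1 := by field_simp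
              rw [this, ENNReal.rpow_one]
          _ ≤ _ := ENNReal.rpow_le_rpow (ENNReal.le_tsum k) (by positivity)
      calc (∑' k, w k * F k x) ^ p
          ≤ (∑' k : ℕ, (2:ℝ≥0∞)⁻¹ ^ k * (∑' k, (T⁻¹ ^ k * F k x) ^ p) ^ (1 / p)) ^ p := by
            refine ENNReal.rpow_le_rpow (ENNReal.tsum_le_tsum fun k => ?_) hp0.le
            rw [h1 k]
            exact mul_le_mul' le_rfl (h2 k)
        _ = _ := by
            rw [ENNReal.tsum_mul_right, ENNReal.tsum_geometric_two,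
              ENNReal.mul_rpow_of_nonneg _ _ hp0.le, ← ENNReal.rpow_mul]
            have : 1 / p * p = 1 := by field_simp
            rw [this, ENNReal.rpow_one]
    have hTp : T⁻¹ ^ p = (2 * B)⁻¹ := by
      rw [ENNReal.inv_rpow, hT, ← ENNReal.rpow_mul]
      have : 1 / p * p = 1 := by field_simp
      rw [this, ENNReal.rpow_one]
    have hmk : ∀ k, Measurable (fun x => V x * (T⁻¹ ^ k * F k x) ^ p) := fun k =>
      h.meas.mul (((hFm k).const_mul _).pow_const _)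
    calc ∫⁻ x, V x * (∑' k, w k * F k x) ^ p
        ≤ ∫⁻ x, 2 ^ p * ∑' k, V x * (T⁻¹ ^ k * F k x) ^ p := by
          refine lintegral_mono fun x => ?_
          calc _ ≤ V x * (2 ^ p * ∑' k, (T⁻¹ ^ k * F k x) ^ p) := mul_le_mul' le_rfl (hpt x)
            _ = _ := by rw [ENNReal.tsum_mul_left]; ring
      _ = 2 ^ p * ∑' k, ∫⁻ x, V x * (T⁻¹ ^ k * F k x) ^ p := by
          rw [lintegral_const_mul' _ _ (rpow2 p).2, lintegral_tsum fun k => (hmk k).aemeasurable]
      _ ≤ 2 ^ p * ∑' k : ℕ, 2⁻¹ ^ k * ∫⁻ x, V x * g x ^ p := by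
          refine mul_le_mul' le_rfl (ENNReal.tsum_le_tsum fun k => ?_)
          have e1 : ∀ x, V x * (T⁻¹ ^ k * F k x) ^ p = (T⁻¹ ^ p) ^ k * (V x * F k x ^ p) := by
            intro x
            rw [ENNReal.mul_rpow_of_nonneg _ _ hp0.le, ← ENNReal.rpow_natCast, ← ENNReal.rpow_natCast,
              ← ENNReal.rpow_mul, ← ENNReal.rpow_mul, mul_comm (k:ℝ) p]
            ring
          simp_rw [e1]
          rw [lintegral_const_mul _ (show Measurable (fun x => V x * F k x ^ p) from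
            h.meas.mul ((hFm k).pow_const _)), hTp]
          calc _ ≤ (2 * B)⁻¹ ^ k * (B ^ k * ∫⁻ x, V x * g x ^ p) := mul_le_mul' le_rfl (hint k)
            _ = ((2 * B)⁻¹ * B) ^ k * ∫⁻ x, V x * g x ^ p := by rw [mul_pow]; ring
            _ = _ := by
              have hB0 : B ≠ 0 := fun h => h2B (by rw [h, mul_zero])
              rw [ENNReal.mul_inv (Or.inl (by norm_num)) (Or.inl (by norm_num)), mul_assoc,
                ENNReal.inv_mul_cancel hB0 hB, mul_one]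
      _ = _ := by
          rw [ENNReal.tsum_mul_right, ENNReal.tsum_geometric_two]; ring
  · refine (MM_tsum volume w F hFm x).trans (le_trans ?_ (hshift x))
    exact ENNReal.tsum_le_tsum fun k => mul_le_mul' le_rfl le_self_add
  · refine (LL_tsum (q / s) h.meas w F hFm x).trans (le_trans ?_ (hshift x))
    exact ENNReal.tsum_le_tsum fun k => mul_le_mul' le_rfl le_add_self

/-- `B_r` for balls -/
def BR (r : ℝ) (V : ℝ → ℝ≥0∞) (Cb : ℝ≥0∞) : Prop :=
  ∀ c ρ : ℝ, 0 < ρ → ∫⁻ x, ENNReal.ofReal (ρ ^ r / (ρ ^ r + |x - c| ^ r)) * V x ≤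
    Cb * ∫⁻ x in ball c ρ, V x

/-- the truncated geometric sums -/
noncomputable def SS (r : ℝ) (N : ℕ) (s : ℝ) : ℝ :=
  ∑ k ∈ Finset.range (N + 1), if s < 2 ^ k then (2 : ℝ) ^ (-(r * k)) else 0

lemma SS_nonneg (r : ℝ) (N : ℕ) (s : ℝ) : 0 ≤ SS r N s :=
  Finset.sum_nonneg fun k _ => by split_ifs <;> positivity

lemma SS_le_two {r : ℝ} (hr : 1 ≤ r) (N : ℕ) (s : ℝ) : SS r N s ≤ 2 := by
  have h1 : ∀ k ∈ Finset.range (N + 1), (if s < 2 ^ k then (2 : ℝ) ^ (-(r * k)) else 0) ≤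
      (1 / 2) ^ k := by
    intro k _
    have h2 : (2 : ℝ) ^ (-(r * k)) ≤ (1 / 2) ^ k := by
      have : ((1:ℝ) / 2) ^ k = (2:ℝ) ^ (-(k:ℝ)) := by
        rw [Real.rpow_neg (by norm_num), Real.rpow_natCast, one_div, inv_pow]
      rw [this]
      refine Real.rpow_le_rpow_of_exponent_le (by norm_num) ?_
      have : (0:ℝ) ≤ k := Nat.cast_nonneg k
      nlinarith
    split_ifs
    · exact h2
    · positivity
  refine (Finset.sum_le_sum h1).trans ?_
  rw [geom_sum_eq (by norm_num)]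
  have : (0:ℝ) ≤ (1/2) ^ (N + 1) := by positivity
  rw [div_le_iff_of_neg (by norm_num)]
  linarith

lemma SS_mul {r : ℝ} (hr : 1 ≤ r) : ∀ (N : ℕ) (s : ℝ), 0 ≤ s → SS r N s * s ^ r ≤ 2 := by
  intro N
  induction N with
  | zero =>
    intro s hs
    unfold SS
    rw [Finset.sum_range_one]
    by_cases h : s < 2 ^ 0
    · rw [if_pos h]
      have h1 : s ^ r ≤ 1 := Real.rpow_le_one hs (by simpa using h.le) (by linarith)
      simp
      linarith
    · rw [if_neg h]; simp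
  | succ N ih =>
    intro s hs
    by_cases h : s < 1
    · have h1 : s ^ r ≤ 1 := Real.rpow_le_one hs h.le (by linarith)
      have h2 := SS_le_two hr (N + 1) s
      have h3 := SS_nonneg r (N + 1) s
      nlinarith [Real.rpow_nonneg hs r]
    · have h1 : SS r (N + 1) s = (2:ℝ) ^ (-r) * SS r N (s / 2) := by
        unfold SS
        rw [Finset.sum_range_succ', if_neg (by simpa using h), add_zero, Finset.mul_sum]
        refine Finset.sum_congr rfl fun k _ => ?_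
        have h2 : s < 2 ^ (k + 1) ↔ s / 2 < 2 ^ k := by
          rw [div_lt_iff₀ (by norm_num), pow_succ]
        simp only [h2]
        split_ifs
        · rw [← Real.rpow_add (by norm_num)]; congr 1; push_cast; ring
        · simp
      rw [h1]
      have h3 := ih (s / 2) (by linarith)
      rw [Real.div_rpow hs (by norm_num)] at h3
      calc _ = SS r N (s / 2) * (s ^ r / 2 ^ r) := by
            rw [Real.rpow_neg (by norm_num)]; ring
        _ ≤ 2 := h3

lemma SS_pt {r : ℝ} (hr : 1 ≤ r) (N : ℕ) {ρ d : ℝ} (hρ : 0 < ρ) (hd : 0 ≤ d) :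
    ∑ k ∈ Finset.range (N + 1), (if d < 2 ^ k * ρ then (2 : ℝ) ^ (-(r * k)) else 0) ≤
      4 * (ρ ^ r / (ρ ^ r + d ^ r)) := by
  have h1 := SS_le_two hr N (d / ρ)
  have h2 := SS_mul hr N (d / ρ) (by positivity)
  have h3 : ∑ k ∈ Finset.range (N + 1), (if d < 2 ^ k * ρ then (2 : ℝ) ^ (-(r * k)) else 0) =
      SS r N (d / ρ) := by
    unfold SS
    refine Finset.sum_congr rfl fun k _ => ?_
    have : d < 2 ^ k * ρ ↔ d / ρ < 2 ^ k := by rw [div_lt_iff₀ hρ]
    simp only [this]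
  rw [h3]
  have hρr : 0 < ρ ^ r := Real.rpow_pos_of_pos hρ r
  have hdr : 0 ≤ d ^ r := Real.rpow_nonneg hd r
  rw [Real.div_rpow hd hρ.le, ← mul_div_assoc, div_le_iff₀ hρr] at h2
  rw [← mul_div_assoc, le_div_iff₀ (by positivity)]
  nlinarith [SS_nonneg r N (d / ρ)]

end Pool.Agent.Zk22.GL
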