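import Mathlib

/-! Definitions for the weighted inequality for the Littlewood–Paley function `g_λ^*` on the line. -/

namespace Pool.Agent.Zk22.GStar

open MeasureTheory Set
open scoped ENNReal

/-- The Poisson integral `f(z,y) = (1/π) ∫ y f(z-x) / (x² + y²) dx`. -/
noncomputable def poisson (f : ℝ → ℝ) (z y : ℝ) : ℝ :=
  (1 / Real.pi) * ∫ x, y * f (z - x) / (x ^ 2 + y ^ 2)

/-- `|∇f(z,y)|²`, the gradient being taken in `(z,y)`. -/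
noncomputable def gradSq (f : ℝ → ℝ) (z y : ℝ) : ℝ :=
  (deriv (fun t => poisson f t y) z) ^ 2 + (deriv (fun t => poisson f z t) y) ^ 2

/-- The Littlewood–Paley function
`g_λ^*(f)(x) = (∫_ℝ ∫_0^∞ (y/(|x-z|+y))^λ |∇f(z,y)|² dy dz)^{1/2}`, with values in `[0,∞]`. -/
noncomputable def gStar (lam : ℝ) (f : ℝ → ℝ) (x : ℝ) : ℝ≥0∞ :=
  (∫⁻ z : ℝ, ∫⁻ y in Ioi (0 : ℝ),
    ENNReal.ofReal ((y / (|x - z| + y)) ^ lam * gradSq f z y)) ^ (1 / 2 : ℝ)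

/-- A weight: a nonnegative locally integrable function on the line. -/
structure IsWeight (U : ℝ → ℝ) : Prop where
  nonneg : ∀ x, 0 ≤ U x
  locInt : LocallyIntegrable U volume

/-- `U ∈ A_r`: there is a finite `C` such that for every bounded interval `I = (a,b)`,
`(|I|⁻¹ ∫_I U) (|I|⁻¹ ∫_I U^{-1/(r-1)})^{r-1} ≤ C`. The computation is done in `[0,∞]`, so that
`0^{-1/(r-1)} = ∞`. -/
def MemA (r : ℝ) (U : ℝ → ℝ) : Prop :=
  ∃ C : ℝ≥0∞, C ≠ ∞ ∧ ∀ a b : ℝ, a < b →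
    ((∫⁻ x in Ioo a b, ENNReal.ofReal (U x)) / ENNReal.ofReal (b - a)) *
      ((∫⁻ x in Ioo a b, ENNReal.ofReal (U x) ^ (-(1 / (r - 1)))) /
        ENNReal.ofReal (b - a)) ^ (r - 1) ≤ C

/-- `U ∈ B_r`: there is a finite `C` such that for every bounded interval `I = (a,b)` with center
`x_I = (a+b)/2`, `∫_ℝ |I|^{r-1} U(x) / (|I|^r + |x-x_I|^r) dx ≤ (C/|I|) ∫_I U`. -/
def MemB (r : ℝ) (U : ℝ → ℝ) : Prop :=
  ∃ C : ℝ≥0∞, C ≠ ∞ ∧ ∀ a b : ℝ, a < b →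
    ∫⁻ x, ENNReal.ofReal ((b - a) ^ (r - 1) * U x / ((b - a) ^ r + |x - (a + b) / 2| ^ r)) ≤
      C / ENNReal.ofReal (b - a) * ∫⁻ x in Ioo a b, ENNReal.ofReal (U x)

/-- The inequality `(∗)`: there is a finite `C` with
`∫ g_λ^*(f)^p U ≤ C ∫ |f|^p U` for every measurable real function `f` with finite right side. -/
def GStarInequality (lam p : ℝ) (U : ℝ → ℝ) : Prop :=
  ∃ C : ℝ≥0∞, C ≠ ∞ ∧ ∀ f : ℝ → ℝ, AEStronglyMeasurable f volume →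
    ∫⁻ x, ENNReal.ofReal (|f x| ^ p * U x) ≠ ∞ →
    ∫⁻ x, gStar lam f x ^ p * ENNReal.ofReal (U x) ≤
      C * ∫⁻ x, ENNReal.ofReal (|f x| ^ p * U x)

end Pool.Agent.Zk22.GStar
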