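import Pool.Agent.Zk22.GD

/-! Self-improvement of `B_r`. -/

namespace Pool.Agent.Zk22.GL

open MeasureTheory Set Metric Filter
open scoped ENNReal NNReal Topology

lemma ofReal_two_rpow (x : ℝ) : ENNReal.ofReal ((2:ℝ) ^ x) = (2 : ℝ≥0∞) ^ x := by
  rw [← ENNReal.ofReal_rpow_of_pos (by norm_num)]; norm_num

lemma br_one {r : ℝ} (hr : 1 ≤ r) {V : ℝ → ℝ≥0∞} {Cb : ℝ≥0∞} (h : BR r V Cb) (c ρ : ℝ) (k : ℕ)
    (hρ : 0 < ρ) : ∫⁻ x in ball c (2 ^ k * ρ), V x ≤
      2 * Cb * (2 : ℝ≥0∞) ^ (r * k) * ∫⁻ x in ball c ρ, V x := by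
  have h1 : (2 * (2 : ℝ≥0∞) ^ (r * k))⁻¹ * ∫⁻ x in ball c (2 ^ k * ρ), V x ≤
      Cb * ∫⁻ x in ball c ρ, V x := by
    refine le_trans ?_ (h c ρ hρ)
    rw [← lintegral_const_mul' _ _ (by
      rw [Ne, ENNReal.inv_eq_top]; exact mul_ne_zero (by norm_num) (rpow2 _).1)]
    refine (setLIntegral_mono_ae' measurableSet_ball (Eventually.of_forall fun x hx => ?_)).trans
      (setLIntegral_le_lintegral _ _)
    refine mul_le_mul' ?_ le_rfl
    rw [← ofReal_two_rpow, ← ENNReal.ofReal_ofNat 2, ← ENNReal.ofReal_mul (by norm_num),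
      ← ENNReal.ofReal_inv_of_pos (by positivity)]
    refine ENNReal.ofReal_le_ofReal ?_
    have hρr : 0 < ρ ^ r := Real.rpow_pos_of_pos hρ r
    have hx' : |x - c| < 2 ^ k * ρ := by rwa [mem_ball, Real.dist_eq] at hx
    have h2 : |x - c| ^ r ≤ 2 ^ (r * k) * ρ ^ r := by
      calc |x - c| ^ r ≤ (2 ^ k * ρ) ^ r := Real.rpow_le_rpow (abs_nonneg _) hx'.le (by linarith)
        _ = _ := by
          rw [Real.mul_rpow (by positivity) hρ.le, ← Real.rpow_natCast, ← Real.rpow_mul (by norm_num),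
            mul_comm (k:ℝ) r]
    have h3 : (1:ℝ) ≤ 2 ^ (r * k) := Real.one_le_rpow (by norm_num) (by positivity)
    have h4 : 0 ≤ |x - c| ^ r := Real.rpow_nonneg (abs_nonneg _) _
    rw [inv_eq_one_div, div_le_div_iff₀ (by positivity) (by positivity)]
    nlinarith
  have h2 : (2 * (2 : ℝ≥0∞) ^ (r * k)) ≠ 0 := mul_ne_zero (by norm_num) (rpow2 _).1
  have h3 : (2 * (2 : ℝ≥0∞) ^ (r * k)) ≠ ∞ := ENNReal.mul_ne_top (by norm_num) (rpow2 _).2
  calc ∫⁻ x in ball c (2 ^ k * ρ), V x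
      = (2 * (2 : ℝ≥0∞) ^ (r * k)) * ((2 * (2 : ℝ≥0∞) ^ (r * k))⁻¹ *
        ∫⁻ x in ball c (2 ^ k * ρ), V x) := by
        rw [← mul_assoc, ENNReal.mul_inv_cancel h2 h3, one_mul]
    _ ≤ (2 * (2 : ℝ≥0∞) ^ (r * k)) * (Cb * ∫⁻ x in ball c ρ, V x) := mul_le_mul' le_rfl h1
    _ = _ := by ring

lemma br_sum {r : ℝ} (hr : 1 ≤ r) {V : ℝ → ℝ≥0∞} (hV : Measurable V) {Cb : ℝ≥0∞} (h : BR r V Cb)
    (c ρ : ℝ) (N : ℕ) (hρ : 0 < ρ) :
    ∑ k ∈ Finset.range (N + 1), (2 : ℝ≥0∞) ^ (-(r * k)) * ∫⁻ x in ball c (2 ^ k * ρ), V x ≤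
      4 * (Cb * ∫⁻ x in ball c ρ, V x) := by
  have e1 : ∀ k ∈ Finset.range (N + 1), (2 : ℝ≥0∞) ^ (-(r * k)) * ∫⁻ x in ball c (2 ^ k * ρ), V x =
      ∫⁻ x, ENNReal.ofReal (if |x - c| < 2 ^ k * ρ then (2 : ℝ) ^ (-(r * k)) else 0) * V x := by
    intro k _
    rw [← lintegral_const_mul _ hV, ← lintegral_indicator measurableSet_ball]
    refine lintegral_congr fun x => ?_
    by_cases hx : x ∈ ball c (2 ^ k * ρ)
    · have hx' : |x - c| < 2 ^ k * ρ := by rwa [mem_ball, Real.dist_eq] at hx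
      rw [indicator_of_mem hx, if_pos hx', ofReal_two_rpow]
    · have hx' : ¬ |x - c| < 2 ^ k * ρ := by rwa [mem_ball, Real.dist_eq] at hx
      rw [indicator_of_notMem hx, if_neg hx']; simp
  rw [Finset.sum_congr rfl e1, ← lintegral_finset_sum]
  · calc _ ≤ ∫⁻ x, 4 * (ENNReal.ofReal (ρ ^ r / (ρ ^ r + |x - c| ^ r)) * V x) := by
          refine lintegral_mono fun x => ?_
          rw [← Finset.sum_mul, ← mul_assoc]
          refine mul_le_mul' ?_ le_rfl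
          rw [← ENNReal.ofReal_sum_of_nonneg (fun k _ => by split_ifs <;> positivity),
            ← ENNReal.ofReal_ofNat 4, ← ENNReal.ofReal_mul (by norm_num)]
          exact ENNReal.ofReal_le_ofReal (SS_pt hr N hρ (abs_nonneg _))
      _ = 4 * ∫⁻ x, ENNReal.ofReal (ρ ^ r / (ρ ^ r + |x - c| ^ r)) * V x :=
          lintegral_const_mul' _ _ (by norm_num)
      _ ≤ _ := mul_le_mul' le_rfl (h c ρ hρ)
  · intro k _
    refine Measurable.mul (ENNReal.measurable_ofReal.comp ?_) hV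
    refine Measurable.ite ?_ measurable_const measurable_const
    exact measurableSet_lt (by fun_prop) measurable_const

/-- **Self-improvement.** -/
theorem gr_of_br {r : ℝ} (hr : 1 ≤ r) {V : ℝ → ℝ≥0∞} (hV : Measurable V) {Cb : ℝ≥0∞}
    (hCb : Cb ≠ ∞) (h : BR r V Cb) : ∃ (q : ℝ) (K : ℝ≥0∞), 0 ≤ q ∧ q < r ∧ K ≠ ∞ ∧ Gr V q K := by
  -- choose N
  obtain ⟨N', hN'⟩ := ENNReal.exists_nat_gt (r := 16 * Cb * Cb)
    (ENNReal.mul_ne_top (ENNReal.mul_ne_top (by norm_num) hCb) hCb)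
  set N := N' + 1 with hN
  have hNpos : (0:ℝ) < N := by rw [hN]; positivity
  have hstep : ∀ c ρ : ℝ, 0 < ρ → ∫⁻ x in ball c (2 ^ N * ρ), V x ≤
      (2 : ℝ≥0∞) ^ (r * N - 1) * ∫⁻ x in ball c ρ, V x := by
    intro c ρ hρ
    set W0 := ∫⁻ x in ball c ρ, V x with hW0
    set WN := ∫⁻ x in ball c (2 ^ N * ρ), V x with hWN
    have h1 : ∀ k ∈ Finset.range (N + 1), (2 : ℝ≥0∞) ^ (-(r * N)) * WN ≤
        2 * Cb * ((2 : ℝ≥0∞) ^ (-(r * k)) * ∫⁻ x in ball c (2 ^ k * ρ), V x) := by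
      intro k hk
      have hkN : k ≤ N := by have := Finset.mem_range.1 hk; omega
      have h2 := br_one hr h c (2 ^ k * ρ) (N - k) (by positivity)
      rw [← mul_assoc, ← pow_add, Nat.sub_add_cancel hkN] at h2
      calc _ ≤ (2 : ℝ≥0∞) ^ (-(r * N)) * (2 * Cb * (2 : ℝ≥0∞) ^ (r * ((N - k : ℕ) : ℝ)) *
            ∫⁻ x in ball c (2 ^ k * ρ), V x) := mul_le_mul' le_rfl h2
        _ = 2 * Cb * (((2 : ℝ≥0∞) ^ (-(r * N)) * (2 : ℝ≥0∞) ^ (r * ((N - k : ℕ) : ℝ))) *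
            ∫⁻ x in ball c (2 ^ k * ρ), V x) := by ring
        _ = _ := by
            rw [← ENNReal.rpow_add _ _ (by norm_num) (by norm_num), Nat.cast_sub hkN]
            congr 3; ring
    have h2 := Finset.sum_le_sum h1
    rw [Finset.sum_const, Finset.card_range, nsmul_eq_mul, ← Finset.mul_sum] at h2
    have h3 : ((N + 1 : ℕ) : ℝ≥0∞) * ((2 : ℝ≥0∞) ^ (-(r * N)) * WN) ≤
        ((N + 1 : ℕ) : ℝ≥0∞) * (2⁻¹ * W0) := by
      calc _ ≤ 2 * Cb * (4 * (Cb * W0)) := h2.trans (mul_le_mul' le_rfl (br_sum hr hV h c ρ N hρ))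
        _ = (16 * Cb * Cb) * (2⁻¹ * W0) := by
            have : (16 : ℝ≥0∞) = 8 * 2 := by norm_num
            rw [this]
            calc _ = 8 * 1 * Cb * Cb * W0 := by ring
              _ = 8 * (2 * 2⁻¹) * Cb * Cb * W0 := by
                rw [ENNReal.mul_inv_cancel (by norm_num) (by norm_num)]
              _ = _ := by ring
        _ ≤ _ := by
            refine mul_le_mul' ?_ le_rfl
            refine hN'.le.trans ?_
            exact_mod_cast (show N' ≤ N + 1 by omega)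
    have h4 := (ENNReal.mul_le_mul_iff_right (by simp) (ENNReal.natCast_ne_top _)).1 h3
    calc WN = (2 : ℝ≥0∞) ^ (r * N) * ((2 : ℝ≥0∞) ^ (-(r * N)) * WN) := by
          rw [← mul_assoc, ← ENNReal.rpow_add _ _ (by norm_num) (by norm_num)]; simp
      _ ≤ (2 : ℝ≥0∞) ^ (r * N) * (2⁻¹ * W0) := mul_le_mul' le_rfl h4
      _ = _ := by
          rw [← mul_assoc, sub_eq_add_neg, ENNReal.rpow_add _ _ (by norm_num) (by norm_num)]
          simp [ENNReal.rpow_neg]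
  have hiter : ∀ (j : ℕ) (c ρ : ℝ), 0 < ρ → ∫⁻ x in ball c (2 ^ (N * j) * ρ), V x ≤
      (2 : ℝ≥0∞) ^ ((r * N - 1) * j) * ∫⁻ x in ball c ρ, V x := by
    intro j
    induction j with
    | zero => intro c ρ _; simp
    | succ j ih =>
      intro c ρ hρ
      have h1 := hstep c (2 ^ (N * j) * ρ) (by positivity)
      rw [← mul_assoc, ← pow_add] at h1
      have e : N * (j + 1) = N + N * j := by ring
      rw [e]
      calc _ ≤ _ := h1
        _ ≤ (2 : ℝ≥0∞) ^ (r * N - 1) * ((2 : ℝ≥0∞) ^ ((r * N - 1) * j) *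
            ∫⁻ x in ball c ρ, V x) := mul_le_mul' le_rfl (ih c ρ hρ)
        _ = _ := by
            rw [← mul_assoc, ← ENNReal.rpow_add _ _ (by norm_num) (by norm_num)]
            congr 2; push_cast; ring
  refine ⟨r - 1 / N, 2 * Cb * (2 : ℝ≥0∞) ^ (r * N), ?_, ?_, ?_, ?_⟩
  · have : 1 / (N:ℝ) ≤ 1 := by
      rw [div_le_one hNpos, hN]; push_cast; linarith [(Nat.cast_nonneg N' : (0:ℝ) ≤ N')]
    linarith
  · have : 0 < 1 / (N:ℝ) := by positivity
    linarith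
  · exact ENNReal.mul_ne_top (ENNReal.mul_ne_top (by norm_num) hCb) (rpow2 _).2
  · intro c ρ k hρ
    set j := k / N with hj
    set i := k % N with hi
    have hk : k = N * j + i := (Nat.div_add_mod k N).symm
    have hiN : i < N := Nat.mod_lt _ (by omega)
    have h1 := br_one hr h c (2 ^ (N * j) * ρ) i (by positivity)
    rw [← mul_assoc, ← pow_add] at h1
    have e : i + N * j = k := by omega
    rw [e] at h1
    calc _ ≤ _ := h1
      _ ≤ 2 * Cb * (2 : ℝ≥0∞) ^ (r * i) * ((2 : ℝ≥0∞) ^ ((r * N - 1) * j) *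
          ∫⁻ x in ball c ρ, V x) := mul_le_mul' le_rfl (hiter j c ρ hρ)
      _ ≤ 2 * Cb * (2 : ℝ≥0∞) ^ (r * N) * ((2 : ℝ≥0∞) ^ ((r - 1 / N) * k) *
          ∫⁻ x in ball c ρ, V x) := by
          refine mul_le_mul' (mul_le_mul' le_rfl ?_) (mul_le_mul' ?_ le_rfl)
          · refine ENNReal.rpow_le_rpow_of_exponent_le (by norm_num) ?_
            have : (i:ℝ) ≤ N := by exact_mod_cast hiN.le
            nlinarith
          · refine ENNReal.rpow_le_rpow_of_exponent_le (by norm_num) ?_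
            have h5 : (k:ℝ) = N * j + i := by exact_mod_cast hk
            have h6 : (r - 1 / N) * (N * j) = (r * N - 1) * j := by field_simp
            have h7 : 0 ≤ r - 1 / (N:ℝ) := by
              have : 1 / (N:ℝ) ≤ 1 := by
                rw [div_le_one hNpos, hN]; push_cast; linarith [(Nat.cast_nonneg N' : (0:ℝ) ≤ N')]
              linarith
            rw [h5, mul_add, h6]
            have : 0 ≤ (r - 1 / (N:ℝ)) * i := mul_nonneg h7 (Nat.cast_nonneg i)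
            linarith
      _ = _ := by ring

end Pool.Agent.Zk22.GL
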