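import Pool.Agent.Zk22.GE

/-! The weight `ω = V R^{p-2}`. -/

namespace Pool.Agent.Zk22.GL

open MeasureTheory Set Metric Filter
open scoped ENNReal NNReal Topology

/-- a majorant -/
structure Maj (a : ℝ) (V R : ℝ → ℝ≥0∞) (A : ℝ≥0∞) : Prop where
  meas : Measurable R
  pos : ∀ x, R x ≠ 0
  fin : ∀ᵐ x : ℝ, R x ≠ ∞
  Apos : A ≠ 0
  Afin : A ≠ ∞
  mm : ∀ x, MM volume R x ≤ A * R x
  ll : ∀ x, LL a V R x ≤ A * R x

noncomputable def om (e : ℝ) (V R : ℝ → ℝ≥0∞) (x : ℝ) : ℝ≥0∞ := V x * (R x ^ e)⁻¹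
noncomputable def ta (e : ℝ) (V R : ℝ → ℝ≥0∞) (x : ℝ) : ℝ≥0∞ := (V x)⁻¹ * R x ^ e
noncomputable def rho (V R : ℝ → ℝ≥0∞) (c r : ℝ) : ℝ≥0∞ :=
  (∫⁻ y in ball c r, V y * R y) / ∫⁻ y in ball c r, V y

/-- layers -/
lemma layer {β : ℝ} (hβ : 1 < β) {lam : ℝ} (hlam : 0 ≤ lam) {x z y : ℝ} (hy : 0 < y) :
    ENNReal.ofReal ((y / (|x - z| + y)) ^ lam) ≤ ENNReal.ofReal (β ^ lam) *
      ∑' k : ℕ, (ball z (β ^ k * y)).indicator (fun _ => ENNReal.ofReal (β ^ (-(lam * k)))) x := by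
  have hβ0 : 0 < β := by linarith
  have hex : ∃ k : ℕ, |x - z| < β ^ k * y := by
    obtain ⟨k, hk⟩ := pow_unbounded_of_one_lt (|x - z| / y) hβ
    exact ⟨k, by rwa [div_lt_iff₀ hy] at hk⟩
  classical
  set k := Nat.find hex with hk
  have hk1 : |x - z| < β ^ k * y := Nat.find_spec hex
  have hmem : x ∈ ball z (β ^ k * y) := by rw [mem_ball, Real.dist_eq]; exact hk1
  refine le_trans ?_ (mul_le_mul' le_rfl (ENNReal.le_tsum k))
  rw [indicator_of_mem hmem, ← ENNReal.ofReal_mul (by positivity)]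
  refine ENNReal.ofReal_le_ofReal ?_
  have hab := abs_nonneg (x - z)
  rcases Nat.eq_zero_or_pos k with h0 | hpos
  · rw [h0]
    have h1 : (y / (|x - z| + y)) ^ lam ≤ 1 :=
      Real.rpow_le_one (by positivity) (by rw [div_le_one (by positivity)]; linarith) hlam
    have h2 : 1 ≤ β ^ lam := Real.one_le_rpow hβ.le hlam
    simp only [Nat.cast_zero, mul_zero, neg_zero, Real.rpow_zero, mul_one]
    linarith
  · obtain ⟨j, hj⟩ : ∃ j, k = j + 1 := ⟨k - 1, by omega⟩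
    have hmin : ¬ |x - z| < β ^ j * y := Nat.find_min hex (by omega)
    push Not at hmin
    have h1 : y / (|x - z| + y) ≤ β ^ (-(j:ℝ)) := by
      rw [Real.rpow_neg hβ0.le, Real.rpow_natCast, div_le_iff₀ (by positivity), inv_mul_eq_div,
        le_div_iff₀ (by positivity)]
      nlinarith [pow_pos hβ0 j]
    calc _ ≤ (β ^ (-(j:ℝ))) ^ lam := Real.rpow_le_rpow (by positivity) h1 hlam
      _ = _ := by
        rw [← Real.rpow_mul hβ0.le, ← Real.rpow_add hβ0, hj]; congr 1; push_cast; ring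

lemma rpow_ne {x : ℝ≥0∞} (h0 : x ≠ 0) (h1 : x ≠ ∞) (e : ℝ) : x ^ e ≠ 0 ∧ x ^ e ≠ ∞ := by
  constructor
  · rw [Ne, ENNReal.rpow_eq_zero_iff]; push Not
    exact ⟨fun h => absurd h h0, fun h => absurd h h1⟩
  · rw [Ne, ENNReal.rpow_eq_top_iff]; push Not
    exact ⟨fun h => absurd h h0, fun h => absurd h h1⟩

variable {p a : ℝ} {V R : ℝ → ℝ≥0∞} {Q A : ℝ≥0∞}

lemma om_meas (hV : Measurable V) (hR : Measurable R) (e : ℝ) : Measurable (om e V R) :=
  hV.mul (hR.pow_const e).inv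

lemma ta_meas (hV : Measurable V) (hR : Measurable R) (e : ℝ) : Measurable (ta e V R) :=
  hV.inv.mul (hR.pow_const e)

lemma rho_le (hR : Maj a V R A) {x c r : ℝ} {k : ℕ} (hx : x ∈ ball c (2 ^ k * r)) :
    (2 : ℝ≥0∞) ^ (-(a * k)) * rho V R c r ≤ A * R x :=
  (le_LL a V R hx).trans (hR.ll x)

lemma rho_ne (h : AP p V Q) (hp : 1 < p) (hR : Maj a V R A) {c r : ℝ} (hr : 0 < r) :
    rho V R c r ≠ 0 ∧ rho V R c r ≠ ∞ := by
  constructor
  · unfold rho
    rw [Ne, ENNReal.div_eq_zero_iff]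
    push Not
    exact ⟨ball_pos_of_pos (h.meas.mul hR.meas) (fun x => mul_ne_zero (h.pos x) (hR.pos x)) hr,
      h.V_fin hp c r⟩
  · -- pick a point where R is finite
    have h1 : ∃ x ∈ ball c r, R x ≠ ∞ := by
      by_contra hcon
      push Not at hcon
      have h2 : volume (ball c r) = 0 := by
        refine measure_mono_null (fun x hx => ?_) (ae_iff.1 hR.fin)
        simpa using hcon x hx
      rw [Real.volume_ball, ENNReal.ofReal_eq_zero] at h2
      linarith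
    obtain ⟨x, hx, hxf⟩ := h1
    have h3 := rho_le hR (x := x) (c := c) (r := r) (k := 0) (by simpa using hx)
    simp only [Nat.cast_zero, mul_zero, neg_zero, ENNReal.rpow_zero, one_mul] at h3
    exact ne_top_of_le_ne_top (ENNReal.mul_ne_top hR.Afin hxf) h3

/-- pointwise bound for the inverse power of `R` -/
lemma Rinv_le (h : AP p V Q) (hp : 1 < p) (hR : Maj a V R A) {e : ℝ} (he : 0 < e) {x c r : ℝ}
    (hr : 0 < r) {k : ℕ} (hx : x ∈ ball c (2 ^ k * r)) :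
    (R x ^ e)⁻¹ ≤ A ^ e * ((2 : ℝ≥0∞) ^ (a * e * k) * (rho V R c r ^ e)⁻¹) := by
  have h1 := ENNReal.rpow_le_rpow (rho_le hR hx) he.le
  have hA := rpow_ne hR.Apos hR.Afin e
  have hρ := rho_ne h hp hR (c := c) hr
  have hρe := rpow_ne hρ.1 hρ.2 e
  rw [ENNReal.mul_rpow_of_nonneg _ _ he.le, ENNReal.mul_rpow_of_nonneg _ _ he.le,
    ← ENNReal.rpow_mul] at h1
  have h2 := ENNReal.inv_le_inv.2 h1
  rw [ENNReal.mul_inv (Or.inl hA.1) (Or.inl hA.2),
    ENNReal.mul_inv (Or.inl (rpow2 _).1) (Or.inl (rpow2 _).2)] at h2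
  calc (R x ^ e)⁻¹ = A ^ e * ((A ^ e)⁻¹ * (R x ^ e)⁻¹) := by
        rw [← mul_assoc, ENNReal.mul_inv_cancel hA.1 hA.2, one_mul]
    _ ≤ A ^ e * (((2 : ℝ≥0∞) ^ (-(a * k) * e))⁻¹ * (rho V R c r ^ e)⁻¹) := mul_le_mul' le_rfl h2
    _ = _ := by
        rw [← ENNReal.rpow_neg]; congr 3; ring

lemma om_le (h : AP p V Q) (hp : 1 < p) (hR : Maj a V R A) {e : ℝ} (he : 0 < e) {c r : ℝ}
    (hr : 0 < r) : ∫⁻ x in ball c r, om e V R x ≤
      A ^ e * ((rho V R c r ^ e)⁻¹ * ∫⁻ x in ball c r, V x) := by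
  have h1 : ∀ x ∈ ball c r, om e V R x ≤ (A ^ e * (rho V R c r ^ e)⁻¹) * V x := by
    intro x hx
    have h2 := Rinv_le h hp hR he hr (x := x) (c := c) (k := 0) (by simpa using hx)
    simp only [Nat.cast_zero, mul_zero, ENNReal.rpow_zero, one_mul] at h2
    unfold om
    rw [mul_comm]
    exact mul_le_mul' h2 le_rfl
  calc _ ≤ ∫⁻ x in ball c r, (A ^ e * (rho V R c r ^ e)⁻¹) * V x :=
        setLIntegral_mono_ae' measurableSet_ball (Eventually.of_forall h1)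
    _ = _ := by rw [lintegral_const_mul _ h.meas]; ring

/-- Jensen-type lower bound -/
lemma le_om (h : AP p V Q) (hp : 1 < p) (hR : Maj a V R A) {e : ℝ} (he : 0 < e) {c r : ℝ}
    (hr : 0 < r) : ∫⁻ x in ball c r, V x ≤ rho V R c r ^ e * ∫⁻ x in ball c r, om e V R x := by
  have h1e : 0 < 1 + e := by linarith
  have hpq : (1 + e).HolderConjugate ((1 + e) / e) := by
    rw [Real.holderConjugate_iff]
    refine ⟨by linarith, by field_simp⟩
  have hV0 := h.V_pos (c := c) hr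
  have hV1 := h.V_fin hp c r
  have h1 := ENNReal.lintegral_mul_le_Lp_mul_Lq (volume.restrict (ball c r)) hpq
    (f := fun x => om e V R x ^ (1 / (1 + e))) (g := fun x => (V x * R x) ^ (e / (1 + e)))
    ((om_meas h.meas hR.meas e).pow_const _).aemeasurable
    ((h.meas.mul hR.meas).pow_const _).aemeasurable
  have e1 : ∫⁻ x in ball c r, V x ≤ ∫⁻ x in ball c r, ((fun x => om e V R x ^ (1 / (1 + e))) *
      (fun x => (V x * R x) ^ (e / (1 + e)))) x := by
    refine lintegral_mono_ae ?_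
    filter_upwards [ae_restrict_of_ae hR.fin] with x hx
    simp only [Pi.mul_apply]
    have hRx := rpow_ne (hR.pos x) hx e
    unfold om
    rw [ENNReal.mul_rpow_of_nonneg _ _ (by positivity), ENNReal.mul_rpow_of_nonneg _ _ (by positivity),
      ENNReal.inv_rpow, ← ENNReal.rpow_mul]
    have e2 : e * (1 / (1 + e)) = e / (1 + e) := by ring
    rw [e2]
    have hR2 := rpow_ne (hR.pos x) hx (e / (1 + e))
    calc V x = V x ^ (1 / (1 + e)) * V x ^ (e / (1 + e)) := by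
          rw [← ENNReal.rpow_add _ _ (h.pos x) (h.fin x)]
          have : 1 / (1 + e) + e / (1 + e) = 1 := by field_simp
          rw [this, ENNReal.rpow_one]
      _ = V x ^ (1 / (1 + e)) * V x ^ (e / (1 + e)) * ((R x ^ (e / (1 + e)))⁻¹ *
          R x ^ (e / (1 + e))) := by rw [ENNReal.inv_mul_cancel hR2.1 hR2.2, mul_one]
      _ ≤ _ := le_of_eq (by ring)
  have h2 := ENNReal.rpow_le_rpow (e1.trans h1) h1e.le
  rw [ENNReal.mul_rpow_of_nonneg _ _ h1e.le, ← ENNReal.rpow_mul, ← ENNReal.rpow_mul] at h2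
  have e3 : 1 / (1 + e) * (1 + e) = 1 := by field_simp
  have e4 : 1 / ((1 + e) / e) * (1 + e) = e := by field_simp
  have e5 : ∀ x, (om e V R x ^ (1 / (1 + e))) ^ (1 + e) = om e V R x := by
    intro x; rw [← ENNReal.rpow_mul, e3, ENNReal.rpow_one]
  have e6 : ∀ x, ((V x * R x) ^ (e / (1 + e))) ^ ((1 + e) / e) = V x * R x := by
    intro x; rw [← ENNReal.rpow_mul]
    have : e / (1 + e) * ((1 + e) / e) = 1 := by field_simp
    rw [this, ENNReal.rpow_one]
  rw [e3, e4, ENNReal.rpow_one] at h2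
  simp_rw [e5, e6] at h2
  have e7 : ∫⁻ x in ball c r, V x * R x = rho V R c r * ∫⁻ x in ball c r, V x := by
    unfold rho; rw [ENNReal.div_mul_cancel hV0 hV1]
  rw [e7, ENNReal.mul_rpow_of_nonneg _ _ he.le, ENNReal.rpow_add _ _ hV0 hV1, ENNReal.rpow_one] at h2
  have hVe := rpow_ne hV0 hV1 e
  refine (ENNReal.mul_le_mul_iff_left hVe.1 hVe.2).1 (h2.trans (le_of_eq ?_))
  ring

/-- Lebesgue average of `R` -/
lemma R_avg (h : AP p V Q) (hp : 1 < p) (hR : Maj a V R A) {c r : ℝ} (hr : 0 < r) :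
    ∫⁻ x in ball c r, R x ≤ ENNReal.ofReal (2 * r) * (A * rho V R c r) := by
  have hV0 := h.V_pos (c := c) hr
  have hV1 := h.V_fin hp c r
  have hr0 : ENNReal.ofReal (2 * r) ≠ 0 := by rw [Ne, ENNReal.ofReal_eq_zero]; linarith
  set m := (∫⁻ x in ball c r, R x) / ENNReal.ofReal (2 * r) with hm
  have h1 : ∀ x ∈ ball c r, m * V x ≤ A * (V x * R x) := by
    intro x hx
    have h2 := (le_MM volume R hx).trans (hR.mm x)
    rw [Real.volume_ball] at h2
    calc _ ≤ (A * R x) * V x := mul_le_mul' h2 le_rfl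
      _ = _ := by ring
  have h3 : m * ∫⁻ x in ball c r, V x ≤ A * ∫⁻ x in ball c r, V x * R x := by
    rw [← lintegral_const_mul _ h.meas, ← lintegral_const_mul' _ _ hR.Afin]
    exact setLIntegral_mono_ae' measurableSet_ball (Eventually.of_forall h1)
  have h4 : m ≤ A * rho V R c r := by
    unfold rho
    rw [← mul_div_assoc, ENNReal.le_div_iff_mul_le (Or.inl hV0) (Or.inl hV1)]
    exact h3
  calc ∫⁻ x in ball c r, R x = ENNReal.ofReal (2 * r) * m := by
        rw [hm, ENNReal.mul_div_cancel hr0 ENNReal.ofReal_ne_top]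
    _ ≤ _ := mul_le_mul' le_rfl h4

/-- the `A_2` condition for `ω` -/
lemma om_ta (h : AP p V Q) (hp : 1 < p) (hp2 : p < 2) (hR : Maj a V R A) {c r : ℝ} (hr : 0 < r) :
    (∫⁻ x in ball c r, om (2 - p) V R x) * (∫⁻ x in ball c r, ta (2 - p) V R x) ≤
      (2 * (A ^ (2 - p) * A ^ (2 - p)) * Q) * ENNReal.ofReal (r ^ 2) := by
  set e := 2 - p with he
  have he0 : 0 < e := by linarith
  have he1 : e < 1 := by linarith
  have hp1 : 0 < p - 1 := by linarith
  have hpq : (1 / e).HolderConjugate (1 / (p - 1)) := by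
    rw [Real.holderConjugate_iff]
    refine ⟨by rw [lt_div_iff₀ he0]; linarith, by simp; linarith⟩
  have h1 := ENNReal.lintegral_mul_le_Lp_mul_Lq (volume.restrict (ball c r)) hpq
    (f := fun x => R x ^ e) (g := fun x => (V x)⁻¹) (hR.meas.pow_const _).aemeasurable
    h.meas.inv.aemeasurable
  have e1 : ∀ x, ((fun x => R x ^ e) * (fun x => (V x)⁻¹)) x = ta e V R x := by
    intro x; simp only [Pi.mul_apply]; unfold ta; ring
  have e2 : ∀ x, (R x ^ e) ^ (1 / e) = R x := by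
    intro x; rw [← ENNReal.rpow_mul]
    have : e * (1 / e) = 1 := by field_simp
    rw [this, ENNReal.rpow_one]
  have e3 : ∀ x, ((V x)⁻¹) ^ (1 / (p - 1)) = sg p V x := by
    intro x; unfold sg; rw [ENNReal.inv_rpow, ENNReal.rpow_neg]
  simp_rw [e1, e2, e3] at h1
  simp only [one_div, inv_inv] at h1
  have hρ := rho_ne h hp hR (c := c) hr
  have hρe := rpow_ne hρ.1 hρ.2 e
  have h2 : ENNReal.ofReal (2 * r) ^ e * ENNReal.ofReal r ^ p ≤ 2 * ENNReal.ofReal (r ^ 2) := by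
    rw [ENNReal.ofReal_rpow_of_nonneg (by positivity) he0.le, ENNReal.ofReal_rpow_of_nonneg hr.le (by linarith),
      ← ENNReal.ofReal_mul (by positivity), ← ENNReal.ofReal_ofNat 2, ← ENNReal.ofReal_mul (by norm_num)]
    refine ENNReal.ofReal_le_ofReal ?_
    rw [Real.mul_rpow (by norm_num) hr.le, mul_assoc, ← Real.rpow_add hr]
    have : e + p = (2:ℕ) := by rw [he]; push_cast; ring
    rw [this, Real.rpow_natCast]
    have h3 : (2:ℝ) ^ e ≤ 2 := by
      calc (2:ℝ) ^ e ≤ 2 ^ (1:ℝ) := Real.rpow_le_rpow_of_exponent_le (by norm_num) he1.le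
        _ = 2 := by norm_num
    nlinarith [sq_nonneg r]
  calc _ ≤ (A ^ e * ((rho V R c r ^ e)⁻¹ * ∫⁻ x in ball c r, V x)) *
        ((ENNReal.ofReal (2 * r) * (A * rho V R c r)) ^ e * (∫⁻ x in ball c r, sg p V x) ^ (p - 1)) := by
        refine mul_le_mul' (om_le h hp hR he0 hr) (h1.trans (mul_le_mul' ?_ le_rfl))
        exact ENNReal.rpow_le_rpow (R_avg h hp hR hr) he0.le
    _ = (A ^ e * A ^ e) * ENNReal.ofReal (2 * r) ^ e * ((rho V R c r ^ e)⁻¹ * rho V R c r ^ e) *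
        ((∫⁻ x in ball c r, V x) * (∫⁻ x in ball c r, sg p V x) ^ (p - 1)) := by
        rw [ENNReal.mul_rpow_of_nonneg _ _ he0.le, ENNReal.mul_rpow_of_nonneg _ _ he0.le]; ring
    _ ≤ (A ^ e * A ^ e) * ENNReal.ofReal (2 * r) ^ e * 1 * (Q * ENNReal.ofReal r ^ p) := by
        rw [ENNReal.inv_mul_cancel hρe.1 hρe.2]
        exact mul_le_mul' le_rfl (h.ap c r hr)
    _ = (A ^ e * A ^ e) * Q * (ENNReal.ofReal (2 * r) ^ e * ENNReal.ofReal r ^ p) := by ring
    _ ≤ (A ^ e * A ^ e) * Q * (2 * ENNReal.ofReal (r ^ 2)) := mul_le_mul' le_rfl h2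
    _ = _ := by ring

end Pool.Agent.Zk22.GL
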