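import Pool.Agent.Zk22.GF

/-! Kernel bounds for `ω`, `1/ω` and `R`. -/

namespace Pool.Agent.Zk22.GL

open MeasureTheory Set Metric Filter
open scoped ENNReal NNReal Topology

/-- the kernel -/
noncomputable def KK (lam z y x : ℝ) : ℝ≥0∞ := ENNReal.ofReal ((y / (|x - z| + y)) ^ lam)

lemma KK_meas (lam z y : ℝ) : Measurable (KK lam z y) := by
  unfold KK; fun_prop

lemma layer_int {β : ℝ} (hβ : 1 < β) {lam : ℝ} (hlam : 0 ≤ lam) {z y : ℝ} (hy : 0 < y)
    {g : ℝ → ℝ≥0∞} (hg : Measurable g) :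
    ∫⁻ x, KK lam z y x * g x ≤ ENNReal.ofReal (β ^ lam) *
      ∑' k : ℕ, ENNReal.ofReal (β ^ (-(lam * k))) * ∫⁻ x in ball z (β ^ k * y), g x := by
  have h1 : ∀ x, KK lam z y x * g x ≤ ENNReal.ofReal (β ^ lam) *
      ∑' k : ℕ, ENNReal.ofReal (β ^ (-(lam * k))) * (ball z (β ^ k * y)).indicator g x := by
    intro x
    calc _ ≤ (ENNReal.ofReal (β ^ lam) *
      ∑' k : ℕ, (ball z (β ^ k * y)).indicator (fun _ => ENNReal.ofReal (β ^ (-(lam * k)))) x) * g x :=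
          mul_le_mul' (layer hβ hlam hy) le_rfl
      _ = _ := by
          rw [mul_assoc, ← ENNReal.tsum_mul_right]
          congr 1; congr 1; ext k
          by_cases hx : x ∈ ball z (β ^ k * y)
          · rw [indicator_of_mem hx, indicator_of_mem hx]
          · rw [indicator_of_notMem hx, indicator_of_notMem hx]; simp
  calc _ ≤ ∫⁻ x, ENNReal.ofReal (β ^ lam) *
      ∑' k : ℕ, ENNReal.ofReal (β ^ (-(lam * k))) * (ball z (β ^ k * y)).indicator g x :=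
        lintegral_mono h1
    _ = _ := by
        rw [lintegral_const_mul' _ _ ENNReal.ofReal_ne_top, lintegral_tsum fun k =>
          ((hg.indicator measurableSet_ball).const_mul _).aemeasurable]
        congr 1; congr 1; ext k
        rw [lintegral_const_mul _ (hg.indicator measurableSet_ball),
          lintegral_indicator measurableSet_ball]

variable {p a : ℝ} {V R : ℝ → ℝ≥0∞} {Q A K : ℝ≥0∞}

lemma geo {x : ℝ≥0∞} (hx : x < 1) : ∑' k : ℕ, x ^ k ≠ ∞ := by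
  rw [ENNReal.tsum_geometric, Ne, ENNReal.inv_eq_top, tsub_eq_zero_iff_le]
  exact not_le.2 hx

lemma two_rpow_lt {t : ℝ} (ht : 0 < t) : (2 : ℝ≥0∞) ^ (-t) < 1 := by
  rw [ENNReal.rpow_neg, ENNReal.inv_lt_one]
  exact ENNReal.one_lt_rpow (by norm_num) ht

/-- the constant in `om_tail` -/
noncomputable def C1 (lam a e q : ℝ) (A K : ℝ≥0∞) : ℝ≥0∞ :=
  ENNReal.ofReal (2 ^ lam) * (A ^ e * K * ∑' k : ℕ, ((2 : ℝ≥0∞) ^ (-(lam - a * e - q))) ^ k)

lemma C1_ne {lam e q : ℝ} (he : 0 ≤ e) (hb : q < lam - a * e) (hA : A ≠ ∞) (hK : K ≠ ∞) :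
    C1 lam a e q A K ≠ ∞ := by
  unfold C1
  refine ENNReal.mul_ne_top ENNReal.ofReal_ne_top (ENNReal.mul_ne_top (ENNReal.mul_ne_top
    (ENNReal.rpow_ne_top_of_nonneg he hA) hK) (geo (two_rpow_lt (by linarith))))

lemma om_tail (h : AP p V Q) (hp : 1 < p) (hR : Maj a V R A) {e q lam : ℝ} (he : 0 < e)
    (hG : Gr V q K) (hlam : 0 ≤ lam) {z y : ℝ} (hy : 0 < y) :
    ∫⁻ x, KK lam z y x * om e V R x ≤ C1 lam a e q A K * ∫⁻ x in ball z y, om e V R x := by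
  have hρ := rho_ne h hp hR (c := z) hy
  have hρe := rpow_ne hρ.1 hρ.2 e
  set ρe := rho V R z y ^ e with hρedef
  have h1 : ∀ k : ℕ, ∫⁻ x in ball z (2 ^ k * y), om e V R x ≤
      A ^ e * ((2 : ℝ≥0∞) ^ (a * e * k) * ρe⁻¹) * (K * (2 : ℝ≥0∞) ^ (q * k) *
        ∫⁻ x in ball z y, V x) := by
    intro k
    calc _ ≤ ∫⁻ x in ball z (2 ^ k * y), (A ^ e * ((2 : ℝ≥0∞) ^ (a * e * k) * ρe⁻¹)) * V x := by
          refine setLIntegral_mono_ae' measurableSet_ball (Eventually.of_forall fun x hx => ?_)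
          unfold om
          rw [mul_comm]
          exact mul_le_mul' (Rinv_le h hp hR he hy hx) le_rfl
      _ = (A ^ e * ((2 : ℝ≥0∞) ^ (a * e * k) * ρe⁻¹)) * ∫⁻ x in ball z (2 ^ k * y), V x := by
          rw [lintegral_const_mul _ h.meas]
      _ ≤ _ := mul_le_mul' le_rfl (hG z y k hy)
  have h2 := layer_int (β := 2) (by norm_num) hlam (z := z) hy (om_meas h.meas hR.meas e)
  have h3 := le_om h hp hR he (c := z) hy
  calc _ ≤ _ := h2
    _ ≤ ENNReal.ofReal (2 ^ lam) * ∑' k : ℕ, (A ^ e * K * (ρe⁻¹ * ∫⁻ x in ball z y, V x)) *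
        ((2 : ℝ≥0∞) ^ (-(lam - a * e - q))) ^ k := by
        refine mul_le_mul' le_rfl (ENNReal.tsum_le_tsum fun k => ?_)
        calc _ ≤ ENNReal.ofReal (2 ^ (-(lam * k))) * (A ^ e * ((2 : ℝ≥0∞) ^ (a * e * k) * ρe⁻¹) *
              (K * (2 : ℝ≥0∞) ^ (q * k) * ∫⁻ x in ball z y, V x)) := mul_le_mul' le_rfl (h1 k)
          _ = (A ^ e * K * (ρe⁻¹ * ∫⁻ x in ball z y, V x)) * ((2 : ℝ≥0∞) ^ (-(lam * k)) *
              (2 : ℝ≥0∞) ^ (a * e * k) * (2 : ℝ≥0∞) ^ (q * k)) := by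
              rw [ofReal_two_rpow]; ring
          _ = _ := by
              rw [← ENNReal.rpow_add _ _ (by norm_num) (by norm_num),
                ← ENNReal.rpow_add _ _ (by norm_num) (by norm_num), ← ENNReal.rpow_natCast,
                ← ENNReal.rpow_mul]
              congr 2; ring
    _ = ENNReal.ofReal (2 ^ lam) * (A ^ e * K * ∑' k : ℕ, ((2 : ℝ≥0∞) ^ (-(lam - a * e - q))) ^ k) *
        (ρe⁻¹ * ∫⁻ x in ball z y, V x) := by
        rw [ENNReal.tsum_mul_left]; ring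
    _ ≤ C1 lam a e q A K * ∫⁻ x in ball z y, om e V R x := by
        refine mul_le_mul' le_rfl ?_
        calc _ ≤ ρe⁻¹ * (ρe * ∫⁻ x in ball z y, om e V R x) := mul_le_mul' le_rfl h3
          _ = _ := by rw [← mul_assoc, ENNReal.inv_mul_cancel hρe.1 hρe.2, one_mul]

lemma om_ne (h : AP p V Q) (hp : 1 < p) (hR : Maj a V R A) {e : ℝ} (he : 0 < e) {c r : ℝ}
    (hr : 0 < r) : ∫⁻ x in ball c r, om e V R x ≠ 0 ∧ ∫⁻ x in ball c r, om e V R x ≠ ∞ := by
  have hρ := rho_ne h hp hR (c := c) hr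
  have hρe := rpow_ne hρ.1 hρ.2 e
  have hA := rpow_ne hR.Apos hR.Afin e
  constructor
  · intro h0
    have h3 := le_om h hp hR he (c := c) hr
    rw [h0, mul_zero] at h3
    exact h.V_pos hr (le_antisymm h3 zero_le)
  · refine ne_top_of_le_ne_top ?_ (om_le h hp hR he (c := c) hr)
    exact ENNReal.mul_ne_top hA.2 (ENNReal.mul_ne_top (ENNReal.inv_ne_top.2 hρe.1) (h.V_fin hp _ _))

/-- doubling constant of `ω` -/
noncomputable def D1 (lam a e q : ℝ) (A K : ℝ≥0∞) : ℝ≥0∞ :=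
  ENNReal.ofReal (6 ^ lam) * C1 lam a e q A K

lemma om_dbl (h : AP p V Q) (hp : 1 < p) (hR : Maj a V R A) {e q lam : ℝ} (he : 0 < e)
    (hG : Gr V q K) (hlam : 0 ≤ lam) {c r : ℝ} (hr : 0 < r) :
    ∫⁻ x in ball c (5 * r), om e V R x ≤ D1 lam a e q A K * ∫⁻ x in ball c r, om e V R x := by
  have h1 := om_tail h hp hR he hG hlam (z := c) hr
  have h2 : ∫⁻ x in ball c (5 * r), om e V R x ≤
      ENNReal.ofReal (6 ^ lam) * ∫⁻ x, KK lam c r x * om e V R x := by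
    rw [← lintegral_const_mul' _ _ ENNReal.ofReal_ne_top]
    refine (setLIntegral_mono_ae' measurableSet_ball (Eventually.of_forall fun x hx => ?_)).trans
      (setLIntegral_le_lintegral _ _)
    rw [← mul_assoc]
    refine le_mul_of_one_le_left zero_le ?_
    unfold KK
    rw [← ENNReal.ofReal_mul (by positivity), ENNReal.one_le_ofReal, ← Real.mul_rpow (by norm_num)
      (by positivity)]
    refine Real.one_le_rpow ?_ hlam
    have hx' : |x - c| < 5 * r := by rwa [mem_ball, Real.dist_eq] at hx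
    rw [← mul_div_assoc, le_div_iff₀ (by positivity)]
    linarith
  calc _ ≤ _ := h2
    _ ≤ ENNReal.ofReal (6 ^ lam) * (C1 lam a e q A K * ∫⁻ x in ball c r, om e V R x) :=
        mul_le_mul' le_rfl h1
    _ = _ := by unfold D1; ring

/-- reverse doubling -/
lemma rev_dbl {W : ℝ → ℝ≥0∞} {D : ℝ≥0∞} (hD0 : D ≠ 0) (hD : D ≠ ∞)
    (hW : ∀ c r, 0 < r → ∫⁻ x in ball c (5 * r), W x ≤ D * ∫⁻ x in ball c r, W x) {c r : ℝ}
    (hr : 0 < r) : (1 + D⁻¹) * ∫⁻ x in ball c r, W x ≤ ∫⁻ x in ball c (5 * r), W x := by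
  have h1 : ball c r ⊆ ball (c + 2 * r) (5 * r) := by
    intro x hx
    rw [mem_ball, Real.dist_eq, abs_lt] at *
    constructor <;> linarith [hx.1, hx.2]
  have h2 : D⁻¹ * ∫⁻ x in ball c r, W x ≤ ∫⁻ x in ball (c + 2 * r) r, W x := by
    calc _ ≤ D⁻¹ * (D * ∫⁻ x in ball (c + 2 * r) r, W x) :=
          mul_le_mul' le_rfl ((lintegral_mono_set h1).trans (hW _ _ hr))
      _ = _ := by rw [← mul_assoc, ENNReal.inv_mul_cancel hD0 hD, one_mul]
  have hdis : Disjoint (ball c r) (ball (c + 2 * r) r) := by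
    rw [Set.disjoint_left]
    intro x hx hx2
    rw [mem_ball, Real.dist_eq, abs_lt] at *
    linarith [hx.1, hx.2, hx2.1, hx2.2]
  calc _ ≤ (∫⁻ x in ball c r, W x) + ∫⁻ x in ball (c + 2 * r) r, W x := by
        rw [add_mul, one_mul]; exact add_le_add le_rfl h2
    _ = ∫⁻ x in ball c r ∪ ball (c + 2 * r) r, W x := by
        rw [lintegral_union measurableSet_ball hdis]
    _ ≤ _ := by
        refine lintegral_mono_set ?_
        rintro x (hx | hx) <;> rw [mem_ball, Real.dist_eq, abs_lt] at * <;>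
          constructor <;> linarith [hx.1, hx.2]

lemma rev_iter {W : ℝ → ℝ≥0∞} {D : ℝ≥0∞} (hD0 : D ≠ 0) (hD : D ≠ ∞)
    (hW : ∀ c r, 0 < r → ∫⁻ x in ball c (5 * r), W x ≤ D * ∫⁻ x in ball c r, W x) {c r : ℝ}
    (hr : 0 < r) (k : ℕ) :
    ∫⁻ x in ball c r, W x ≤ ((1 + D⁻¹)⁻¹) ^ k * ∫⁻ x in ball c (5 ^ k * r), W x := by
  have h0 : (1 + D⁻¹) ≠ 0 := by simp
  have h1 : (1 + D⁻¹) ≠ ∞ := ENNReal.add_ne_top.2 ⟨by norm_num, ENNReal.inv_ne_top.2 hD0⟩
  induction k with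
  | zero => simp
  | succ k ih =>
    have h2 := rev_dbl hD0 hD hW (c := c) (r := 5 ^ k * r) (by positivity)
    have e1 : (5:ℝ) ^ (k + 1) * r = 5 * (5 ^ k * r) := by ring
    rw [e1]
    calc _ ≤ _ := ih
      _ = ((1 + D⁻¹)⁻¹) ^ k * ((1 + D⁻¹)⁻¹ * ((1 + D⁻¹) * ∫⁻ x in ball c (5 ^ k * r), W x)) := by
          rw [← mul_assoc ((1 + D⁻¹)⁻¹) (1 + D⁻¹), ENNReal.inv_mul_cancel h0 h1, one_mul]
      _ ≤ ((1 + D⁻¹)⁻¹) ^ k * ((1 + D⁻¹)⁻¹ * ∫⁻ x in ball c (5 * (5 ^ k * r)), W x) :=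
          mul_le_mul' le_rfl (mul_le_mul' le_rfl h2)
      _ = _ := by rw [pow_succ]; ring

/-- constant in `ta_tail` -/
noncomputable def C2 (D Q2 : ℝ≥0∞) : ℝ≥0∞ :=
  25 * (Q2 * ∑' k : ℕ, ((1 + D⁻¹)⁻¹) ^ k)

lemma C2_ne {D Q2 : ℝ≥0∞} (hD : D ≠ ∞) (hQ : Q2 ≠ ∞) : C2 D Q2 ≠ ∞ := by
  unfold C2
  refine ENNReal.mul_ne_top (by norm_num) (ENNReal.mul_ne_top hQ (geo ?_))
  rw [ENNReal.inv_lt_one]
  exact ENNReal.lt_add_right (by norm_num) (by simp [hD])

lemma ta_tail {W T : ℝ → ℝ≥0∞} {D Q2 : ℝ≥0∞} (hD0 : D ≠ 0) (hD : D ≠ ∞) (hT : Measurable T)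
    (hW : ∀ c r, 0 < r → ∫⁻ x in ball c (5 * r), W x ≤ D * ∫⁻ x in ball c r, W x)
    (hWT : ∀ c r, 0 < r → (∫⁻ x in ball c r, W x) * (∫⁻ x in ball c r, T x) ≤
      Q2 * ENNReal.ofReal (r ^ 2)) {z y : ℝ} (hy : 0 < y) :
    (∫⁻ x, KK 2 z y x * T x) * ∫⁻ x in ball z y, W x ≤ C2 D Q2 * ENNReal.ofReal (y ^ 2) := by
  have h2 := layer_int (β := 5) (by norm_num) (lam := 2) (by norm_num) (z := z) hy hT
  calc _ ≤ (ENNReal.ofReal (5 ^ (2:ℝ)) *
      ∑' k : ℕ, ENNReal.ofReal (5 ^ (-((2:ℝ) * k))) * ∫⁻ x in ball z (5 ^ k * y), T x) *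
        ∫⁻ x in ball z y, W x := mul_le_mul' h2 le_rfl
    _ = 25 * ∑' k : ℕ, (ENNReal.ofReal (5 ^ (-((2:ℝ) * k))) * ∫⁻ x in ball z (5 ^ k * y), T x) *
        ∫⁻ x in ball z y, W x := by
        rw [mul_assoc, ← ENNReal.tsum_mul_right]; congr 1
        norm_num
    _ ≤ 25 * ∑' k : ℕ, (Q2 * ENNReal.ofReal (y ^ 2)) * ((1 + D⁻¹)⁻¹) ^ k := by
        refine mul_le_mul' le_rfl (ENNReal.tsum_le_tsum fun k => ?_)
        calc _ ≤ (ENNReal.ofReal (5 ^ (-((2:ℝ) * k))) * ∫⁻ x in ball z (5 ^ k * y), T x) *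
              (((1 + D⁻¹)⁻¹) ^ k * ∫⁻ x in ball z (5 ^ k * y), W x) :=
              mul_le_mul' le_rfl (rev_iter hD0 hD hW hy k)
          _ = ENNReal.ofReal (5 ^ (-((2:ℝ) * k))) * ((1 + D⁻¹)⁻¹) ^ k *
              ((∫⁻ x in ball z (5 ^ k * y), W x) * ∫⁻ x in ball z (5 ^ k * y), T x) := by ring
          _ ≤ ENNReal.ofReal (5 ^ (-((2:ℝ) * k))) * ((1 + D⁻¹)⁻¹) ^ k *
              (Q2 * ENNReal.ofReal ((5 ^ k * y) ^ 2)) :=
              mul_le_mul' le_rfl (hWT z _ (by positivity))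
          _ = (Q2 * (ENNReal.ofReal (5 ^ (-((2:ℝ) * k))) * ENNReal.ofReal ((5 ^ k * y) ^ 2))) *
              ((1 + D⁻¹)⁻¹) ^ k := by ring
          _ = _ := by
              rw [← ENNReal.ofReal_mul (by positivity)]
              congr 3
              rw [Real.rpow_neg (by norm_num), Real.rpow_mul (by norm_num), Real.rpow_natCast]
              have : ((5:ℝ) ^ (2:ℝ)) ^ k = (5 ^ k) ^ 2 := by
                rw [← pow_mul, mul_comm k 2, pow_mul]; norm_num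
              rw [this]
              field_simp
    _ = _ := by rw [ENNReal.tsum_mul_left]; unfold C2; ring

lemma R_tail (hR : Maj a V R A) {z y x' : ℝ} (hy : 0 < y) (hx' : x' ∈ ball z y) :
    ∫⁻ x, KK 2 z y x * R x ≤ 16 * A * ENNReal.ofReal y * R x' := by
  have h2 := layer_int (β := 2) (by norm_num) (lam := 2) (by norm_num) (z := z) hy hR.meas
  have h1 : ∀ k : ℕ, ∫⁻ x in ball z (2 ^ k * y), R x ≤
      ENNReal.ofReal (2 * (2 ^ k * y)) * (A * R x') := by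
    intro k
    have hk : (1:ℝ) ≤ 2 ^ k := one_le_pow₀ (by norm_num)
    have hx2 : x' ∈ ball z (2 ^ k * y) := ball_subset_ball (by nlinarith) hx'
    have h3 := (le_MM volume R hx2).trans (hR.mm x')
    rw [Real.volume_ball, ENNReal.div_le_iff_le_mul] at h3
    · exact h3.trans (le_of_eq (mul_comm _ _))
    · left; rw [Ne, ENNReal.ofReal_eq_zero]; push Not; positivity
    · left; exact ENNReal.ofReal_ne_top
  calc _ ≤ _ := h2
    _ ≤ ENNReal.ofReal (2 ^ (2:ℝ)) * ∑' k : ℕ, (2 * ENNReal.ofReal y * (A * R x')) * 2⁻¹ ^ k := by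
        refine mul_le_mul' le_rfl (ENNReal.tsum_le_tsum fun k => ?_)
        calc _ ≤ ENNReal.ofReal (2 ^ (-((2:ℝ) * k))) * (ENNReal.ofReal (2 * (2 ^ k * y)) *
              (A * R x')) := mul_le_mul' le_rfl (h1 k)
          _ = (ENNReal.ofReal (2 ^ (-((2:ℝ) * k))) * ENNReal.ofReal (2 * (2 ^ k * y))) *
              (A * R x') := by ring
          _ = (2 * ENNReal.ofReal y * 2⁻¹ ^ k) * (A * R x') := by
              congr 1
              rw [← ENNReal.ofReal_mul (by positivity)]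
              have e1 : (2:ℝ) ^ (-((2:ℝ) * k)) * (2 * (2 ^ k * y)) = 2 * y * (2⁻¹) ^ k := by
                rw [Real.rpow_neg (by norm_num), Real.rpow_mul (by norm_num), Real.rpow_natCast]
                have : ((2:ℝ) ^ (2:ℝ)) ^ k = 2 ^ k * 2 ^ k := by
                  rw [← mul_pow]; norm_num
                rw [this, inv_pow]
                field_simp
              rw [e1, ENNReal.ofReal_mul (by positivity), ENNReal.ofReal_mul (by norm_num),
                ENNReal.ofReal_pow (by norm_num), ENNReal.ofReal_inv_of_pos (by norm_num)]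
              norm_num
          _ = _ := by ring
    _ = _ := by
        rw [ENNReal.tsum_mul_left, ENNReal.tsum_geometric_two]
        have : ENNReal.ofReal ((2:ℝ) ^ (2:ℝ)) = 4 := by norm_num
        rw [this]; ring

end Pool.Agent.Zk22.GL
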