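import Mathlib

/-! The Poisson kernel of the upper half plane. -/

namespace Pool.Agent.Zk22.GL

open MeasureTheory Set Metric Filter
open scoped ENNReal NNReal Topology Real

/-- Poisson kernel and its partial derivatives -/
noncomputable def P (y x : ℝ) : ℝ := y / (π * (x ^ 2 + y ^ 2))
noncomputable def Px (y x : ℝ) : ℝ := -(2 * x * y) / (π * (x ^ 2 + y ^ 2) ^ 2)
noncomputable def Py (y x : ℝ) : ℝ := (x ^ 2 - y ^ 2) / (π * (x ^ 2 + y ^ 2) ^ 2)

lemma P_pos {y : ℝ} (hy : 0 < y) (x : ℝ) : 0 < P y x := by unfold P; positivity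

lemma P_le {y : ℝ} (hy : 0 < y) (x : ℝ) : P y x ≤ 1 / (π * y) := by
  unfold P
  rw [div_le_div_iff₀ (by positivity) (by positivity)]
  nlinarith [Real.pi_pos, mul_nonneg Real.pi_pos.le (sq_nonneg x)]

lemma Px_le {y : ℝ} (hy : 0 < y) (x : ℝ) : |Px y x| ≤ P y x / y := by
  unfold Px P
  have h1 : 0 < x ^ 2 + y ^ 2 := by positivity
  rw [abs_div, abs_neg, abs_of_pos (show 0 < π * (x ^ 2 + y ^ 2) ^ 2 by positivity), div_div,
    div_le_div_iff₀ (by positivity) (by positivity)]
  have h2 : |2 * x * y| * y ≤ y * (x ^ 2 + y ^ 2) := by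
    rw [abs_mul, abs_mul, abs_of_pos hy, abs_of_pos (show (0:ℝ) < 2 by norm_num)]
    nlinarith [sq_nonneg (|x| - y), sq_abs x]
  calc |2 * x * y| * (π * (x ^ 2 + y ^ 2) * y) = (|2 * x * y| * y) * (π * (x ^ 2 + y ^ 2)) := by ring
    _ ≤ (y * (x ^ 2 + y ^ 2)) * (π * (x ^ 2 + y ^ 2)) := by gcongr
    _ = _ := by ring

lemma Py_le {y : ℝ} (hy : 0 < y) (x : ℝ) : |Py y x| ≤ P y x / y := by
  unfold Py P
  have h1 : 0 < x ^ 2 + y ^ 2 := by positivity
  rw [abs_div, abs_of_pos (show 0 < π * (x ^ 2 + y ^ 2) ^ 2 by positivity), div_div,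
    div_le_div_iff₀ (by positivity) (by positivity)]
  have h2 : |x ^ 2 - y ^ 2| ≤ x ^ 2 + y ^ 2 := by
    rw [abs_le]; constructor <;> nlinarith [sq_nonneg x, sq_nonneg y]
  calc |x ^ 2 - y ^ 2| * (π * (x ^ 2 + y ^ 2) * y) ≤ (x ^ 2 + y ^ 2) * (π * (x ^ 2 + y ^ 2) * y) := by
        gcongr
    _ = _ := by ring

lemma P_even (y x : ℝ) : P y (-x) = P y x := by unfold P; ring

lemma hasDerivAt_P_x {y : ℝ} (hy : 0 < y) (x : ℝ) : HasDerivAt (fun x => P y x) (Px y x) x := by
  unfold P Px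
  have h1 : π * (x ^ 2 + y ^ 2) ≠ 0 := by positivity
  have h2 : HasDerivAt (fun x : ℝ => π * (x ^ 2 + y ^ 2)) (π * (2 * x)) x := by
    have := ((hasDerivAt_pow 2 x).add_const (y ^ 2)).const_mul π
    simpa using this
  have h3 := (hasDerivAt_const x y).div h2 h1
  refine h3.congr_deriv ?_
  field_simp
  ring

lemma hasDerivAt_P_y {y : ℝ} (hy : 0 < y) (x : ℝ) : HasDerivAt (fun y => P y x) (Py y x) y := by
  unfold P Py
  have h1 : π * (x ^ 2 + y ^ 2) ≠ 0 := by positivity
  have h2 : HasDerivAt (fun y : ℝ => π * (x ^ 2 + y ^ 2)) (π * (2 * y)) y := by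
    have := ((hasDerivAt_pow 2 y).const_add (x ^ 2)).const_mul π
    simpa using this
  have h3 := (hasDerivAt_id y).div h2 h1
  refine h3.congr_deriv ?_
  simp only [id]
  field_simp
  ring

lemma P_cont {y : ℝ} (hy : 0 < y) : Continuous (P y) := by
  unfold P
  exact continuous_const.div (by fun_prop) (fun x => by positivity)

lemma Px_cont {y : ℝ} (hy : 0 < y) : Continuous (Px y) := by
  unfold Px
  exact Continuous.div (by fun_prop) (by fun_prop) (fun x => by positivity)

lemma Py_cont {y : ℝ} (hy : 0 < y) : Continuous (Py y) := by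
  unfold Py
  exact Continuous.div (by fun_prop) (by fun_prop) (fun x => by positivity)

lemma hasDerivAt_arctan_P {y : ℝ} (hy : 0 < y) (x : ℝ) :
    HasDerivAt (fun x => Real.arctan (x / y) / π) (P y x) x := by
  have h1 := ((hasDerivAt_id x).div_const y).arctan.div_const π
  refine h1.congr_deriv ?_
  simp only [id]
  unfold P
  field_simp
  ring

lemma P_integrable {y : ℝ} (hy : 0 < y) : Integrable (P y) := by
  have h1 : ∀ x, P y x = (1 / (π * y)) * (1 + (x / y) ^ 2)⁻¹ := by
    intro x; unfold P; field_simp; ring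
  have h2 : P y = fun x => (1 / (π * y)) * (1 + (x / y) ^ 2)⁻¹ := funext h1
  rw [h2]
  exact (integrable_inv_one_add_sq.comp_div hy.ne').const_mul _

lemma P_integral {y : ℝ} (hy : 0 < y) : ∫ x, P y x = 1 := by
  have h1 : Tendsto (fun x : ℝ => Real.arctan (x / y) / π) atTop (𝓝 (π / 2 / π)) :=
    (((Real.tendsto_arctan_atTop.mono_right nhdsWithin_le_nhds).comp
      (tendsto_id.atTop_div_const hy))).div_const π
  have h2 : Tendsto (fun x : ℝ => Real.arctan (x / y) / π) atBot (𝓝 (-(π / 2) / π)) :=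
    (((Real.tendsto_arctan_atBot.mono_right nhdsWithin_le_nhds).comp
      (tendsto_id.atBot_div_const hy))).div_const π
  rw [integral_of_hasDerivAt_of_tendsto (hasDerivAt_arctan_P hy) (P_integrable hy) h2 h1]
  field_simp
  ring

/-- semigroup property, away from `t = 0` -/
lemma P_semi {a b t : ℝ} (ha : 0 < a) (hb : 0 < b) (ht : t ≠ 0) :
    ∫ s, P a (t - s) * P b s = P (a + b) t := by
  set D : ℝ := (t ^ 2 + (a + b) ^ 2) * (t ^ 2 + (a - b) ^ 2) with hD
  have ht2 : 0 < t ^ 2 := by positivity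
  have hD0 : D ≠ 0 := by rw [hD]; positivity
  set al : ℝ := t / D with hal
  set be : ℝ := (t ^ 2 + a ^ 2 - b ^ 2) / (b * D) with hbe
  set ga : ℝ := (t ^ 2 - a ^ 2 + b ^ 2) / (a * D) with hga
  have key : ∀ s, HasDerivAt (fun s : ℝ => (a * b / π ^ 2) * (al * (Real.log (s ^ 2 + b ^ 2) -
      Real.log ((s - t) ^ 2 + a ^ 2)) + be * Real.arctan (s / b) + ga * Real.arctan ((s - t) / a)))
      (P a (t - s) * P b s) s := by
    intro s
    have h1 : 0 < s ^ 2 + b ^ 2 := by positivity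
    have h2 : 0 < (s - t) ^ 2 + a ^ 2 := by positivity
    have d1 : HasDerivAt (fun s : ℝ => s ^ 2 + b ^ 2) (2 * s) s := by
      have := (hasDerivAt_pow 2 s).add_const (b ^ 2); simpa using this
    have d2 : HasDerivAt (fun s : ℝ => (s - t) ^ 2 + a ^ 2) (2 * (s - t)) s := by
      have := (((hasDerivAt_id s).sub_const t).pow 2).add_const (a ^ 2); simpa using this
    have d3 : HasDerivAt (fun s : ℝ => s / b) (1 / b) s := (hasDerivAt_id s).div_const b
    have d4 : HasDerivAt (fun s : ℝ => (s - t) / a) (1 / a) s :=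
      ((hasDerivAt_id s).sub_const t).div_const a
    have h3 := (((((d1.log h1.ne').sub (d2.log h2.ne')).const_mul al).add
      (d3.arctan.const_mul be)).add (d4.arctan.const_mul ga)).const_mul (a * b / π ^ 2)
    refine h3.congr_deriv ?_
    symm
    have h5 : 0 < (t - s) ^ 2 + a ^ 2 := by positivity
    have e1 : (1:ℝ) + (s / b) ^ 2 = (s ^ 2 + b ^ 2) / b ^ 2 := by field_simp; ring
    have e2 : (1:ℝ) + ((s - t) / a) ^ 2 = ((s - t) ^ 2 + a ^ 2) / a ^ 2 := by field_simp; ring
    have e3 : (t - s) ^ 2 + a ^ 2 = (s - t) ^ 2 + a ^ 2 := by ring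
    rw [e1, e2]
    unfold P
    rw [e3, hal, hbe, hga]
    set X := s ^ 2 + b ^ 2 with hX
    set Y := (s - t) ^ 2 + a ^ 2 with hY
    have hπ := Real.pi_pos
    have hmain : 1 = (t * (2 * s) + (t ^ 2 + a ^ 2 - b ^ 2)) / D * Y +
        (-(t * (2 * (s - t))) + (t ^ 2 - a ^ 2 + b ^ 2)) / D * X := by
      field_simp
      rw [hD, hX, hY]; ring
    have hXY : a / (π * Y) * (b / (π * X)) = a * b / π ^ 2 * (1 / (X * Y)) := by
      field_simp
    rw [hXY]
    congr 1
    nth_rewrite 1 [hmain]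
    field_simp
    ring
  have hint : Integrable (fun s => P a (t - s) * P b s) := by
    refine (P_integrable hb).bdd_mul (c := 1 / (π * a)) ?_ ?_
    · exact ((P_cont ha).comp (by fun_prop)).aestronglyMeasurable
    · refine Eventually.of_forall fun s => ?_
      rw [Real.norm_eq_abs, abs_of_pos (P_pos ha _)]
      exact P_le ha _
  have hlog : ∀ l : Filter ℝ, Tendsto (fun s : ℝ => s⁻¹) l (𝓝 0) → (∀ᶠ s in l, s ≠ 0) →
      Tendsto (fun s : ℝ => Real.log (s ^ 2 + b ^ 2) - Real.log ((s - t) ^ 2 + a ^ 2)) l (𝓝 0) := by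
    intro l hl hl0
    have hc : ContinuousAt (fun x : ℝ => (1 + b ^ 2 * x ^ 2) / ((1 - t * x) ^ 2 + a ^ 2 * x ^ 2)) 0 := by
      refine ContinuousAt.div (by fun_prop) (by fun_prop) (by simp)
    have h1 : Tendsto (fun s : ℝ => (1 + b ^ 2 * (s⁻¹) ^ 2) /
        ((1 - t * s⁻¹) ^ 2 + a ^ 2 * (s⁻¹) ^ 2)) l (𝓝 1) := by
      have := hc.tendsto.comp hl
      simp only [ne_eq, OfNat.ofNat_ne_zero, not_false_eq_true, zero_pow, mul_zero, add_zero, sub_zero,
        one_pow, div_one] at this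
      exact this
    have h2 := h1.log (by norm_num)
    rw [Real.log_one] at h2
    refine h2.congr' ?_
    filter_upwards [hl0] with s hs
    rw [← Real.log_div (by positivity) (by positivity)]
    congr 1
    field_simp
  have htop : Tendsto (fun s : ℝ => (a * b / π ^ 2) * (al * (Real.log (s ^ 2 + b ^ 2) -
      Real.log ((s - t) ^ 2 + a ^ 2)) + be * Real.arctan (s / b) + ga * Real.arctan ((s - t) / a)))
      atTop (𝓝 ((a * b / π ^ 2) * (al * 0 + be * (π / 2) + ga * (π / 2)))) := by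
    refine Tendsto.const_mul _ (((((hlog atTop tendsto_inv_atTop_zero ?_).const_mul al)).add
      (Tendsto.const_mul be ?_)).add (Tendsto.const_mul ga ?_))
    · exact eventually_ne_atTop 0
    · exact (Real.tendsto_arctan_atTop.mono_right nhdsWithin_le_nhds).comp
        (tendsto_id.atTop_div_const hb)
    · refine (Real.tendsto_arctan_atTop.mono_right nhdsWithin_le_nhds).comp ?_
      exact (tendsto_atTop_add_const_right atTop (-t) tendsto_id).atTop_div_const ha
  have hbot : Tendsto (fun s : ℝ => (a * b / π ^ 2) * (al * (Real.log (s ^ 2 + b ^ 2) -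
      Real.log ((s - t) ^ 2 + a ^ 2)) + be * Real.arctan (s / b) + ga * Real.arctan ((s - t) / a)))
      atBot (𝓝 ((a * b / π ^ 2) * (al * 0 + be * (-(π / 2)) + ga * (-(π / 2))))) := by
    refine Tendsto.const_mul _ (((((hlog atBot tendsto_inv_atBot_zero ?_).const_mul al)).add
      (Tendsto.const_mul be ?_)).add (Tendsto.const_mul ga ?_))
    · exact eventually_ne_atBot 0
    · exact (Real.tendsto_arctan_atBot.mono_right nhdsWithin_le_nhds).comp
        (tendsto_id.atBot_div_const hb)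
    · refine (Real.tendsto_arctan_atBot.mono_right nhdsWithin_le_nhds).comp ?_
      exact (tendsto_atBot_add_const_right atBot (-t) tendsto_id).atBot_div_const ha
  rw [integral_of_hasDerivAt_of_tendsto key hint hbot htop]
  unfold P
  rw [hbe, hga]
  have h6 : t ^ 2 + (a - b) ^ 2 ≠ 0 := by positivity
  have h7 : t ^ 2 + (a + b) ^ 2 ≠ 0 := by positivity
  rw [hD]
  field_simp
  ring

end Pool.Agent.Zk22.GL
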