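import Pool.Agent.Zk22.GH

/-! Poisson integrals: derivatives and semigroup property. -/

namespace Pool.Agent.Zk22.GL

open MeasureTheory Set Metric Filter
open scoped ENNReal NNReal Topology Real

lemma P_conv_int {a b : ℝ} (ha : 0 < a) (hb : 0 < b) (t : ℝ) :
    Integrable (fun s => P a (t - s) * P b s) := by
  refine (P_integrable hb).bdd_mul (c := 1 / (π * a)) ?_ ?_
  · exact ((P_cont ha).comp (by fun_prop)).aestronglyMeasurable
  · refine Eventually.of_forall fun s => ?_
    rw [Real.norm_eq_abs, abs_of_pos (P_pos ha _)]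
    exact P_le ha _

lemma Px_semi {a b t : ℝ} (ha : 0 < a) (hb : 0 < b) (ht : t ≠ 0) :
    ∫ s, Px a (t - s) * P b s = Px (a + b) t := by
  have h := hasDerivAt_integral_of_dominated_loc_of_deriv_le (μ := volume) (x₀ := t) (s := univ)
    (F := fun t s => P a (t - s) * P b s) (F' := fun t s => Px a (t - s) * P b s)
    (bound := fun s => (1 / (π * a)) / a * P b s) univ_mem
    (Eventually.of_forall fun t => (P_conv_int ha hb t).aestronglyMeasurable) (P_conv_int ha hb t)
    ((((Px_cont ha).comp (by fun_prop)).mul (P_cont hb)).aestronglyMeasurable)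
    (Eventually.of_forall fun s x _ => ?_) ((P_integrable hb).const_mul _)
    (Eventually.of_forall fun s x _ => ?_)
  · have h1 : HasDerivAt (fun t => P (a + b) t) (∫ s, Px a (t - s) * P b s) t := by
      refine h.2.congr_of_eventuallyEq ?_
      filter_upwards [isOpen_ne.mem_nhds ht] with x hx
      exact (P_semi ha hb hx).symm
    exact h1.unique (hasDerivAt_P_x (by positivity) t)
  · rw [norm_mul, Real.norm_eq_abs, Real.norm_eq_abs, abs_of_pos (P_pos hb s)]
    refine mul_le_mul_of_nonneg_right ((Px_le ha _).trans ?_) (P_pos hb s).le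
    exact div_le_div_of_nonneg_right (P_le ha _) ha.le
  · have h2 := (hasDerivAt_P_x ha (x - s)).comp x ((hasDerivAt_id x).sub_const s)
    simp only [mul_one] at h2
    exact h2.mul_const _

lemma Py_semi {a b t : ℝ} (ha : 0 < a) (hb : 0 < b) (ht : t ≠ 0) :
    ∫ s, Py a (t - s) * P b s = Py (a + b) t := by
  have h := hasDerivAt_integral_of_dominated_loc_of_deriv_le (μ := volume) (x₀ := a) (s := Ioi (a / 2))
    (F := fun a s => P a (t - s) * P b s) (F' := fun a s => Py a (t - s) * P b s)
    (bound := fun s => (1 / (π * (a / 2))) / (a / 2) * P b s) (Ioi_mem_nhds (by linarith))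
    ?_ (P_conv_int ha hb t)
    ((((Py_cont ha).comp (by fun_prop)).mul (P_cont hb)).aestronglyMeasurable)
    (Eventually.of_forall fun s x hx => ?_) ((P_integrable hb).const_mul _)
    (Eventually.of_forall fun s x hx => ?_)
  · have h1 : HasDerivAt (fun a => P (a + b) t) (∫ s, Py a (t - s) * P b s) a := by
      refine h.2.congr_of_eventuallyEq ?_
      filter_upwards [Ioi_mem_nhds ha] with x hx
      exact (P_semi hx hb ht).symm
    have h2 := (hasDerivAt_P_y (show 0 < a + b by positivity) t).comp a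
      ((hasDerivAt_id a).add_const b)
    simp only [mul_one] at h2
    exact h1.unique h2
  · filter_upwards [Ioi_mem_nhds ha] with x hx
    exact (P_conv_int hx hb t).aestronglyMeasurable
  · have hx0 : 0 < x := lt_trans (by positivity) (show a / 2 < x from hx)
    have hx1 : a / 2 ≤ x := (show a / 2 < x from hx).le
    rw [norm_mul, Real.norm_eq_abs, Real.norm_eq_abs, abs_of_pos (P_pos hb s)]
    refine mul_le_mul_of_nonneg_right ((Py_le hx0 _).trans ?_) (P_pos hb s).le
    refine (div_le_div_of_nonneg_right (P_le hx0 _) hx0.le).trans ?_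
    have hπ := Real.pi_pos
    rw [div_div, div_div]
    refine one_div_le_one_div_of_le (by positivity) ?_
    gcongr
  · have hx0 : 0 < x := lt_trans (by positivity) (show a / 2 < x from hx)
    exact (hasDerivAt_P_y hx0 (t - s)).mul_const _

/-- admissible functions -/
structure Adm (f : ℝ → ℝ) : Prop where
  meas : Measurable f
  int : Integrable (fun x => (1 + x ^ 2)⁻¹ * f x)

noncomputable def PI (f : ℝ → ℝ) (z y : ℝ) : ℝ := ∫ x, P y (z - x) * f x
noncomputable def PIx (f : ℝ → ℝ) (z y : ℝ) : ℝ := ∫ x, Px y (z - x) * f x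
noncomputable def PIy (f : ℝ → ℝ) (z y : ℝ) : ℝ := ∫ x, Py y (z - x) * f x

lemma P_dom {y0 y1 y Z z : ℝ} (h0 : 0 < y0) (h1 : y0 ≤ y) (h2 : y ≤ y1) (hz : |z| ≤ Z) (x : ℝ) :
    P y (z - x) ≤ (y1 / π * (2 + (1 + 2 * Z ^ 2) / y0 ^ 2)) * (1 + x ^ 2)⁻¹ := by
  have hy : 0 < y := by linarith
  unfold P
  have hz2 : z ^ 2 ≤ Z ^ 2 := by
    rw [← sq_abs z]; exact pow_le_pow_left₀ (abs_nonneg z) hz 2
  have h3 : 1 + x ^ 2 ≤ (2 + (1 + 2 * Z ^ 2) / y0 ^ 2) * ((z - x) ^ 2 + y ^ 2) := by
    have h4 : (1 + 2 * Z ^ 2) ≤ (1 + 2 * Z ^ 2) / y0 ^ 2 * y ^ 2 := by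
      rw [div_mul_eq_mul_div, le_div_iff₀ (by positivity)]
      have : y0 ^ 2 ≤ y ^ 2 := pow_le_pow_left₀ h0.le h1 2
      gcongr
    have h5 : 0 ≤ (1 + 2 * Z ^ 2) / y0 ^ 2 * (z - x) ^ 2 := by positivity
    nlinarith [sq_nonneg (2 * z - x), sq_nonneg y]
  have h6 : 0 < (z - x) ^ 2 + y ^ 2 := by positivity
  have hy1 : 0 < y1 := by linarith
  rw [← div_eq_mul_inv, div_le_div_iff₀ (by positivity) (by positivity)]
  calc y * (1 + x ^ 2) ≤ y1 * ((2 + (1 + 2 * Z ^ 2) / y0 ^ 2) * ((z - x) ^ 2 + y ^ 2)) := by gcongr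
    _ = _ := by field_simp

lemma Adm.integrable_mul {f : ℝ → ℝ} (hf : Adm f) {k : ℝ → ℝ} (hk : Continuous k) {M : ℝ}
    (hM : ∀ x, |k x| ≤ M * (1 + x ^ 2)⁻¹) : Integrable (fun x => k x * f x) := by
  refine (hf.int.norm.const_mul M).mono' (hk.aestronglyMeasurable.mul hf.meas.aestronglyMeasurable)
    (Eventually.of_forall fun x => ?_)
  rw [norm_mul, norm_mul, ← mul_assoc]
  refine mul_le_mul_of_nonneg_right ?_ (norm_nonneg _)
  rw [Real.norm_eq_abs, Real.norm_eq_abs, abs_of_pos (show 0 < (1 + x ^ 2)⁻¹ by positivity)]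
  exact hM x

lemma Adm.int_P {f : ℝ → ℝ} (hf : Adm f) {y : ℝ} (hy : 0 < y) (z : ℝ) :
    Integrable (fun x => P y (z - x) * f x) :=
  hf.integrable_mul ((P_cont hy).comp (by fun_prop)) (fun x => by
    rw [abs_of_pos (P_pos hy _)]
    exact P_dom hy le_rfl le_rfl le_rfl x)

lemma Adm.int_k {f : ℝ → ℝ} (hf : Adm f) {y : ℝ} (hy : 0 < y) (z : ℝ) {k : ℝ → ℝ}
    (hk : Continuous k) {c : ℝ} (hc : 0 ≤ c) (hkc : ∀ t, |k t| ≤ c * P y t) :
    Integrable (fun x => k (z - x) * f x) := by
  refine hf.integrable_mul (M := c * (y / π * (2 + (1 + 2 * |z| ^ 2) / y ^ 2))) (hk.comp (by fun_prop))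
    (fun x => ?_)
  refine (hkc _).trans ?_
  rw [mul_assoc]
  exact mul_le_mul_of_nonneg_left (P_dom hy le_rfl le_rfl le_rfl x) hc

lemma Px_le' {y : ℝ} (hy : 0 < y) (x : ℝ) : |Px y x| ≤ (1 / y) * P y x :=
  (Px_le hy x).trans (le_of_eq (by ring))
lemma Py_le' {y : ℝ} (hy : 0 < y) (x : ℝ) : |Py y x| ≤ (1 / y) * P y x :=
  (Py_le hy x).trans (le_of_eq (by ring))

lemma PI_hasDerivAt_z {f : ℝ → ℝ} (hf : Adm f) {y : ℝ} (hy : 0 < y) (z : ℝ) :
    HasDerivAt (fun t => PI f t y) (PIx f z y) z := by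
  refine (hasDerivAt_integral_of_dominated_loc_of_deriv_le (μ := volume) (x₀ := z) (s := ball z 1)
    (F := fun t x => P y (t - x) * f x) (F' := fun t x => Px y (t - x) * f x)
    (bound := fun x => ((y / π * (2 + (1 + 2 * (|z| + 1) ^ 2) / y ^ 2)) / y) *
      ‖(1 + x ^ 2)⁻¹ * f x‖) (ball_mem_nhds z one_pos)
    (Eventually.of_forall fun t => (hf.int_P hy t).aestronglyMeasurable) (hf.int_P hy z)
    (hf.int_k hy z (Px_cont hy) (by positivity) (Px_le' hy)).aestronglyMeasurable
    (Eventually.of_forall fun x t ht => ?_) (hf.int.norm.const_mul _)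
    (Eventually.of_forall fun x t ht => ?_)).2
  · have ht' : |t| ≤ |z| + 1 := by
      rw [mem_ball, Real.dist_eq] at ht
      have := abs_sub_abs_le_abs_sub t z
      linarith
    rw [norm_mul, norm_mul, ← mul_assoc]
    refine mul_le_mul_of_nonneg_right ?_ (norm_nonneg _)
    rw [Real.norm_eq_abs, Real.norm_eq_abs, abs_of_pos (show 0 < (1 + x ^ 2)⁻¹ by positivity)]
    refine (Px_le hy _).trans ?_
    rw [div_mul_eq_mul_div]
    exact div_le_div_of_nonneg_right (P_dom hy le_rfl le_rfl ht' x) hy.le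
  · have h2 := (hasDerivAt_P_x hy (t - x)).comp t ((hasDerivAt_id t).sub_const x)
    simp only [mul_one] at h2
    exact h2.mul_const _

lemma PI_hasDerivAt_y {f : ℝ → ℝ} (hf : Adm f) {y : ℝ} (hy : 0 < y) (z : ℝ) :
    HasDerivAt (fun t => PI f z t) (PIy f z y) y := by
  refine (hasDerivAt_integral_of_dominated_loc_of_deriv_le (μ := volume) (x₀ := y)
    (s := Ioo (y / 2) (2 * y))
    (F := fun t x => P t (z - x) * f x) (F' := fun t x => Py t (z - x) * f x)
    (bound := fun x => ((2 * y / π * (2 + (1 + 2 * |z| ^ 2) / (y / 2) ^ 2)) / (y / 2)) *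
      ‖(1 + x ^ 2)⁻¹ * f x‖) (Ioo_mem_nhds (by linarith) (by linarith))
    ?_ (hf.int_P hy z)
    (hf.int_k hy z (Py_cont hy) (by positivity) (Py_le' hy)).aestronglyMeasurable
    (Eventually.of_forall fun x t ht => ?_) (hf.int.norm.const_mul _)
    (Eventually.of_forall fun x t ht => ?_)).2
  · filter_upwards [Ioi_mem_nhds hy] with t ht
    exact (hf.int_P ht z).aestronglyMeasurable
  · have ht0 : 0 < t := lt_trans (by positivity) ht.1
    rw [norm_mul, norm_mul, ← mul_assoc]
    refine mul_le_mul_of_nonneg_right ?_ (norm_nonneg _)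
    rw [Real.norm_eq_abs, Real.norm_eq_abs, abs_of_pos (show 0 < (1 + x ^ 2)⁻¹ by positivity)]
    refine (Py_le ht0 _).trans ?_
    rw [div_mul_eq_mul_div]
    have h3 := P_dom (show 0 < y / 2 by positivity) ht.1.le ht.2.le (le_refl |z|) x
    exact div_le_div₀ ((P_pos ht0 _).le.trans h3) h3 (by positivity) ht.1.le
  · have ht0 : 0 < t := lt_trans (by positivity) ht.1
    exact (hasDerivAt_P_y ht0 (z - x)).mul_const _

/-- convolution with the Poisson integral -/
lemma conv_gen {a b : ℝ} (ha : 0 < a) (hb : 0 < b) {k m : ℝ → ℝ} (hk : Continuous k) {c : ℝ}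
    (hc : 0 ≤ c) (hkc : ∀ t, |k t| ≤ c * P a t) (hm : ∀ t, t ≠ 0 → ∫ s, k (t - s) * P b s = m t)
    {f : ℝ → ℝ} (hf : Adm f) (z : ℝ) :
    Integrable (fun z' => k (z - z') * PI f z' b) ∧
      ∫ z', k (z - z') * PI f z' b = ∫ x, m (z - x) * f x := by
  have hshift : ∀ (x : ℝ) (g : ℝ → ℝ), ∫ z', g (z - z') * P b (z' - x) = ∫ s, g (z - x - s) * P b s := by
    intro x g
    rw [← integral_add_right_eq_self (fun z' => g (z - z') * P b (z' - x)) x]
    refine integral_congr_ae (Eventually.of_forall fun s => ?_)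
    simp only
    congr 2 <;> ring
  have hmeas : AEStronglyMeasurable (fun q : ℝ × ℝ => k (z - q.1) * (P b (q.1 - q.2) * f q.2))
      (volume.prod volume) := by
    refine AEStronglyMeasurable.mul ?_ (AEStronglyMeasurable.mul ?_ ?_)
    · exact (hk.comp (by fun_prop)).aestronglyMeasurable
    · exact ((P_cont hb).comp (by fun_prop)).aestronglyMeasurable
    · exact (hf.meas.comp measurable_snd).aestronglyMeasurable
  have hint : Integrable (fun q : ℝ × ℝ => k (z - q.1) * (P b (q.1 - q.2) * f q.2))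
      (volume.prod volume) := by
    rw [integrable_prod_iff' hmeas]
    constructor
    · refine Eventually.of_forall fun x => ?_
      have h1 : Integrable (fun z' => P b (z' - x)) := (P_integrable hb).comp_sub_right x
      have h2 : Integrable (fun z' => k (z - z') * P b (z' - x)) := by
        refine h1.bdd_mul (c := c * (1 / (π * a))) (hk.comp (by fun_prop)).aestronglyMeasurable
          (Eventually.of_forall fun s => ?_)
        rw [Real.norm_eq_abs]
        exact (hkc _).trans (mul_le_mul_of_nonneg_left (P_le ha _) hc)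
      have h3 := h2.mul_const (f x)
      refine h3.congr (Eventually.of_forall fun z' => ?_)
      simp only; ring
    · have h4 := (hf.int_P (show 0 < a + b by positivity) z).norm.const_mul c
      refine h4.mono' ?_ ?_
      · exact hmeas.norm.prod_swap.integral_prod_right'
      · have hne : ∀ᵐ x : ℝ, x ≠ z := Measure.ae_ne volume z
        filter_upwards [hne] with x hx
        rw [Real.norm_eq_abs, abs_of_nonneg (integral_nonneg fun _ => norm_nonneg _)]
        have h5 : ∀ z', ‖k (z - z') * (P b (z' - x) * f x)‖ ≤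
            (P a (z - z') * P b (z' - x)) * (c * |f x|) := by
          intro z'
          rw [norm_mul, norm_mul, Real.norm_eq_abs, Real.norm_eq_abs, Real.norm_eq_abs,
            abs_of_pos (P_pos hb _)]
          calc _ ≤ (c * P a (z - z')) * (P b (z' - x) * |f x|) :=
                mul_le_mul_of_nonneg_right (hkc _) (mul_nonneg (P_pos hb _).le (abs_nonneg _))
            _ = _ := by ring
        have h6 : Integrable (fun z' => (P a (z - z') * P b (z' - x)) * (c * |f x|)) := by
          have h1 : Integrable (fun z' => P b (z' - x)) := (P_integrable hb).comp_sub_right x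
          refine (h1.bdd_mul (c := 1 / (π * a))
            ((P_cont ha).comp (by fun_prop)).aestronglyMeasurable
            (Eventually.of_forall fun s => ?_)).mul_const _
          rw [Real.norm_eq_abs, Function.comp_apply, abs_of_pos (P_pos ha _)]
          exact P_le ha _
        calc _ ≤ ∫ z', (P a (z - z') * P b (z' - x)) * (c * |f x|) :=
              integral_mono_of_nonneg (Eventually.of_forall fun _ => norm_nonneg _) h6
                (Eventually.of_forall h5)
          _ = P (a + b) (z - x) * (c * |f x|) := by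
              rw [integral_mul_const, hshift x (P a), P_semi ha hb (sub_ne_zero.2 (Ne.symm hx))]
          _ = _ := by
              rw [norm_mul, Real.norm_eq_abs, Real.norm_eq_abs, abs_of_pos (P_pos (by positivity) _)]
              ring
  have e1 : ∀ z', k (z - z') * PI f z' b = ∫ x, k (z - z') * (P b (z' - x) * f x) := by
    intro z'; rw [PI, integral_const_mul]
  constructor
  · have := hint.integral_prod_left
    refine this.congr (Eventually.of_forall fun z' => ?_)
    exact (e1 z').symm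
  · simp_rw [e1]
    rw [integral_integral_swap hint]
    have hne : ∀ᵐ x : ℝ, x ≠ z := Measure.ae_ne volume z
    refine integral_congr_ae ?_
    filter_upwards [hne] with x hx
    have e2 : ∀ z', k (z - z') * (P b (z' - x) * f x) = (k (z - z') * P b (z' - x)) * f x := by
      intro z'; ring
    simp_rw [e2]
    rw [integral_mul_const, hshift x k, hm _ (sub_ne_zero.2 (Ne.symm hx))]

lemma PI_semi {a b : ℝ} (ha : 0 < a) (hb : 0 < b) {f : ℝ → ℝ} (hf : Adm f) (z : ℝ) :
    Integrable (fun z' => P a (z - z') * PI f z' b) ∧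
      ∫ z', P a (z - z') * PI f z' b = PI f z (a + b) :=
  conv_gen ha hb (P_cont ha) (c := 1) (by norm_num) (fun t => by
    rw [abs_of_pos (P_pos ha t), one_mul]) (fun _ ht => P_semi ha hb ht) hf z

lemma PIx_semi {a b : ℝ} (ha : 0 < a) (hb : 0 < b) {f : ℝ → ℝ} (hf : Adm f) (z : ℝ) :
    Integrable (fun z' => Px a (z - z') * PI f z' b) ∧
      ∫ z', Px a (z - z') * PI f z' b = PIx f z (a + b) :=
  conv_gen ha hb (Px_cont ha) (c := 1 / a) (by positivity) (Px_le' ha)
    (fun _ ht => Px_semi ha hb ht) hf z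

lemma PIy_semi {a b : ℝ} (ha : 0 < a) (hb : 0 < b) {f : ℝ → ℝ} (hf : Adm f) (z : ℝ) :
    Integrable (fun z' => Py a (z - z') * PI f z' b) ∧
      ∫ z', Py a (z - z') * PI f z' b = PIy f z (a + b) :=
  conv_gen ha hb (Py_cont ha) (c := 1 / a) (by positivity) (Py_le' ha)
    (fun _ ht => Py_semi ha hb ht) hf z

end Pool.Agent.Zk22.GL
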