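import Pool.Agent.Zk22.GI

/-! The energy inequality. -/

namespace Pool.Agent.Zk22.GL

open MeasureTheory Set Metric Filter
open scoped ENNReal NNReal Topology Real

/-- variance inequality -/
lemma variance {k g h : ℝ → ℝ} (hk : Measurable k) (hk0 : ∀ x, 0 ≤ k x) (hg : Measurable g)
    (hh : Measurable h) (hh0 : ∀ x, 0 < h x) (hkg : Integrable (fun x => k x * g x))
    (hkh : Integrable (fun x => k x * h x)) {G H : ℝ} (hG : ∫ x, k x * g x = G)
    (hH : ∫ x, k x * h x = H) (hH0 : 0 < H) :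
    (∫⁻ x, ENNReal.ofReal (k x * ((g x - G / H * h x) ^ 2 / h x))) + ENNReal.ofReal (G ^ 2 / H) ≤
      ∫⁻ x, ENNReal.ofReal (k x * (g x ^ 2 / h x)) := by
  rcases eq_or_ne (∫⁻ x, ENNReal.ofReal (k x * (g x ^ 2 / h x))) ∞ with htop | hfin
  · rw [htop]; exact le_top
  have hm : Measurable (fun x => k x * (g x ^ 2 / h x)) := hk.mul ((hg.pow_const 2).div hh)
  have hnn : ∀ x, 0 ≤ k x * (g x ^ 2 / h x) := fun x =>
    mul_nonneg (hk0 x) (div_nonneg (sq_nonneg _) (hh0 x).le)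
  have hint : Integrable (fun x => k x * (g x ^ 2 / h x)) := by
    refine ⟨hm.aestronglyMeasurable, ?_⟩
    rw [hasFiniteIntegral_iff_ofReal (Eventually.of_forall hnn)]
    exact lt_top_iff_ne_top.2 hfin
  have e1 : ∀ x, k x * ((g x - G / H * h x) ^ 2 / h x) =
      k x * (g x ^ 2 / h x) - 2 * (G / H) * (k x * g x) + (G / H) ^ 2 * (k x * h x) := by
    intro x
    have := (hh0 x).ne'
    field_simp
    ring
  have hint2 : Integrable (fun x => k x * ((g x - G / H * h x) ^ 2 / h x)) := by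
    simp_rw [e1]
    exact (hint.sub (hkg.const_mul _)).add (hkh.const_mul _)
  have i1 : Integrable (fun x => k x * (g x ^ 2 / h x) - 2 * (G / H) * (k x * g x)) :=
    hint.sub (hkg.const_mul _)
  have e2 : ∫ x, k x * ((g x - G / H * h x) ^ 2 / h x) =
      (∫ x, k x * (g x ^ 2 / h x)) - G ^ 2 / H := by
    simp_rw [e1]
    rw [integral_add i1 (hkh.const_mul _),
      integral_sub hint (hkg.const_mul _), integral_const_mul, integral_const_mul, hG, hH]
    field_simp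
    ring
  have hnn2 : ∀ x, 0 ≤ k x * ((g x - G / H * h x) ^ 2 / h x) := fun x =>
    mul_nonneg (hk0 x) (div_nonneg (sq_nonneg _) (hh0 x).le)
  rw [← ofReal_integral_eq_lintegral_ofReal hint2 (Eventually.of_forall hnn2),
    ← ofReal_integral_eq_lintegral_ofReal hint (Eventually.of_forall hnn),
    ← ENNReal.ofReal_add (integral_nonneg hnn2) (by positivity), e2]
  exact le_of_eq (by congr 1; ring)

/-- Cauchy–Schwarz -/
lemma cs {k K d h : ℝ → ℝ} (hk : Measurable k) (hk0 : ∀ x, 0 ≤ k x) (hKk : ∀ x, |K x| ≤ k x)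
    (hd : Measurable d) (hh : Measurable h) (hh0 : ∀ x, 0 < h x)
    (hkh : Integrable (fun x => k x * h x)) :
    ENNReal.ofReal ((∫ x, K x * d x) ^ 2) ≤
      ENNReal.ofReal (∫ x, k x * h x) * ∫⁻ x, ENNReal.ofReal (k x * (d x ^ 2 / h x)) := by
  have h1 : ENNReal.ofReal |∫ x, K x * d x| ≤ ∫⁻ x, ENNReal.ofReal (k x * |d x|) := by
    rw [← Real.norm_eq_abs, ofReal_norm]
    refine (enorm_integral_le_lintegral_enorm _).trans (lintegral_mono fun x => ?_)
    rw [← ofReal_norm, norm_mul, Real.norm_eq_abs, Real.norm_eq_abs]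
    exact ENNReal.ofReal_le_ofReal (mul_le_mul_of_nonneg_right (hKk x) (abs_nonneg _))
  have h2 := ENNReal.lintegral_mul_le_Lp_mul_Lq (volume : Measure ℝ)
    (Real.HolderConjugate.two_two)
    (f := fun x => ENNReal.ofReal (√(k x * h x))) (g := fun x => ENNReal.ofReal (√(k x * (d x ^ 2 / h x))))
    (by fun_prop) (by fun_prop)
  have e1 : ∀ x, ((fun x => ENNReal.ofReal (√(k x * h x))) *
      (fun x => ENNReal.ofReal (√(k x * (d x ^ 2 / h x))))) x = ENNReal.ofReal (k x * |d x|) := by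
    intro x
    simp only [Pi.mul_apply]
    rw [← ENNReal.ofReal_mul (Real.sqrt_nonneg _), ← Real.sqrt_mul (mul_nonneg (hk0 x) (hh0 x).le)]
    congr 1
    have : k x * h x * (k x * (d x ^ 2 / h x)) = (k x * |d x|) ^ 2 := by
      rw [mul_pow, sq_abs]
      have := (hh0 x).ne'
      field_simp
    rw [this, Real.sqrt_sq (mul_nonneg (hk0 x) (abs_nonneg _))]
  have e2 : ∀ t : ℝ, 0 ≤ t → ENNReal.ofReal (√t) ^ (2:ℝ) = ENNReal.ofReal t := by
    intro t ht
    rw [ENNReal.ofReal_rpow_of_nonneg (Real.sqrt_nonneg _) (by norm_num)]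
    congr 1
    rw [Real.rpow_two, Real.sq_sqrt ht]
  simp_rw [e1] at h2
  have e3 : ∀ x, ENNReal.ofReal (√(k x * h x)) ^ (2:ℝ) = ENNReal.ofReal (k x * h x) := fun x =>
    e2 _ (mul_nonneg (hk0 x) (hh0 x).le)
  have e4 : ∀ x, ENNReal.ofReal (√(k x * (d x ^ 2 / h x))) ^ (2:ℝ) =
      ENNReal.ofReal (k x * (d x ^ 2 / h x)) := fun x =>
    e2 _ (mul_nonneg (hk0 x) (div_nonneg (sq_nonneg _) (hh0 x).le))
  simp_rw [e3, e4] at h2
  have h3 := ENNReal.rpow_le_rpow (h1.trans h2) (show (0:ℝ) ≤ 2 by norm_num)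
  rw [ENNReal.mul_rpow_of_nonneg _ _ (by norm_num), ← ENNReal.rpow_mul, ← ENNReal.rpow_mul,
    ENNReal.ofReal_rpow_of_nonneg (abs_nonneg _) (by norm_num), Real.rpow_two, sq_abs] at h3
  norm_num at h3
  rw [ofReal_integral_eq_lintegral_ofReal hkh (Eventually.of_forall fun x =>
    mul_nonneg (hk0 x) (hh0 x).le)]
  exact h3

lemma P_meas : Measurable (fun q : ℝ × ℝ => P q.1 q.2) := by unfold P; fun_prop
lemma Px_meas : Measurable (fun q : ℝ × ℝ => Px q.1 q.2) := by unfold Px; fun_prop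
lemma Py_meas : Measurable (fun q : ℝ × ℝ => Py q.1 q.2) := by unfold Py; fun_prop

lemma gen_meas {k : ℝ → ℝ → ℝ} (hk : Measurable (fun q : ℝ × ℝ => k q.1 q.2)) {f : ℝ → ℝ}
    (hf : Measurable f) : Measurable (fun q : ℝ × ℝ => ∫ x, k q.2 (q.1 - x) * f x) := by
  have h1 : Measurable (fun r : (ℝ × ℝ) × ℝ => k r.1.2 (r.1.1 - r.2) * f r.2) := by
    refine Measurable.mul ?_ (hf.comp measurable_snd)
    exact hk.comp (Measurable.prodMk (by fun_prop) (by fun_prop))
  exact h1.stronglyMeasurable.integral_prod_right'.measurable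

lemma PI_meas {f : ℝ → ℝ} (hf : Measurable f) : Measurable (fun q : ℝ × ℝ => PI f q.1 q.2) :=
  gen_meas P_meas hf
lemma PIx_meas {f : ℝ → ℝ} (hf : Measurable f) : Measurable (fun q : ℝ × ℝ => PIx f q.1 q.2) :=
  gen_meas Px_meas hf
lemma PIy_meas {f : ℝ → ℝ} (hf : Measurable f) : Measurable (fun q : ℝ × ℝ => PIy f q.1 q.2) :=
  gen_meas Py_meas hf

lemma PI_pos {s : ℝ → ℝ} (hs : Adm s) (hs0 : ∀ x, 0 < s x) {y : ℝ} (hy : 0 < y) (z : ℝ) :
    0 < PI s z y := by
  unfold PI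
  rw [integral_pos_iff_support_of_nonneg (fun x => (mul_pos (P_pos hy _) (hs0 x)).le) (hs.int_P hy z)]
  have : Function.support (fun x => P y (z - x) * s x) = univ := by
    ext x
    simp only [Function.mem_support, mem_univ, iff_true]
    exact (mul_pos (P_pos hy (z - x)) (hs0 x)).ne'
  rw [this]; simp

/-- energy functional -/
noncomputable def Phi (f s : ℝ → ℝ) (y : ℝ) : ℝ≥0∞ := ∫⁻ z, ENNReal.ofReal (PI f z y ^ 2 / PI s z y)

/-- density -/
noncomputable def VV (f s : ℝ → ℝ) (y z : ℝ) : ℝ≥0∞ :=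
  ∫⁻ z', ENNReal.ofReal (P y (z - z') * ((PI f z' y -
    PI f z (2 * y) / PI s z (2 * y) * PI s z' y) ^ 2 / PI s z' y))

lemma lint_P {y : ℝ} (hy : 0 < y) (x : ℝ) : ∫⁻ z, ENNReal.ofReal (P y (z - x)) = 1 := by
  rw [← ofReal_integral_eq_lintegral_ofReal ((P_integrable hy).comp_sub_right x)
    (Eventually.of_forall fun z => (P_pos hy _).le), integral_sub_right_eq_self (P y) x,
    P_integral hy, ENNReal.ofReal_one]

lemma avg_out {y : ℝ} (hy : 0 < y) {F : ℝ → ℝ} (hF : Measurable F) (hF0 : ∀ x, 0 ≤ F x) :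
    ∫⁻ z, ∫⁻ x, ENNReal.ofReal (P y (z - x) * F x) = ∫⁻ x, ENNReal.ofReal (F x) := by
  rw [lintegral_lintegral_swap]
  · refine lintegral_congr fun x => ?_
    have e1 : ∀ z, ENNReal.ofReal (P y (z - x) * F x) =
        ENNReal.ofReal (P y (z - x)) * ENNReal.ofReal (F x) := fun z =>
      ENNReal.ofReal_mul (P_pos hy _).le
    simp_rw [e1]
    rw [lintegral_mul_const' _ _ ENNReal.ofReal_ne_top, lint_P hy, one_mul]
  · have h1 : Measurable (fun q : ℝ × ℝ => P y (q.1 - q.2)) :=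
      (P_cont hy).measurable.comp (by fun_prop)
    exact (ENNReal.measurable_ofReal.comp (h1.mul (hF.comp measurable_snd))).aemeasurable

variable {f s : ℝ → ℝ}

lemma meas1 (hf : Measurable f) (y : ℝ) : Measurable (fun z => PI f z y) :=
  (PI_meas hf).comp (measurable_id.prodMk measurable_const)

lemma energy_step (hf : Adm f) (hs : Adm s) (hs0 : ∀ x, 0 < s x) {y : ℝ} (hy : 0 < y) :
    (∫⁻ z, VV f s y z) + Phi f s (2 * y) ≤ Phi f s y := by
  have h2y : 0 < 2 * y := by positivity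
  have h1 : ∀ z, VV f s y z + ENNReal.ofReal (PI f z (2 * y) ^ 2 / PI s z (2 * y)) ≤
      ∫⁻ z', ENNReal.ofReal (P y (z - z') * (PI f z' y ^ 2 / PI s z' y)) := by
    intro z
    have a1 := PI_semi hy hy hf z
    have a2 := PI_semi hy hy hs z
    rw [← two_mul] at a1 a2
    exact variance (k := fun z' => P y (z - z')) ((P_cont hy).measurable.comp (by fun_prop))
      (fun x => (P_pos hy _).le) (meas1 hf.meas y) (meas1 hs.meas y) (fun z' => PI_pos hs hs0 hy z')
      a1.1 a2.1 a1.2 a2.2 (PI_pos hs hs0 h2y z)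
  calc _ ≤ ∫⁻ z, (VV f s y z + ENNReal.ofReal (PI f z (2 * y) ^ 2 / PI s z (2 * y))) :=
        le_lintegral_add _ _
    _ ≤ ∫⁻ z, ∫⁻ z', ENNReal.ofReal (P y (z - z') * (PI f z' y ^ 2 / PI s z' y)) :=
        lintegral_mono h1
    _ = _ := avg_out hy (((meas1 hf.meas y).pow_const 2).div (meas1 hs.meas y))
        (fun z' => div_nonneg (sq_nonneg _) (PI_pos hs hs0 hy z').le)

lemma energy_start (hf : Adm f) (hs : Adm s) (hs0 : ∀ x, 0 < s x) {y : ℝ} (hy : 0 < y) :
    Phi f s y ≤ ∫⁻ x, ENNReal.ofReal (f x ^ 2 / s x) := by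
  have h1 : ∀ z, ENNReal.ofReal (PI f z y ^ 2 / PI s z y) ≤
      ∫⁻ x, ENNReal.ofReal (P y (z - x) * (f x ^ 2 / s x)) := by
    intro z
    exact le_add_self.trans (variance (k := fun x => P y (z - x))
      ((P_cont hy).measurable.comp (by fun_prop)) (fun x => (P_pos hy _).le) hf.meas hs.meas hs0
      (hf.int_P hy z) (hs.int_P hy z) rfl rfl (PI_pos hs hs0 hy z))
  calc _ ≤ ∫⁻ z, ∫⁻ x, ENNReal.ofReal (P y (z - x) * (f x ^ 2 / s x)) := lintegral_mono h1
    _ = _ := avg_out hy ((hf.meas.pow_const 2).div hs.meas)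
        (fun x => div_nonneg (sq_nonneg _) (hs0 x).le)

/-- gradient density at height `y` -/
noncomputable def TT (f s : ℝ → ℝ) (y z : ℝ) : ℝ≥0∞ :=
  ENNReal.ofReal (((PIx f z y - PI f z y / PI s z y * PIx s z y) ^ 2 +
    (PIy f z y - PI f z y / PI s z y * PIy s z y) ^ 2) / PI s z y)

lemma grad_one (hf : Adm f) (hs : Adm s) (hs0 : ∀ x, 0 < s x) {y : ℝ} (hy : 0 < y) (z : ℝ)
    {k : ℝ → ℝ} (hk : ∀ t, |k t| ≤ (1 / y) * P y t)
    {a b : ℝ} (ha : Integrable (fun z' => k (z - z') * PI f z' y) ∧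
      ∫ z', k (z - z') * PI f z' y = a)
    (hb : Integrable (fun z' => k (z - z') * PI s z' y) ∧
      ∫ z', k (z - z') * PI s z' y = b) :
    ENNReal.ofReal (y ^ 2) * ENNReal.ofReal ((a - PI f z (2 * y) / PI s z (2 * y) * b) ^ 2 /
      PI s z (2 * y)) ≤ VV f s y z := by
  have h2y : 0 < 2 * y := by positivity
  set ρ := PI f z (2 * y) / PI s z (2 * y) with hρ
  have a2 := PI_semi hy hy hs z
  rw [← two_mul] at a2
  have hW := PI_pos hs hs0 h2y z
  have h1 := cs (k := fun z' => P y (z - z')) (K := fun z' => y * k (z - z'))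
    (d := fun z' => PI f z' y - ρ * PI s z' y) (h := fun z' => PI s z' y)
    ((P_cont hy).measurable.comp (by fun_prop)) (fun x => (P_pos hy _).le)
    (fun x => by
      rw [abs_mul, abs_of_pos hy]
      calc y * |k (z - x)| ≤ y * ((1 / y) * P y (z - x)) := mul_le_mul_of_nonneg_left (hk _) hy.le
        _ = P y (z - x) := by field_simp)
    ((meas1 hf.meas y).sub ((meas1 hs.meas y).const_mul ρ)) (meas1 hs.meas y)
    (fun z' => PI_pos hs hs0 hy z') a2.1
  have e1 : ∫ z', y * k (z - z') * (PI f z' y - ρ * PI s z' y) = y * (a - ρ * b) := by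
    have e2 : ∀ z', y * k (z - z') * (PI f z' y - ρ * PI s z' y) =
        y * (k (z - z') * PI f z' y) - y * ρ * (k (z - z') * PI s z' y) := by intro z'; ring
    simp_rw [e2]
    rw [integral_sub (ha.1.const_mul _) (hb.1.const_mul _), integral_const_mul, integral_const_mul,
      ha.2, hb.2]
    ring
  rw [e1, a2.2] at h1
  rw [← ENNReal.ofReal_mul (by positivity)]
  have e3 : y ^ 2 * ((a - ρ * b) ^ 2 / PI s z (2 * y)) = (y * (a - ρ * b)) ^ 2 / PI s z (2 * y) := by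
    ring
  rw [e3, ENNReal.ofReal_div_of_pos hW]
  rw [ENNReal.div_le_iff_le_mul (Or.inl (by rw [Ne, ENNReal.ofReal_eq_zero]; linarith))
    (Or.inl ENNReal.ofReal_ne_top)]
  exact h1.trans (le_of_eq (mul_comm _ _))

lemma grad_two (hf : Adm f) (hs : Adm s) (hs0 : ∀ x, 0 < s x) {y : ℝ} (hy : 0 < y) (z : ℝ) :
    ENNReal.ofReal (y ^ 2) * TT f s (2 * y) z ≤ 2 * VV f s y z := by
  have a1 := PIx_semi hy hy hf z
  have a2 := PIx_semi hy hy hs z
  have a3 := PIy_semi hy hy hf z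
  have a4 := PIy_semi hy hy hs z
  rw [← two_mul] at a1 a2 a3 a4
  have h1 := grad_one hf hs hs0 hy z (Px_le' hy) a1 a2
  have h2 := grad_one hf hs hs0 hy z (Py_le' hy) a3 a4
  have hW := PI_pos hs hs0 (show 0 < 2 * y by positivity) z
  unfold TT
  rw [add_div, ENNReal.ofReal_add (by positivity) (by positivity), mul_add, two_mul (VV f s y z)]
  exact add_le_add h1 h2

end Pool.Agent.Zk22.GL
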