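import Pool.Agent.Zk22.GJ

/-! The energy inequality, summed over scales. -/

namespace Pool.Agent.Zk22.GL

open MeasureTheory Set Metric Filter
open scoped ENNReal NNReal Topology Real

variable {f s : ℝ → ℝ}

lemma cv {F : ℝ → ℝ≥0∞} (hF : Measurable F) : ∫⁻ y, F (2 * y) = 2⁻¹ * ∫⁻ y, F y := by
  have h1 := Real.map_volume_mul_left (show (2:ℝ) ≠ 0 by norm_num)
  calc ∫⁻ y, F (2 * y) = ∫⁻ y, F y ∂(Measure.map (2 * ·) volume) := by
        rw [lintegral_map hF (by fun_prop)]
    _ = _ := by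
        rw [h1, lintegral_smul_measure]
        congr 1
        rw [abs_of_pos (by norm_num), ENNReal.ofReal_inv_of_pos (by norm_num)]
        norm_num

lemma cv_set {F : ℝ → ℝ≥0∞} (hF : Measurable F) {S T : Set ℝ} (hS : MeasurableSet S)
    (hT : MeasurableSet T) (hST : ∀ y, y ∈ S ↔ 2 * y ∈ T) :
    ∫⁻ y in S, F (2 * y) = 2⁻¹ * ∫⁻ y in T, F y := by
  rw [← lintegral_indicator hS, ← lintegral_indicator hT, ← cv (hF.indicator hT)]
  refine lintegral_congr fun y => ?_
  by_cases hy : y ∈ S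
  · rw [indicator_of_mem hy, indicator_of_mem ((hST y).1 hy)]
  · rw [indicator_of_notMem hy, indicator_of_notMem (fun h => hy ((hST y).2 h))]

lemma Phi_meas (hf : Measurable f) (hs : Measurable s) : Measurable (Phi f s) := by
  have h1 : Measurable (fun q : ℝ × ℝ => ENNReal.ofReal (PI f q.2 q.1 ^ 2 / PI s q.2 q.1)) :=
    ENNReal.measurable_ofReal.comp ((((PI_meas hf).comp measurable_swap).pow_const 2).div
      ((PI_meas hs).comp measurable_swap))
  exact h1.lintegral_prod_right'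

lemma TT_meas2 (hf : Measurable f) (hs : Measurable s) :
    Measurable (fun q : ℝ × ℝ => TT f s q.1 q.2) := by
  have a1 := (PI_meas hf).comp measurable_swap
  have a2 := (PI_meas hs).comp measurable_swap
  have a3 := (PIx_meas hf).comp measurable_swap
  have a4 := (PIx_meas hs).comp measurable_swap
  have a5 := (PIy_meas hf).comp measurable_swap
  have a6 := (PIy_meas hs).comp measurable_swap
  exact ENNReal.measurable_ofReal.comp ((((a3.sub ((a1.div a2).mul a4)).pow_const 2).add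
    ((a5.sub ((a1.div a2).mul a6)).pow_const 2)).div a2)

lemma tele (hf : Adm f) (hs : Adm s) (hs0 : ∀ x, 0 < s x) {E : ℝ≥0∞}
    (hE : ∫⁻ x, ENNReal.ofReal (f x ^ 2 / s x) = E) (hEf : E ≠ ∞) {a b : ℝ} (ha : 0 < a)
    (hab : 2 * a ≤ b) :
    ∫⁻ y in Ioc a b, ENNReal.ofReal (1 / y) * ∫⁻ z, VV f s y z ≤ E := by
  have hPm := Phi_meas hf.meas hs.meas
  have hPhi : ∀ y, 0 < y → Phi f s y ≤ E := fun y hy => by
    rw [← hE]; exact energy_start hf hs hs0 hy
  set F : ℝ → ℝ≥0∞ := fun y => ENNReal.ofReal (1 / y) * Phi f s y with hF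
  have hFm : Measurable F := by
    refine Measurable.mul ?_ hPm
    exact ENNReal.measurable_ofReal.comp (by fun_prop)
  have h2m : Measurable (fun y => ENNReal.ofReal (1 / y) * Phi f s (2 * y)) := by
    refine Measurable.mul ?_ (hPm.comp (by fun_prop))
    exact ENNReal.measurable_ofReal.comp (by fun_prop)
  have h1 : (∫⁻ y in Ioc a b, ENNReal.ofReal (1 / y) * ∫⁻ z, VV f s y z) +
      ∫⁻ y in Ioc a b, ENNReal.ofReal (1 / y) * Phi f s (2 * y) ≤ ∫⁻ y in Ioc a b, F y := by
    rw [← lintegral_add_right _ h2m]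
    refine setLIntegral_mono_ae' measurableSet_Ioc (Eventually.of_forall fun y hy => ?_)
    rw [← mul_add]
    exact mul_le_mul' le_rfl (energy_step hf hs hs0 (lt_trans ha hy.1))
  have h2 : ∫⁻ y in Ioc a b, ENNReal.ofReal (1 / y) * Phi f s (2 * y) =
      ∫⁻ y in Ioc (2 * a) (2 * b), F y := by
    have e1 : ∀ y ∈ Ioc a b, ENNReal.ofReal (1 / y) * Phi f s (2 * y) = 2 * F (2 * y) := by
      intro y hy
      have hy0 : 0 < y := lt_trans ha hy.1
      rw [hF]
      simp only
      rw [← mul_assoc]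
      congr 1
      rw [← ENNReal.ofReal_ofNat 2, ← ENNReal.ofReal_mul (by norm_num)]
      congr 1
      field_simp
    rw [setLIntegral_congr_fun measurableSet_Ioc e1, lintegral_const_mul' _ _ (by norm_num),
      cv_set hFm measurableSet_Ioc (T := Ioc (2 * a) (2 * b)) measurableSet_Ioc, ← mul_assoc,
      ENNReal.mul_inv_cancel (by norm_num) (by norm_num), one_mul]
    intro y
    simp only [mem_Ioc]
    constructor <;> rintro ⟨h1, h2⟩ <;> constructor <;> linarith
  have h3 : ∫⁻ y in Ioc (2 * a) b, F y ≤ ∫⁻ y in Ioc (2 * a) (2 * b), F y :=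
    lintegral_mono_set (Ioc_subset_Ioc le_rfl (by linarith))
  have h4 : ∫⁻ y in Ioc a b, F y = (∫⁻ y in Ioc a (2 * a), F y) + ∫⁻ y in Ioc (2 * a) b, F y := by
    rw [← lintegral_union measurableSet_Ioc (by
      rw [Set.disjoint_left]; rintro x ⟨_, h1⟩ ⟨h2, _⟩; linarith),
      Ioc_union_Ioc_eq_Ioc (by linarith) hab]
  have hbd : ∀ c d : ℝ, 0 < c → c ≤ d → ∫⁻ y in Ioc c d, F y ≤
      ENNReal.ofReal (1 / c) * E * ENNReal.ofReal (d - c) := by
    intro c d hc _
    calc _ ≤ ∫⁻ _ in Ioc c d, ENNReal.ofReal (1 / c) * E := by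
          refine setLIntegral_mono_ae' measurableSet_Ioc (Eventually.of_forall fun y hy => ?_)
          refine mul_le_mul' (ENNReal.ofReal_le_ofReal ?_) (hPhi y (lt_trans hc hy.1))
          exact one_div_le_one_div_of_le hc hy.1.le
      _ = _ := by rw [setLIntegral_const, Real.volume_Ioc]
  have h5 : ∫⁻ y in Ioc (2 * a) b, F y ≠ ∞ := by
    refine ne_top_of_le_ne_top ?_ (hbd (2 * a) b (by positivity) hab)
    exact ENNReal.mul_ne_top (ENNReal.mul_ne_top ENNReal.ofReal_ne_top hEf) ENNReal.ofReal_ne_top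
  have h6 : (∫⁻ y in Ioc a b, ENNReal.ofReal (1 / y) * ∫⁻ z, VV f s y z) +
      ∫⁻ y in Ioc (2 * a) b, F y ≤ (∫⁻ y in Ioc a (2 * a), F y) + ∫⁻ y in Ioc (2 * a) b, F y := by
    rw [← h4]
    refine le_trans ?_ h1
    rw [h2]
    exact add_le_add le_rfl h3
  have h7 := (ENNReal.add_le_add_iff_right h5).1 h6
  refine h7.trans ((hbd a (2 * a) ha (by linarith)).trans (le_of_eq ?_))
  rw [mul_right_comm, ← ENNReal.ofReal_mul (by positivity)]
  have : 1 / a * (2 * a - a) = 1 := by field_simp; ring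
  rw [this, ENNReal.ofReal_one, one_mul]

/-- **Energy inequality** -/
theorem energy (hf : Adm f) (hs : Adm s) (hs0 : ∀ x, 0 < s x) :
    ∫⁻ y in Ioi (0:ℝ), ENNReal.ofReal y * ∫⁻ z, TT f s y z ≤
      8 * ∫⁻ x, ENNReal.ofReal (f x ^ 2 / s x) := by
  set E := ∫⁻ x, ENNReal.ofReal (f x ^ 2 / s x) with hE
  rcases eq_or_ne E ∞ with htop | hEf
  · rw [htop, ENNReal.mul_top (by norm_num)]; exact le_top
  have hG : ∫⁻ y in Ioi (0:ℝ), ENNReal.ofReal (1 / y) * ∫⁻ z, VV f s y z ≤ E := by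
    have hun : Ioi (0:ℝ) = ⋃ n : ℕ, Ioc (1 / ((n:ℝ) + 1)) ((n:ℝ) + 2) := by
      ext y
      simp only [mem_Ioi, mem_iUnion, mem_Ioc]
      constructor
      · intro hy
        obtain ⟨n, hn⟩ := exists_nat_one_div_lt hy
        obtain ⟨m, hm⟩ := exists_nat_ge y
        refine ⟨max n m, ?_, ?_⟩
        · refine lt_of_le_of_lt ?_ hn
          refine one_div_le_one_div_of_le (by positivity) ?_
          have : (n:ℝ) ≤ ((max n m : ℕ) : ℝ) := by exact_mod_cast le_max_left n m
          linarith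
        · have : (m:ℝ) ≤ ((max n m : ℕ) : ℝ) := by exact_mod_cast le_max_right n m
          linarith
      · rintro ⟨n, h1, -⟩
        exact lt_trans (by positivity) h1
    have hdir : Directed (· ⊆ ·) (fun n : ℕ => Ioc (1 / ((n:ℝ) + 1)) ((n:ℝ) + 2)) := by
      refine Monotone.directed_le fun n m hnm => Ioc_subset_Ioc ?_ ?_
      · refine one_div_le_one_div_of_le (by positivity) ?_
        have : (n:ℝ) ≤ m := by exact_mod_cast hnm
        linarith
      · have : (n:ℝ) ≤ m := by exact_mod_cast hnm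
        linarith
    rw [hun, setLIntegral_iUnion_of_directed _ hdir]
    refine iSup_le fun n => tele hf hs hs0 hE.symm hEf (by positivity) ?_
    have h1 : 1 / ((n:ℝ) + 1) ≤ 1 := by
      rw [div_le_one (by positivity)]
      have : (0:ℝ) ≤ n := Nat.cast_nonneg n
      linarith
    have : (0:ℝ) ≤ n := Nat.cast_nonneg n
    linarith
  have hTm : Measurable (fun y => ENNReal.ofReal y * ∫⁻ z, TT f s y z) :=
    ENNReal.measurable_ofReal.mul (TT_meas2 hf.meas hs.meas).lintegral_prod_right'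
  have h1 := cv_set hTm (S := Ioi (0:ℝ)) (T := Ioi (0:ℝ)) measurableSet_Ioi measurableSet_Ioi
    (fun y => by simp)
  calc _ = 2 * ∫⁻ y in Ioi (0:ℝ), ENNReal.ofReal (2 * y) * ∫⁻ z, TT f s (2 * y) z := by
        rw [h1, ← mul_assoc, ENNReal.mul_inv_cancel (by norm_num) (by norm_num), one_mul]
    _ ≤ 2 * ∫⁻ y in Ioi (0:ℝ), 4 * (ENNReal.ofReal (1 / y) * ∫⁻ z, VV f s y z) := by
        refine mul_le_mul' le_rfl (setLIntegral_mono_ae' measurableSet_Ioi
          (Eventually.of_forall fun y hy => ?_))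
        have hy0 : (0:ℝ) < y := hy
        have h2 : ENNReal.ofReal (y ^ 2) * ∫⁻ z, TT f s (2 * y) z ≤ 2 * ∫⁻ z, VV f s y z := by
          rw [← lintegral_const_mul' _ _ ENNReal.ofReal_ne_top, ← lintegral_const_mul' _ _ (by norm_num)]
          exact lintegral_mono fun z => grad_two hf hs hs0 hy0 z
        have e1 : ENNReal.ofReal (2 * y) = 2 * (ENNReal.ofReal (1 / y) * ENNReal.ofReal (y ^ 2)) := by
          rw [← ENNReal.ofReal_ofNat 2, ← ENNReal.ofReal_mul (by positivity),
            ← ENNReal.ofReal_mul (by norm_num)]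
          congr 1
          field_simp
        rw [e1]
        calc _ = 2 * ENNReal.ofReal (1 / y) * (ENNReal.ofReal (y ^ 2) * ∫⁻ z, TT f s (2 * y) z) := by
              ring
          _ ≤ 2 * ENNReal.ofReal (1 / y) * (2 * ∫⁻ z, VV f s y z) := mul_le_mul' le_rfl h2
          _ = _ := by ring
    _ = 8 * ∫⁻ y in Ioi (0:ℝ), ENNReal.ofReal (1 / y) * ∫⁻ z, VV f s y z := by
        rw [lintegral_const_mul' _ _ (by norm_num), ← mul_assoc]; norm_num
    _ ≤ 8 * E := mul_le_mul' le_rfl hG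

end Pool.Agent.Zk22.GL
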