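import Pool.Agent.Zk22.GA
import Pool.Agent.Zk22.GK

/-! Carleson property of the logarithmic gradient. -/

namespace Pool.Agent.Zk22.GL

open MeasureTheory Set Metric Filter
open scoped ENNReal NNReal Topology Real

noncomputable def WW (w : ℝ → ℝ≥0∞) (z y : ℝ) : ℝ≥0∞ := ∫⁻ x in ball z y, w x

noncomputable def gg (f : ℝ → ℝ) (z y : ℝ) : ℝ := PIx f z y ^ 2 + PIy f z y ^ 2

noncomputable def nn (s : ℝ → ℝ) (w : ℝ → ℝ≥0∞) (z y : ℝ) : ℝ≥0∞ :=
  ENNReal.ofReal (gg s z y / PI s z y ^ 2) * WW w z y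

lemma WW_meas {w : ℝ → ℝ≥0∞} (hw : Measurable w) : Measurable (fun q : ℝ × ℝ => WW w q.1 q.2) := by
  have e1 : (fun q : ℝ × ℝ => WW w q.1 q.2) =
      fun q : ℝ × ℝ => ∫⁻ x, {x | |x - q.1| < q.2}.indicator w x := by
    ext q
    unfold WW
    have : ball q.1 q.2 = {x | |x - q.1| < q.2} := by
      ext x; rw [mem_ball, Real.dist_eq]; rfl
    rw [← this, lintegral_indicator measurableSet_ball]
  rw [e1]
  have h1 : MeasurableSet {r : (ℝ × ℝ) × ℝ | |r.2 - r.1.1| < r.1.2} :=
    measurableSet_lt (by fun_prop) (by fun_prop)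
  have h2 : Measurable (fun r : (ℝ × ℝ) × ℝ => {r : (ℝ × ℝ) × ℝ | |r.2 - r.1.1| < r.1.2}.indicator
      (fun r => w r.2) r) := (hw.comp measurable_snd).indicator h1
  have h3 : (fun q : ℝ × ℝ => ∫⁻ x, {x | |x - q.1| < q.2}.indicator w x) =
      fun q : ℝ × ℝ => ∫⁻ x, (fun r : (ℝ × ℝ) × ℝ =>
        {r : (ℝ × ℝ) × ℝ | |r.2 - r.1.1| < r.1.2}.indicator (fun r => w r.2) r) (q, x) := by
    ext q
    refine lintegral_congr fun x => ?_
    simp only [indicator, mem_ofPred_eq]
  rw [h3]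
  exact h2.lintegral_prod_right'

lemma gg_meas {f : ℝ → ℝ} (hf : Measurable f) : Measurable (fun q : ℝ × ℝ => gg f q.1 q.2) :=
  ((PIx_meas hf).pow_const 2).add ((PIy_meas hf).pow_const 2)

lemma nn_meas {s : ℝ → ℝ} (hs : Measurable s) {w : ℝ → ℝ≥0∞} (hw : Measurable w) :
    Measurable (fun q : ℝ × ℝ => nn s w q.1 q.2) :=
  (ENNReal.measurable_ofReal.comp ((gg_meas hs).div ((PI_meas hs).pow_const 2))).mul (WW_meas hw)

variable {f s : ℝ → ℝ} {w : ℝ → ℝ≥0∞} {Cw : ℝ≥0∞}

lemma TT_mul (hs : Adm s) (hs0 : ∀ x, 0 < s x)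
    (hw : ∀ z y, 0 < y → ENNReal.ofReal (PI s z y) * WW w z y ≤ Cw * ENNReal.ofReal y)
    {z y : ℝ} (hy : 0 < y) :
    ENNReal.ofReal ((PIx f z y - PI f z y / PI s z y * PIx s z y) ^ 2 +
      (PIy f z y - PI f z y / PI s z y * PIy s z y) ^ 2) * WW w z y ≤
      Cw * (ENNReal.ofReal y * TT f s y z) := by
  have hW := PI_pos hs hs0 hy z
  set N := (PIx f z y - PI f z y / PI s z y * PIx s z y) ^ 2 +
      (PIy f z y - PI f z y / PI s z y * PIy s z y) ^ 2 with hN
  have e1 : ENNReal.ofReal N = TT f s y z * ENNReal.ofReal (PI s z y) := by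
    unfold TT
    rw [← ENNReal.ofReal_mul (by positivity)]
    congr 1
    rw [div_mul_cancel₀ _ hW.ne']
  rw [e1, mul_assoc]
  calc _ ≤ TT f s y z * (Cw * ENNReal.ofReal y) := mul_le_mul' le_rfl (hw z y hy)
    _ = _ := by ring

lemma pt1 (hs : Adm s) (hs0 : ∀ x, 0 < s x)
    (hw : ∀ z y, 0 < y → ENNReal.ofReal (PI s z y) * WW w z y ≤ Cw * ENNReal.ofReal y)
    {z y : ℝ} (hy : 0 < y) :
    ENNReal.ofReal (gg f z y) * WW w z y ≤
      2 * (Cw * (ENNReal.ofReal y * TT f s y z)) + 2 * (ENNReal.ofReal (PI f z y ^ 2) * nn s w z y) := by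
  have hW := PI_pos hs hs0 hy z
  have h1 := TT_mul (f := f) hs hs0 hw (z := z) hy
  set r := PI f z y / PI s z y with hr
  have e1 : gg f z y ≤ 2 * ((PIx f z y - r * PIx s z y) ^ 2 + (PIy f z y - r * PIy s z y) ^ 2) +
      2 * (PI f z y ^ 2 * (gg s z y / PI s z y ^ 2)) := by
    have e2 : PI f z y ^ 2 * (gg s z y / PI s z y ^ 2) = (r * PIx s z y) ^ 2 + (r * PIy s z y) ^ 2 := by
      rw [hr]; unfold gg; field_simp
    rw [e2]
    unfold gg
    nlinarith [sq_nonneg (PIx f z y - 2 * (r * PIx s z y)), sq_nonneg (PIy f z y - 2 * (r * PIy s z y))]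
  calc _ ≤ ENNReal.ofReal (2 * ((PIx f z y - r * PIx s z y) ^ 2 + (PIy f z y - r * PIy s z y) ^ 2) +
      2 * (PI f z y ^ 2 * (gg s z y / PI s z y ^ 2))) * WW w z y :=
        mul_le_mul' (ENNReal.ofReal_le_ofReal e1) le_rfl
    _ = 2 * (ENNReal.ofReal ((PIx f z y - r * PIx s z y) ^ 2 + (PIy f z y - r * PIy s z y) ^ 2) *
        WW w z y) + 2 * (ENNReal.ofReal (PI f z y ^ 2) * nn s w z y) := by
        have hgg : 0 ≤ gg s z y := by unfold gg; positivity
        rw [ENNReal.ofReal_add (by positivity) (by positivity), ENNReal.ofReal_mul (by norm_num),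
          ENNReal.ofReal_mul (p := 2) (by norm_num), ENNReal.ofReal_mul (sq_nonneg (PI f z y))]
        unfold nn
        simp only [ENNReal.ofReal_ofNat]
        ring
    _ ≤ _ := add_le_add (mul_le_mul' le_rfl h1) le_rfl

/-- the test function of an interval -/
noncomputable def tf (c ρ : ℝ) : ℝ → ℝ := (ball c ρ).indicator 1

lemma tf_adm (c ρ : ℝ) : Adm (tf c ρ) where
  meas := measurable_one.indicator measurableSet_ball
  int := by
    refine integrable_inv_one_add_sq.mono' ?_ (Eventually.of_forall fun x => ?_)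
    · refine AEStronglyMeasurable.mul ?_ (measurable_one.indicator measurableSet_ball).aestronglyMeasurable
      exact integrable_inv_one_add_sq.aestronglyMeasurable
    · rw [norm_mul, Real.norm_eq_abs, abs_of_pos (show 0 < (1 + x ^ 2)⁻¹ by positivity)]
      have : ‖tf c ρ x‖ ≤ 1 := by
        unfold tf
        by_cases hx : x ∈ ball c ρ
        · rw [indicator_of_mem hx]; simp
        · rw [indicator_of_notMem hx]; simp
      exact mul_le_of_le_one_right (by positivity) this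

lemma tf_int (c : ℝ) {ρ : ℝ} (hρ : 0 < ρ) (k : ℝ → ℝ) :
    ∫ x, k x * tf c ρ x = ∫ x in (c - ρ)..(c + ρ), k x := by
  have e1 : ∀ x, k x * tf c ρ x = (ball c ρ).indicator k x := by
    intro x
    unfold tf
    by_cases hx : x ∈ ball c ρ
    · rw [indicator_of_mem hx, indicator_of_mem hx]; simp
    · rw [indicator_of_notMem hx, indicator_of_notMem hx]; simp
  simp_rw [e1]
  rw [integral_indicator measurableSet_ball, intervalIntegral.integral_of_le (by linarith),
    Real.ball_eq_Ioo, integral_Ioc_eq_integral_Ioo]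

lemma tf_lower {c ρ z y : ℝ} (hy : 0 < y) (h : |z - c| + y ≤ ρ) : 1 / 4 ≤ PI (tf c (3 * ρ)) z y := by
  have hρ : 0 < ρ := by linarith [abs_nonneg (z - c)]
  have h0 : PI (tf z y) z y ≤ PI (tf c (3 * ρ)) z y := by
    unfold PI
    refine integral_mono ((tf_adm z y).int_P hy z) ((tf_adm c (3 * ρ)).int_P hy z) (fun x => ?_)
    refine mul_le_mul_of_nonneg_left ?_ (P_pos hy _).le
    unfold tf
    refine indicator_le_indicator_of_subset ?_ (fun _ => by norm_num) x
    intro x hx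
    rw [mem_ball, Real.dist_eq] at *
    have := abs_sub_le x z c
    linarith
  refine le_trans ?_ h0
  unfold PI
  rw [tf_int z hy]
  have h1 : ∫ x in (z - y)..(z + y), (1 / (2 * π * y)) ≤ ∫ x in (z - y)..(z + y), P y (z - x) := by
    have hc : Continuous (fun x => P y (z - x)) := (P_cont hy).comp (by fun_prop)
    refine intervalIntegral.integral_mono_on (by linarith) (by simp) (hc.intervalIntegrable _ _) ?_
    intro x hx
    unfold P
    have hx2 : (z - x) ^ 2 ≤ y ^ 2 := by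
      apply sq_le_sq'
      · linarith [hx.2]
      · linarith [hx.1]
    rw [div_le_div_iff₀ (by positivity) (by positivity)]
    nlinarith [Real.pi_pos]
  refine le_trans ?_ h1
  rw [intervalIntegral.integral_const, smul_eq_mul]
  have hπ := Real.pi_lt_four
  have hπ0 := Real.pi_pos
  have e2 : (z + y - (z - y)) * (1 / (2 * π * y)) = 1 / π := by field_simp; ring
  rw [e2]
  exact one_div_le_one_div_of_le hπ0 hπ.le

end Pool.Agent.Zk22.GL
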