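import Pool.Agent.Zk22.GL

/-! Carleson measure bound and Carleson embedding. -/

namespace Pool.Agent.Zk22.GL

open MeasureTheory Set Metric Filter
open scoped ENNReal NNReal Topology Real

lemma tf_grad {c ρ z y : ℝ} (hy : 0 < y) (h : |z - c| + y ≤ ρ) :
    gg (tf c (3 * ρ)) z y ≤ 1 / ρ ^ 2 := by
  have habs := abs_nonneg (z - c)
  have hρ : 0 < ρ := by linarith
  have hzc := abs_le.1 (show |z - c| ≤ ρ - y by linarith)
  set a := c - 3 * ρ with ha
  set b := c + 3 * ρ with hb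
  have h1 : 2 * ρ ≤ z - a := by rw [ha]; linarith [hzc.1]
  have h2 : 2 * ρ ≤ b - z := by rw [hb]; linarith [hzc.2]
  have hπ := Real.pi_pos
  have hπ3 := Real.pi_gt_three
  -- the z derivative
  have ex : PIx (tf c (3 * ρ)) z y = P y (z - a) - P y (z - b) := by
    unfold PIx
    rw [tf_int c (by positivity)]
    have hd : ∀ x ∈ uIcc a b, HasDerivAt (fun x => -P y (z - x)) (Px y (z - x)) x := by
      intro x _
      have h0 : HasDerivAt (fun x => P y (z - x)) (Px y (z - x) * (-1)) x :=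
        (hasDerivAt_P_x hy (z - x)).comp x ((hasDerivAt_id x).const_sub z)
      exact h0.neg.congr_deriv (by ring)
    rw [intervalIntegral.integral_eq_sub_of_hasDerivAt hd]
    · ring
    · have hc : Continuous (fun x => Px y (z - x)) := (Px_cont hy).comp (by fun_prop)
      exact hc.intervalIntegrable _ _
  have ey : PIy (tf c (3 * ρ)) z y = (z - b) / (π * ((z - b) ^ 2 + y ^ 2)) -
      (z - a) / (π * ((z - a) ^ 2 + y ^ 2)) := by
    unfold PIy
    rw [tf_int c (by positivity)]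
    have hd : ∀ x ∈ uIcc a b, HasDerivAt (fun x => (z - x) / (π * ((z - x) ^ 2 + y ^ 2)))
        (Py y (z - x)) x := by
      intro x _
      have h4 : π * ((z - x) ^ 2 + y ^ 2) ≠ 0 := by positivity
      have d1 : HasDerivAt (fun x : ℝ => z - x) (-1) x := (hasDerivAt_id x).const_sub z
      have d2 : HasDerivAt (fun x : ℝ => π * ((z - x) ^ 2 + y ^ 2)) (π * (2 * (z - x) * (-1))) x := by
        refine (((d1.pow 2).add_const (y ^ 2)).const_mul π).congr_deriv ?_
        norm_num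
      refine (d1.div d2 h4).congr_deriv ?_
      unfold Py
      have h5 : (z - x) ^ 2 + y ^ 2 ≠ 0 := by positivity
      rw [div_eq_div_iff (by positivity) (by positivity)]
      ring
    rw [intervalIntegral.integral_eq_sub_of_hasDerivAt hd]
    have hc : Continuous (fun x => Py y (z - x)) := (Py_cont hy).comp (by fun_prop)
    exact hc.intervalIntegrable _ _
  have b1 : ∀ t : ℝ, 2 * ρ ≤ |t| → P y t ≤ 1 / (2 * π * ρ) := by
    intro t ht
    unfold P
    rw [div_le_div_iff₀ (by positivity) (by positivity)]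
    have ht2 : (2 * ρ) ^ 2 ≤ t ^ 2 := by
      rw [← sq_abs t]; exact pow_le_pow_left₀ (by positivity) ht 2
    have h7 : 2 * ρ * y ≤ t ^ 2 + y ^ 2 := by nlinarith [sq_nonneg (ρ - y), sq_nonneg ρ]
    calc y * (2 * π * ρ) = π * (2 * ρ * y) := by ring
      _ ≤ π * (t ^ 2 + y ^ 2) := mul_le_mul_of_nonneg_left h7 hπ.le
      _ = _ := by ring
  have b2 : ∀ t : ℝ, 2 * ρ ≤ |t| → |t / (π * (t ^ 2 + y ^ 2))| ≤ 1 / (2 * π * ρ) := by
    intro t ht
    rw [abs_div, abs_of_pos (show 0 < π * (t ^ 2 + y ^ 2) by positivity),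
      div_le_div_iff₀ (by positivity) (by positivity)]
    have ht2 : |t| * (2 * ρ) ≤ t ^ 2 := by
      rw [← sq_abs t, sq]; exact mul_le_mul_of_nonneg_left ht (abs_nonneg t)
    calc |t| * (2 * π * ρ) = π * (|t| * (2 * ρ)) := by ring
      _ ≤ π * (t ^ 2 + y ^ 2) := mul_le_mul_of_nonneg_left (by linarith [sq_nonneg y]) hπ.le
      _ = _ := by ring
  have ta : 2 * ρ ≤ |z - a| := h1.trans (le_abs_self _)
  have tb : 2 * ρ ≤ |z - b| := by rw [abs_sub_comm]; exact h2.trans (le_abs_self _)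
  have c1 := b1 _ ta
  have c2 := b1 _ tb
  have c3 := abs_le.1 (b2 _ ta)
  have c4 := abs_le.1 (b2 _ tb)
  have c5 := P_pos hy (z - a)
  have c6 := P_pos hy (z - b)
  unfold gg
  rw [ex, ey]
  set m := 1 / (2 * π * ρ) with hm
  have hm0 : 0 < m := by positivity
  have s1 : (P y (z - a) - P y (z - b)) ^ 2 ≤ m ^ 2 := by
    apply sq_le_sq'
    · linarith
    · linarith
  have s2 : ((z - b) / (π * ((z - b) ^ 2 + y ^ 2)) - (z - a) / (π * ((z - a) ^ 2 + y ^ 2))) ^ 2 ≤
      (2 * m) ^ 2 := by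
    apply sq_le_sq'
    · linarith [c3.1, c3.2, c4.1, c4.2]
    · linarith [c3.1, c3.2, c4.1, c4.2]
  have s3 : 5 * m ^ 2 ≤ 1 / ρ ^ 2 := by
    rw [hm]
    have : (1 / (2 * π * ρ)) ^ 2 = (1 / (4 * π ^ 2)) * (1 / ρ ^ 2) := by field_simp; ring
    rw [this, ← mul_assoc]
    have h5 : 5 * (1 / (4 * π ^ 2)) ≤ 1 := by
      rw [mul_one_div, div_le_one (by positivity)]
      have : 9 ≤ π ^ 2 := by nlinarith
      linarith
    exact mul_le_of_le_one_left (by positivity) h5
  linarith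

variable {f s : ℝ → ℝ} {w : ℝ → ℝ≥0∞} {Cw D : ℝ≥0∞}

lemma pt2 (hs : Adm s) (hs0 : ∀ x, 0 < s x)
    (hw : ∀ z y, 0 < y → ENNReal.ofReal (PI s z y) * WW w z y ≤ Cw * ENNReal.ofReal y)
    {z y : ℝ} (hy : 0 < y) :
    ENNReal.ofReal (PI f z y ^ 2) * nn s w z y ≤
      2 * (Cw * (ENNReal.ofReal y * TT f s y z)) + 2 * (ENNReal.ofReal (gg f z y) * WW w z y) := by
  have hW := PI_pos hs hs0 hy z
  have h1 := TT_mul (f := f) hs hs0 hw (z := z) hy
  set r := PI f z y / PI s z y with hr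
  have e1 : PI f z y ^ 2 * (gg s z y / PI s z y ^ 2) ≤
      2 * ((PIx f z y - r * PIx s z y) ^ 2 + (PIy f z y - r * PIy s z y) ^ 2) + 2 * gg f z y := by
    have e2 : PI f z y ^ 2 * (gg s z y / PI s z y ^ 2) = (r * PIx s z y) ^ 2 + (r * PIy s z y) ^ 2 := by
      rw [hr]; unfold gg; field_simp
    rw [e2]
    unfold gg
    nlinarith [sq_nonneg (2 * PIx f z y - (r * PIx s z y)), sq_nonneg (2 * PIy f z y - (r * PIy s z y))]
  have hgg : 0 ≤ gg f z y := by unfold gg; positivity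
  calc _ = ENNReal.ofReal (PI f z y ^ 2 * (gg s z y / PI s z y ^ 2)) * WW w z y := by
        rw [ENNReal.ofReal_mul (sq_nonneg (PI f z y))]; unfold nn; ring
    _ ≤ ENNReal.ofReal (2 * ((PIx f z y - r * PIx s z y) ^ 2 + (PIy f z y - r * PIy s z y) ^ 2) +
      2 * gg f z y) * WW w z y :=
        mul_le_mul' (ENNReal.ofReal_le_ofReal e1) le_rfl
    _ = 2 * (ENNReal.ofReal ((PIx f z y - r * PIx s z y) ^ 2 + (PIy f z y - r * PIy s z y) ^ 2) *
        WW w z y) + 2 * (ENNReal.ofReal (gg f z y) * WW w z y) := by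
        rw [ENNReal.ofReal_add (by positivity) (by positivity), ENNReal.ofReal_mul (by norm_num),
          ENNReal.ofReal_mul (p := 2) (by norm_num)]
        simp only [ENNReal.ofReal_ofNat]
        ring
    _ ≤ _ := add_le_add (mul_le_mul' le_rfl h1) le_rfl

/-- measure on the half plane -/
noncomputable abbrev HM : Measure (ℝ × ℝ) := (volume : Measure ℝ).prod (volume.restrict (Ioi 0))

lemma TT_meas3 (hf : Adm f) (hs : Adm s) :
    Measurable (fun q : ℝ × ℝ => ENNReal.ofReal q.2 * TT f s q.2 q.1) := by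
  have h1 : Measurable (fun q : ℝ × ℝ => ENNReal.ofReal q.2) := by fun_prop
  have h2 : Measurable (fun q : ℝ × ℝ => TT f s q.2 q.1) := by
    have a1 := (PI_meas hf.meas)
    have a2 := (PI_meas hs.meas)
    have a3 := (PIx_meas hf.meas)
    have a4 := (PIx_meas hs.meas)
    have a5 := (PIy_meas hf.meas)
    have a6 := (PIy_meas hs.meas)
    exact ENNReal.measurable_ofReal.comp ((((a3.sub ((a1.div a2).mul a4)).pow_const 2).add
      ((a5.sub ((a1.div a2).mul a6)).pow_const 2)).div a2)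
  exact h1.mul h2

lemma energyM (hf : Adm f) (hs : Adm s) (hs0 : ∀ x, 0 < s x) :
    ∫⁻ q, ENNReal.ofReal q.2 * TT f s q.2 q.1 ∂HM ≤ 8 * ∫⁻ x, ENNReal.ofReal (f x ^ 2 / s x) := by
  have hm := TT_meas3 hf hs
  rw [lintegral_prod_symm _ hm.aemeasurable]
  refine le_trans (le_of_eq ?_) (energy hf hs hs0)
  refine lintegral_congr fun y => ?_
  rw [lintegral_const_mul' _ _ ENNReal.ofReal_ne_top]

/-- tents -/
def tent (c ρ : ℝ) : Set (ℝ × ℝ) := {q | 0 < q.2 ∧ |q.1 - c| + q.2 ≤ ρ}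

lemma tent_meas (c ρ : ℝ) : MeasurableSet (tent c ρ) := by
  have h1 : MeasurableSet {q : ℝ × ℝ | 0 < q.2} := measurableSet_lt measurable_const measurable_snd
  have h2 : MeasurableSet {q : ℝ × ℝ | |q.1 - c| + q.2 ≤ ρ} :=
    measurableSet_le (by fun_prop) measurable_const
  exact h1.inter h2

lemma tent_vol (c ρ : ℝ) : HM (tent c ρ) ≤ ENNReal.ofReal (2 * ρ) * ENNReal.ofReal ρ := by
  have hsub : tent c ρ ⊆ ball c ρ ×ˢ Ioc 0 ρ := by
    rintro ⟨z, y⟩ ⟨h1, h2⟩
    simp only at h1 h2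
    refine ⟨?_, h1, ?_⟩
    · rw [mem_ball, Real.dist_eq]; linarith
    · linarith [abs_nonneg (z - c)]
  refine (measure_mono hsub).trans ?_
  rw [Measure.prod_prod, Real.volume_ball]
  refine mul_le_mul' le_rfl ((Measure.restrict_apply_le _ _).trans ?_)
  rw [Real.volume_Ioc, sub_zero]

/-- Carleson -/
lemma carleson (hs : Adm s) (hs0 : ∀ x, 0 < s x) (hwm : Measurable w)
    (hws : ∀ x, w x = ENNReal.ofReal (1 / s x))
    (hw : ∀ z y, 0 < y → ENNReal.ofReal (PI s z y) * WW w z y ≤ Cw * ENNReal.ofReal y)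
    (hD : ∀ c r, 0 < r → WW w c (5 * r) ≤ D * WW w c r) {c ρ : ℝ} (hρ : 0 < ρ) :
    ∫⁻ q in tent c ρ, nn s w q.1 q.2 ∂HM ≤ (256 * Cw * D + 64) * WW w c ρ := by
  have hf := tf_adm c (3 * ρ)
  set f := tf c (3 * ρ) with hfdef
  have h1 : ∀ q ∈ tent c ρ, nn s w q.1 q.2 ≤ 32 * Cw * (ENNReal.ofReal q.2 * TT f s q.2 q.1) +
      32 * (ENNReal.ofReal (1 / ρ ^ 2) * WW w c ρ) := by
    rintro ⟨z, y⟩ ⟨hy, hq⟩
    simp only at hy hq ⊢
    have h2 := pt2 (f := f) hs hs0 hw (z := z) hy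
    have h3 := tf_lower hy hq
    have h4 := tf_grad hy hq
    have h5 : 1 ≤ 16 * ENNReal.ofReal (PI f z y ^ 2) := by
      rw [← ENNReal.ofReal_ofNat 16, ← ENNReal.ofReal_mul (by norm_num), ENNReal.one_le_ofReal]
      have : (1 / 4 : ℝ) ^ 2 ≤ PI f z y ^ 2 := pow_le_pow_left₀ (by norm_num) h3 2
      linarith
    have h6 : WW w z y ≤ WW w c ρ := by
      refine lintegral_mono_set fun x hx => ?_
      rw [mem_ball, Real.dist_eq] at *
      have := abs_sub_le x z c
      linarith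
    calc nn s w z y ≤ 16 * (ENNReal.ofReal (PI f z y ^ 2) * nn s w z y) := by
          rw [← mul_assoc]; exact le_mul_of_one_le_left zero_le h5
      _ ≤ 16 * (2 * (Cw * (ENNReal.ofReal y * TT f s y z)) +
          2 * (ENNReal.ofReal (gg f z y) * WW w z y)) := mul_le_mul' le_rfl h2
      _ ≤ 16 * (2 * (Cw * (ENNReal.ofReal y * TT f s y z)) +
          2 * (ENNReal.ofReal (1 / ρ ^ 2) * WW w c ρ)) := by
          refine mul_le_mul' le_rfl (add_le_add le_rfl (mul_le_mul' le_rfl (mul_le_mul' ?_ h6)))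
          exact ENNReal.ofReal_le_ofReal h4
      _ = _ := by ring
  have hTm := TT_meas3 hf hs
  have hE : ∫⁻ x, ENNReal.ofReal (f x ^ 2 / s x) ≤ D * WW w c ρ := by
    have e1 : ∀ x, ENNReal.ofReal (f x ^ 2 / s x) = (ball c (3 * ρ)).indicator w x := by
      intro x
      rw [hfdef]
      unfold tf
      by_cases hx : x ∈ ball c (3 * ρ)
      · rw [indicator_of_mem hx, indicator_of_mem hx, hws]; simp
      · rw [indicator_of_notMem hx, indicator_of_notMem hx]; simp
    simp_rw [e1]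
    rw [lintegral_indicator measurableSet_ball]
    refine (lintegral_mono_set (ball_subset_ball (show 3 * ρ ≤ 5 * ρ by linarith))).trans ?_
    exact hD c ρ hρ
  calc _ ≤ ∫⁻ q in tent c ρ, (32 * Cw * (ENNReal.ofReal q.2 * TT f s q.2 q.1) +
      32 * (ENNReal.ofReal (1 / ρ ^ 2) * WW w c ρ)) ∂HM :=
        setLIntegral_mono_ae' (tent_meas c ρ) (Eventually.of_forall h1)
    _ = 32 * Cw * (∫⁻ q in tent c ρ, ENNReal.ofReal q.2 * TT f s q.2 q.1 ∂HM) +
        32 * (ENNReal.ofReal (1 / ρ ^ 2) * WW w c ρ) * HM (tent c ρ) := by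
        rw [lintegral_add_right _ measurable_const, lintegral_const_mul _ hTm, setLIntegral_const]
    _ ≤ 32 * Cw * (8 * (D * WW w c ρ)) +
        32 * (ENNReal.ofReal (1 / ρ ^ 2) * WW w c ρ) * (ENNReal.ofReal (2 * ρ) * ENNReal.ofReal ρ) := by
        refine add_le_add (mul_le_mul' le_rfl ?_) (mul_le_mul' le_rfl (tent_vol c ρ))
        exact (setLIntegral_le_lintegral _ _).trans ((energyM hf hs hs0).trans (mul_le_mul' le_rfl hE))
    _ = 256 * Cw * D * WW w c ρ + 32 * WW w c ρ * (ENNReal.ofReal (1 / ρ ^ 2) *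
        (ENNReal.ofReal (2 * ρ) * ENNReal.ofReal ρ)) := by ring
    _ = _ := by
        have e2 : ENNReal.ofReal (1 / ρ ^ 2) * (ENNReal.ofReal (2 * ρ) * ENNReal.ofReal ρ) = 2 := by
          rw [← ENNReal.ofReal_mul (by positivity), ← ENNReal.ofReal_mul (by positivity)]
          have : 1 / ρ ^ 2 * (2 * ρ * ρ) = 2 := by field_simp
          rw [this]; norm_num
        rw [e2]; ring

end Pool.Agent.Zk22.GL
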