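import Pool.Agent.Zk22.GM

/-! Carleson embedding and the weighted area integral estimate. -/

namespace Pool.Agent.Zk22.GL

open MeasureTheory Set Metric Filter
open scoped ENNReal NNReal Topology Real

lemma lcint {α : Type*} [MeasurableSpace α] {μ : Measure α} [SFinite μ] {g : α → ℝ≥0∞}
    (hg : Measurable g) {r : ℝ} (hr : 0 < r) :
    ∫⁻ x, g x ^ r ∂μ =
      ∫⁻ t in Ioi (0:ℝ), ENNReal.ofReal (r * t ^ (r - 1)) * μ {x | ENNReal.ofReal t < g x} := by
  have hmeas : Measurable (fun q : α × ℝ => {t : ℝ | ENNReal.ofReal t < g q.1}.indicator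
      (fun t => ENNReal.ofReal (r * t ^ (r - 1))) q.2) := by
    have h2 : MeasurableSet {q : α × ℝ | ENNReal.ofReal q.2 < g q.1} :=
      measurableSet_lt (ENNReal.measurable_ofReal.comp measurable_snd) (hg.comp measurable_fst)
    have h3 : Measurable (fun q : α × ℝ => ENNReal.ofReal (r * q.2 ^ (r - 1))) := by fun_prop
    exact h3.indicator h2
  simp_rw [fun x => lc hr (g x)]
  rw [lintegral_lintegral_swap hmeas.aemeasurable]
  refine lintegral_congr fun t => ?_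
  rw [← lintegral_indicator_const (measurableSet_lt measurable_const hg)]
  refine lintegral_congr fun x => ?_
  simp only [indicator, mem_ofPred_eq]

lemma HM_pos : ∀ᵐ q ∂HM, 0 < q.2 := by
  rw [ae_iff]
  have : {q : ℝ × ℝ | ¬ 0 < q.2} = univ ×ˢ Iic 0 := by
    ext q; simp
  rw [this, Measure.prod_prod, Measure.restrict_apply measurableSet_Iic]
  have : Iic (0:ℝ) ∩ Ioi 0 = ∅ := by ext x; simp
  rw [this]; simp

variable {f s : ℝ → ℝ} {w R : ℝ → ℝ≥0∞} {Cw D C3 Cu : ℝ≥0∞}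

lemma level {n : ℝ × ℝ → ℝ≥0∞} {g : ℝ × ℝ → ℝ≥0∞}
    (hcar : ∀ c ρ, 0 < ρ → (HM.withDensity n) (tent c ρ) ≤ C3 * WW w c ρ)
    (hD : ∀ c r, 0 < r → WW w c (5 * r) ≤ D * WW w c r)
    (hg : ∀ q : ℝ × ℝ, 0 < q.2 → ∀ x ∈ ball q.1 q.2, g q ≤ Cu * R x) (t : ℝ≥0∞) :
    (HM.withDensity n) {q | 0 < q.2 ∧ t < g q} ≤
      C3 * D * (volume.withDensity w) {x | t < Cu * R x} := by
  let E : ℕ → Set (ℝ × ℝ) := fun n => {q | 0 < q.2 ∧ q.2 ≤ n ∧ t < g q}
  have hE : {q : ℝ × ℝ | 0 < q.2 ∧ t < g q} = ⋃ n, E n := by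
    ext q
    simp only [mem_iUnion]
    constructor
    · rintro ⟨h1, h2⟩
      obtain ⟨n, hn⟩ := exists_nat_ge q.2
      exact ⟨n, h1, hn, h2⟩
    · rintro ⟨n, h1, h2, h3⟩
      exact ⟨h1, h3⟩
  have hmono : Monotone E := by
    intro a b hab q hq
    exact ⟨hq.1, hq.2.1.trans (by exact_mod_cast hab), hq.2.2⟩
  rw [hE, hmono.measure_iUnion]
  refine iSup_le fun N => ?_
  obtain ⟨u, huT, hu, hdis, hcov⟩ := cover (fun q : ℝ × ℝ => q.1) (fun q => q.2) (E N) N
    (fun q hq => ⟨hq.1, hq.2.1⟩)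
  have hsub : E N ⊆ ⋃ q ∈ u, tent q.1 (5 * q.2) := by
    intro q hq
    obtain ⟨j, hj, hjs⟩ := hcov q hq
    refine mem_biUnion hj ⟨hq.1, ?_⟩
    rw [Real.ball_eq_Ioo, Real.ball_eq_Ioo, Ioo_subset_Ioo_iff (by linarith [hq.1])] at hjs
    have : |q.1 - j.1| ≤ 5 * j.2 - q.2 := by
      rw [abs_le]; constructor <;> linarith [hjs.1, hjs.2]
    linarith
  have hball : (⋃ q ∈ u, ball q.1 q.2) ⊆ {x | t < Cu * R x} := by
    intro x hx
    simp only [mem_iUnion, exists_prop] at hx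
    obtain ⟨q, hq, hxq⟩ := hx
    exact lt_of_lt_of_le (huT hq).2.2 (hg q (huT hq).1 x hxq)
  calc (HM.withDensity n) (E N) ≤ ∑' q : u, (HM.withDensity n) (tent q.1.1 (5 * q.1.2)) :=
        (measure_mono hsub).trans (measure_biUnion_le _ hu _)
    _ ≤ ∑' q : u, C3 * D * (volume.withDensity w) (ball q.1.1 q.1.2) := by
        refine ENNReal.tsum_le_tsum fun q => ?_
        have hq := (huT q.2).1
        rw [withDensity_apply _ measurableSet_ball]
        calc _ ≤ C3 * WW w q.1.1 (5 * q.1.2) := hcar _ _ (by positivity)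
          _ ≤ C3 * (D * WW w q.1.1 q.1.2) := mul_le_mul' le_rfl (hD _ _ hq)
          _ = _ := by unfold WW; ring
    _ = C3 * D * (volume.withDensity w) (⋃ q ∈ u, ball q.1 q.2) := by
        rw [ENNReal.tsum_mul_left, measure_biUnion hu hdis (fun q _ => measurableSet_ball)]
    _ ≤ _ := mul_le_mul' le_rfl (measure_mono hball)

/-- Carleson embedding -/
lemma embed (hf : Measurable f) (hs : Measurable s) (hw : Measurable w) (hR : Measurable R)
    (hcar : ∀ c ρ, 0 < ρ → ∫⁻ q in tent c ρ, nn s w q.1 q.2 ∂HM ≤ C3 * WW w c ρ)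
    (hD : ∀ c r, 0 < r → WW w c (5 * r) ≤ D * WW w c r)
    (hu : ∀ z y, 0 < y → ∀ x ∈ ball z y, ENNReal.ofReal |PI f z y| ≤ Cu * R x) :
    ∫⁻ q, ENNReal.ofReal (PI f q.1 q.2 ^ 2) * nn s w q.1 q.2 ∂HM ≤
      C3 * D * (Cu ^ 2 * ∫⁻ x, w x * R x ^ 2) := by
  set n : ℝ × ℝ → ℝ≥0∞ := fun q => nn s w q.1 q.2 with hn
  have hnm : Measurable n := nn_meas hs hw
  set g : ℝ × ℝ → ℝ≥0∞ := fun q => ENNReal.ofReal |PI f q.1 q.2| with hg
  have hgm : Measurable g := ENNReal.measurable_ofReal.comp (PI_meas hf).abs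
  have hcar' : ∀ c ρ, 0 < ρ → (HM.withDensity n) (tent c ρ) ≤ C3 * WW w c ρ := by
    intro c ρ hρ
    rw [withDensity_apply _ (tent_meas c ρ)]
    exact hcar c ρ hρ
  have hpos : ∀ᵐ q ∂(HM.withDensity n), 0 < q.2 :=
    (withDensity_absolutelyContinuous _ _).ae_le HM_pos
  have e1 : ∫⁻ q, ENNReal.ofReal (PI f q.1 q.2 ^ 2) * nn s w q.1 q.2 ∂HM =
      ∫⁻ q, g q ^ (2:ℝ) ∂(HM.withDensity n) := by
    rw [lintegral_withDensity_eq_lintegral_mul _ hnm (hgm.pow_const _)]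
    refine lintegral_congr fun q => ?_
    simp only [Pi.mul_apply]
    rw [hg]
    simp only
    rw [ENNReal.ofReal_rpow_of_nonneg (abs_nonneg _) (by norm_num), Real.rpow_two, sq_abs, mul_comm]
  rw [e1, lcint hgm (by norm_num)]
  have hRm : Measurable (fun x => Cu * R x) := hR.const_mul Cu
  calc _ ≤ ∫⁻ t in Ioi (0:ℝ), C3 * D * (ENNReal.ofReal (2 * t ^ ((2:ℝ) - 1)) *
        (volume.withDensity w) {x | ENNReal.ofReal t < Cu * R x}) := by
        refine lintegral_mono fun t => ?_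
        have h1 : (HM.withDensity n) {q | ENNReal.ofReal t < g q} ≤
            (HM.withDensity n) {q | 0 < q.2 ∧ ENNReal.ofReal t < g q} := by
          refine measure_mono_ae ?_
          filter_upwards [hpos] with q hq hq2
          exact ⟨hq, hq2⟩
        calc _ ≤ ENNReal.ofReal (2 * t ^ ((2:ℝ) - 1)) * (C3 * D *
              (volume.withDensity w) {x | ENNReal.ofReal t < Cu * R x}) :=
              mul_le_mul' le_rfl (h1.trans (level hcar' hD (fun q hq x hx => hu _ _ hq x hx) _))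
          _ = _ := by ring
    _ = C3 * D * ∫⁻ x, (Cu * R x) ^ (2:ℝ) ∂(volume.withDensity w) := by
        rw [lcint hRm (by norm_num), lintegral_const_mul]
        refine Measurable.mul (by fun_prop) ?_
        have h3 : Antitone (fun t : ℝ => (volume.withDensity w) {x | ENNReal.ofReal t < Cu * R x}) := by
          intro a b hab
          refine measure_mono fun x hx => ?_
          exact lt_of_le_of_lt (ENNReal.ofReal_le_ofReal hab) hx
        exact h3.measurable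
    _ = _ := by
        rw [lintegral_withDensity_eq_lintegral_mul _ hw (hRm.pow_const _)]
        have e2 : ∀ x, (w * fun x => (Cu * R x) ^ (2:ℝ)) x = Cu ^ 2 * (w x * R x ^ 2) := by
          intro x
          simp only [Pi.mul_apply]
          rw [ENNReal.rpow_two, mul_pow]; ring
        simp_rw [e2]
        rw [lintegral_const_mul]
        exact hw.mul (hR.pow_const 2)

/-- **Weighted area integral estimate.** -/
theorem area (hf : Adm f) (hs : Adm s) (hs0 : ∀ x, 0 < s x) (hwm : Measurable w) (hR : Measurable R)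
    (hws : ∀ x, w x = ENNReal.ofReal (1 / s x))
    (hw : ∀ z y, 0 < y → ENNReal.ofReal (PI s z y) * WW w z y ≤ Cw * ENNReal.ofReal y)
    (hD : ∀ c r, 0 < r → WW w c (5 * r) ≤ D * WW w c r)
    (hu : ∀ z y, 0 < y → ∀ x ∈ ball z y, ENNReal.ofReal |PI f z y| ≤ Cu * R x)
    (hfR : ∀ x, ENNReal.ofReal |f x| ≤ R x) :
    ∫⁻ q, ENNReal.ofReal (gg f q.1 q.2) * WW w q.1 q.2 ∂HM ≤
      (16 * Cw + 2 * ((256 * Cw * D + 64) * D * Cu ^ 2)) * ∫⁻ x, w x * R x ^ 2 := by
  have hTm := TT_meas3 hf hs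
  have h1 := embed hf.meas hs.meas hwm hR (fun c ρ hρ => carleson hs hs0 hwm hws hw hD hρ) hD hu
  have h2 := energyM hf hs hs0
  have h3 : ∫⁻ x, ENNReal.ofReal (f x ^ 2 / s x) ≤ ∫⁻ x, w x * R x ^ 2 := by
    refine lintegral_mono fun x => ?_
    have hsx := hs0 x
    rw [div_eq_mul_one_div, ENNReal.ofReal_mul (sq_nonneg _), ← hws x, mul_comm, ← sq_abs,
      ENNReal.ofReal_pow (abs_nonneg _)]
    exact mul_le_mul' le_rfl (pow_le_pow_left' (hfR x) 2)
  calc _ ≤ ∫⁻ q, (2 * Cw) * (ENNReal.ofReal q.2 * TT f s q.2 q.1) +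
        2 * (ENNReal.ofReal (PI f q.1 q.2 ^ 2) * nn s w q.1 q.2) ∂HM := by
        refine lintegral_mono_ae ?_
        filter_upwards [HM_pos] with q hq
        refine (pt1 (f := f) hs hs0 hw (z := q.1) hq).trans (le_of_eq ?_)
        ring
    _ = (2 * Cw) * (∫⁻ q, ENNReal.ofReal q.2 * TT f s q.2 q.1 ∂HM) +
        2 * ∫⁻ q, ENNReal.ofReal (PI f q.1 q.2 ^ 2) * nn s w q.1 q.2 ∂HM := by
        rw [lintegral_add_left (hTm.const_mul _), lintegral_const_mul _ hTm,
          lintegral_const_mul' _ _ (by norm_num)]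
    _ ≤ (2 * Cw) * (8 * ∫⁻ x, w x * R x ^ 2) +
        2 * ((256 * Cw * D + 64) * D * (Cu ^ 2 * ∫⁻ x, w x * R x ^ 2)) := by
        refine add_le_add (mul_le_mul' le_rfl (h2.trans (mul_le_mul' le_rfl h3)))
          (mul_le_mul' le_rfl h1)
    _ = _ := by ring

end Pool.Agent.Zk22.GL
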