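import Pool.Agent.Zk22.GG
import Pool.Agent.Zk22.GN

/-! Assembly of the weighted inequality for `g_λ^*`. -/

namespace Pool.Agent.Zk22.GL

open MeasureTheory Set Metric Filter
open scoped ENNReal NNReal Topology Real

/-- the square of `g_λ^*` -/
noncomputable def G2 (lam : ℝ) (f : ℝ → ℝ) (x : ℝ) : ℝ≥0∞ :=
  ∫⁻ q, KK lam q.1 q.2 x * ENNReal.ofReal (gg f q.1 q.2) ∂HM

lemma KK_meas3 (lam : ℝ) : Measurable (fun r : ℝ × (ℝ × ℝ) => KK lam r.2.1 r.2.2 r.1) := by
  unfold KK; fun_prop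

lemma G2_meas (lam : ℝ) {f : ℝ → ℝ} (hf : Measurable f) : Measurable (G2 lam f) := by
  have h1 : Measurable (fun r : ℝ × (ℝ × ℝ) => KK lam r.2.1 r.2.2 r.1 *
      ENNReal.ofReal (gg f r.2.1 r.2.2)) :=
    (KK_meas3 lam).mul (ENNReal.measurable_ofReal.comp ((gg_meas hf).comp measurable_snd))
  exact h1.lintegral_prod_right'

lemma P_le_KK {y : ℝ} (hy : 0 < y) (z x : ℝ) :
    ENNReal.ofReal (P y (z - x)) ≤ ENNReal.ofReal (1 / y) * KK 2 z y x := by
  unfold KK P
  rw [← ENNReal.ofReal_mul (by positivity)]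
  refine ENNReal.ofReal_le_ofReal ?_
  have hab := abs_nonneg (x - z)
  have hsq : |x - z| ^ 2 = (z - x) ^ 2 := by rw [sq_abs]; ring
  rw [Real.rpow_two, div_pow]
  have h1 : 1 / y * (y ^ 2 / (|x - z| + y) ^ 2) = y / (|x - z| + y) ^ 2 := by field_simp
  rw [h1, ← hsq]
  refine div_le_div_of_nonneg_left hy.le (by positivity) ?_
  have hπ := Real.pi_gt_three
  nlinarith [sq_nonneg (|x - z| - y), sq_nonneg (|x - z|), sq_nonneg y]

lemma inv_le_KK (x : ℝ) : ENNReal.ofReal ((1 + x ^ 2)⁻¹) ≤ 2 * KK 2 0 1 x := by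
  unfold KK
  rw [← ENNReal.ofReal_ofNat 2, ← ENNReal.ofReal_mul (by norm_num)]
  refine ENNReal.ofReal_le_ofReal ?_
  have hab := abs_nonneg (x - 0)
  rw [Real.rpow_two, div_pow, one_pow, mul_one_div, inv_eq_one_div,
    div_le_div_iff₀ (by positivity) (by positivity)]
  simp only [sub_zero] at *
  nlinarith [sq_nonneg (|x| - 1), sq_abs x]

lemma adm_of {F : ℝ → ℝ} (hF : Measurable F) {g : ℝ → ℝ≥0∞} (hg : ∀ᵐ x, ENNReal.ofReal |F x| ≤ g x)
    (hfin : ∫⁻ x, KK 2 0 1 x * g x ≠ ∞) : Adm F where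
  meas := hF
  int := by
    have hm : Measurable (fun x => (1 + x ^ 2)⁻¹ * F x) := by fun_prop
    refine ⟨hm.aestronglyMeasurable, ?_⟩
    unfold HasFiniteIntegral
    refine lt_of_le_of_lt ?_ (lt_top_iff_ne_top.2 (ENNReal.mul_ne_top (show (2:ℝ≥0∞) ≠ ∞ by norm_num) hfin))
    rw [← lintegral_const_mul' _ _ (by norm_num)]
    refine lintegral_mono_ae ?_
    filter_upwards [hg] with x hx
    rw [← ofReal_norm, norm_mul, Real.norm_eq_abs, Real.norm_eq_abs,
      abs_of_pos (show 0 < (1 + x ^ 2)⁻¹ by positivity), ENNReal.ofReal_mul (by positivity),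
      ← mul_assoc]
    exact mul_le_mul' (inv_le_KK x) hx

variable {p a : ℝ} {V R : ℝ → ℝ≥0∞} {Q A K : ℝ≥0∞}

/-- a positive real version of `1/ω` -/
noncomputable def sr (e : ℝ) (V R : ℝ → ℝ≥0∞) (x : ℝ) : ℝ :=
  if R x = ∞ then 1 else (ta e V R x).toReal

lemma ta_ne (h : AP p V Q) (hR : Maj a V R A) (e : ℝ) {x : ℝ} (hx : R x ≠ ∞) :
    ta e V R x ≠ 0 ∧ ta e V R x ≠ ∞ := by
  have h1 := rpow_ne (hR.pos x) hx e
  unfold ta
  exact ⟨mul_ne_zero (ENNReal.inv_ne_zero.2 (h.fin x)) h1.1,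
    ENNReal.mul_ne_top (ENNReal.inv_ne_top.2 (h.pos x)) h1.2⟩

lemma sr_pos (h : AP p V Q) (hR : Maj a V R A) (e x : ℝ) : 0 < sr e V R x := by
  unfold sr
  split_ifs with hx
  · exact one_pos
  · have := ta_ne h hR e hx
    exact ENNReal.toReal_pos this.1 this.2

lemma sr_meas (hV : Measurable V) (hR : Measurable R) (e : ℝ) : Measurable (sr e V R) := by
  unfold sr
  exact Measurable.ite (measurableSet_eq_fun hR measurable_const) measurable_const
    (ta_meas hV hR e).ennreal_toReal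

lemma sr_eq (h : AP p V Q) (hR : Maj a V R A) (e : ℝ) {x : ℝ} (hx : R x ≠ ∞) :
    ENNReal.ofReal (sr e V R x) = ta e V R x := by
  unfold sr
  rw [if_neg hx, ENNReal.ofReal_toReal (ta_ne h hR e hx).2]

lemma wr_eq (h : AP p V Q) (hR : Maj a V R A) (e : ℝ) {x : ℝ} (hx : R x ≠ ∞) :
    ENNReal.ofReal (1 / sr e V R x) = om e V R x := by
  rw [one_div, ENNReal.ofReal_inv_of_pos (sr_pos h hR e x), sr_eq h hR e hx]
  unfold ta om
  have h1 := rpow_ne (hR.pos x) hx e
  rw [ENNReal.mul_inv (Or.inr h1.2) (Or.inr h1.1), inv_inv]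

/-- the estimate for one function, given its majorant -/
theorem one_function (h : AP p V Q) (hp : 1 < p) (hp2 : p < 2) {lam q : ℝ} (hlam : 0 ≤ lam)
    (hK : K ≠ ∞) (hG : Gr V q K) (hb : q < lam - a * (2 - p)) (hR : Maj a V R A)
    {f : ℝ → ℝ} (hf : Measurable f) (hfR : ∀ x, ENNReal.ofReal |f x| ≤ R x) :
    Adm f ∧ ∫⁻ x, om (2 - p) V R x * G2 lam f x ≤
      C1 lam a (2 - p) q A K * ((16 * C2 (D1 lam a (2 - p) q A K) (2 * (A ^ (2 - p) * A ^ (2 - p)) * Q) +
        2 * ((256 * C2 (D1 lam a (2 - p) q A K) (2 * (A ^ (2 - p) * A ^ (2 - p)) * Q) *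
        D1 lam a (2 - p) q A K + 64) * D1 lam a (2 - p) q A K * (16 * A) ^ 2)) *
        ∫⁻ x, V x * R x ^ p) := by
  set e := 2 - p with he
  have he0 : 0 < e := by linarith
  set D := D1 lam a e q A K with hDdef
  set Q2 := 2 * (A ^ e * A ^ e) * Q with hQ2
  have hAe := rpow_ne hR.Apos hR.Afin e
  have hC1 : C1 lam a e q A K ≠ ∞ := C1_ne he0.le hb hR.Afin hK
  have hDfin : D ≠ ∞ := ENNReal.mul_ne_top ENNReal.ofReal_ne_top hC1
  have hdbl : ∀ c r, 0 < r → ∫⁻ x in ball c (5 * r), om e V R x ≤ D * ∫⁻ x in ball c r, om e V R x :=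
    fun c r hr => om_dbl h hp hR he0 hG hlam hr
  have hD0 : D ≠ 0 := by
    intro h0
    have h1 := hdbl 0 1 one_pos
    rw [h0, zero_mul] at h1
    exact (om_ne h hp hR he0 (c := 0) (r := 5 * 1) (by norm_num)).1 (le_antisymm h1 zero_le)
  have hWT : ∀ c r, 0 < r → (∫⁻ x in ball c r, om e V R x) * (∫⁻ x in ball c r, ta e V R x) ≤
      Q2 * ENNReal.ofReal (r ^ 2) := fun c r hr => om_ta h hp hp2 hR hr
  have htail : ∀ z y, 0 < y → (∫⁻ x, KK 2 z y x * ta e V R x) * ∫⁻ x in ball z y, om e V R x ≤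
      C2 D Q2 * ENNReal.ofReal (y ^ 2) := fun z y hy =>
    ta_tail hD0 hDfin (ta_meas h.meas hR.meas e) hdbl hWT hy
  have hQ2fin : Q2 ≠ ∞ :=
    ENNReal.mul_ne_top (ENNReal.mul_ne_top (by norm_num) (ENNReal.mul_ne_top hAe.2 hAe.2)) h.Qfin
  have hC2 : C2 D Q2 ≠ ∞ := C2_ne hDfin hQ2fin
  -- the real weight
  set s := sr e V R with hs_def
  set w : ℝ → ℝ≥0∞ := fun x => ENNReal.ofReal (1 / s x) with hw_def
  have hsm : Measurable s := sr_meas h.meas hR.meas e
  have hs0 : ∀ x, 0 < s x := fun x => sr_pos h hR e x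
  have hwm : Measurable w := ENNReal.measurable_ofReal.comp (hsm.const_div 1)
  have hsae : ∀ᵐ x : ℝ, ENNReal.ofReal (s x) = ta e V R x := by
    filter_upwards [hR.fin] with x hx using sr_eq h hR e hx
  have hwae : ∀ᵐ x : ℝ, w x = om e V R x := by
    filter_upwards [hR.fin] with x hx using wr_eq h hR e hx
  have hWW : ∀ z y, WW w z y = ∫⁻ x in ball z y, om e V R x := fun z y =>
    lintegral_congr_ae (ae_restrict_of_ae hwae)
  have hsadm : Adm s := by
    refine adm_of hsm (g := ta e V R) ?_ ?_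
    · filter_upwards [hsae] with x hx
      rw [abs_of_pos (hs0 x), hx]
    · intro htop
      have h1 := htail 0 1 one_pos
      rw [htop, ENNReal.top_mul (om_ne h hp hR he0 one_pos).1, top_le_iff] at h1
      exact ENNReal.mul_ne_top hC2 ENNReal.ofReal_ne_top h1
  have hfadm : Adm f := by
    have hex : ∃ x ∈ ball (0:ℝ) 1, R x ≠ ∞ := by
      by_contra hcon
      push Not at hcon
      have h2 : volume (ball (0:ℝ) 1) = 0 := by
        refine measure_mono_null (fun x hx => ?_) (ae_iff.1 hR.fin)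
        simpa using hcon x hx
      rw [Real.volume_ball, ENNReal.ofReal_eq_zero] at h2
      linarith
    obtain ⟨x', hx', hx'f⟩ := hex
    refine adm_of hf (Eventually.of_forall hfR) ?_
    refine ne_top_of_le_ne_top ?_ (R_tail hR one_pos hx')
    exact ENNReal.mul_ne_top (ENNReal.mul_ne_top (ENNReal.mul_ne_top (by norm_num) hR.Afin)
      ENNReal.ofReal_ne_top) hx'f
  refine ⟨hfadm, ?_⟩
  have hw : ∀ z y, 0 < y → ENNReal.ofReal (PI s z y) * WW w z y ≤ C2 D Q2 * ENNReal.ofReal y := by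
    intro z y hy
    rw [hWW]
    have h1 : ENNReal.ofReal (PI s z y) ≤ ENNReal.ofReal (1 / y) * ∫⁻ x, KK 2 z y x * ta e V R x := by
      unfold PI
      rw [ofReal_integral_eq_lintegral_ofReal (hsadm.int_P hy z)
        (Eventually.of_forall fun x => (mul_pos (P_pos hy _) (hs0 x)).le),
        ← lintegral_const_mul' _ _ ENNReal.ofReal_ne_top]
      refine lintegral_mono_ae ?_
      filter_upwards [hsae] with x hx
      rw [ENNReal.ofReal_mul (P_pos hy _).le, hx, ← mul_assoc]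
      exact mul_le_mul' (P_le_KK hy z x) le_rfl
    calc _ ≤ (ENNReal.ofReal (1 / y) * ∫⁻ x, KK 2 z y x * ta e V R x) *
          ∫⁻ x in ball z y, om e V R x := mul_le_mul' h1 le_rfl
      _ = ENNReal.ofReal (1 / y) * ((∫⁻ x, KK 2 z y x * ta e V R x) *
          ∫⁻ x in ball z y, om e V R x) := by ring
      _ ≤ ENNReal.ofReal (1 / y) * (C2 D Q2 * ENNReal.ofReal (y ^ 2)) :=
          mul_le_mul' le_rfl (htail z y hy)
      _ = C2 D Q2 * (ENNReal.ofReal (1 / y) * ENNReal.ofReal (y ^ 2)) := by ring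
      _ = _ := by
          rw [← ENNReal.ofReal_mul (by positivity)]
          congr 2
          field_simp
  have hD : ∀ c r, 0 < r → WW w c (5 * r) ≤ D * WW w c r := by
    intro c r hr
    rw [hWW, hWW]; exact hdbl c r hr
  have hu : ∀ z y, 0 < y → ∀ x ∈ ball z y, ENNReal.ofReal |PI f z y| ≤ (16 * A) * R x := by
    intro z y hy x hx
    have h1 : ENNReal.ofReal |PI f z y| ≤ ENNReal.ofReal (1 / y) * ∫⁻ x, KK 2 z y x * R x := by
      unfold PI
      rw [← Real.norm_eq_abs, ofReal_norm]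
      refine (enorm_integral_le_lintegral_enorm _).trans ?_
      rw [← lintegral_const_mul' _ _ ENNReal.ofReal_ne_top]
      refine lintegral_mono fun x => ?_
      rw [← ofReal_norm, norm_mul, Real.norm_eq_abs, Real.norm_eq_abs, abs_of_pos (P_pos hy _),
        ENNReal.ofReal_mul (P_pos hy _).le, ← mul_assoc]
      exact mul_le_mul' (P_le_KK hy z x) (hfR x)
    calc _ ≤ _ := h1
      _ ≤ ENNReal.ofReal (1 / y) * (16 * A * ENNReal.ofReal y * R x) :=
          mul_le_mul' le_rfl (R_tail hR hy hx)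
      _ = (16 * A) * R x * (ENNReal.ofReal (1 / y) * ENNReal.ofReal y) := by ring
      _ = _ := by
          rw [← ENNReal.ofReal_mul (by positivity)]
          have : 1 / y * y = 1 := by field_simp
          rw [this, ENNReal.ofReal_one, mul_one]
  have harea := area hfadm hsadm hs0 hwm hR.meas (fun x => rfl) hw hD hu hfR
  have hRR : ∫⁻ x, w x * R x ^ 2 = ∫⁻ x, V x * R x ^ p := by
    refine lintegral_congr_ae ?_
    filter_upwards [hwae, hR.fin] with x hx hxf
    rw [hx]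
    unfold om
    rw [mul_assoc]
    congr 1
    rw [← ENNReal.rpow_neg, ← ENNReal.rpow_two, ← ENNReal.rpow_add _ _ (hR.pos x) hxf]
    congr 1
    rw [he]; ring
  rw [hRR] at harea
  -- Tonelli
  have hTon : ∫⁻ x, om e V R x * G2 lam f x =
      ∫⁻ q, ENNReal.ofReal (gg f q.1 q.2) * (∫⁻ x, KK lam q.1 q.2 x * om e V R x) ∂HM := by
    have hom := om_meas h.meas hR.meas e
    have hm : Measurable (fun r : ℝ × (ℝ × ℝ) => om e V R r.1 * (KK lam r.2.1 r.2.2 r.1 *
        ENNReal.ofReal (gg f r.2.1 r.2.2))) :=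
      (hom.comp measurable_fst).mul ((KK_meas3 lam).mul
        (ENNReal.measurable_ofReal.comp ((gg_meas hf).comp measurable_snd)))
    have hm2 : ∀ x, Measurable (fun q : ℝ × ℝ => KK lam q.1 q.2 x *
        ENNReal.ofReal (gg f q.1 q.2)) := fun x =>
      ((KK_meas3 lam).comp measurable_prodMk_left).mul (ENNReal.measurable_ofReal.comp (gg_meas hf))
    calc _ = ∫⁻ x, ∫⁻ q, om e V R x * (KK lam q.1 q.2 x * ENNReal.ofReal (gg f q.1 q.2)) ∂HM := by
          refine lintegral_congr fun x => ?_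
          unfold G2
          rw [lintegral_const_mul _ (hm2 x)]
      _ = ∫⁻ q, (∫⁻ x, om e V R x * (KK lam q.1 q.2 x * ENNReal.ofReal (gg f q.1 q.2))) ∂HM :=
          lintegral_lintegral_swap hm.aemeasurable
      _ = _ := by
          refine lintegral_congr fun q => ?_
          rw [← lintegral_const_mul' _ _ ENNReal.ofReal_ne_top]
          refine lintegral_congr fun x => ?_
          ring
  rw [hTon]
  calc _ ≤ ∫⁻ r, C1 lam a e q A K * (ENNReal.ofReal (gg f r.1 r.2) * WW w r.1 r.2) ∂HM := by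
        refine lintegral_mono_ae ?_
        filter_upwards [HM_pos] with r hr
        rw [hWW]
        calc _ ≤ ENNReal.ofReal (gg f r.1 r.2) * (C1 lam a e q A K * ∫⁻ x in ball r.1 r.2, om e V R x) :=
              mul_le_mul' le_rfl (om_tail h hp hR he0 hG hlam hr)
          _ = _ := by ring
    _ = C1 lam a e q A K * ∫⁻ r, ENNReal.ofReal (gg f r.1 r.2) * WW w r.1 r.2 ∂HM :=
        lintegral_const_mul' _ _ hC1
    _ ≤ _ := mul_le_mul' le_rfl harea

end Pool.Agent.Zk22.GL
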