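import Pool.Agent.Zk22.GO

/-! Sufficiency for positive weights. -/

namespace Pool.Agent.Zk22.GL

open MeasureTheory Set Metric Filter
open scoped ENNReal NNReal Topology Real

variable {p : ℝ} {V : ℝ → ℝ≥0∞} {Q : ℝ≥0∞}

lemma G2_zero (lam : ℝ) {f : ℝ → ℝ} (hf : f =ᵐ[volume] 0) (x : ℝ) : G2 lam f x = 0 := by
  unfold G2
  have h1 : ∀ q : ℝ × ℝ, gg f q.1 q.2 = 0 := by
    intro q
    have hx : PIx f q.1 q.2 = 0 := by
      unfold PIx
      rw [integral_eq_zero_of_ae]
      filter_upwards [hf] with x hx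
      simp [hx]
    have hy : PIy f q.1 q.2 = 0 := by
      unfold PIy
      rw [integral_eq_zero_of_ae]
      filter_upwards [hf] with x hx
      simp [hx]
    unfold gg
    rw [hx, hy]; norm_num
  simp [h1]

/-- Hölder -/
lemma holder_final (h : AP p V Q) (hp : 0 < p) (hp2 : p < 2) {a : ℝ} {A : ℝ≥0∞}
    {R : ℝ → ℝ≥0∞} (hR : Maj a V R A) {G : ℝ → ℝ≥0∞} (hG : Measurable G) :
    ∫⁻ x, V x * G x ^ (p / 2) ≤
      (∫⁻ x, om (2 - p) V R x * G x) ^ (p / 2) * (∫⁻ x, V x * R x ^ p) ^ ((2 - p) / 2) := by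
  have he : 0 < 2 - p := by linarith
  have hpq : (2 / p).HolderConjugate (2 / (2 - p)) := by
    rw [Real.holderConjugate_iff]
    refine ⟨by rw [lt_div_iff₀ hp]; linarith, ?_⟩
    field_simp
    ring
  have hom := om_meas h.meas hR.meas (2 - p)
  have h1 := ENNReal.lintegral_mul_le_Lp_mul_Lq (volume : Measure ℝ) hpq
    (f := fun x => (om (2 - p) V R x * G x) ^ (p / 2)) (g := fun x => (V x * R x ^ p) ^ ((2 - p) / 2))
    ((hom.mul hG).pow_const _).aemeasurable
    ((h.meas.mul (hR.meas.pow_const _)).pow_const _).aemeasurable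
  have e1 : ∫⁻ x, V x * G x ^ (p / 2) = ∫⁻ x, ((fun x => (om (2 - p) V R x * G x) ^ (p / 2)) *
      (fun x => (V x * R x ^ p) ^ ((2 - p) / 2))) x := by
    refine lintegral_congr_ae ?_
    filter_upwards [hR.fin] with x hx
    simp only [Pi.mul_apply]
    unfold om
    rw [ENNReal.mul_rpow_of_nonneg _ _ (by positivity), ENNReal.mul_rpow_of_nonneg _ _ (by positivity),
      ENNReal.mul_rpow_of_nonneg _ _ (by positivity), ← ENNReal.rpow_neg, ← ENNReal.rpow_mul,
      ← ENNReal.rpow_mul]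
    have e2 : V x = V x ^ (p / 2) * V x ^ ((2 - p) / 2) := by
      rw [← ENNReal.rpow_add _ _ (h.pos x) (h.fin x)]
      have : p / 2 + (2 - p) / 2 = 1 := by ring
      rw [this, ENNReal.rpow_one]
    have e3 : R x ^ (-(2 - p) * (p / 2)) * R x ^ (p * ((2 - p) / 2)) = 1 := by
      rw [← ENNReal.rpow_add _ _ (hR.pos x) hx]
      have : -(2 - p) * (p / 2) + p * ((2 - p) / 2) = 0 := by ring
      rw [this, ENNReal.rpow_zero]
    calc V x * G x ^ (p / 2) = (V x ^ (p / 2) * V x ^ ((2 - p) / 2)) * G x ^ (p / 2) *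
          (R x ^ (-(2 - p) * (p / 2)) * R x ^ (p * ((2 - p) / 2))) := by rw [e3, ← e2, mul_one]
      _ = _ := by ring
  rw [e1]
  refine h1.trans (le_of_eq ?_)
  have e4 : ∀ x, ((om (2 - p) V R x * G x) ^ (p / 2)) ^ (2 / p) = om (2 - p) V R x * G x := by
    intro x; rw [← ENNReal.rpow_mul]
    have : p / 2 * (2 / p) = 1 := by field_simp
    rw [this, ENNReal.rpow_one]
  have e5 : ∀ x, ((V x * R x ^ p) ^ ((2 - p) / 2)) ^ (2 / (2 - p)) = V x * R x ^ p := by
    intro x; rw [← ENNReal.rpow_mul]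
    have : (2 - p) / 2 * (2 / (2 - p)) = 1 := by field_simp
    rw [this, ENNReal.rpow_one]
  simp_rw [e4, e5]
  congr 2 <;> field_simp

/-- **Sufficiency.** -/
theorem suff {lam : ℝ} (hlam1 : 1 < lam) (hlam2 : lam ≤ 2) (hp : 2 / lam < p) (hp2 : p < 2)
    (h : AP p V Q) {Cb : ℝ≥0∞} (hCb : Cb ≠ ∞) (hb : BR (lam * p / 2) V Cb) :
    ∃ C : ℝ≥0∞, C ≠ ∞ ∧ ∀ f : ℝ → ℝ, Measurable f →
      ∫⁻ x, V x * ENNReal.ofReal |f x| ^ p ≠ ∞ →
      Adm f ∧ ∫⁻ x, V x * G2 lam f x ^ (p / 2) ≤ C * ∫⁻ x, V x * ENNReal.ofReal |f x| ^ p := by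
  have hlam0 : 0 < lam := by linarith
  have h2p : 2 < lam * p := by rw [div_lt_iff₀ hlam0] at hp; linarith
  have hp1 : 1 < p := by nlinarith
  have hp0 : 0 < p := by linarith
  obtain ⟨q, K, hq0, hqr, hK, hG⟩ := gr_of_br (by linarith) h.meas hCb hb
  have hql : q < lam := by nlinarith
  -- choose s
  have hlt : max 1 (q * (2 - p) / (lam - q)) < p := by
    refine max_lt hp1 ?_
    rw [div_lt_iff₀ (by linarith)]
    nlinarith
  obtain ⟨s, hs1, hs2⟩ := exists_between hlt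
  have hs : 1 < s := lt_of_le_of_lt (le_max_left _ _) hs1
  have hs' : q * (2 - p) / (lam - q) < s := lt_of_le_of_lt (le_max_right _ _) hs1
  have hs0 : 0 < s := by linarith
  have hbq : q < lam - q / s * (2 - p) := by
    rw [div_lt_iff₀ (by linarith)] at hs'
    have : q / s * (2 - p) < lam - q := by
      rw [div_mul_eq_mul_div, div_lt_iff₀ hs0]; linarith
    linarith
  obtain ⟨A, C, hA, hC, hrdf⟩ := rdf h hG hK hs hs2
  set A' := A + 1 with hA'
  have hA'fin : A' ≠ ∞ := ENNReal.add_ne_top.2 ⟨hA, by norm_num⟩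
  set M := C1 lam (q / s) (2 - p) q A' K * (16 * C2 (D1 lam (q / s) (2 - p) q A' K)
      (2 * (A' ^ (2 - p) * A' ^ (2 - p)) * Q) +
        2 * ((256 * C2 (D1 lam (q / s) (2 - p) q A' K) (2 * (A' ^ (2 - p) * A' ^ (2 - p)) * Q) *
        D1 lam (q / s) (2 - p) q A' K + 64) * D1 lam (q / s) (2 - p) q A' K * (16 * A') ^ 2)) with hM
  have hMfin : M ≠ ∞ := by
    have c1 : C1 lam (q / s) (2 - p) q A' K ≠ ∞ := C1_ne (by linarith) hbq hA'fin hK
    have d1 : D1 lam (q / s) (2 - p) q A' K ≠ ∞ := ENNReal.mul_ne_top ENNReal.ofReal_ne_top c1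
    have a1 : A' ^ (2 - p) ≠ ∞ := ENNReal.rpow_ne_top_of_nonneg (by linarith) hA'fin
    have q2 : 2 * (A' ^ (2 - p) * A' ^ (2 - p)) * Q ≠ ∞ :=
      ENNReal.mul_ne_top (ENNReal.mul_ne_top (by norm_num) (ENNReal.mul_ne_top a1 a1)) h.Qfin
    have c2 := C2_ne d1 q2
    refine ENNReal.mul_ne_top c1 (ENNReal.add_ne_top.2 ⟨ENNReal.mul_ne_top (by norm_num) c2, ?_⟩)
    refine ENNReal.mul_ne_top (by norm_num) (ENNReal.mul_ne_top (ENNReal.mul_ne_top
      (ENNReal.add_ne_top.2 ⟨ENNReal.mul_ne_top (ENNReal.mul_ne_top (by norm_num) c2) d1,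
        by norm_num⟩) d1) ?_)
    exact ENNReal.pow_ne_top (ENNReal.mul_ne_top (by norm_num) hA'fin)
  refine ⟨M ^ (p / 2) * C, ENNReal.mul_ne_top (ENNReal.rpow_ne_top_of_nonneg (by positivity) hMfin) hC,
    fun f hf hfin => ?_⟩
  by_cases hf0 : f =ᵐ[volume] 0
  · constructor
    · refine ⟨hf, ?_⟩
      refine (integrable_zero _ _ _).congr ?_
      filter_upwards [hf0] with x hx
      simp [hx]
    · have : ∀ x, V x * G2 lam f x ^ (p / 2) = 0 := by
        intro x
        rw [G2_zero lam hf0, ENNReal.zero_rpow_of_pos (by positivity), mul_zero]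
      simp [this]
  set g : ℝ → ℝ≥0∞ := fun x => ENNReal.ofReal |f x| with hg
  have hgm : Measurable g := ENNReal.measurable_ofReal.comp hf.abs
  obtain ⟨R, hRm, hgR, hRp, hMM, hLL⟩ := hrdf g hgm
  have hle : A ≤ A' := le_self_add
  have hRpos : ∀ x, R x ≠ 0 := by
    intro x hx0
    have h1 := hMM x
    rw [hx0, mul_zero] at h1
    -- choose a large ball
    have h2 : ∀ n : ℕ, ∫⁻ y in ball (0:ℝ) (|x| + 1 + n), g y = 0 := by
      intro n
      have hn : (0:ℝ) ≤ n := Nat.cast_nonneg n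
      have hmem : x ∈ ball (0:ℝ) (|x| + 1 + n) := by
        rw [mem_ball, Real.dist_eq, sub_zero]; linarith
      have h3 := (le_MM volume R hmem).trans h1
      rw [le_zero_iff, ENNReal.div_eq_zero_iff] at h3
      rcases h3 with h3 | h3
      · exact le_antisymm ((lintegral_mono hgR).trans h3.le) zero_le
      · rw [Real.volume_ball] at h3; exact absurd h3 ENNReal.ofReal_ne_top
    have h4 : ∫⁻ y, g y = 0 := by
      have hun : (univ : Set ℝ) = ⋃ n : ℕ, ball (0:ℝ) (|x| + 1 + n) := by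
        symm
        rw [eq_univ_iff_forall]
        intro y
        obtain ⟨n, hn⟩ := exists_nat_ge |y|
        refine mem_iUnion.2 ⟨n, ?_⟩
        rw [mem_ball, Real.dist_eq, sub_zero]
        linarith [abs_nonneg x]
      have hdir : Directed (· ⊆ ·) (fun n : ℕ => ball (0:ℝ) (|x| + 1 + n)) := by
        refine Monotone.directed_le fun n m hnm => ball_subset_ball ?_
        have : (n:ℝ) ≤ m := by exact_mod_cast hnm
        linarith
      rw [← setLIntegral_univ, hun, setLIntegral_iUnion_of_directed _ hdir]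
      simp [h2]
    rw [lintegral_eq_zero_iff hgm] at h4
    apply hf0
    filter_upwards [h4] with y hy
    have : ENNReal.ofReal |f y| = 0 := hy
    rw [ENNReal.ofReal_eq_zero] at this
    exact abs_eq_zero.1 (le_antisymm this (abs_nonneg _))
  have hRfin : ∀ᵐ x : ℝ, R x ≠ ∞ := by
    have h1 : ∫⁻ x, V x * R x ^ p ≠ ∞ :=
      ne_top_of_le_ne_top (ENNReal.mul_ne_top hC hfin) hRp
    filter_upwards [ae_lt_top (h.meas.mul (hRm.pow_const p)) h1] with x hx hR
    simp only [Pi.mul_apply] at hx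
    rw [hR, ENNReal.top_rpow_of_pos hp0, ENNReal.mul_top (h.pos x)] at hx
    exact absurd hx (lt_irrefl _)
  have hMaj : Maj (q / s) V R A' :=
    { meas := hRm
      pos := hRpos
      fin := hRfin
      Apos := by simp [hA']
      Afin := hA'fin
      mm := fun x => (hMM x).trans (mul_le_mul' hle le_rfl)
      ll := fun x => (hLL x).trans (mul_le_mul' hle le_rfl) }
  obtain ⟨hadm, hone⟩ := one_function h hp1 hp2 hlam0.le hK hG hbq hMaj hf hgR
  refine ⟨hadm, ?_⟩
  calc _ ≤ (∫⁻ x, om (2 - p) V R x * G2 lam f x) ^ (p / 2) *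
        (∫⁻ x, V x * R x ^ p) ^ ((2 - p) / 2) := holder_final h hp0 hp2 hMaj (G2_meas lam hf)
    _ ≤ (M * ∫⁻ x, V x * R x ^ p) ^ (p / 2) * (∫⁻ x, V x * R x ^ p) ^ ((2 - p) / 2) := by
        refine mul_le_mul' (ENNReal.rpow_le_rpow ?_ (by positivity)) le_rfl
        rw [hM, mul_assoc]
        exact hone
    _ = M ^ (p / 2) * ∫⁻ x, V x * R x ^ p := by
        rw [ENNReal.mul_rpow_of_nonneg _ _ (by positivity), mul_assoc]
        congr 1
        rw [← ENNReal.rpow_add_of_nonneg _ _ (by positivity) (by linarith)]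
        have : p / 2 + (2 - p) / 2 = 1 := by ring
        rw [this, ENNReal.rpow_one]
    _ ≤ M ^ (p / 2) * (C * ∫⁻ x, V x * ENNReal.ofReal |f x| ^ p) := mul_le_mul' le_rfl hRp
    _ = _ := by ring

end Pool.Agent.Zk22.GL
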