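import Pool.Agent.Zk22.GDefs
import Pool.Agent.Zk22.GP

/-! Bridge to the literal definitions; necessity. -/

namespace Pool.Agent.Zk22.GL

open MeasureTheory Set Metric Filter
open scoped ENNReal NNReal Topology Real
open Pool.Agent.Zk22.GStar

lemma poisson_eq (f : ℝ → ℝ) (z y : ℝ) : poisson f z y = PI f z y := by
  unfold poisson PI
  rw [← integral_const_mul, ← integral_sub_left_eq_self (fun x => P y (z - x) * f x) volume z]
  refine integral_congr_ae (Eventually.of_forall fun x => ?_)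
  simp only
  unfold P
  rw [sub_sub_cancel]
  field_simp

lemma gradSq_eq {f : ℝ → ℝ} (hf : Adm f) (z : ℝ) {y : ℝ} (hy : 0 < y) : gradSq f z y = gg f z y := by
  unfold gradSq gg
  simp_rw [poisson_eq]
  rw [(PI_hasDerivAt_z hf hy z).deriv, (PI_hasDerivAt_y hf hy z).deriv]

lemma gStar_eq {f : ℝ → ℝ} (hf : Adm f) (lam x : ℝ) : gStar lam f x = G2 lam f x ^ (1 / 2 : ℝ) := by
  unfold gStar G2
  congr 1
  have hm : Measurable (fun q : ℝ × ℝ => KK lam q.1 q.2 x * ENNReal.ofReal (gg f q.1 q.2)) :=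
    ((KK_meas3 lam).comp measurable_prodMk_left).mul (ENNReal.measurable_ofReal.comp (gg_meas hf.meas))
  rw [lintegral_prod _ hm.aemeasurable]
  refine lintegral_congr fun z => ?_
  refine setLIntegral_congr_fun measurableSet_Ioi fun y hy => ?_
  have hy0 : (0:ℝ) < y := hy
  simp only
  rw [gradSq_eq hf z hy0, ENNReal.ofReal_mul (by positivity)]
  rfl

lemma gStar_rpow {f : ℝ → ℝ} (hf : Adm f) (lam x p : ℝ) : gStar lam f x ^ p = G2 lam f x ^ (p / 2) := by
  rw [gStar_eq hf, ← ENNReal.rpow_mul]; congr 1; ring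

/-- lower bound for `g_λ^*` of a nonnegative function supported in a ball -/
lemma G2_lower {lam : ℝ} (hlam : 0 ≤ lam) {f : ℝ → ℝ} (hf : Adm f) (hf0 : ∀ x, 0 ≤ f x) {c ρ : ℝ}
    (hρ : 0 < ρ) (hsupp : ∀ x, x ∉ ball c ρ → f x = 0) (hfi : Integrable f) (x : ℝ) :
    ENNReal.ofReal ((1 / 2) ^ lam * (2 / 102400)) * (ENNReal.ofReal ((ρ / (|x - c| + ρ)) ^ lam) *
      ENNReal.ofReal ((∫ t, f t) / ρ) ^ 2) ≤ G2 lam f x := by
  set B : Set (ℝ × ℝ) := ball c ρ ×ˢ Ioo (3 * ρ) (4 * ρ) with hB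
  have hBm : MeasurableSet B := measurableSet_ball.prod measurableSet_Ioo
  have hBv : HM B = ENNReal.ofReal (2 * ρ) * ENNReal.ofReal ρ := by
    rw [hB, Measure.prod_prod, Real.volume_ball, Measure.restrict_apply measurableSet_Ioo]
    have : Ioo (3 * ρ) (4 * ρ) ∩ Ioi 0 = Ioo (3 * ρ) (4 * ρ) := by
      refine inter_eq_left.2 fun y hy => ?_
      exact lt_trans (by positivity) hy.1
    rw [this, Real.volume_Ioo]
    congr 2; ring
  set J := ∫ t, f t with hJ
  have hJ0 : 0 ≤ J := integral_nonneg hf0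
  have hgg : ∀ q ∈ B, (J / (320 * ρ ^ 2)) ^ 2 ≤ gg f q.1 q.2 := by
    rintro ⟨z, y⟩ ⟨hz, hy⟩
    simp only at hz hy ⊢
    rw [mem_ball, Real.dist_eq] at hz
    have hy0 : 0 < y := lt_trans (by positivity) hy.1
    have hk : ∀ t, (1 / (320 * ρ ^ 2)) * f t ≤ -(Py y (z - t)) * f t := by
      intro t
      by_cases ht : t ∈ ball c ρ
      · refine mul_le_mul_of_nonneg_right ?_ (hf0 t)
        rw [mem_ball, Real.dist_eq] at ht
        have hzt : |z - t| ≤ 2 * ρ := by
          have := abs_sub_le z c t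
          rw [abs_sub_comm c t] at this
          linarith
        have hzt2 : (z - t) ^ 2 ≤ 4 * ρ ^ 2 := by
          rw [← sq_abs]; nlinarith [abs_nonneg (z - t)]
        have hy2 : 9 * ρ ^ 2 ≤ y ^ 2 := by nlinarith [hy.1]
        have hy3 : y ^ 2 ≤ 16 * ρ ^ 2 := by nlinarith [hy.2]
        unfold Py
        rw [← neg_div, div_le_div_iff₀ (by positivity) (by positivity)]
        have h1 : (z - t) ^ 2 + y ^ 2 ≤ 20 * ρ ^ 2 := by linarith
        have h2 : ((z - t) ^ 2 + y ^ 2) ^ 2 ≤ (20 * ρ ^ 2) ^ 2 :=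
          pow_le_pow_left₀ (by positivity) h1 2
        have hπ := Real.pi_lt_four
        have hπ0 := Real.pi_pos
        calc 1 * (π * ((z - t) ^ 2 + y ^ 2) ^ 2) ≤ 1 * (4 * (20 * ρ ^ 2) ^ 2) := by gcongr
          _ = (5 * ρ ^ 2) * (320 * ρ ^ 2) := by ring
          _ ≤ -((z - t) ^ 2 - y ^ 2) * (320 * ρ ^ 2) := by
              refine mul_le_mul_of_nonneg_right ?_ (by positivity)
              linarith
      · rw [hsupp t ht]; simp
    have h3 : (1 / (320 * ρ ^ 2)) * J ≤ -PIy f z y := by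
      unfold PIy
      rw [hJ, ← integral_const_mul, ← integral_neg]
      refine integral_mono (hfi.const_mul _) ?_ (fun t => ?_)
      · exact (hf.int_k hy0 z (Py_cont hy0) (by positivity) (Py_le' hy0)).neg
      · simp only
        rw [← neg_mul]; exact hk t
    unfold gg
    have h4 : (J / (320 * ρ ^ 2)) ^ 2 ≤ (PIy f z y) ^ 2 := by
      rw [← neg_sq (PIy f z y)]
      refine pow_le_pow_left₀ (by positivity) ?_ 2
      rw [div_eq_mul_one_div, mul_comm]; exact h3
    linarith [sq_nonneg (PIx f z y)]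
  have hKK : ∀ q ∈ B, ENNReal.ofReal (((1 / 2) * (ρ / (|x - c| + ρ))) ^ lam) ≤ KK lam q.1 q.2 x := by
    rintro ⟨z, y⟩ ⟨hz, hy⟩
    simp only at hz hy ⊢
    rw [mem_ball, Real.dist_eq] at hz
    have hy0 : 0 < y := lt_trans (by positivity) hy.1
    unfold KK
    refine ENNReal.ofReal_le_ofReal (Real.rpow_le_rpow (by positivity) ?_ hlam)
    have hxz : |x - z| ≤ |x - c| + ρ := by
      have := abs_sub_le x c z
      rw [abs_sub_comm c z] at this
      linarith
    have hxc := abs_nonneg (x - c)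
    have hxz0 := abs_nonneg (x - z)
    rw [one_div, ← div_eq_inv_mul, div_div, div_le_div_iff₀ (by positivity) (by positivity)]
    nlinarith [hy.1, mul_nonneg hxc hy0.le, mul_pos hρ hy0, mul_nonneg hxc hρ.le]
  calc _ = (ENNReal.ofReal (((1 / 2) * (ρ / (|x - c| + ρ))) ^ lam) *
        ENNReal.ofReal ((J / (320 * ρ ^ 2)) ^ 2)) * HM B := by
        have hxc := abs_nonneg (x - c)
        rw [hBv, ← ENNReal.ofReal_pow (by positivity), ← ENNReal.ofReal_mul (by positivity),
          ← ENNReal.ofReal_mul (by positivity), ← ENNReal.ofReal_mul (by positivity),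
          ← ENNReal.ofReal_mul (by positivity), ← ENNReal.ofReal_mul (by positivity)]
        congr 1
        rw [Real.mul_rpow (by norm_num) (by positivity)]
        field_simp
        ring
    _ = ∫⁻ q in B, (ENNReal.ofReal (((1 / 2) * (ρ / (|x - c| + ρ))) ^ lam) *
        ENNReal.ofReal ((J / (320 * ρ ^ 2)) ^ 2)) ∂HM := by rw [setLIntegral_const]
    _ ≤ ∫⁻ q in B, KK lam q.1 q.2 x * ENNReal.ofReal (gg f q.1 q.2) ∂HM := by
        refine setLIntegral_mono_ae' hBm (Eventually.of_forall fun q hq => ?_)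
        exact mul_le_mul' (hKK q hq) (ENNReal.ofReal_le_ofReal (hgg q hq))
    _ ≤ _ := setLIntegral_le_lintegral _ _

end Pool.Agent.Zk22.GL
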