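import Pool.Agent.Zk22.GQ

/-! Necessity. -/

namespace Pool.Agent.Zk22.GL

open MeasureTheory Set Metric Filter
open scoped ENNReal NNReal Topology Real
open Pool.Agent.Zk22.GStar

lemma adm_bdd {f : ℝ → ℝ} (hf : Measurable f) {c ρ M : ℝ} (hsupp : ∀ x, x ∉ ball c ρ → f x = 0)
    (hM : ∀ x, |f x| ≤ M) : Adm f ∧ Integrable f := by
  have h1 : Integrable f := by
    have h2 : Integrable ((ball c ρ).indicator (fun _ => M)) :=
      (integrable_indicator_iff measurableSet_ball).2 (integrableOn_const measure_ball_lt_top.ne)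
    refine h2.mono' hf.aestronglyMeasurable (Eventually.of_forall fun x => ?_)
    by_cases hx : x ∈ ball c ρ
    · rw [indicator_of_mem hx]; exact hM x
    · rw [indicator_of_notMem hx, hsupp x hx]; simp
  refine ⟨⟨hf, h1.norm.mono' (by fun_prop) (Eventually.of_forall fun x => ?_)⟩, h1⟩
  rw [norm_mul, Real.norm_eq_abs, abs_of_pos (show 0 < (1 + x ^ 2)⁻¹ by positivity)]
  refine mul_le_of_le_one_left (norm_nonneg _) ?_
  exact inv_le_one_of_one_le₀ (by nlinarith [sq_nonneg x])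

lemma lint_ball_fin {U : ℝ → ℝ} (hU : IsWeight U) (c r : ℝ) :
    ∫⁻ x in ball c r, ENNReal.ofReal (U x) ≠ ∞ := by
  have h1 : IntegrableOn U (closedBall c r) := hU.locInt.integrableOn_isCompact (isCompact_closedBall c r)
  have h2 : IntegrableOn U (ball c r) := h1.mono_set ball_subset_closedBall
  have h3 := h2.2
  rw [hasFiniteIntegral_iff_ofReal (Eventually.of_forall hU.nonneg)] at h3
  exact h3.ne

/-- the basic testing inequality -/
lemma star {lam p : ℝ} {U : ℝ → ℝ} (hlam : 0 ≤ lam) (hp : 0 < p) (hU : IsWeight U)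
    (hUm : Measurable U) (h : GStarInequality lam p U) :
    ∃ C : ℝ≥0∞, C ≠ ∞ ∧ ∀ (f : ℝ → ℝ) (c ρ M : ℝ), Measurable f → (∀ x, 0 ≤ f x) → 0 < ρ →
      (∀ x, x ∉ ball c ρ → f x = 0) → (∀ x, |f x| ≤ M) →
      ENNReal.ofReal ((∫ t, f t) / ρ) ^ p *
        ∫⁻ x, ENNReal.ofReal ((ρ / (|x - c| + ρ)) ^ (lam * p / 2)) * ENNReal.ofReal (U x) ≤
        C * ∫⁻ x, ENNReal.ofReal (f x ^ p * U x) := by
  obtain ⟨C, hC, hCf⟩ := h
  set κ := ENNReal.ofReal ((1 / 2) ^ lam * (2 / 102400)) with hκ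
  have hκ0 : κ ≠ 0 := by
    rw [hκ, Ne, ENNReal.ofReal_eq_zero, not_le]; positivity
  have hκp := rpow_ne hκ0 ENNReal.ofReal_ne_top (p / 2)
  refine ⟨(κ ^ (p / 2))⁻¹ * C, ENNReal.mul_ne_top (ENNReal.inv_ne_top.2 hκp.1) hC,
    fun f c ρ M hf hf0 hρ hsupp hM => ?_⟩
  obtain ⟨hadm, hint⟩ := adm_bdd hf hsupp hM
  have habs : ∀ x, |f x| = f x := fun x => abs_of_nonneg (hf0 x)
  have hM0 : 0 ≤ M := (abs_nonneg _).trans (hM 0)
  have hfin : ∫⁻ x, ENNReal.ofReal (|f x| ^ p * U x) ≠ ∞ := by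
    have h1 : ∫⁻ x, ENNReal.ofReal (|f x| ^ p * U x) ≤
        ENNReal.ofReal (M ^ p) * ∫⁻ x in ball c ρ, ENNReal.ofReal (U x) := by
      rw [← lintegral_const_mul' _ _ ENNReal.ofReal_ne_top, ← lintegral_indicator measurableSet_ball]
      refine lintegral_mono fun x => ?_
      by_cases hx : x ∈ ball c ρ
      · rw [indicator_of_mem hx, ← ENNReal.ofReal_mul (by positivity)]
        refine ENNReal.ofReal_le_ofReal (mul_le_mul_of_nonneg_right ?_ (hU.nonneg x))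
        exact Real.rpow_le_rpow (abs_nonneg _) (hM x) hp.le
      · rw [indicator_of_notMem hx, hsupp x hx, abs_zero, Real.zero_rpow hp.ne']; simp
    exact ne_top_of_le_ne_top (ENNReal.mul_ne_top ENNReal.ofReal_ne_top (lint_ball_fin hU c ρ)) h1
  have h2 := hCf f hf.aestronglyMeasurable hfin
  simp_rw [habs] at h2
  have h3 : κ ^ (p / 2) * (ENNReal.ofReal ((∫ t, f t) / ρ) ^ p *
      ∫⁻ x, ENNReal.ofReal ((ρ / (|x - c| + ρ)) ^ (lam * p / 2)) * ENNReal.ofReal (U x)) ≤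
      ∫⁻ x, gStar lam f x ^ p * ENNReal.ofReal (U x) := by
    have hJp : ENNReal.ofReal ((∫ t, f t) / ρ) ^ p ≠ ∞ :=
      ENNReal.rpow_ne_top_of_nonneg hp.le ENNReal.ofReal_ne_top
    rw [← lintegral_const_mul' _ _ hJp, ← lintegral_const_mul' _ _ hκp.2]
    refine lintegral_mono fun x => ?_
    rw [gStar_rpow hadm]
    have h4 := ENNReal.rpow_le_rpow (G2_lower hlam hadm hf0 hρ hsupp hint x) (show 0 ≤ p / 2 by positivity)
    have e0 : ENNReal.ofReal ((ρ / (|x - c| + ρ)) ^ lam) ^ (p / 2) =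
        ENNReal.ofReal ((ρ / (|x - c| + ρ)) ^ (lam * p / 2)) := by
      rw [ENNReal.ofReal_rpow_of_nonneg (by positivity) (by positivity), ← Real.rpow_mul (by positivity)]
      congr 2; ring
    rw [ENNReal.mul_rpow_of_nonneg _ _ (by positivity), ENNReal.mul_rpow_of_nonneg _ _ (by positivity),
      ← ENNReal.rpow_two, ← ENNReal.rpow_mul, e0] at h4
    have e1 : (2:ℝ) * (p / 2) = p := by ring
    rw [e1, ← hκ] at h4
    calc _ = (κ ^ (p / 2) * (ENNReal.ofReal ((ρ / (|x - c| + ρ)) ^ (lam * p / 2)) *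
          ENNReal.ofReal ((∫ t, f t) / ρ) ^ p)) * ENNReal.ofReal (U x) := by ring
      _ ≤ _ := mul_le_mul' h4 le_rfl
  calc _ = (κ ^ (p / 2))⁻¹ * (κ ^ (p / 2) * (ENNReal.ofReal ((∫ t, f t) / ρ) ^ p *
      ∫⁻ x, ENNReal.ofReal ((ρ / (|x - c| + ρ)) ^ (lam * p / 2)) * ENNReal.ofReal (U x))) := by
        rw [← mul_assoc, ENNReal.inv_mul_cancel hκp.1 hκp.2, one_mul]
    _ ≤ (κ ^ (p / 2))⁻¹ * (C * ∫⁻ x, ENNReal.ofReal (f x ^ p * U x)) :=
        mul_le_mul' le_rfl (h3.trans h2)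
    _ = _ := by ring

/-- necessity of `B` -/
lemma memB_of {lam p : ℝ} {U : ℝ → ℝ} (hlam : 0 ≤ lam) (hp : 0 < p) (hU : IsWeight U)
    (hUm : Measurable U) (h : GStarInequality lam p U) : MemB (lam * p / 2) U := by
  obtain ⟨C, hC, hCf⟩ := star hlam hp hU hUm h
  set r := lam * p / 2 with hr
  have hr0 : 0 ≤ r := by positivity
  refine ⟨ENNReal.ofReal (4 ^ r) * C, ENNReal.mul_ne_top ENNReal.ofReal_ne_top hC, fun a b hab => ?_⟩
  set c := (a + b) / 2 with hc
  set ρ := (b - a) / 2 with hρ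
  have hρ0 : 0 < ρ := by rw [hρ]; linarith
  have hba : b - a = 2 * ρ := by rw [hρ]; ring
  have hIoo : Ioo a b = ball c ρ := by
    rw [Real.ball_eq_Ioo, hc, hρ]; congr 1 <;> ring
  have h1 := hCf (tf c ρ) c ρ 1 (measurable_one.indicator measurableSet_ball)
    (fun x => indicator_nonneg (fun _ _ => by norm_num) x) hρ0
    (fun x hx => indicator_of_notMem hx _) (fun x => by
      unfold tf
      by_cases hx : x ∈ ball c ρ
      · rw [indicator_of_mem hx]; simp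
      · rw [indicator_of_notMem hx]; simp)
  have e1 : ∫ t, tf c ρ t = 2 * ρ := by
    have := tf_int c hρ0 (fun _ => 1)
    simp only [one_mul] at this
    rw [this, intervalIntegral.integral_const, smul_eq_mul]; ring
  have e2 : ∫⁻ x, ENNReal.ofReal (tf c ρ x ^ p * U x) = ∫⁻ x in ball c ρ, ENNReal.ofReal (U x) := by
    rw [← lintegral_indicator measurableSet_ball]
    refine lintegral_congr fun x => ?_
    unfold tf
    by_cases hx : x ∈ ball c ρ
    · rw [indicator_of_mem hx, indicator_of_mem hx]; simp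
    · rw [indicator_of_notMem hx, indicator_of_notMem hx, Real.zero_rpow hp.ne']; simp
  have e3 : 1 ≤ ENNReal.ofReal ((∫ t, tf c ρ t) / ρ) ^ p := by
    rw [e1]
    have : 2 * ρ / ρ = 2 := by field_simp
    rw [this]
    exact ENNReal.one_le_rpow (by norm_num) hp
  rw [e2] at h1
  have h2 : ∫⁻ x, ENNReal.ofReal ((ρ / (|x - c| + ρ)) ^ r) * ENNReal.ofReal (U x) ≤
      C * ∫⁻ x in ball c ρ, ENNReal.ofReal (U x) :=
    le_trans (le_mul_of_one_le_left zero_le e3) h1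
  rw [hIoo, hba]
  have h3 : ∀ x, ENNReal.ofReal ((2 * ρ) ^ (r - 1) * U x / ((2 * ρ) ^ r + |x - c| ^ r)) ≤
      (ENNReal.ofReal (4 ^ r) / ENNReal.ofReal (2 * ρ)) *
        (ENNReal.ofReal ((ρ / (|x - c| + ρ)) ^ r) * ENNReal.ofReal (U x)) := by
    intro x
    have hd := abs_nonneg (x - c)
    set d := |x - c| with hd_def
    have hUx := hU.nonneg x
    rw [← ENNReal.ofReal_mul (by positivity), ← ENNReal.ofReal_div_of_pos (by positivity),
      ← ENNReal.ofReal_mul (by positivity)]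
    refine ENNReal.ofReal_le_ofReal ?_
    have h2ρ : (2 * ρ) ^ (r - 1) = (2 * ρ) ^ r / (2 * ρ) := by
      rw [Real.rpow_sub_one (by positivity)]
    have hdr : 0 ≤ d ^ r := Real.rpow_nonneg hd r
    have h2ρr : 0 < (2 * ρ) ^ r := Real.rpow_pos_of_pos (by positivity) r
    have hsum : (d + ρ) ^ r ≤ 2 ^ r * (d ^ r + (2 * ρ) ^ r) := by
      rcases le_total d ρ with hle | hle
      · calc (d + ρ) ^ r ≤ (2 * ρ) ^ r := Real.rpow_le_rpow (by positivity) (by linarith) hr0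
          _ ≤ 2 ^ r * (2 * ρ) ^ r := le_mul_of_one_le_left h2ρr.le (Real.one_le_rpow (by norm_num) hr0)
          _ ≤ _ := by
            refine mul_le_mul_of_nonneg_left ?_ (by positivity)
            linarith
      · calc (d + ρ) ^ r ≤ (2 * d) ^ r := Real.rpow_le_rpow (by positivity) (by linarith) hr0
          _ = 2 ^ r * d ^ r := Real.mul_rpow (by norm_num) hd
          _ ≤ _ := by
            refine mul_le_mul_of_nonneg_left ?_ (by positivity)
            linarith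
    have hkey : (2 * ρ) ^ r / ((2 * ρ) ^ r + d ^ r) ≤ 4 ^ r * (ρ / (d + ρ)) ^ r := by
      have hdρ : 0 < (d + ρ) ^ r := Real.rpow_pos_of_pos (by positivity) r
      rw [Real.div_rpow hρ0.le (by positivity),
        show (4:ℝ) ^ r * (ρ ^ r / (d + ρ) ^ r) = 4 ^ r * ρ ^ r / (d + ρ) ^ r from
          (mul_div_assoc _ _ _).symm, div_le_div_iff₀ (by positivity) hdρ]
      have e4 : (4:ℝ) ^ r * ρ ^ r = 2 ^ r * (2 * ρ) ^ r := by
        rw [← Real.mul_rpow (by norm_num) hρ0.le, ← Real.mul_rpow (by norm_num) (by positivity)]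
        congr 1; ring
      rw [e4]
      calc (2 * ρ) ^ r * (d + ρ) ^ r ≤ (2 * ρ) ^ r * (2 ^ r * (d ^ r + (2 * ρ) ^ r)) := by gcongr
        _ = _ := by ring
    rw [h2ρ]
    calc (2 * ρ) ^ r / (2 * ρ) * U x / ((2 * ρ) ^ r + d ^ r)
        = (2 * ρ) ^ r / ((2 * ρ) ^ r + d ^ r) * (U x / (2 * ρ)) := by ring
      _ ≤ (4 ^ r * (ρ / (d + ρ)) ^ r) * (U x / (2 * ρ)) := by gcongr
      _ = _ := by ring
  have hne : ENNReal.ofReal (4 ^ r) / ENNReal.ofReal (2 * ρ) ≠ ∞ := by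
    refine (ENNReal.div_lt_top ENNReal.ofReal_ne_top ?_).ne
    rw [Ne, ENNReal.ofReal_eq_zero]; linarith
  calc _ ≤ ∫⁻ x, (ENNReal.ofReal (4 ^ r) / ENNReal.ofReal (2 * ρ)) *
        (ENNReal.ofReal ((ρ / (|x - c| + ρ)) ^ r) * ENNReal.ofReal (U x)) := lintegral_mono h3
    _ = (ENNReal.ofReal (4 ^ r) / ENNReal.ofReal (2 * ρ)) *
        ∫⁻ x, ENNReal.ofReal ((ρ / (|x - c| + ρ)) ^ r) * ENNReal.ofReal (U x) :=
        lintegral_const_mul' _ _ hne
    _ ≤ (ENNReal.ofReal (4 ^ r) / ENNReal.ofReal (2 * ρ)) *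
        (C * ∫⁻ x in ball c ρ, ENNReal.ofReal (U x)) := mul_le_mul' le_rfl h2
    _ = _ := by simp only [div_eq_mul_inv]; ring

end Pool.Agent.Zk22.GL
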