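import Pool.Agent.Zk22.GR

/-! Necessity of `A_p`, and the characterisation. -/

namespace Pool.Agent.Zk22.GL

open MeasureTheory Set Metric Filter
open scoped ENNReal NNReal Topology Real
open Pool.Agent.Zk22.GStar

lemma cap_lim (γ : ℝ) (hγ : 0 < γ) (u : ℝ) (hu : 0 ≤ u) :
    ⨆ n : ℕ, ENNReal.ofReal ((u + 1 / ((n:ℝ) + 1)) ^ (-γ)) = ENNReal.ofReal u ^ (-γ) := by
  have hpos : ∀ n : ℕ, 0 < u + 1 / ((n:ℝ) + 1) := fun n => by positivity
  have h1 : ∀ n : ℕ, ENNReal.ofReal ((u + 1 / ((n:ℝ) + 1)) ^ (-γ)) =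
      ENNReal.ofReal (u + 1 / ((n:ℝ) + 1)) ^ (-γ) := fun n =>
    (ENNReal.ofReal_rpow_of_pos (hpos n)).symm
  simp_rw [h1]
  refine iSup_eq_of_tendsto ?_ ?_
  · intro n m hnm
    simp only
    rw [ENNReal.rpow_neg, ENNReal.rpow_neg, ENNReal.inv_le_inv]
    refine ENNReal.rpow_le_rpow (ENNReal.ofReal_le_ofReal ?_) hγ.le
    have : (n:ℝ) ≤ m := by exact_mod_cast hnm
    have : 1 / ((m:ℝ) + 1) ≤ 1 / ((n:ℝ) + 1) := one_div_le_one_div_of_le (by positivity) (by linarith)
    linarith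
  · have h2 : Tendsto (fun n : ℕ => ENNReal.ofReal (u + 1 / ((n:ℝ) + 1))) atTop
        (𝓝 (ENNReal.ofReal u)) := by
      refine (ENNReal.continuous_ofReal.tendsto u).comp ?_
      have := (tendsto_one_div_add_atTop_nhds_zero_nat (𝕜 := ℝ)).const_add u
      simpa using this
    exact (ENNReal.continuous_rpow_const.tendsto _).comp h2

/-- necessity of `A_p` -/
lemma memA_of {lam p : ℝ} {U : ℝ → ℝ} (hlam : 0 ≤ lam) (hp : 1 < p) (hU : IsWeight U)
    (hUm : Measurable U) (h : GStarInequality lam p U) : MemA p U := by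
  have hp0 : 0 < p := by linarith
  have hp1 : 0 < p - 1 := by linarith
  obtain ⟨C, hC, hCf⟩ := star hlam hp0 hU hUm h
  set r := lam * p / 2 with hr
  have hr0 : 0 ≤ r := by positivity
  set γ := 1 / (p - 1) with hγ
  have hγ0 : 0 < γ := by positivity
  set B := ENNReal.ofReal (2 ^ r) * C with hB
  have hBfin : B ≠ ∞ := ENNReal.mul_ne_top ENNReal.ofReal_ne_top hC
  refine ⟨B, hBfin, fun a b hab => ?_⟩
  set c := (a + b) / 2 with hc
  set ρ := (b - a) / 2 with hρ
  have hρ0 : 0 < ρ := by rw [hρ]; linarith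
  have hba : b - a = 2 * ρ := by rw [hρ]; ring
  have hIoo : Ioo a b = ball c ρ := by
    rw [Real.ball_eq_Ioo, hc, hρ]; congr 1 <;> ring
  rw [hIoo, hba]
  set W := ∫⁻ x in ball c ρ, ENNReal.ofReal (U x) with hW
  have hWfin : W ≠ ∞ := lint_ball_fin hU c ρ
  -- bound for the truncations
  have hρe0 : ENNReal.ofReal ρ ≠ 0 := by rw [Ne, ENNReal.ofReal_eq_zero]; linarith
  have key : ∀ n : ℕ, W * (∫⁻ x in ball c ρ, ENNReal.ofReal ((U x + 1 / ((n:ℝ) + 1)) ^ (-γ))) ^ (p - 1) ≤
      B * ENNReal.ofReal ρ ^ p := by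
    intro n
    set ε := 1 / ((n:ℝ) + 1) with hε
    have hε0 : 0 < ε := by positivity
    have hUε : ∀ x, 0 < U x + ε := fun x => by have := hU.nonneg x; linarith
    set f : ℝ → ℝ := (ball c ρ).indicator (fun x => (U x + ε) ^ (-γ)) with hf
    have hfm : Measurable f := ((hUm.add_const ε).pow_const (-γ)).indicator measurableSet_ball
    have hf0 : ∀ x, 0 ≤ f x := fun x =>
      indicator_nonneg (fun y _ => Real.rpow_nonneg (hUε y).le _) x
    have hsupp : ∀ x, x ∉ ball c ρ → f x = 0 := fun x hx => indicator_of_notMem hx _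
    have hM : ∀ x, |f x| ≤ ε ^ (-γ) := by
      intro x
      rw [abs_of_nonneg (hf0 x)]
      by_cases hx : x ∈ ball c ρ
      · rw [hf, indicator_of_mem hx]
        exact Real.rpow_le_rpow_of_nonpos hε0 (by have := hU.nonneg x; linarith) (by linarith)
      · rw [hsupp x hx]; positivity
    have h1 := hCf f c ρ (ε ^ (-γ)) hfm hf0 hρ0 hsupp hM
    obtain ⟨-, hint⟩ := adm_bdd hfm hsupp hM
    set S := ∫⁻ x in ball c ρ, ENNReal.ofReal ((U x + ε) ^ (-γ)) with hS
    have hSeq : ENNReal.ofReal (∫ t, f t) = S := by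
      rw [ofReal_integral_eq_lintegral_ofReal hint (Eventually.of_forall hf0), hS,
        ← lintegral_indicator measurableSet_ball]
      refine lintegral_congr fun x => ?_
      by_cases hx : x ∈ ball c ρ
      · rw [hf, indicator_of_mem hx, indicator_of_mem hx]
      · rw [hf, indicator_of_notMem hx, indicator_of_notMem hx]; simp
    have hSfin : S ≠ ∞ := by rw [← hSeq]; exact ENNReal.ofReal_ne_top
    have hS0 : S ≠ 0 := by
      rw [hS]
      refine ball_pos_of_pos (ENNReal.measurable_ofReal.comp ((hUm.add_const ε).pow_const (-γ))) ?_ hρ0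
      intro x
      simp only [Function.comp_apply]
      rw [Ne, ENNReal.ofReal_eq_zero, not_le]
      exact Real.rpow_pos_of_pos (hUε x) _
    have h2 : ∫⁻ x, ENNReal.ofReal (f x ^ p * U x) ≤ S := by
      rw [hS, ← lintegral_indicator measurableSet_ball]
      refine lintegral_mono fun x => ?_
      by_cases hx : x ∈ ball c ρ
      · rw [hf, indicator_of_mem hx, indicator_of_mem hx]
        refine ENNReal.ofReal_le_ofReal ?_
        have e1 : ((U x + ε) ^ (-γ)) ^ p * (U x + ε) = (U x + ε) ^ (-γ) := by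
          nth_rewrite 2 [← Real.rpow_one (U x + ε)]
          rw [← Real.rpow_mul (hUε x).le, ← Real.rpow_add (hUε x)]
          congr 1
          rw [hγ]; field_simp; ring
        calc _ ≤ ((U x + ε) ^ (-γ)) ^ p * (U x + ε) := by
              refine mul_le_mul_of_nonneg_left (by linarith) ?_
              exact Real.rpow_nonneg (Real.rpow_nonneg (hUε x).le _) _
          _ = _ := e1
      · rw [hf, indicator_of_notMem hx, indicator_of_notMem hx, Real.zero_rpow hp0.ne']; simp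
    have h3 : ENNReal.ofReal ((2:ℝ)⁻¹ ^ r) * W ≤
        ∫⁻ x, ENNReal.ofReal ((ρ / (|x - c| + ρ)) ^ r) * ENNReal.ofReal (U x) := by
      rw [hW, ← lintegral_const_mul' _ _ ENNReal.ofReal_ne_top]
      refine (setLIntegral_mono_ae' measurableSet_ball (Eventually.of_forall fun x hx => ?_)).trans
        (setLIntegral_le_lintegral _ _)
      refine mul_le_mul' (ENNReal.ofReal_le_ofReal (Real.rpow_le_rpow (by norm_num) ?_ hr0)) le_rfl
      rw [mem_ball, Real.dist_eq] at hx
      have := abs_nonneg (x - c)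
      rw [inv_eq_one_div, div_le_div_iff₀ (by norm_num) (by positivity)]
      linarith
    have h4 : (S / ENNReal.ofReal ρ) ^ p * (ENNReal.ofReal ((2:ℝ)⁻¹ ^ r) * W) ≤ C * S := by
      rw [ENNReal.ofReal_div_of_pos hρ0, hSeq] at h1
      exact (mul_le_mul' le_rfl h3).trans (h1.trans (mul_le_mul' le_rfl h2))
    -- cancel
    have hρp := rpow_ne hρe0 ENNReal.ofReal_ne_top p
    have h2r0 : ENNReal.ofReal ((2:ℝ)⁻¹ ^ r) * ENNReal.ofReal (2 ^ r) = 1 := by
      rw [← ENNReal.ofReal_mul (by positivity), ← Real.mul_rpow (by norm_num) (by norm_num)]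
      norm_num
    have hSp : S ^ p = S * S ^ (p - 1) := by
      nth_rewrite 2 [← ENNReal.rpow_one S]
      rw [← ENNReal.rpow_add _ _ hS0 hSfin]; congr 1; ring
    refine (ENNReal.mul_le_mul_iff_right hS0 hSfin).1 ?_
    calc S * (W * S ^ (p - 1)) = S ^ p * W := by rw [hSp]; ring
      _ = ((S / ENNReal.ofReal ρ) ^ p * ENNReal.ofReal ρ ^ p) *
          (ENNReal.ofReal ((2:ℝ)⁻¹ ^ r) * ENNReal.ofReal (2 ^ r)) * W := by
          rw [ENNReal.div_rpow_of_nonneg _ _ hp0.le, ENNReal.div_mul_cancel hρp.1 hρp.2, h2r0, mul_one]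
      _ = ((S / ENNReal.ofReal ρ) ^ p * (ENNReal.ofReal ((2:ℝ)⁻¹ ^ r) * W)) *
          (ENNReal.ofReal ρ ^ p * ENNReal.ofReal (2 ^ r)) := by ring
      _ ≤ (C * S) * (ENNReal.ofReal ρ ^ p * ENNReal.ofReal (2 ^ r)) := mul_le_mul' h4 le_rfl
      _ = _ := by rw [hB]; ring
  -- pass to the limit
  have hlim : ∫⁻ x in ball c ρ, ENNReal.ofReal (U x) ^ (-γ) =
      ⨆ n : ℕ, ∫⁻ x in ball c ρ, ENNReal.ofReal ((U x + 1 / ((n:ℝ) + 1)) ^ (-γ)) := by
    rw [← lintegral_iSup]
    · refine lintegral_congr fun x => ?_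
      rw [cap_lim γ hγ0 (U x) (hU.nonneg x)]
    · intro n
      exact ENNReal.measurable_ofReal.comp ((hUm.add_const _).pow_const (-γ))
    · intro n m hnm x
      refine ENNReal.ofReal_le_ofReal ?_
      have hx := hU.nonneg x
      refine Real.rpow_le_rpow_of_nonpos (by positivity) ?_ (by linarith)
      have : (n:ℝ) ≤ m := by exact_mod_cast hnm
      have : 1 / ((m:ℝ) + 1) ≤ 1 / ((n:ℝ) + 1) :=
        one_div_le_one_div_of_le (by positivity) (by linarith)
      linarith
  have hfinal : W * (∫⁻ x in ball c ρ, ENNReal.ofReal (U x) ^ (-γ)) ^ (p - 1) ≤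
      B * ENNReal.ofReal ρ ^ p := by
    rcases eq_or_ne W 0 with h0 | h0
    · rw [h0, zero_mul]; exact zero_le
    have h5 : ∫⁻ x in ball c ρ, ENNReal.ofReal (U x) ^ (-γ) ≤
        ((B * ENNReal.ofReal ρ ^ p) / W) ^ (1 / (p - 1)) := by
      rw [hlim]
      refine iSup_le fun n => ?_
      have h6 := key n
      rw [mul_comm, ← ENNReal.le_div_iff_mul_le (Or.inl h0) (Or.inl hWfin)] at h6
      calc _ = ((∫⁻ x in ball c ρ, ENNReal.ofReal ((U x + 1 / ((n:ℝ) + 1)) ^ (-γ))) ^ (p - 1)) ^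
            (1 / (p - 1)) := by
            rw [← ENNReal.rpow_mul]
            have : (p - 1) * (1 / (p - 1)) = 1 := by field_simp
            rw [this, ENNReal.rpow_one]
        _ ≤ _ := ENNReal.rpow_le_rpow h6 (by positivity)
    calc _ ≤ W * (((B * ENNReal.ofReal ρ ^ p) / W) ^ (1 / (p - 1))) ^ (p - 1) :=
          mul_le_mul' le_rfl (ENNReal.rpow_le_rpow h5 hp1.le)
      _ = W * ((B * ENNReal.ofReal ρ ^ p) / W) := by
          rw [← ENNReal.rpow_mul]
          have : 1 / (p - 1) * (p - 1) = 1 := by field_simp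
          rw [this, ENNReal.rpow_one]
      _ = _ := ENNReal.mul_div_cancel h0 hWfin
  -- rewrite with |I| = 2ρ
  have h2ρ0 : ENNReal.ofReal (2 * ρ) ≠ 0 := by rw [Ne, ENNReal.ofReal_eq_zero]; linarith
  have h2ρp := rpow_ne h2ρ0 ENNReal.ofReal_ne_top p
  have h2ρp1 := rpow_ne h2ρ0 ENNReal.ofReal_ne_top (p - 1)
  rw [ENNReal.div_rpow_of_nonneg _ _ hp1.le]
  have e9 : ENNReal.ofReal (2 * ρ) * ENNReal.ofReal (2 * ρ) ^ (p - 1) = ENNReal.ofReal (2 * ρ) ^ p := by
    nth_rewrite 1 [← ENNReal.rpow_one (ENNReal.ofReal (2 * ρ))]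
    rw [← ENNReal.rpow_add _ _ h2ρ0 ENNReal.ofReal_ne_top]; congr 1; ring
  calc W / ENNReal.ofReal (2 * ρ) * ((∫⁻ x in ball c ρ, ENNReal.ofReal (U x) ^ (-γ)) ^ (p - 1) /
        ENNReal.ofReal (2 * ρ) ^ (p - 1))
      = (W * (∫⁻ x in ball c ρ, ENNReal.ofReal (U x) ^ (-γ)) ^ (p - 1)) /
        (ENNReal.ofReal (2 * ρ) * ENNReal.ofReal (2 * ρ) ^ (p - 1)) := by
        simp only [div_eq_mul_inv]
        rw [ENNReal.mul_inv (Or.inl h2ρ0) (Or.inl ENNReal.ofReal_ne_top)]
        ring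
    _ ≤ (B * ENNReal.ofReal ρ ^ p) / ENNReal.ofReal (2 * ρ) ^ p := by
        rw [e9]; exact ENNReal.div_le_div_right hfinal _
    _ ≤ B := by
        rw [ENNReal.div_le_iff h2ρp.1 h2ρp.2]
        refine mul_le_mul' le_rfl (ENNReal.rpow_le_rpow (ENNReal.ofReal_le_ofReal (by linarith)) hp0.le)

/-- change of the weight on a null set -/
lemma memA_congr {r : ℝ} {U U' : ℝ → ℝ} (h : U =ᵐ[volume] U') : MemA r U ↔ MemA r U' := by
  have h1 : ∀ a b : ℝ, ∫⁻ x in Ioo a b, ENNReal.ofReal (U x) =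
      ∫⁻ x in Ioo a b, ENNReal.ofReal (U' x) := fun a b => by
    refine lintegral_congr_ae (ae_restrict_of_ae ?_)
    filter_upwards [h] with x hx
    rw [hx]
  have h2 : ∀ a b : ℝ, ∫⁻ x in Ioo a b, ENNReal.ofReal (U x) ^ (-(1 / (r - 1))) =
      ∫⁻ x in Ioo a b, ENNReal.ofReal (U' x) ^ (-(1 / (r - 1))) := fun a b => by
    refine lintegral_congr_ae (ae_restrict_of_ae ?_)
    filter_upwards [h] with x hx
    rw [hx]
  unfold MemA
  simp_rw [h1, h2]

lemma memB_congr {r : ℝ} {U U' : ℝ → ℝ} (h : U =ᵐ[volume] U') : MemB r U ↔ MemB r U' := by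
  have h1 : ∀ a b : ℝ, ∫⁻ x in Ioo a b, ENNReal.ofReal (U x) =
      ∫⁻ x in Ioo a b, ENNReal.ofReal (U' x) := fun a b => by
    refine lintegral_congr_ae (ae_restrict_of_ae ?_)
    filter_upwards [h] with x hx
    rw [hx]
  have h2 : ∀ a b : ℝ,
      ∫⁻ x, ENNReal.ofReal ((b - a) ^ (r - 1) * U x / ((b - a) ^ r + |x - (a + b) / 2| ^ r)) =
      ∫⁻ x, ENNReal.ofReal ((b - a) ^ (r - 1) * U' x / ((b - a) ^ r + |x - (a + b) / 2| ^ r)) :=
    fun a b => by
    refine lintegral_congr_ae ?_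
    filter_upwards [h] with x hx
    rw [hx]
  unfold MemB
  simp_rw [h1, h2]

lemma gsi_congr {lam p : ℝ} {U U' : ℝ → ℝ} (h : U =ᵐ[volume] U') :
    GStarInequality lam p U ↔ GStarInequality lam p U' := by
  have h1 : ∀ f : ℝ → ℝ, ∫⁻ x, ENNReal.ofReal (|f x| ^ p * U x) =
      ∫⁻ x, ENNReal.ofReal (|f x| ^ p * U' x) := fun f => by
    refine lintegral_congr_ae ?_
    filter_upwards [h] with x hx
    rw [hx]
  have h2 : ∀ f : ℝ → ℝ, ∫⁻ x, gStar lam f x ^ p * ENNReal.ofReal (U x) =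
      ∫⁻ x, gStar lam f x ^ p * ENNReal.ofReal (U' x) := fun f => by
    refine lintegral_congr_ae ?_
    filter_upwards [h] with x hx
    rw [hx]
  unfold GStarInequality
  simp_rw [h1, h2]

lemma poisson_congr {f g : ℝ → ℝ} (h : f =ᵐ[volume] g) (z y : ℝ) : poisson f z y = poisson g z y := by
  rw [poisson_eq, poisson_eq]
  unfold PI
  refine integral_congr_ae ?_
  filter_upwards [h] with x hx
  rw [hx]

lemma gStar_congr {f g : ℝ → ℝ} (h : f =ᵐ[volume] g) (lam x : ℝ) : gStar lam f x = gStar lam g x := by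
  have h1 : ∀ z y, gradSq f z y = gradSq g z y := by
    intro z y
    unfold gradSq
    simp_rw [poisson_congr h]
  unfold gStar
  simp_rw [h1]

/-- sufficiency for measurable weights -/
lemma gsi_of {lam p : ℝ} (hlam1 : 1 < lam) (hlam2 : lam ≤ 2) (hp : 2 / lam < p) (hp2 : p < 2)
    {U : ℝ → ℝ} (hU : IsWeight U) (hUm : Measurable U) (hA : MemA p U) (hB : MemB (lam * p / 2) U) :
    ∃ C : ℝ≥0∞, C ≠ ∞ ∧ ∀ f : ℝ → ℝ, AEStronglyMeasurable f volume →
      ∫⁻ x, ENNReal.ofReal (|f x| ^ p * U x) ≠ ∞ →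
      (¬ U =ᵐ[volume] 0 → ∃ f', f =ᵐ[volume] f' ∧ Adm f') ∧
      ∫⁻ x, gStar lam f x ^ p * ENNReal.ofReal (U x) ≤
        C * ∫⁻ x, ENNReal.ofReal (|f x| ^ p * U x) := by
  have hlam0 : 0 < lam := by linarith
  have h2p : 2 < lam * p := by rw [div_lt_iff₀ hlam0] at hp; linarith
  have hp1 : 1 < p := by nlinarith
  have hp0 : 0 < p := by linarith
  have hpm : 0 < p - 1 := by linarith
  by_cases hU0 : U =ᵐ[volume] 0
  · refine ⟨0, by norm_num, fun f _ _ => ⟨fun h => absurd hU0 h, ?_⟩⟩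
    have : ∫⁻ x, gStar lam f x ^ p * ENNReal.ofReal (U x) = 0 := by
      rw [lintegral_congr_ae (g := fun _ => 0)]
      · simp
      · filter_upwards [hU0] with x hx
        simp [hx]
    rw [this]; exact zero_le
  obtain ⟨C, hC, hCA⟩ := hA
  obtain ⟨C', hC', hCB⟩ := hB
  -- positivity almost everywhere
  have hpos : ∀ᵐ x : ℝ, U x ≠ 0 := by
    by_contra hcon
    apply hU0
    -- there is a ball with positive mass
    by_contra hU0'
    have hmass : ∃ n : ℕ, ∫⁻ x in ball (0:ℝ) n, ENNReal.ofReal (U x) ≠ 0 := by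
      by_contra hall
      push Not at hall
      apply hU0'
      have hun : (univ : Set ℝ) = ⋃ n : ℕ, ball (0:ℝ) n := by
        symm; rw [eq_univ_iff_forall]; intro y
        obtain ⟨n, hn⟩ := exists_nat_gt |y|
        refine mem_iUnion.2 ⟨n, ?_⟩
        rw [mem_ball, Real.dist_eq, sub_zero]; exact hn
      have hdir : Directed (· ⊆ ·) (fun n : ℕ => ball (0:ℝ) n) :=
        Monotone.directed_le fun n m hnm => ball_subset_ball (by exact_mod_cast hnm)
      have h0 : ∫⁻ x, ENNReal.ofReal (U x) = 0 := by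
        rw [← setLIntegral_univ, hun, setLIntegral_iUnion_of_directed _ hdir]
        simp [hall]
      have hofm : Measurable (fun x => ENNReal.ofReal (U x)) := ENNReal.measurable_ofReal.comp hUm
      rw [lintegral_eq_zero_iff hofm] at h0
      filter_upwards [h0] with x hx
      have : ENNReal.ofReal (U x) = 0 := hx
      rw [ENNReal.ofReal_eq_zero] at this
      exact le_antisymm this (hU.nonneg x)
    have hzero : ∃ n : ℕ, volume ({x | U x = 0} ∩ ball (0:ℝ) n) ≠ 0 := by
      by_contra hall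
      push Not at hall
      apply hcon
      rw [ae_iff]
      have : {x | ¬ U x ≠ 0} ⊆ ⋃ n : ℕ, ({x | U x = 0} ∩ ball (0:ℝ) n) := by
        intro y hy
        obtain ⟨n, hn⟩ := exists_nat_gt |y|
        refine mem_iUnion.2 ⟨n, not_not.1 hy, ?_⟩
        rw [mem_ball, Real.dist_eq, sub_zero]; exact hn
      exact measure_mono_null this (measure_iUnion_null hall)
    obtain ⟨n, hn⟩ := hmass
    obtain ⟨m, hm⟩ := hzero
    set N : ℝ := max (n:ℝ) (m:ℝ) + 1 with hN
    have hnN : (n:ℝ) ≤ N := by rw [hN]; linarith [le_max_left (n:ℝ) m]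
    have hmN : (m:ℝ) ≤ N := by rw [hN]; linarith [le_max_right (n:ℝ) m]
    have hN0 : 0 < N := by
      have : (0:ℝ) ≤ n := Nat.cast_nonneg n
      have h5 := le_max_left (n:ℝ) m
      rw [hN]; linarith
    have h1 := hCA (-N) N (by linarith)
    have hball : Ioo (-N) N = ball (0:ℝ) N := by rw [Real.ball_eq_Ioo]; simp
    rw [hball] at h1
    have h2 : ∫⁻ x in ball (0:ℝ) N, ENNReal.ofReal (U x) ^ (-(1 / (p - 1))) = ∞ := by
      rw [← top_le_iff]
      have hms : MeasurableSet ({x | U x = 0} ∩ ball (0:ℝ) m) :=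
        (measurableSet_eq_fun hUm measurable_const).inter measurableSet_ball
      calc (∞ : ℝ≥0∞) = ∞ * volume ({x | U x = 0} ∩ ball (0:ℝ) m) := (ENNReal.top_mul hm).symm
        _ = ∫⁻ _ in ({x | U x = 0} ∩ ball (0:ℝ) m), ∞ := by rw [setLIntegral_const]
        _ ≤ ∫⁻ x in ({x | U x = 0} ∩ ball (0:ℝ) m), ENNReal.ofReal (U x) ^ (-(1 / (p - 1))) := by
            refine setLIntegral_mono_ae' hms (Eventually.of_forall fun x hx => ?_)
            have hx0 : U x = 0 := hx.1
            rw [hx0, ENNReal.ofReal_zero, ENNReal.zero_rpow_of_neg (by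
              have : 0 < 1 / (p - 1) := by positivity
              linarith)]
        _ ≤ _ := lintegral_mono_set (inter_subset_right.trans (ball_subset_ball hmN))
    have h3 : ∫⁻ x in ball (0:ℝ) N, ENNReal.ofReal (U x) ≠ 0 := by
      intro h0
      exact hn (le_antisymm ((lintegral_mono_set (ball_subset_ball hnN)).trans h0.le) zero_le)
    have h4 : ENNReal.ofReal (N - -N) ≠ ∞ := ENNReal.ofReal_ne_top
    rw [h2, ENNReal.top_div_of_ne_top h4, ENNReal.top_rpow_of_pos hpm, ENNReal.mul_top, top_le_iff] at h1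
    · exact hC h1
    · rw [Ne, ENNReal.div_eq_zero_iff]
      push Not
      exact ⟨h3, h4⟩
  -- the positive version
  set V : ℝ → ℝ≥0∞ := fun x => if U x = 0 then 1 else ENNReal.ofReal (U x) with hV
  have hVm : Measurable V := Measurable.ite (measurableSet_eq_fun hUm measurable_const)
    measurable_const (ENNReal.measurable_ofReal.comp hUm)
  have hVae : ∀ᵐ x : ℝ, V x = ENNReal.ofReal (U x) := by
    filter_upwards [hpos] with x hx
    rw [hV]; simp only; rw [if_neg hx]
  have hVpos : ∀ x, V x ≠ 0 := by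
    intro x
    rw [hV]; simp only
    split_ifs with hx
    · exact one_ne_zero
    · rw [Ne, ENNReal.ofReal_eq_zero, not_le]
      exact lt_of_le_of_ne (hU.nonneg x) (Ne.symm hx)
  have hVfin : ∀ x, V x ≠ ∞ := by
    intro x
    rw [hV]; simp only
    split_ifs
    · exact ENNReal.one_ne_top
    · exact ENNReal.ofReal_ne_top
  have hball : ∀ c r : ℝ, ball c r = Ioo (c - r) (c + r) := fun c r => Real.ball_eq_Ioo c r
  have hAP : AP p V (C * ENNReal.ofReal 2 ^ p) :=
    { meas := hVm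
      pos := hVpos
      fin := hVfin
      Qfin := ENNReal.mul_ne_top hC (ENNReal.rpow_ne_top_of_nonneg hp0.le ENNReal.ofReal_ne_top)
      ap := by
        intro c r hr
        have h1 := hCA (c - r) (c + r) (by linarith)
        rw [← hball] at h1
        have e1 : ∫⁻ x in ball c r, V x = ∫⁻ x in ball c r, ENNReal.ofReal (U x) :=
          lintegral_congr_ae (ae_restrict_of_ae hVae)
        have e2 : ∫⁻ x in ball c r, sg p V x =
            ∫⁻ x in ball c r, ENNReal.ofReal (U x) ^ (-(1 / (p - 1))) := by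
          refine lintegral_congr_ae (ae_restrict_of_ae ?_)
          filter_upwards [hVae] with x hx
          unfold sg; rw [hx]
        have e3 : c + r - (c - r) = 2 * r := by ring
        rw [e1, e2]
        rw [e3] at h1
        set X := ∫⁻ x in ball c r, ENNReal.ofReal (U x)
        set Y := ∫⁻ x in ball c r, ENNReal.ofReal (U x) ^ (-(1 / (p - 1)))
        set L := ENNReal.ofReal (2 * r) with hL
        have hL0 : L ≠ 0 := by rw [hL, Ne, ENNReal.ofReal_eq_zero]; linarith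
        have hLf : L ≠ ∞ := ENNReal.ofReal_ne_top
        have hLp := rpow_ne hL0 hLf (p - 1)
        have e4 : L * L ^ (p - 1) = L ^ p := by
          nth_rewrite 1 [← ENNReal.rpow_one L]
          rw [← ENNReal.rpow_add _ _ hL0 hLf]; congr 1; ring
        calc X * Y ^ (p - 1) = (X / L * L) * ((Y / L) ^ (p - 1) * L ^ (p - 1)) := by
              rw [ENNReal.div_mul_cancel hL0 hLf, ENNReal.div_rpow_of_nonneg _ _ hpm.le,
                ENNReal.div_mul_cancel hLp.1 hLp.2]
          _ = (X / L * (Y / L) ^ (p - 1)) * (L * L ^ (p - 1)) := by ring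
          _ ≤ C * L ^ p := by rw [e4]; exact mul_le_mul' h1 le_rfl
          _ = _ := by
              rw [hL, ENNReal.ofReal_mul (by norm_num), ENNReal.mul_rpow_of_nonneg _ _ hp0.le]
              ring }
  have hBR : BR (lam * p / 2) V C' := by
    intro c ρ hρ
    set r := lam * p / 2 with hr
    have hr0 : 0 ≤ r := by positivity
    have h1 := hCB (c - ρ) (c + ρ) (by linarith)
    rw [← hball] at h1
    have e1 : ∫⁻ x in ball c ρ, V x = ∫⁻ x in ball c ρ, ENNReal.ofReal (U x) :=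
      lintegral_congr_ae (ae_restrict_of_ae hVae)
    have e3 : c + ρ - (c - ρ) = 2 * ρ := by ring
    have e4 : (c - ρ + (c + ρ)) / 2 = c := by ring
    rw [e3, e4] at h1
    rw [e1]
    have hL0 : ENNReal.ofReal (2 * ρ) ≠ 0 := by rw [Ne, ENNReal.ofReal_eq_zero]; linarith
    calc ∫⁻ x, ENNReal.ofReal (ρ ^ r / (ρ ^ r + |x - c| ^ r)) * V x
        ≤ ∫⁻ x, ENNReal.ofReal (2 * ρ) * ENNReal.ofReal ((2 * ρ) ^ (r - 1) * U x /
          ((2 * ρ) ^ r + |x - c| ^ r)) := by
          refine lintegral_mono_ae ?_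
          filter_upwards [hVae] with x hx
          have hUx := hU.nonneg x
          rw [hx, ← ENNReal.ofReal_mul (by positivity), ← ENNReal.ofReal_mul (by positivity)]
          refine ENNReal.ofReal_le_ofReal ?_
          have hd := abs_nonneg (x - c)
          have hdr : 0 ≤ |x - c| ^ r := Real.rpow_nonneg hd r
          have hρr : 0 < ρ ^ r := Real.rpow_pos_of_pos hρ r
          have h2ρr : 0 < (2 * ρ) ^ r := Real.rpow_pos_of_pos (by positivity) r
          have hle : ρ ^ r ≤ (2 * ρ) ^ r := Real.rpow_le_rpow hρ.le (by linarith) hr0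
          have e5 : (2 * ρ) ^ (r - 1) = (2 * ρ) ^ r / (2 * ρ) := Real.rpow_sub_one (by positivity) r
          rw [e5]
          have e6 : 2 * ρ * ((2 * ρ) ^ r / (2 * ρ) * U x / ((2 * ρ) ^ r + |x - c| ^ r)) =
              (2 * ρ) ^ r / ((2 * ρ) ^ r + |x - c| ^ r) * U x := by
            have : (2 * ρ) ^ r + |x - c| ^ r ≠ 0 := by positivity
            field_simp
          rw [e6]
          refine mul_le_mul_of_nonneg_right ?_ hUx
          rw [div_le_div_iff₀ (by positivity) (by positivity)]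
          nlinarith [mul_le_mul_of_nonneg_right hle hdr]
      _ = ENNReal.ofReal (2 * ρ) * ∫⁻ x, ENNReal.ofReal ((2 * ρ) ^ (r - 1) * U x /
          ((2 * ρ) ^ r + |x - c| ^ r)) := lintegral_const_mul' _ _ ENNReal.ofReal_ne_top
      _ ≤ ENNReal.ofReal (2 * ρ) * (C' / ENNReal.ofReal (2 * ρ) *
          ∫⁻ x in ball c ρ, ENNReal.ofReal (U x)) := mul_le_mul' le_rfl h1
      _ = _ := by
          rw [← mul_assoc, ENNReal.mul_div_cancel hL0 ENNReal.ofReal_ne_top]
  obtain ⟨M, hM, hMf⟩ := suff hlam1 hlam2 hp hp2 hAP hC' hBR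
  refine ⟨M, hM, fun f hf hfin => ?_⟩
  -- measurable version of f
  set f' := hf.mk f with hf'
  have hff' : f =ᵐ[volume] f' := hf.ae_eq_mk
  have hf'm : Measurable f' := hf.stronglyMeasurable_mk.measurable
  have e7 : ∫⁻ x, ENNReal.ofReal (|f x| ^ p * U x) = ∫⁻ x, V x * ENNReal.ofReal |f' x| ^ p := by
    refine lintegral_congr_ae ?_
    filter_upwards [hVae, hff'] with x hx hfx
    rw [hx, hfx, ENNReal.ofReal_mul (by positivity), ENNReal.ofReal_rpow_of_nonneg (abs_nonneg _) hp0.le,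
      mul_comm]
  rw [e7] at hfin ⊢
  obtain ⟨hadm, hfinal⟩ := hMf f' hf'm hfin
  refine ⟨fun _ => ⟨f', hff', hadm⟩, ?_⟩
  refine le_trans (le_of_eq ?_) hfinal
  refine lintegral_congr_ae ?_
  filter_upwards [hVae] with x hx
  rw [gStar_congr hff', gStar_rpow hadm, hx, mul_comm]

/-- absolute convergence of the Poisson integral -/
lemma adm_int {f f' : ℝ → ℝ} (h : f =ᵐ[volume] f') (hf' : Adm f') (z : ℝ) {y : ℝ} (hy : 0 < y) :
    Integrable (fun x => y * f (z - x) / (x ^ 2 + y ^ 2)) := by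
  have h1 : Integrable (fun x => P y (z - x) * f x) := by
    refine (hf'.int_P hy z).congr ?_
    filter_upwards [h] with x hx
    rw [hx]
  have h2 := (h1.comp_sub_left z).const_mul π
  refine h2.congr (Eventually.of_forall fun x => ?_)
  simp only
  unfold P
  rw [sub_sub_cancel]
  field_simp

/-- **Characterisation.** -/
theorem characterisation {lam p : ℝ} (hlam1 : 1 < lam) (hlam2 : lam ≤ 2) (hp : 2 / lam < p)
    (hp2 : p < 2) {U : ℝ → ℝ} (hU : IsWeight U) :
    (GStarInequality lam p U ↔ MemA p U ∧ MemB (lam * p / 2) U) ∧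
    (GStarInequality lam p U → ¬ U =ᵐ[volume] 0 → ∀ f : ℝ → ℝ, AEStronglyMeasurable f volume →
      ∫⁻ x, ENNReal.ofReal (|f x| ^ p * U x) ≠ ∞ → ∀ z y : ℝ, 0 < y →
        Integrable (fun x => y * f (z - x) / (x ^ 2 + y ^ 2))) := by
  have hlam0 : 0 < lam := by linarith
  have h2p : 2 < lam * p := by rw [div_lt_iff₀ hlam0] at hp; linarith
  have hp1 : 1 < p := by nlinarith
  -- measurable version
  have hsm := hU.locInt.aestronglyMeasurable
  set U' : ℝ → ℝ := fun x => |hsm.mk U x| with hU'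
  have hae : U =ᵐ[volume] U' := by
    filter_upwards [hsm.ae_eq_mk] with x hx
    rw [hU']; simp only
    rw [← hx, abs_of_nonneg (hU.nonneg x)]
  have hU'm : Measurable U' := hsm.stronglyMeasurable_mk.measurable.abs
  have hU'w : IsWeight U' := ⟨fun x => abs_nonneg _, hU.locInt.congr hae⟩
  have hnec : GStarInequality lam p U' → MemA p U' ∧ MemB (lam * p / 2) U' := fun h =>
    ⟨memA_of hlam0.le hp1 hU'w hU'm h, memB_of hlam0.le (by linarith) hU'w hU'm h⟩
  constructor
  · rw [gsi_congr hae, memA_congr hae, memB_congr hae]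
    refine ⟨hnec, ?_⟩
    rintro ⟨h1, h2⟩
    obtain ⟨C, hC, hCf⟩ := gsi_of hlam1 hlam2 hp hp2 hU'w hU'm h1 h2
    exact ⟨C, hC, fun f hf hfin => (hCf f hf hfin).2⟩
  · intro h h0 f hf hfin z y hy
    obtain ⟨h1, h2⟩ := hnec ((gsi_congr hae).1 h)
    obtain ⟨C, hC, hCf⟩ := gsi_of hlam1 hlam2 hp hp2 hU'w hU'm h1 h2
    have e1 : ∫⁻ x, ENNReal.ofReal (|f x| ^ p * U x) = ∫⁻ x, ENNReal.ofReal (|f x| ^ p * U' x) := by
      refine lintegral_congr_ae ?_
      filter_upwards [hae] with x hx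
      rw [hx]
    rw [e1] at hfin
    obtain ⟨f', hff', hadm⟩ := (hCf f hf hfin).1 (fun h' => h0 (hae.trans h'))
    exact adm_int hff' hadm z hy

end Pool.Agent.Zk22.GL
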