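import Pool.Agent.Zk22.Ext2

/-!
# The iteration, starting from Wolff's exponent
-/

set_option autoImplicit false
set_option linter.unusedVariables false

open Finset
open scoped Classical

namespace Pool.Agent.Zk22
open Pool.Agent.W904.AK Pool.Agent.W46.HD Pool.Agent.W46.HM Pool.Agent.Y244.HM
  Pool.Agent.W597.HD Pool.Agent.Y254HK

theorem AllX.mono {d : ℕ} {b c G : ℝ} (hbc : b ≤ c) (h : AllX d b G) : AllX d c G := by
  intro ε hε
  obtain ⟨C, hC, h⟩ := h ε hε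
  refine ⟨C, hC, ?_⟩
  intro n Ω _ A D hfam p hp
  have h1 := h n Ω A D hfam p hp
  have h2 : b * gp A D p ≤ c * gp A D p := mul_le_mul_of_nonneg_right hbc (gp_nonneg hp)
  linarith

theorem AllX_closed {d : ℕ} {m G : ℝ} (h : ∀ c : ℝ, m < c → AllX d c G) : AllX d m G := by
  intro ε hε
  set η : ℝ := ε / (2 * (d + 1)) with hη
  have hη0 : 0 < η := by positivity
  have hηd : η * d ≤ ε / 2 := by
    have e : η * (d + 1) = ε / 2 := by rw [hη]; field_simp
    nlinarith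
  obtain ⟨C, hC, h⟩ := h (m + η) (by linarith) (ε / 2) (by linarith)
  refine ⟨C + ε / 2, by positivity, ?_⟩
  intro n Ω _ A D hfam p hp
  have h1 := h n Ω A D hfam p hp
  have h2 := gp_le_aa (A := A) (D := D) hp
  have h3 := aa_le hfam hp
  have hN : 0 ≤ Real.log n := Real.log_nonneg (by exact_mod_cast hfam.pos)
  have h4 : η * gp A D p ≤ η * (d * (1 + Real.log n)) :=
    mul_le_mul_of_nonneg_left (h2.trans h3) hη0.le
  have h5 : η * (d * (1 + Real.log n)) = (η * d) * (1 + Real.log n) := by ring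
  have h6 : (η * d) * (1 + Real.log n) ≤ (ε / 2) * (1 + Real.log n) :=
    mul_le_mul_of_nonneg_right hηd (by linarith)
  have h7 : (m + η) * gp A D p = m * gp A D p + η * gp A D p := by ring
  rw [h7] at h1
  linarith

/-- Wolff's exponent. -/
theorem startX {d : ℕ} (hd : 2 ≤ d) : AllX d (2 * d / (d + 1)) d := by
  have hdR : (2 : ℝ) ≤ d := by exact_mod_cast hd
  have hd0 : (0 : ℝ) < d := by linarith
  have h1 := stepX (d := d) (M := 1) (Γ := 1) (P := 2) (K := 2) (G := d) (by omega) le_rfl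
    zero_le_one (by
      have : (d : ℝ) * (1 + 1 / d) = d + 1 := by field_simp
      rw [this]; linarith) (core_wolff d)
  have e : (2 : ℝ) / (1 + 1 / d) = 2 * d / (d + 1) := by field_simp
  rw [e] at h1
  refine t_extX ?_ le_rfl h1
  rw [le_div_iff₀ (by linarith)]
  linarith

/-- The iteration. -/
theorem iterX {d : ℕ} (hd : 2 ≤ d) {c : ℝ} (hc1 : 1 < c)
    (hw : ∀ m : ℝ, c ≤ m → m ≤ 2 * d / (d + 1) → ∃ w : ℝ, 0 ≤ w ∧
      3 * m ^ 2 + m - 1 - d * (m ^ 2 - 1) ≤ (d - 1) * w ∧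
      w * (2 * d - m * (d + 1)) < d * (m ^ 3 - 4 * m + 2) + m * (3 * m - 1 - m ^ 2)) :
    AllX d c d := by
  have hdR : (2 : ℝ) ≤ d := by exact_mod_cast hd
  have hd0 : (0 : ℝ) < d := by linarith
  by_contra hno
  set s : ℝ := 2 * d / (d + 1) with hs
  have hs1 : 1 < s := by
    rw [hs, lt_div_iff₀ (by linarith)]
    linarith
  have hs2 : s ≤ 2 := by
    rw [hs, div_le_iff₀ (by linarith)]
    linarith
  set I : Set ℝ := {x | 1 < x ∧ AllX d x d} with hI
  have hI0 : s ∈ I := ⟨hs1, startX hd⟩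
  have hIc : ∀ x ∈ I, c ≤ x := by
    intro x hx
    by_contra hlt
    push Not at hlt
    exact hno (hx.2.mono hlt.le)
  have hbdd : BddBelow I := ⟨c, hIc⟩
  set m : ℝ := sInf I with hm
  have hcm : c ≤ m := le_csInf ⟨_, hI0⟩ hIc
  have hms : m ≤ s := csInf_le hbdd hI0
  have hmE : AllX d m d := by
    apply AllX_closed
    intro y hy
    obtain ⟨x, hx, hxy⟩ := exists_lt_of_csInf_lt ⟨_, hI0⟩ hy
    exact hx.2.mono hxy.le
  have hm1 : 1 < m := by linarith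
  obtain ⟨w, hw0, hwK, hwS⟩ := hw m hcm hms
  set Γ : ℝ := 3 * m - 1 - m ^ 2 with hΓ
  have hΓ0 : 0 < Γ := by rw [hΓ]; nlinarith
  have hcore := (core_hyb hm1 (hms.trans hs2) (Nat.cast_nonneg d) hmE).mix (core_wolff d) hw0
  have hM1 : 1 ≤ m ^ 2 + 3 * m - 2 + w * 1 := by nlinarith
  have hΓw : 0 ≤ 3 * m - 1 - m ^ 2 + w * 1 := by linarith
  have hstep := stepX (d := d) (G := d) (by omega) hM1 hΓw (by
    have e : (d : ℝ) * (m ^ 2 + 3 * m - 2 + w * 1 + (3 * m - 1 - m ^ 2 + w * 1) / d) =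
        d * (m ^ 2 + 3 * m - 2 + w) + (3 * m - 1 - m ^ 2 + w) := by field_simp
    rw [e]
    nlinarith) hcore
  set M' : ℝ := m ^ 2 + 3 * m - 2 + w * 1 + (3 * m - 1 - m ^ 2 + w * 1) / d with hM'
  have hΓd : 0 ≤ (3 * m - 1 - m ^ 2 + w * 1) / d := by positivity
  have hM'0 : 0 < M' := by rw [hM']; linarith
  have hdM : d * M' = d * (m ^ 2 + 3 * m - 2 + w) + (3 * m - 1 - m ^ 2 + w) := by
    rw [hM']; field_simp
  have h1le : 1 < (3 * m ^ 2 + 2 * m - 2 + w * 2) / M' := by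
    rw [lt_div_iff₀ hM'0, one_mul]
    have h1 : d * M' < d * (3 * m ^ 2 + 2 * m - 2 + w * 2) := by
      rw [hdM]
      nlinarith [mul_nonneg hw0 (by linarith : (0 : ℝ) ≤ d - 2),
        mul_nonneg (by linarith : (0 : ℝ) ≤ d - 2) (by nlinarith : 0 ≤ 2 * m ^ 2 - m)]
    exact lt_of_mul_lt_mul_left h1 hd0.le
  have hmem : (3 * m ^ 2 + 2 * m - 2 + w * 2) / M' ∈ I := ⟨h1le, t_extX h1le.le le_rfl hstep⟩
  have h2 : m ≤ (3 * m ^ 2 + 2 * m - 2 + w * 2) / M' := csInf_le hbdd hmem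
  rw [le_div_iff₀ hM'0] at h2
  have h4 : m * (d * M') ≤ d * (3 * m ^ 2 + 2 * m - 2 + w * 2) := by
    have := mul_le_mul_of_nonneg_left h2 hd0.le
    linarith
  rw [hdM] at h4
  nlinarith

/-- Dimensions `n ≥ 7`. -/
theorem allX_ge6 {d : ℕ} (hd : 6 ≤ d) {c : ℝ} (hc1 : 1 < c)
    (hc : 0 < d * (c ^ 3 - 4 * c + 2) + c * (3 * c - 1 - c ^ 2)) : AllX d c d := by
  have hdR : (6 : ℝ) ≤ d := by exact_mod_cast hd
  have hd0 : (0 : ℝ) < d := by linarith
  -- lower bound for `c`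
  have hc8 : 3 / 2 < c := by
    by_contra hlt
    push Not at hlt
    have h1 : c ^ 3 - 4 * c + 2 ≤ -(5 / 8) := by
      nlinarith [mul_nonneg (by linarith : 0 ≤ c - 1) (by linarith : 0 ≤ 3 / 2 - c),
        mul_nonneg (mul_nonneg (by linarith : 0 ≤ c - 1) (by linarith : 0 ≤ 3 / 2 - c))
          (by linarith : 0 ≤ c)]
    have h2 : (d : ℝ) * (c ^ 3 - 4 * c + 2) ≤ 6 * (-(5 / 8)) := by
      nlinarith
    have h3 : c * (3 * c - 1 - c ^ 2) ≤ 2 := by
      have h4 : 3 * c - 1 - c ^ 2 ≤ 5 / 4 := by nlinarith [sq_nonneg (c - 3 / 2)]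
      have h5 : c * (3 * c - 1 - c ^ 2) ≤ c * (5 / 4) := mul_le_mul_of_nonneg_left h4 (by linarith)
      linarith
    linarith
  refine iterX (by omega) hc1 fun m hm hms => ⟨0, le_rfl, ?_, ?_⟩
  · rw [mul_zero]
    nlinarith [mul_nonneg (by linarith : (0 : ℝ) ≤ d - 6) (by nlinarith : 0 ≤ m ^ 2 - 1)]
  · rw [zero_mul]
    have hm2 : m ≤ 2 := by
      refine hms.trans ?_
      rw [div_le_iff₀ (by linarith)]
      linarith
    have h5 : (m - c) * (d * (m ^ 2 + m * c + c ^ 2 - 4) +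
        (3 * (m + c) - 1 - (m ^ 2 + m * c + c ^ 2))) =
        (d * (m ^ 3 - 4 * m + 2) + m * (3 * m - 1 - m ^ 2)) -
          (d * (c ^ 3 - 4 * c + 2) + c * (3 * c - 1 - c ^ 2)) := by
      ring
    have h6 : 0 ≤ (m - c) * (d * (m ^ 2 + m * c + c ^ 2 - 4) +
        (3 * (m + c) - 1 - (m ^ 2 + m * c + c ^ 2))) := by
      apply mul_nonneg (by linarith)
      have h7 : 11 / 4 ≤ m ^ 2 + m * c + c ^ 2 - 4 := by nlinarith
      have h8 : m ^ 2 + m * c + c ^ 2 ≤ 12 := by nlinarith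
      have h9 : 6 * (11 / 4) ≤ (d : ℝ) * (m ^ 2 + m * c + c ^ 2 - 4) := by
        nlinarith
      linarith
    linarith

/-- Dimension `n = 6`. -/
theorem allX_5 {c : ℝ} (hc1 : 1 < c) (hc : 0 < 2 * c ^ 2 + 19 * c - 35) : AllX 5 c 5 := by
  have h := iterX (d := 5) (by norm_num) hc1 (by
    intro m hm hms
    push_cast at hms
    have hms' : m ≤ 5 / 3 := by linarith
    refine ⟨(4 + m - 2 * m ^ 2) / 4, ?_, ?_, ?_⟩
    · nlinarith
    · push_cast
      nlinarith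
    · push_cast
      have h1 : 0 < 2 * m ^ 2 + 19 * m - 35 := by nlinarith
      have h2 : 0 < m * (2 * m ^ 2 + 19 * m - 35) := mul_pos (by linarith) h1
      nlinarith)
  push_cast at h
  exact h

end Pool.Agent.Zk22
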