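import Pool.Agent.Y254.HK.StmG

/-!
# The hybrid argument with the sharp coefficient of the mutual information

Set-up of `Pool.Agent.Y254.HK.Stm`.  The oracle is used in the form
`aa ≤ b * gp + G * lam + M`, where `gp` is the entropy of the point minus the entropy of the height
given the line.
-/

set_option autoImplicit false

open Finset
open scoped Classical

namespace Pool.Agent.Zk22
open Pool.Agent.W904.AK Pool.Agent.W46.HD Pool.Agent.W46.HM Pool.Agent.Y244.HM
  Pool.Agent.W597.HD Pool.Agent.Y254HK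

section Defs

variable {Ω : Type} [Fintype Ω] {d n : ℕ}

/-- Entropy of the point minus the entropy of the height given the line. -/
noncomputable def gp (A D : Ω → Fin d → ℝ) (p : Ω × Fin n → ℝ) : ℝ := hh A D p + mi p

/-- General oracle in the new form. -/
def OrS (n : ℕ) (A D : Ω → Fin d → ℝ) (b G C : ℝ) : Prop :=
  ∀ p : Ω × Fin n → ℝ, IsLaw p → aa p ≤ b * gp A D p + G * lam p + C

theorem gp_eq (A D : Ω → Fin d → ℝ) (p : Ω × Fin n → ℝ) :
    gp A D p = H p (fun z => (z.2, cell A D z.2 z.1)) - (H p id - H p Prod.fst) := by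
  unfold gp hh mi
  ring

end Defs

/-- The general oracle with exponent `b`, coefficient `G` of the deficiency and loss `n ^ ε`. -/
def AllX (d : ℕ) (b G : ℝ) : Prop := ∀ ε : ℝ, 0 < ε → ∃ C : ℝ, 0 ≤ C ∧
    ∀ (n : ℕ) (Ω : Type) [Fintype Ω] (A D : Ω → Fin d → ℝ), IsFam n D →
      OrS n A D b G (ε * Real.log n + C)

/-- The oracle for two-ends, broad laws. -/
def AllXB (d : ℕ) (b G : ℝ) : Prop := ∀ ε : ℝ, 0 < ε → ∃ C : ℝ, 0 ≤ C ∧
    ∀ (n : ℕ) (Ω : Type) [Fintype Ω] (A D : Ω → Fin d → ℝ), IsFam n D →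
    ∀ p : Ω × Fin n → ℝ, IsLaw p → ∀ S : ℝ, SepM p S → ang A D p ≤ S →
      aa p ≤ b * gp A D p + G * lam p + ε * Real.log n + C * (1 + S)

/-- An inequality `M aa + Γ log n ≤ P gp + K lam` for two-ends, broad laws. -/
def CoreX (d : ℕ) (M Γ P K : ℝ) : Prop := ∀ ε : ℝ, 0 < ε → ∃ C : ℝ, 0 ≤ C ∧
    ∀ (n : ℕ) (Ω : Type) [Fintype Ω] (A D : Ω → Fin d → ℝ), IsFam n D →
    ∀ p : Ω × Fin n → ℝ, IsLaw p → ∀ S : ℝ, SepM p S → ang A D p ≤ S →
      M * aa p + Γ * Real.log n ≤
        P * gp A D p + K * lam p + ε * Real.log n + C * (1 + S)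

/-- The conditional oracle. -/
theorem OCS {d n : ℕ} {Ω : Type} [Fintype Ω] {A D : Ω → Fin d → ℝ} {b G C : ℝ}
    (hO : OrS n A D b G C) {Θ : Type} [Fintype Θ] {γ : Type} {q : Θ → ℝ} (l : Θ → Ω)
    (j : Θ → Fin n) (Q : Θ → γ) (hq : IsLaw q) :
    H q (fun z => (Q z, l z)) - H q Q ≤
      b * ((H q (fun z => (Q z, j z, cell A D (j z) (l z))) - H q Q) -
        (H q (fun z => (Q z, l z, j z)) - H q (fun z => (Q z, l z)))) +
      G * (Real.log n - (H q (fun z => (Q z, l z, j z)) - H q (fun z => (Q z, l z)))) + C := by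
  have e0 := chain hq Q l
  have e1 := chain hq Q (fun z => (j z, cell A D (j z) (l z)))
  have e3 := chain hq Q (fun z => (l z, j z))
  have key : ∀ x, q x * H (cd q Q (Q x)) l ≤
      b * (q x * H (cd q Q (Q x)) (fun z => (j z, cell A D (j z) (l z))) -
        (q x * H (cd q Q (Q x)) (fun z => (l z, j z)) - q x * H (cd q Q (Q x)) l)) +
      (G * (q x * Real.log n - (q x * H (cd q Q (Q x)) (fun z => (l z, j z)) -
        q x * H (cd q Q (Q x)) l)) + q x * C) := by
    intro x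
    by_cases hx : q x = 0
    · simp [hx]
    · have hlaw : IsLaw (cd q Q (Q x)) := cd_law hq Q (im_pos hq Q hx).ne'
      have h1 := hO (im (cd q Q (Q x)) fun z => (l z, j z)) (hlaw.im _)
      rw [gp_eq] at h1
      unfold aa lam at h1
      simp only [H_im, id_eq] at h1
      have h2 := mul_le_mul_of_nonneg_left h1 (hq.nonneg x)
      refine h2.trans (le_of_eq ?_)
      ring
  have hsum := Finset.sum_le_sum fun x (_ : x ∈ (Finset.univ : Finset Θ)) => key x
  rw [Finset.sum_add_distrib, Finset.sum_add_distrib,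
    ← Finset.mul_sum, ← Finset.mul_sum,
    Finset.sum_sub_distrib, Finset.sum_sub_distrib, Finset.sum_sub_distrib,
    Finset.sum_sub_distrib, ← Finset.sum_mul,
    ← Finset.sum_mul, hq.total, ← e0, ← e1, ← e3] at hsum
  refine hsum.trans (le_of_eq ?_)
  ring

/-! ### The configuration -/

/-- The configuration of `CfgU` with the exact entropies. -/
structure CfgV {Ω : Type} [Fintype Ω] {d n : ℕ} (A D : Ω → Fin d → ℝ) (p : Ω × Fin n → ℝ) (S : ℝ)
    {Θ : Type} [Fintype Θ] (q : Θ → ℝ) (l1 l2 l3 : Θ → Ω) (s0 s1 t t' τ v : Θ → Fin n) :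
    Prop extends CfgU A D p S q l1 l2 l3 s0 s1 t t' τ v where
  et : H q (fun z => (t z, cell A D (t z) (l1 z))) = gp A D p + (Real.log n - lam p)
  et' : H q (fun z => (t' z, cell A D (t' z) (l3 z))) = gp A D p + (Real.log n - lam p)
  eτ : H q (fun z => (τ z, cell A D (τ z) (l2 z))) = gp A D p + (Real.log n - lam p)
  ev : H q (fun z => (v z, cell A D (v z) (l2 z))) = gp A D p + (Real.log n - lam p)
  es : H q (fun z => (s1 z, cell A D (s1 z) (l1 z))) = gp A D p + (Real.log n - lam p)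
  el : H q l3 = aa p
  e0 : 2 * aa p - gp A D p + (Real.log n - lam p) ≤ H q (fun z => (l1 z, l3 z, s0 z))
  e1 : 2 * aa p - gp A D p + 2 * (Real.log n - lam p) ≤ H q (fun z => (l1 z, l3 z, s0 z, s1 z))
  e4 : 3 * aa p - 2 * gp A D p + 3 * (Real.log n - lam p) ≤
    H q (fun z => (l1 z, l2 z, l3 z, s0 z, s1 z, v z))
  mar3 : H q (fun z => (s0 z, v z, cell A D (s0 z) (l1 z), cell A D (v z) (l2 z))) +
      aa p - gp A D p ≤ H q (fun z => (s0 z, v z, cell A D (v z) (l2 z), l3 z))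
  sl : H q (fun z => (l3 z, s0 z)) = aa p + (Real.log n - lam p)

end Pool.Agent.Zk22
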