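import Pool.Agent.Zk22.Iter

/-!
# From the new form of the oracle to tubes (edit of `Y244/HK/P10.lean` and `Y254/HK/Final.lean`)
-/

set_option autoImplicit false
set_option linter.unusedVariables false

open Finset MeasureTheory
open scoped Classical ENNReal

namespace Pool.Agent.Zk22
open Pool.Agent.W904.AK Pool.Agent.W46.HD Pool.Agent.W46.HM Pool.Agent.W46.KK Pool.Agent.Y254HK
  Pool.Agent.Y244.HM Pool.Agent.Y244.HK

theorem levX {d : ℕ} (hd : 1 ≤ d) {c : ℝ} (hc1 : 1 < c) (h : AllX d c d) {ε : ℝ} (hε : 0 < ε) :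
    ∃ C : ℝ, 0 ≤ C ∧
    ∀ (n : ℕ) (Ω : Type) [Fintype Ω] [Nonempty Ω] (A D : Ω → Fin d → ℝ), IsFam n D →
    ∀ (F : Finset (Fin n × (Fin d → ℤ))) (m : ℝ), 1 ≤ m →
    (∀ x ∈ F, m ≤ mult A D x.1 x.2) →
    (F.card : ℝ) ≤ (C * (n : ℝ) ^ ε) * n * (Fintype.card Ω : ℝ) ^ (-(1 : ℝ) / d) *
      ((Fintype.card Ω : ℝ) / m) ^ (1 + c / d) := by
  have hdq : (0 : ℝ) < d := by
    have : 0 < d := by omega
    exact_mod_cast this
  obtain ⟨C0, hC0, hS⟩ := h (d * ε) (by positivity)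
  refine ⟨Real.exp (C0 / d), (Real.exp_pos _).le, ?_⟩
  intro n Ω _ _ A D hfam F m hm hF
  have hn : (1 : ℝ) ≤ n := by exact_mod_cast hfam.pos
  have hM : (1 : ℝ) ≤ (Fintype.card Ω : ℝ) := by exact_mod_cast Fintype.card_pos
  have hdp : (0 : ℝ) < d := by
    have : 0 < d := by omega
    exact_mod_cast this
  rcases F.eq_empty_or_nonempty with hE | hE
  · rw [hE, Finset.card_empty, Nat.cast_zero]
    positivity
  obtain ⟨Inc, hInc⟩ : ∃ Inc : Finset (Ω × Fin n),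
      Inc = Finset.univ.filter fun z : Ω × Fin n => (z.2, cell A D z.2 z.1) ∈ F := ⟨_, rfl⟩
  have hcard : m * F.card ≤ Inc.card := by
    have h1 : Inc.card = ∑ x ∈ F, mult A D x.1 x.2 := by
      have h0 := Finset.card_eq_sum_card_fiberwise
        (s := Finset.univ.filter fun z : Ω × Fin n => (z.2, cell A D z.2 z.1) ∈ F)
        (f := fun z : Ω × Fin n => (z.2, cell A D z.2 z.1)) (t := F)
        (fun z hz => by simpa using hz)
      rw [hInc, h0]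
      refine Finset.sum_congr rfl fun x hx => ?_
      unfold mult
      refine Finset.card_bij (fun z _ => z.1) ?_ ?_ ?_
      · intro z hz
        rw [Finset.mem_filter, Finset.mem_filter] at hz
        rw [Finset.mem_filter]
        refine ⟨Finset.mem_univ _, ?_⟩
        rw [← hz.2]
      · intro z hz z' hz' hzz
        rw [Finset.mem_filter] at hz hz'
        have e1 := congrArg Prod.fst (hz.2.trans hz'.2.symm)
        exact Prod.ext hzz e1
      · intro w hw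
        rw [Finset.mem_filter] at hw
        refine ⟨(w, x.1), ?_, rfl⟩
        rw [Finset.mem_filter, Finset.mem_filter]
        have e1 : (x.1, cell A D x.1 w) = x := by rw [hw.2]
        exact ⟨⟨Finset.mem_univ _, by rw [e1]; exact hx⟩, e1⟩
    rw [h1, mul_comm]
    push_cast
    rw [← nsmul_eq_mul]
    exact Finset.card_nsmul_le_sum F _ m hF
  have hFc : (0 : ℝ) < F.card := by exact_mod_cast hE.card_pos
  have hIc : (0 : ℝ) < Inc.card := lt_of_lt_of_le (by positivity) hcard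
  have hIne : Inc.Nonempty := by
    rw [← Finset.card_pos]
    exact_mod_cast hIc
  obtain ⟨p, hlaw, hp, hid⟩ := Pool.Agent.W372.HM.H_id_unif Inc hIne
  have hmain := hS n Ω A D hfam p hlaw
  have hJ : H p (fun z => (z.2, cell A D z.2 z.1)) ≤ Real.log F.card := by
    refine H_le_log_card hlaw _ F fun z hz => ?_
    have : z ∈ Inc := hp z hz
    rw [hInc, Finset.mem_filter] at this
    exact this.2
  have hh1 : H p Prod.fst ≤ Real.log (Fintype.card Ω) := by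
    have := H_le_log_card hlaw (Prod.fst : Ω × Fin n → Ω) Finset.univ
      (fun _ _ => Finset.mem_univ _)
    rwa [Finset.card_univ] at this
  have hi : Real.log m + Real.log F.card ≤ Real.log Inc.card := by
    rw [← Real.log_mul (by positivity) (by positivity)]
    exact Real.log_le_log (by positivity) hcard
  rw [gp_eq] at hmain
  unfold aa lam at hmain
  rw [hid] at hmain
  obtain ⟨J, hJ'⟩ : ∃ J, J = H p (fun z => (z.2, cell A D z.2 z.1)) := ⟨_, rfl⟩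
  obtain ⟨a, ha'⟩ : ∃ a, a = H p Prod.fst := ⟨_, rfl⟩
  obtain ⟨i, hi'⟩ : ∃ i, i = Real.log Inc.card := ⟨_, rfl⟩
  obtain ⟨f, hf'⟩ : ∃ f, f = Real.log F.card := ⟨_, rfl⟩
  obtain ⟨LM, hLM⟩ : ∃ LM, LM = Real.log (Fintype.card Ω) := ⟨_, rfl⟩
  obtain ⟨Lm, hLm⟩ : ∃ Lm, Lm = Real.log m := ⟨_, rfl⟩
  obtain ⟨Ln, hLn⟩ : ∃ Ln, Ln = Real.log n := ⟨_, rfl⟩
  rw [← hJ', ← ha', ← hi', ← hLn] at hmain
  rw [← hJ', ← hf'] at hJ
  rw [← ha', ← hLM] at hh1
  rw [← hLm, ← hf', ← hi'] at hi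
  have hd1 : (1 : ℝ) ≤ d := by exact_mod_cast hd
  have hfin : d * f ≤ d * Ln - LM + (d + c) * (LM - Lm) + (d * ε * Ln + C0) := by
    have e1 : 0 ≤ ((d : ℝ) + c) * (i - (Lm + f)) :=
      mul_nonneg (by linarith) (by linarith)
    have e2 : 0 ≤ ((d : ℝ) + c - 1) * (LM - a) :=
      mul_nonneg (by linarith) (by linarith)
    have e3 : 0 ≤ c * (f - J) := mul_nonneg (by linarith) (by linarith)
    nlinarith
  have hfin2 : f ≤ C0 / d + Ln * ε + Ln + (-(1 : ℝ) / d) * LM + (1 + c / d) * (LM - Lm) := by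
    have e1 : C0 / d + Ln * ε + Ln + (-(1 : ℝ) / d) * LM + (1 + c / d) * (LM - Lm) =
        (d * Ln - LM + (d + c) * (LM - Lm) + (d * ε * Ln + C0)) / d := by
      field_simp
      ring
    rw [e1, le_div_iff₀ hdp]
    linarith
  have hM0 : (0 : ℝ) < (Fintype.card Ω : ℝ) := by linarith
  have hm0 : 0 < m := by linarith
  have hn0 : (0 : ℝ) < n := by linarith
  calc (F.card : ℝ) = Real.exp f := by rw [hf', Real.exp_log hFc]
    _ ≤ Real.exp (C0 / d + Ln * ε + Ln + (-(1 : ℝ) / d) * LM + (1 + c / d) * (LM - Lm)) :=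
        Real.exp_le_exp.2 hfin2
    _ = (Real.exp (C0 / d) * (n : ℝ) ^ ε) * n * (Fintype.card Ω : ℝ) ^ (-(1 : ℝ) / d) *
        ((Fintype.card Ω : ℝ) / m) ^ (1 + c / (d : ℝ)) := by
        rw [Real.exp_add, Real.exp_add, Real.exp_add, Real.exp_add, Real.rpow_def_of_pos hn0,
          hLn, Real.exp_log hn0,
          Real.rpow_def_of_pos hM0, Real.rpow_def_of_pos (div_pos hM0 hm0),
          Real.log_div hM0.ne' hm0.ne', ← hLM, ← hLm, mul_comm LM, mul_comm (LM - Lm)]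

theorem momX {d : ℕ} (hd : 1 ≤ d) {c : ℝ} (hc1 : 1 < c) (h : AllX d c d) {ε : ℝ} (hε : 0 < ε) :
    ∃ C : ℝ, 0 ≤ C ∧ MomG d (1 + c / d) (fun n => C * (n : ℝ) ^ ε) := by
  obtain ⟨C0, hC0, hL⟩ := levX hd hc1 h (half_pos hε)
  obtain ⟨C1, hC1, hLev⟩ := levels d (half_pos hε)
  have hdp : (0 : ℝ) < d := by
    have : 0 < d := by omega
    exact_mod_cast this
  obtain ⟨q, hq⟩ : ∃ q : ℝ, q = 1 + c / (d : ℝ) := ⟨_, rfl⟩
  have hq0 : 0 < q := by
    have : (0 : ℝ) < c / (d : ℝ) := div_pos (by linarith) hdp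
    linarith
  rw [← hq] at hL ⊢
  refine ⟨C0 * C1 * 2 ^ q, by positivity, ?_⟩
  intro n Ω _ _ A D hfam F
  have hn : 1 ≤ n := hfam.pos
  have hn0 : (0 : ℝ) < n := by exact_mod_cast hn
  have hM : (1 : ℝ) ≤ (Fintype.card Ω : ℝ) := by exact_mod_cast Fintype.card_pos
  have hM0 : (0 : ℝ) < (Fintype.card Ω : ℝ) := by linarith
  obtain ⟨μ, hμ⟩ : ∃ μ : Fin n × (Fin d → ℤ) → ℕ, μ = fun x => mult A D x.1 x.2 := ⟨_, rfl⟩
  obtain ⟨K, hK⟩ : ∃ K, K = Nat.log 2 (Fintype.card Ω) := ⟨_, rfl⟩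
  have hμM : ∀ x, μ x ≤ Fintype.card Ω := by
    intro x
    rw [hμ]
    exact Finset.card_le_univ _
  obtain ⟨F', hF'⟩ : ∃ F', F' = F.filter fun x => 1 ≤ μ x := ⟨_, rfl⟩
  have h1 : ∑ x ∈ F, ((mult A D x.1 x.2 : ℕ) : ℝ) ^ q = ∑ x ∈ F', ((μ x : ℕ) : ℝ) ^ q := by
    rw [hF', Finset.sum_filter]
    refine Finset.sum_congr rfl fun x _ => ?_
    split_ifs with hx
    · rw [hμ]
    · have : μ x = 0 := by omega
      have h2 : mult A D x.1 x.2 = μ x := by rw [hμ]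
      rw [h2, this, Nat.cast_zero, Real.zero_rpow hq0.ne']
  have h2 : ∀ x ∈ F', ((μ x : ℕ) : ℝ) ^ q ≤ 2 ^ q * ((2 : ℝ) ^ q) ^ (Nat.log 2 (μ x)) := by
    intro x hx
    have h3 : μ x < 2 ^ (Nat.log 2 (μ x) + 1) := Nat.lt_pow_succ_log_self (by norm_num) _
    have h4 : ((μ x : ℕ) : ℝ) ≤ 2 ^ (Nat.log 2 (μ x) + 1) := by exact_mod_cast h3.le
    calc ((μ x : ℕ) : ℝ) ^ q ≤ ((2 : ℝ) ^ (Nat.log 2 (μ x) + 1)) ^ q :=
          Real.rpow_le_rpow (by positivity) h4 hq0.le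
      _ = 2 ^ q * ((2 : ℝ) ^ q) ^ (Nat.log 2 (μ x)) := by
          rw [pow_succ, mul_comm, Real.mul_rpow (by positivity) (by positivity),
            ← Real.rpow_natCast, ← Real.rpow_natCast, ← Real.rpow_mul (by norm_num),
            ← Real.rpow_mul (by norm_num), mul_comm (Nat.log 2 (μ x) : ℝ) q]
  have h3 : ∀ x ∈ F', Nat.log 2 (μ x) ∈ Finset.range (K + 1) := by
    intro x _
    rw [Finset.mem_range, hK]
    exact Nat.lt_succ_of_le (Nat.log_mono_right (hμM x))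
  have h4 : ∀ k ∈ Finset.range (K + 1),
      ((F'.filter fun x => Nat.log 2 (μ x) = k).card : ℝ) ≤
        (C0 * (n : ℝ) ^ (ε / 2)) * n * (Fintype.card Ω : ℝ) ^ (-(1 : ℝ) / d) *
          ((Fintype.card Ω : ℝ) / 2 ^ k) ^ q := by
    intro k _
    refine hL n Ω A D hfam _ (2 ^ k) (one_le_pow₀ (by norm_num)) ?_
    intro x hx
    rw [Finset.mem_filter, hF', Finset.mem_filter] at hx
    have h5 : 2 ^ k ≤ μ x := by
      rw [← hx.2]
      exact Nat.pow_log_le_self 2 (by omega)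
    have h6 : mult A D x.1 x.2 = μ x := by rw [hμ]
    rw [h6]
    exact_mod_cast h5
  have hlev : (K : ℝ) + 1 ≤ C1 * (n : ℝ) ^ (ε / 2) := by
    rw [hK]
    refine hLev n _ hn (by exact_mod_cast hM) ?_
    have := Pool.Agent.W975.HD.all_card D hfam Finset.univ
    rwa [Finset.card_univ] at this
  rw [h1]
  calc ∑ x ∈ F', ((μ x : ℕ) : ℝ) ^ q
      ≤ ∑ x ∈ F', 2 ^ q * ((2 : ℝ) ^ q) ^ (Nat.log 2 (μ x)) := Finset.sum_le_sum h2
    _ = ∑ k ∈ Finset.range (K + 1), ∑ x ∈ F' with Nat.log 2 (μ x) = k,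
          2 ^ q * ((2 : ℝ) ^ q) ^ (Nat.log 2 (μ x)) :=
        (Finset.sum_fiberwise_of_maps_to h3 _).symm
    _ = ∑ k ∈ Finset.range (K + 1), ((F'.filter fun x => Nat.log 2 (μ x) = k).card : ℝ) *
          (2 ^ q * ((2 : ℝ) ^ q) ^ k) := by
        refine Finset.sum_congr rfl fun k _ => ?_
        rw [← nsmul_eq_mul, ← Finset.sum_const]
        refine Finset.sum_congr rfl fun x hx => ?_
        rw [(Finset.mem_filter.1 hx).2]
    _ ≤ ∑ k ∈ Finset.range (K + 1), ((C0 * (n : ℝ) ^ (ε / 2)) * n *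
          (Fintype.card Ω : ℝ) ^ (-(1 : ℝ) / d) *
          ((Fintype.card Ω : ℝ) / 2 ^ k) ^ q) * (2 ^ q * ((2 : ℝ) ^ q) ^ k) := by
        refine Finset.sum_le_sum fun k hk => ?_
        exact mul_le_mul_of_nonneg_right (h4 k hk) (by positivity)
    _ = ∑ k ∈ Finset.range (K + 1), ((C0 * (n : ℝ) ^ (ε / 2)) * n *
          (Fintype.card Ω : ℝ) ^ (-(1 : ℝ) / d) * (Fintype.card Ω : ℝ) ^ q * 2 ^ q) := by
        refine Finset.sum_congr rfl fun k _ => ?_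
        have e1 : ((Fintype.card Ω : ℝ) / 2 ^ k) ^ q * ((2 : ℝ) ^ q) ^ k =
            (Fintype.card Ω : ℝ) ^ q := by
          have e2 : ((2 : ℝ) ^ q) ^ k = ((2 : ℝ) ^ k) ^ q := by
            rw [← Real.rpow_natCast, ← Real.rpow_natCast, ← Real.rpow_mul (by norm_num),
              ← Real.rpow_mul (by norm_num), mul_comm]
          rw [e2, ← Real.mul_rpow (by positivity) (by positivity),
            div_mul_cancel₀ _ (by positivity)]
        calc ((C0 * (n : ℝ) ^ (ε / 2)) * n * (Fintype.card Ω : ℝ) ^ (-(1 : ℝ) / d) *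
              ((Fintype.card Ω : ℝ) / 2 ^ k) ^ q) * (2 ^ q * ((2 : ℝ) ^ q) ^ k)
            = (C0 * (n : ℝ) ^ (ε / 2)) * n * (Fintype.card Ω : ℝ) ^ (-(1 : ℝ) / d) * 2 ^ q *
              (((Fintype.card Ω : ℝ) / 2 ^ k) ^ q * ((2 : ℝ) ^ q) ^ k) := by ring
          _ = _ := by
            rw [e1]
            ring
    _ = ((K : ℝ) + 1) * ((C0 * (n : ℝ) ^ (ε / 2)) * n *
          (Fintype.card Ω : ℝ) ^ (-(1 : ℝ) / d) * (Fintype.card Ω : ℝ) ^ q * 2 ^ q) := by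
        rw [Finset.sum_const, Finset.card_range, nsmul_eq_mul]
        push_cast
        ring
    _ ≤ (C1 * (n : ℝ) ^ (ε / 2)) * ((C0 * (n : ℝ) ^ (ε / 2)) * n *
          (Fintype.card Ω : ℝ) ^ (-(1 : ℝ) / d) * (Fintype.card Ω : ℝ) ^ q * 2 ^ q) :=
        mul_le_mul_of_nonneg_right hlev (by positivity)
    _ = (C0 * C1 * 2 ^ q * ((n : ℝ) ^ (ε / 2) * (n : ℝ) ^ (ε / 2))) * n *
          ((Fintype.card Ω : ℝ) ^ (-(1 : ℝ) / d) * (Fintype.card Ω : ℝ) ^ q) := by ring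
    _ = (C0 * C1 * 2 ^ q * (n : ℝ) ^ ε) * n * (Fintype.card Ω : ℝ) ^ (q - 1 / (d : ℝ)) := by
        rw [← Real.rpow_add hM0, ← Real.rpow_add hn0]
        congr 2
        · congr 2
          ring
        · ring

/-- From the oracle to tubes. -/
theorem t_tubeX {d : ℕ} {c : ℝ} (hd : 1 ≤ d) (hc1 : 1 < c) (hAll : AllX d c d) {R : ℝ}
    (hR : 1 ≤ R) {ε : ℝ} (hε : 0 < ε) :
    ∃ C : ℝ, 0 ≤ C ∧ Pool.Agent.Y254.EL.LoB d R (1 + c / d) ε C := by
  have hd0 : (0 : ℝ) < d := by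
    have : (1 : ℝ) ≤ d := by exact_mod_cast hd
    linarith
  have hq1 : 1 + 1 / (d : ℝ) ≤ 1 + c / d := by
    have : 1 / (d : ℝ) ≤ c / d := div_le_div_of_nonneg_right hc1.le hd0.le
    linarith
  have hq2 : 1 < 1 + c / (d : ℝ) := by
    have : 0 < 1 / (d : ℝ) := by positivity
    linarith
  obtain ⟨C0, hC0, hM⟩ := momX hd hc1 hAll hε
  have hg : ∀ n : ℕ, 0 ≤ (fun n : ℕ => C0 * (n : ℝ) ^ ε) n := fun n => by positivity
  obtain ⟨C, hC, hA⟩ := allwG hd hq1 hg ⌈R⌉₊ (winG hd hq2 hg hM) (3 * R) (by linarith)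
  refine ⟨C * C0 * 3 ^ ε, by positivity, ?_⟩
  intro δ hδ hδ1 ι _ b P v hv hs
  obtain ⟨N, hN⟩ : ∃ N : ℕ, N = ⌈2 / δ⌉₊ := ⟨_, rfl⟩
  have hN1 : 2 / δ ≤ N := by rw [hN]; exact Nat.le_ceil _
  have hN2 : (N : ℝ) < 2 / δ + 1 := by rw [hN]; exact Nat.ceil_lt_add_one (by positivity)
  have hN3 : (N : ℝ) ≤ 3 / δ := by
    have h1 : 1 ≤ 1 / δ := by rw [le_div_iff₀ hδ]; linarith
    have h2 : 3 / δ = 2 / δ + 1 / δ := by ring
    linarith
  have hNp : (0 : ℝ) < N := lt_of_lt_of_le (by positivity) hN1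
  have hN0 : 1 ≤ N := by exact_mod_cast hNp
  have hr0 : 0 ≤ R * δ := by positivity
  have hNr : (N : ℝ) * (R * δ) ≤ 3 * R := by
    calc (N : ℝ) * (R * δ) ≤ 3 / δ * (R * δ) := mul_le_mul_of_nonneg_right hN3 hr0
      _ = 3 * R := by field_simp
  have hvk : ∀ i k, |v i k| ≤ 1 := by
    intro i k
    have := (norm_le_pi_norm (v i) k).trans (hv i)
    rwa [Real.norm_eq_abs] at this
  have hinj : ∀ i j, (∀ k, ⌊(N : ℝ) * ((v i k + 1) / 2)⌋ = ⌊(N : ℝ) * ((v j k + 1) / 2)⌋) →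
      i = j := by
    intro i j hij
    by_contra hne
    have h1 := hs i j hne
    obtain ⟨k, hk⟩ := Pool.Agent.Y254.EL.exists_coord (w := v i - v j) (lt_of_lt_of_le hδ h1)
    refine Pool.Agent.W605.HM.floor_ne ?_ (hij k)
    have h2 : (N : ℝ) * ((v i k + 1) / 2) - N * ((v j k + 1) / 2) = N / 2 * (v i - v j) k := by
      rw [Pi.sub_apply]
      ring
    rw [h2, abs_mul, hk, abs_of_pos (by positivity : (0 : ℝ) < N / 2)]
    calc (1 : ℝ) = 2 / δ / 2 * δ := by field_simp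
      _ ≤ N / 2 * ‖v i - v j‖ :=
        mul_le_mul (div_le_div_of_nonneg_right hN1 (by norm_num)) h1 hδ.le (by positivity)
  have h1 := hA N ι P v b (R * δ) hN0 hr0 hNr hvk hinj
  refine (lintegral_mono fun x => ?_).trans (h1.trans ?_)
  · refine ENNReal.rpow_le_rpow ?_ (by linarith)
    unfold Pool.Agent.Y254.mult
    refine Finset.sum_le_sum fun i _ => ?_
    by_cases hx : x ∈ Pool.Agent.Y254.EL.tb R (R * δ) (b i) (P i) (v i)
    · have h2 : |x.1 - b i| ≤ (⌈R⌉₊ : ℝ) ∧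
          ∀ k, |x.2 k - (P i k + x.1 * v i k)| ≤ R * δ := by
        refine ⟨hx.1.trans (Nat.le_ceil R), fun k => ?_⟩
        have h3 := (norm_le_pi_norm _ k).trans hx.2
        simp only [Pi.sub_apply, Pi.smul_apply, smul_eq_mul, Real.norm_eq_abs] at h3
        have h4 : x.2 k - (P i k + x.1 * v i k) = x.2 k - P i k - x.1 * v i k := by ring
        rw [h4]
        exact h3
      rw [Set.indicator_of_mem hx, if_pos h2]
      exact le_rfl
    · rw [Set.indicator_of_notMem hx]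
      exact zero_le
  · apply ENNReal.ofReal_le_ofReal
    have h3 : (N : ℝ) ^ (-(d : ℝ)) ≤ δ ^ d := by
      have h4 : (δ⁻¹ : ℝ) ≤ N := by
        refine le_trans ?_ hN1
        rw [inv_eq_one_div]
        exact div_le_div_of_nonneg_right (by norm_num) hδ.le
      calc (N : ℝ) ^ (-(d : ℝ)) ≤ (δ⁻¹) ^ (-(d : ℝ)) :=
            Real.rpow_le_rpow_of_nonpos (by positivity) h4 (by linarith)
        _ = δ ^ (d : ℝ) := by
            rw [Real.inv_rpow hδ.le, Real.rpow_neg hδ.le, inv_inv]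
        _ = δ ^ d := Real.rpow_natCast _ _
    have h5 : (N : ℝ) ^ ε ≤ 3 ^ ε * δ ^ (-ε) := by
      calc (N : ℝ) ^ ε ≤ (3 / δ) ^ ε := Real.rpow_le_rpow hNp.le hN3 hε.le
        _ = 3 ^ ε * δ ^ (-ε) := by
            rw [Real.div_rpow (by norm_num) hδ.le, Real.rpow_neg hδ.le, div_eq_mul_inv]
    have h6 : 0 ≤ (Fintype.card ι : ℝ) ^ (1 + c / (d : ℝ) - 1 / (d : ℝ)) :=
      Real.rpow_nonneg (Nat.cast_nonneg _) _
    calc C * (C0 * (N : ℝ) ^ ε) * (N : ℝ) ^ (-(d : ℝ)) *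
          (Fintype.card ι : ℝ) ^ (1 + c / (d : ℝ) - 1 / (d : ℝ))
        ≤ C * (C0 * (3 ^ ε * δ ^ (-ε))) * δ ^ d *
          (Fintype.card ι : ℝ) ^ (1 + c / (d : ℝ) - 1 / (d : ℝ)) := by
          gcongr
      _ = _ := by ring

end Pool.Agent.Zk22
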